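import Pool.Agent.Lib.MP_7b7e48_nt.PL.Defs
import Pool.Agent.Lib.MP_7b7e48_nt.PQ.B2m
import Pool.Agent.Lib.MP_7b7e48_nt.PQ.B5m

/-!
# B5l: mean square over products of two rough numbers, products at most `N`

PROOF. Adapt `PQ/B5m.lean`; simpler. Put `F x = ∑_Y c χ * χ x`. For `n, n' ∈ RS N z A (2A)` the product `r = n n'` satisfies `r ≤ (2A)² ≤ N`, it is coprime to `N` (so `r < N`, as `2 ≤ N`)
and `z`-rough, so it has at most `J` prime factors with multiplicity (`z^Ω < r`...) and at most `2^J` divisors, so at most `2^J` pairs `(n,n')`; `1/(n n') ≤ 1/A²`. Different `r` are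
different unit classes mod `N`. So the left side is `≤ (1/A²) 2^J ∑_{x unit} ‖F x‖² = (2^J φ(N)/A²) ∑_Y ‖c χ‖²` (`B2m_norm`).
-/

set_option autoImplicit false

open Finset
open Pool.Agent.Lib.GT (Rough pr V)
open Pool.Agent.Lib.MP_45349e_nt.LS (lam)
open Pool.Agent.Lib.RG (RC LV rr SS PB sig)

namespace Pool.Agent.Lib.PL

open Pool.Agent.Lib.PQ

/-- a rough number below `z ^ (J + 1)` has at most `2 ^ J` divisors -/
private theorem B5l_div {z J r : ℕ} (hz : 2 ≤ z) (hr : 0 < r) (hro : Rough z r)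
    (hrB : r < z ^ (J + 1)) : r.divisors.card ≤ 2 ^ J := by
  rw [Nat.card_divisors hr.ne']
  have h1 : z ^ (∑ p ∈ r.primeFactors, r.factorization p) ≤ r := by
    conv_rhs => rw [← Nat.prod_factorization_pow_eq_self hr.ne']
    rw [← Finset.prod_pow_eq_pow_sum, Finsupp.prod, Nat.support_factorization]
    refine Finset.prod_le_prod' fun p hp => ?_
    exact Nat.pow_le_pow_left
      (hro p (Nat.prime_of_mem_primeFactors hp) (Nat.dvd_of_mem_primeFactors hp)).le _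
  have h2 : ∑ p ∈ r.primeFactors, r.factorization p ≤ J := by
    by_contra hc
    have h3 : z ^ (J + 1) ≤ z ^ (∑ p ∈ r.primeFactors, r.factorization p) :=
      Nat.pow_le_pow_right (by omega) (by omega)
    omega
  calc ∏ p ∈ r.primeFactors, (r.factorization p + 1)
      ≤ ∏ p ∈ r.primeFactors, 2 ^ (r.factorization p) :=
        Finset.prod_le_prod' fun p _ => Nat.succ_le_of_lt (Nat.lt_two_pow_self)
    _ = 2 ^ (∑ p ∈ r.primeFactors, r.factorization p) := Finset.prod_pow_eq_pow_sum _ _ _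
    _ ≤ 2 ^ J := Nat.pow_le_pow_right (by norm_num) h2

theorem B5l (N : ℕ) [NeZero N] (z A J : ℕ) (hN : 2 ≤ N) (hz : 2 ≤ z) (hA : 1 ≤ A) (hAN : (2 * A) ^ 2 ≤ N)
    (hJ : (2 * A) ^ 2 < z ^ (J + 1)) (Y : Finset (DirichletCharacter ℂ N)) (c : DirichletCharacter ℂ N → ℂ) :
    ∑ n ∈ RS N z A (2 * A), ∑ n' ∈ RS N z A (2 * A), 1 / ((n : ℝ) * n') *
      ‖∑ χ ∈ Y, c χ * (χ (n : ZMod N) * χ (n' : ZMod N))‖ ^ 2 ≤
      2 ^ J * (N.totient / (A : ℝ) ^ 2) * ∑ χ ∈ Y, ‖c χ‖ ^ 2 := by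
  classical
  have _ := hN
  set F : ZMod N → ℂ := fun x => ∑ χ ∈ Y, c χ * χ x with hF
  have hA0 : (0 : ℝ) < A := by exact_mod_cast hA
  set S := RS N z A (2 * A) with hS
  have hSmem : ∀ n ∈ S, A < n ∧ n ≤ 2 * A ∧ Rough z n := by
    intro n hn
    rw [hS, RS, mem_filter, mem_Ioc] at hn
    exact ⟨hn.1.1, hn.1.2, hn.2.1⟩
  set g : ℕ → ℝ := fun r => ‖F (r : ZMod N)‖ ^ 2 with hg
  have hg0 : ∀ r, 0 ≤ g r := fun r => by rw [hg]; positivity
  have e1 : ∑ n ∈ S, ∑ n' ∈ S, 1 / ((n : ℝ) * n') *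
      ‖∑ χ ∈ Y, c χ * (χ (n : ZMod N) * χ (n' : ZMod N))‖ ^ 2 ≤
      1 / (A : ℝ) ^ 2 * ∑ y ∈ S ×ˢ S, g (y.1 * y.2) := by
    rw [mul_sum, sum_product]
    refine sum_le_sum fun n hn => sum_le_sum fun n' hn' => ?_
    have h1 : ‖∑ χ ∈ Y, c χ * (χ (n : ZMod N) * χ (n' : ZMod N))‖ ^ 2 = g (n * n') := by
      rw [hg, hF]
      simp only [Nat.cast_mul, map_mul]
    rw [h1]
    refine mul_le_mul_of_nonneg_right ?_ (hg0 _)
    have h2 : (A : ℝ) ≤ n := by exact_mod_cast (hSmem n hn).1.le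
    have h3 : (A : ℝ) ≤ n' := by exact_mod_cast (hSmem n' hn').1.le
    refine one_div_le_one_div_of_le (by positivity) ?_
    rw [sq]
    exact mul_le_mul h2 h3 hA0.le (hA0.le.trans h2)
  refine e1.trans ?_
  set T : Finset ℕ := (Finset.Ioc (A ^ 2) ((2 * A) ^ 2)).filter (fun r => Rough z r) with hT
  have hmaps : ∀ y ∈ S ×ˢ S, y.1 * y.2 ∈ T := by
    intro y hy
    obtain ⟨h1, h2⟩ := mem_product.1 hy
    obtain ⟨a1, b1, c1⟩ := hSmem _ h1
    obtain ⟨a2, b2, c2⟩ := hSmem _ h2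
    rw [hT, mem_filter, mem_Ioc]
    refine ⟨⟨?_, ?_⟩, ?_⟩
    · rw [sq]
      exact Nat.mul_lt_mul'' a1 a2
    · rw [sq]
      exact Nat.mul_le_mul b1 b2
    · intro p hp hpd
      rcases (hp.dvd_mul).1 hpd with h | h
      · exact c1 p hp h
      · exact c2 p hp h
  rw [← sum_fiberwise_of_maps_to hmaps]
  have e2 : ∀ r ∈ T, ∑ y ∈ S ×ˢ S with y.1 * y.2 = r, g (y.1 * y.2) ≤ 2 ^ J * g r := by
    intro r hr
    rw [hT, mem_filter, mem_Ioc] at hr
    have hr0 : 0 < r := by omega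
    have h1 : ∑ y ∈ S ×ˢ S with y.1 * y.2 = r, g (y.1 * y.2) =
        (((S ×ˢ S).filter fun y => y.1 * y.2 = r).card : ℝ) * g r := by
      rw [← nsmul_eq_mul, ← sum_const]
      refine sum_congr rfl fun y hy => ?_
      rw [(mem_filter.1 hy).2]
    rw [h1]
    refine mul_le_mul_of_nonneg_right ?_ (hg0 r)
    have h2 : ((S ×ˢ S).filter fun y => y.1 * y.2 = r).card ≤ r.divisors.card := by
      refine card_le_card_of_injOn (fun y => y.1) ?_ ?_
      · intro y hy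
        have h3 := (mem_filter.1 (mem_coe.1 hy)).2
        exact mem_coe.2 (Nat.mem_divisors.2 ⟨⟨y.2, h3.symm⟩, hr0.ne'⟩)
      · intro y hy y' hy' hyy
        have h3 := (mem_filter.1 (mem_coe.1 hy)).2
        have h4 := (mem_filter.1 (mem_coe.1 hy')).2
        have hyy' : y.1 = y'.1 := hyy
        have h5 : 0 < y.1 := Nat.pos_of_ne_zero fun h0 => by
          rw [h0, zero_mul] at h3
          omega
        have h6 : y.1 * y.2 = y.1 * y'.2 := by rw [h3, hyy', h4]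
        exact Prod.ext hyy' (Nat.eq_of_mul_eq_mul_left h5 h6)
    have h3 := h2.trans (B5l_div hz hr0 hr.2 (lt_of_le_of_lt hr.1.2 hJ))
    exact_mod_cast h3
  have hinj : Set.InjOn (fun r : ℕ => (r : ZMod N)) (T : Set ℕ) := by
    intro r hr r' hr' hrr
    have hr1 := (mem_filter.1 (mem_coe.1 hr)).1
    have hr2 := (mem_filter.1 (mem_coe.1 hr')).1
    rw [mem_Ioc] at hr1 hr2
    have h1 : r ≡ r' [MOD N] := (ZMod.natCast_eq_natCast_iff r r' N).1 hrr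
    have h3 : 0 < A ^ 2 := by positivity
    refine Nat.ModEq.eq_of_abs_lt h1 ?_
    rw [abs_lt]
    constructor <;> omega
  have e3 : ∑ r ∈ T, g r ≤ ∑ x : ZMod N, ‖F x‖ ^ 2 := by
    have h1 : ∑ r ∈ T, g r = ∑ x ∈ T.image (fun r : ℕ => (r : ZMod N)), ‖F x‖ ^ 2 := by
      rw [sum_image hinj]
    rw [h1]
    exact sum_le_sum_of_subset_of_nonneg (subset_univ _) fun x _ _ => by positivity
  have e7 : ∑ x : ZMod N, ‖F x‖ ^ 2 = ∑ x : (ZMod N)ˣ, ‖F (x : ZMod N)‖ ^ 2 := by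
    have h1 : ∑ x ∈ Finset.image (fun u : (ZMod N)ˣ => (u : ZMod N)) Finset.univ, ‖F x‖ ^ 2 =
        ∑ x : ZMod N, ‖F x‖ ^ 2 := by
      refine sum_subset (subset_univ _) fun x _ hx => ?_
      have h2 : ¬ IsUnit x := by
        rintro ⟨u, rfl⟩
        exact hx (mem_image.2 ⟨u, mem_univ u, rfl⟩)
      have h3 : F x = 0 := by
        rw [hF]
        refine sum_eq_zero fun χ _ => ?_
        rw [χ.map_nonunit h2, mul_zero]
      rw [h3, norm_zero]
      norm_num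
    rw [← h1, sum_image]
    intro u _ v _ huv
    exact Units.ext huv
  have e8 : ∑ x : (ZMod N)ˣ, ‖F (x : ZMod N)‖ ^ 2 = N.totient * ∑ χ ∈ Y, ‖c χ‖ ^ 2 := by
    rw [hF, B2m_norm N Y c]
  calc 1 / (A : ℝ) ^ 2 * ∑ r ∈ T, ∑ y ∈ S ×ˢ S with y.1 * y.2 = r, g (y.1 * y.2)
      ≤ 1 / (A : ℝ) ^ 2 * ∑ r ∈ T, 2 ^ J * g r := by
        refine mul_le_mul_of_nonneg_left ?_ (by positivity)
        exact sum_le_sum e2
    _ = 1 / (A : ℝ) ^ 2 * (2 ^ J * ∑ r ∈ T, g r) := by rw [← mul_sum]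
    _ ≤ 1 / (A : ℝ) ^ 2 * (2 ^ J * (N.totient * ∑ χ ∈ Y, ‖c χ‖ ^ 2)) := by
        refine mul_le_mul_of_nonneg_left ?_ (by positivity)
        refine mul_le_mul_of_nonneg_left ?_ (by positivity)
        rw [← e8, ← e7]
        exact e3
    _ = 2 ^ J * (N.totient / (A : ℝ) ^ 2) * ∑ χ ∈ Y, ‖c χ‖ ^ 2 := by ring

end Pool.Agent.Lib.PL
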