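import Pool.Agent.Lib.MP_7b7e48_nt.PL.Defs

/-!
# N1: elementary facts on the sizes

PROOF. `sz_A0`: `pw N (1/2) = ⌊√N⌋`, so `A0l ≥ √N/2 - 2 ≥ √N/3`, `2 A0l ≤ √N`, `5 A0l² ≥ 5 (√N/2 - 2)² ≥ N` for large `N`.
`sz_om`: `z = pw N c ≥ N^c/2`; all prime factors of `n` are `≥ z`, so `z^Ω(n) ≤ n ≤ N`, `Ω(n) log z ≤ log N`, and `log z ≥ c log N - log 2 ≥
c log N (1 - small)`, so `Ω(n) ≤ (1/c)(1 + small) < ⌈1/c⌉ + 2`; an integer `< ⌈1/c⌉ + 2` is `≤ Jc c`. (choose the smallness so that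
`(1/c)(1+small) < 1/c + 1`.) `n = 1` is trivial.
`sz_pl`: `log N → ∞`, floors. `sz_log`: powers of `log N` against powers of `N`.
-/

set_option autoImplicit false

open Finset
open Pool.Agent.Lib.GT (Rough pr V)
open Pool.Agent.Lib.MP_45349e_nt.LS (lam)
open Pool.Agent.Lib.RG (RC LV rr SS PB sig)

namespace Pool.Agent.Lib.PL

open Pool.Agent.Lib.PQ

theorem sz_A0 : ∃ N0 : ℕ, ∀ N : ℕ, N0 ≤ N → 1 ≤ A0l N ∧ (2 * A0l N) ^ 2 ≤ N ∧ N ≤ 5 * A0l N ^ 2 ∧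
    (N : ℝ) ^ (1 / 2 : ℝ) / 3 ≤ A0l N := by
  refine ⟨400, fun N hN => ?_⟩
  have hN0 : (0 : ℝ) ≤ N := Nat.cast_nonneg N
  have hs : (N : ℝ) ^ (1 / 2 : ℝ) = Real.sqrt N := (Real.sqrt_eq_rpow _).symm
  have hss : Real.sqrt N * Real.sqrt N = N := Real.mul_self_sqrt hN0
  have hs20 : (20 : ℝ) ≤ Real.sqrt N := by
    apply Real.le_sqrt_of_sq_le
    have : (400 : ℝ) ≤ N := by exact_mod_cast hN
    linarith
  set s : ℝ := Real.sqrt N with hsdef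
  obtain ⟨P, hP⟩ : ∃ P : ℕ, P = pw N (1 / 2) := ⟨_, rfl⟩
  have hPdef : P = ⌊s⌋₊ := by
    rw [hP]
    unfold pw
    rw [hs]
  have h1 : (P : ℝ) ≤ s := by
    rw [hPdef]
    exact Nat.floor_le (by linarith)
  have h2 : s < P + 1 := by
    rw [hPdef]
    exact Nat.lt_floor_add_one s
  obtain ⟨A, hA⟩ : ∃ A : ℕ, A = A0l N := ⟨_, rfl⟩
  have hAP : A = P / 2 := by
    rw [hA, hP]
    rfl
  rw [← hA, hs]
  have h3 : 2 * A ≤ P := by omega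
  have h4 : P ≤ 2 * A + 1 := by omega
  have h3' : 2 * (A : ℝ) ≤ P := by exact_mod_cast h3
  have h4' : (P : ℝ) ≤ 2 * A + 1 := by exact_mod_cast h4
  have h5 : s / 2 - 1 ≤ A := by linarith
  have h6 : (9 : ℝ) ≤ A := by linarith
  have h7 : (0 : ℝ) ≤ A := by linarith
  refine ⟨?_, ?_, ?_, ?_⟩
  · have h8 : (1 : ℝ) ≤ A := by linarith
    exact_mod_cast h8
  · have h8 : (2 * (A : ℝ)) ^ 2 ≤ N := by
      rw [← hss]
      nlinarith
    exact_mod_cast h8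
  · have h8 : (N : ℝ) ≤ 5 * (A : ℝ) ^ 2 := by
      rw [← hss]
      nlinarith
    exact_mod_cast h8
  · linarith

private theorem N1_om (c : ℝ) (hc : 0 < c) (N : ℕ) (hN : 2 ≤ N) (n : ℕ) (hn1 : 1 ≤ n) (hn : n ≤ N)
    (hr : Rough (pw N c) n) : ArithmeticFunction.cardFactors n ≤ Jc c := by
  have h1 : (pw N c + 1) ^ n.primeFactorsList.length ≤ n.primeFactorsList.prod := by
    apply List.pow_card_le_prod
    intro p hp
    exact hr p (Nat.prime_of_mem_primeFactorsList hp) (Nat.dvd_of_mem_primeFactorsList hp)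
  rw [Nat.prod_primeFactorsList (by omega)] at h1
  have h2 : ArithmeticFunction.cardFactors n = n.primeFactorsList.length := rfl
  obtain ⟨w, hw⟩ : ∃ w : ℕ, w = n.primeFactorsList.length := ⟨_, rfl⟩
  rw [h2, ← hw]
  rw [← hw] at h1
  have hN1 : (1 : ℝ) < N := by exact_mod_cast hN
  have hN0 : (0 : ℝ) < N := by linarith
  have hL : 0 < Real.log N := Real.log_pos hN1
  have h3 : (N : ℝ) ^ c < ((pw N c + 1 : ℕ) : ℝ) := by
    push_cast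
    exact Nat.lt_floor_add_one _
  have h4 : ((N : ℝ) ^ c) ^ w ≤ N := by
    calc ((N : ℝ) ^ c) ^ w ≤ (((pw N c + 1 : ℕ) : ℝ)) ^ w :=
          pow_le_pow_left₀ (Real.rpow_nonneg hN0.le c) h3.le w
      _ ≤ n := by exact_mod_cast h1
      _ ≤ N := by exact_mod_cast hn
  rw [← Real.rpow_natCast, ← Real.rpow_mul hN0.le] at h4
  have h5 := Real.log_le_log (Real.rpow_pos_of_pos hN0 _) h4
  rw [Real.log_rpow hN0] at h5
  have h6 : c * w ≤ 1 := by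
    by_contra h
    push Not at h
    nlinarith
  have h7 : (w : ℝ) ≤ 1 / c := by
    rw [le_div_iff₀ hc]
    linarith
  have h8 : (w : ℝ) ≤ (⌈1 / c⌉₊ : ℝ) := h7.trans (Nat.le_ceil _)
  have h9 : w ≤ ⌈1 / c⌉₊ := by exact_mod_cast h8
  unfold Jc
  omega

theorem sz_om (c : ℝ) (hc : 0 < c) : ∃ N0 : ℕ, ∀ N : ℕ, N0 ≤ N → ∀ n : ℕ, 1 ≤ n → n ≤ N →
    Rough (pw N c) n → ArithmeticFunction.cardFactors n ≤ Jc c :=
  ⟨2, fun N hN n hn1 hn hr => N1_om c hc N hN n hn1 hn hr⟩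

private theorem N1_tend : Filter.Tendsto (fun N : ℕ => Real.log N) Filter.atTop Filter.atTop :=
  Real.tendsto_log_atTop.comp tendsto_natCast_atTop_atTop

private theorem N1_log (A : ℕ) (C e : ℝ) (he : 0 < e) :
    ∃ N0 : ℕ, ∀ N : ℕ, N0 ≤ N → C * Real.log N ^ A ≤ (N : ℝ) ^ e := by
  have h1 := isLittleO_log_rpow_rpow_atTop (s := e) (A : ℝ) he
  have h2 := h1.def (show (0 : ℝ) < 1 / (|C| + 1) by positivity)
  have h3 := (tendsto_natCast_atTop_atTop (R := ℝ)).eventually h2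
  obtain ⟨N0, hN0⟩ := Filter.eventually_atTop.1 h3
  refine ⟨max N0 1, fun N hN => ?_⟩
  have h4 := hN0 N ((le_max_left _ _).trans hN)
  have hN1 : 1 ≤ N := (le_max_right _ _).trans hN
  have hN1' : (1 : ℝ) ≤ N := by exact_mod_cast hN1
  have hL : 0 ≤ Real.log N := Real.log_nonneg hN1'
  rw [Real.rpow_natCast, Real.norm_eq_abs, Real.norm_eq_abs, abs_of_nonneg (pow_nonneg hL A),
    abs_of_nonneg (Real.rpow_nonneg (by linarith) e)] at h4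
  have h5 : 0 ≤ (N : ℝ) ^ e := Real.rpow_nonneg (by linarith) e
  have h6 : 0 ≤ Real.log N ^ A := pow_nonneg hL A
  have h7 : (|C| + 1) * Real.log N ^ A ≤ (N : ℝ) ^ e := by
    calc (|C| + 1) * Real.log N ^ A ≤ (|C| + 1) * (1 / (|C| + 1) * (N : ℝ) ^ e) :=
          mul_le_mul_of_nonneg_left h4 (by positivity)
      _ = (N : ℝ) ^ e := by
          have : |C| + 1 ≠ 0 := by positivity
          field_simp
  have h8 : C * Real.log N ^ A ≤ |C| * Real.log N ^ A :=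
    mul_le_mul_of_nonneg_right (le_abs_self C) h6
  linarith

theorem sz_pl (S : ℕ) (hS : 1 ≤ S) (C : ℕ) (c : ℝ) (hc : 0 < c) : ∃ N0 : ℕ, ∀ N : ℕ, N0 ≤ N →
    C ≤ pl N S ∧ (pl N S : ℝ) ≤ Real.log N ^ S ∧ Real.log N ^ S ≤ 2 * pl N S ∧ pl N S < pw N c ∧ 1 ≤ Real.log N := by
  obtain ⟨N1, hN1⟩ := N1_log S 2 c hc
  obtain ⟨N2, hN2⟩ := Filter.eventually_atTop.1 (N1_tend.eventually_ge_atTop ((C : ℝ) + 1))
  refine ⟨max N1 N2, fun N hN => ?_⟩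
  have h1 := hN1 N ((le_max_left _ _).trans hN)
  have h2 := hN2 N ((le_max_right _ _).trans hN)
  have hC : (0 : ℝ) ≤ C := Nat.cast_nonneg C
  have hL1 : 1 ≤ Real.log N := by linarith
  have h3 : Real.log N ≤ Real.log N ^ S := by
    calc Real.log N = Real.log N ^ 1 := (pow_one _).symm
      _ ≤ Real.log N ^ S := pow_le_pow_right₀ hL1 hS
  obtain ⟨x, hx⟩ : ∃ x : ℝ, x = Real.log N ^ S := ⟨_, rfl⟩
  have hpl : pl N S = ⌊x⌋₊ := by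
    rw [hx]
    rfl
  rw [← hx] at h1 h3
  have hx1 : 1 ≤ x := by linarith
  have h4 : (⌊x⌋₊ : ℝ) ≤ x := Nat.floor_le (by linarith)
  have h5 : x < (⌊x⌋₊ : ℝ) + 1 := Nat.lt_floor_add_one x
  have h6 : 1 ≤ ⌊x⌋₊ := Nat.le_floor (by simpa using hx1)
  have h6' : (1 : ℝ) ≤ (⌊x⌋₊ : ℝ) := by exact_mod_cast h6
  rw [← hx, hpl]
  refine ⟨?_, h4, by linarith, ?_, hL1⟩
  · exact Nat.le_floor (by linarith)
  · have h7 : ((⌊x⌋₊ + 1 : ℕ) : ℝ) ≤ (N : ℝ) ^ c := by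
      push_cast
      linarith
    exact Nat.lt_of_succ_le (Nat.le_floor h7)

theorem sz_log (A : ℕ) (C e : ℝ) (he : 0 < e) : ∃ N0 : ℕ, ∀ N : ℕ, N0 ≤ N → C * Real.log N ^ A ≤ (N : ℝ) ^ e :=
  N1_log A C e he

theorem sz_logpow (A : ℕ) (C : ℝ) : ∃ N0 : ℕ, ∀ N : ℕ, N0 ≤ N → C * Real.log N ^ A ≤ Real.log N ^ (A + 1) := by
  obtain ⟨N2, hN2⟩ := Filter.eventually_atTop.1 (N1_tend.eventually_ge_atTop (max C 0))
  refine ⟨N2, fun N hN => ?_⟩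
  have h2 := hN2 N hN
  have h3 : 0 ≤ Real.log N := (le_max_right _ _).trans h2
  rw [pow_succ, mul_comm]
  exact mul_le_mul_of_nonneg_left ((le_max_left _ _).trans h2) (pow_nonneg h3 A)

theorem sz_Bl (E : ℕ) : ∃ N0 : ℕ, ∀ N : ℕ, N0 ≤ N → N ≤ Bl E N ∧ (Bl E N : ℝ) ≤ N * Real.log N ^ E ∧
    (N : ℝ) * Real.log N ^ E ≤ 2 * Bl E N := by
  obtain ⟨N2, hN2⟩ := Filter.eventually_atTop.1 (N1_tend.eventually_ge_atTop (1 : ℝ))
  refine ⟨max N2 1, fun N hN => ?_⟩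
  have h2 := hN2 N ((le_max_left _ _).trans hN)
  have hN1 : 1 ≤ N := (le_max_right _ _).trans hN
  have hN1' : (1 : ℝ) ≤ N := by exact_mod_cast hN1
  have h3 : 1 ≤ Real.log N ^ E := one_le_pow₀ h2
  obtain ⟨x, hx⟩ : ∃ x : ℝ, x = (N : ℝ) * Real.log N ^ E := ⟨_, rfl⟩
  have hBl : Bl E N = ⌊x⌋₊ := by
    rw [hx]
    rfl
  have hx1 : (N : ℝ) ≤ x := by
    rw [hx]
    exact le_mul_of_one_le_right (by linarith) h3
  rw [← hx, hBl]
  have h4 : (⌊x⌋₊ : ℝ) ≤ x := Nat.floor_le (by linarith)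
  have h5 : x < (⌊x⌋₊ : ℝ) + 1 := Nat.lt_floor_add_one x
  have h6 : N ≤ ⌊x⌋₊ := Nat.le_floor hx1
  have h6' : (1 : ℝ) ≤ (⌊x⌋₊ : ℝ) := by exact_mod_cast hN1.trans h6
  exact ⟨h6, h4, by linarith⟩

end Pool.Agent.Lib.PL
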