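import Pool.Agent.Lib.MP_7b7e48_nt.LG.PC
import Pool.Agent.Lib.MP_7b7e48_nt.PL.N1
import Pool.Agent.Lib.SW.SWFinal

/-!
# B6l: the number of small primes

PROOF. Adapt `PQ/B6m.lean`. `M = pl N S`, `(log N)^S/2 ≤ M ≤ (log N)^S` (`sz_pl`), `log M ≤ S log log N`. By the prime number theorem
`SW.pnt 1` at `M` and `M/2`: `θ(M) - θ(M/2) ≥ M/3`, so at least `M/(3 log M)` primes in `(M/2, M]`. The primes `> M/2 ≥ 2` dividing `N` are at most
`log N/log 2 ≤ 2 log N`. `M/(3 log M) - 2 log N ≥ M/log N` for large `N` (`S ≥ 2`: `M ≥ (log N)²/2`, `log M ≤ (log N)/100`, so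
`M/(3 log M) ≥ 30 M/log N` and `2 log N ≤ 8 M/log N`).
-/

set_option autoImplicit false

open Finset
open Pool.Agent.Lib.GT (Rough pr V)
open Pool.Agent.Lib.MP_45349e_nt.LS (lam)
open Pool.Agent.Lib.RG (RC LV rr SS PB sig)

namespace Pool.Agent.Lib.PL

open Pool.Agent.Lib.PQ

private theorem B6l_pf (d : ℕ) (hd : d ≠ 0) : (d.primeFactors.card : ℝ) * Real.log 2 ≤
    Real.log d := by
  have h1 : 2 ^ d.primeFactors.card ≤ ∏ p ∈ d.primeFactors, p := by
    rw [← Finset.prod_const]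
    exact Finset.prod_le_prod' fun p hp => (Nat.prime_of_mem_primeFactors hp).two_le
  have h2 : 2 ^ d.primeFactors.card ≤ d :=
    h1.trans (Nat.le_of_dvd (Nat.pos_of_ne_zero hd) (Nat.prod_primeFactors_dvd d))
  have h3 : (2 : ℝ) ^ d.primeFactors.card ≤ d := by exact_mod_cast h2
  have h4 := Real.log_le_log (by positivity) h3
  rwa [Real.log_pow] at h4

private theorem B6l_asym (S : ℕ) : ∃ N0 : ℕ, ∀ N : ℕ, N0 ≤ N →
    1000 * (S * Real.log (Real.log N)) ≤ Real.log N := by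
  have h1 := Real.isLittleO_log_id_atTop.bound (show (0 : ℝ) < 1 / (1000 * (S + 1)) by positivity)
  have h2 : ∀ᶠ x : ℝ in Filter.atTop, 1000 * (S * Real.log x) ≤ x := by
    filter_upwards [h1, Filter.eventually_ge_atTop (1 : ℝ)] with x hx hx1
    rw [id, Real.norm_of_nonneg (Real.log_nonneg hx1), Real.norm_of_nonneg (by linarith)] at hx
    have h3 : (0 : ℝ) < 1000 * ((S : ℝ) + 1) := by positivity
    rw [one_div, inv_mul_eq_div, le_div_iff₀ h3] at hx
    have h4 := Real.log_nonneg hx1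
    nlinarith
  have h3 := (Real.tendsto_log_atTop.comp tendsto_natCast_atTop_atTop).eventually h2
  obtain ⟨N0, hN0⟩ := Filter.eventually_atTop.1 h3
  exact ⟨N0, hN0⟩

theorem B6l (S : ℕ) (hS : 2 ≤ S) : ∃ N0 : ℕ, ∀ N : ℕ, N0 ≤ N →
    (pl N S : ℝ) / Real.log N ≤ ((PPl S N).card : ℝ) := by
  classical
  obtain ⟨L0, hL0⟩ := MP_7b7e48_nt.LG.PCa
  obtain ⟨N1, hN1⟩ := sz_pl S (by omega) (2 * L0 + 9) 1 one_pos
  obtain ⟨N2, hN2⟩ := B6l_asym S
  refine ⟨max (max N1 N2) 1, fun N hN => ?_⟩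
  obtain ⟨hM9, hMx, hMx', -, g3⟩ := hN1 N (((le_max_left _ _).trans (le_max_left _ _)).trans hN)
  have g2 := hN2 N (((le_max_right _ _).trans (le_max_left _ _)).trans hN)
  have hN1' : 1 ≤ N := (le_max_right _ _).trans hN
  obtain ⟨M, hM⟩ : ∃ M : ℕ, M = pl N S := ⟨_, rfl⟩
  rw [← hM] at hM9 hMx hMx' ⊢
  have hL : L0 ≤ M / 2 := by omega
  have hL2 : 4 ≤ M / 2 := by omega
  have h1 := (hL0 (M / 2) hL).1
  have hsub : MP_7b7e48_nt.LG.Bl (M / 2) ⊆ PPl S N ∪ N.primeFactors := by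
    intro p hp
    unfold MP_7b7e48_nt.LG.Bl at hp
    rw [Finset.mem_filter, Finset.mem_Ioc] at hp
    rw [Finset.mem_union]
    by_cases hd : p ∣ N
    · exact Or.inr (Nat.mem_primeFactors.2 ⟨hp.2, hd, by omega⟩)
    · left
      unfold PPl
      rw [Finset.mem_filter, Finset.mem_Ioc, ← hM]
      exact ⟨⟨hp.1.1, by omega⟩, hp.2, hd⟩
  have h2 : ((MP_7b7e48_nt.LG.Bl (M / 2)).card : ℝ) ≤ (PPl S N).card + N.primeFactors.card := by
    exact_mod_cast (Finset.card_le_card hsub).trans (Finset.card_union_le _ _)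
  have h3 := B6l_pf N (by omega)
  have hl2 : (1 / 2 : ℝ) ≤ Real.log 2 := by
    have := Real.log_two_gt_d9
    norm_num at this ⊢
    linarith
  have hpf : (N.primeFactors.card : ℝ) ≤ 2 * Real.log N := by
    have h4 : (N.primeFactors.card : ℝ) * (1 / 2) ≤ N.primeFactors.card * Real.log 2 :=
      mul_le_mul_of_nonneg_left hl2 (Nat.cast_nonneg _)
    linarith
  have hLr : (4 : ℝ) ≤ ((M / 2 : ℕ) : ℝ) := by exact_mod_cast hL2
  have hlL0 : 0 < Real.log ((M / 2 : ℕ) : ℝ) := Real.log_pos (by linarith)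
  have hML : ((M / 2 : ℕ) : ℝ) ≤ M := by exact_mod_cast Nat.div_le_self _ _
  have hML2 : (M : ℝ) / 4 ≤ ((M / 2 : ℕ) : ℝ) := by
    have : M ≤ 4 * (M / 2) := by omega
    have h4 : (M : ℝ) ≤ 4 * ((M / 2 : ℕ) : ℝ) := by exact_mod_cast this
    linarith
  have hlN : 0 < Real.log N := by linarith
  have hlL : 1000 * Real.log ((M / 2 : ℕ) : ℝ) ≤ Real.log N := by
    have h4 : Real.log ((M / 2 : ℕ) : ℝ) ≤ Real.log (Real.log N ^ S) :=
      Real.log_le_log (by linarith) (hML.trans hMx)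
    rw [Real.log_pow] at h4
    linarith
  have hM0 : (0 : ℝ) ≤ M := Nat.cast_nonneg M
  have h7 : 100 * (M : ℝ) / Real.log N ≤ ((MP_7b7e48_nt.LG.Bl (M / 2)).card : ℝ) := by
    refine le_trans ?_ h1
    rw [div_le_div_iff₀ hlN (by positivity)]
    calc 100 * (M : ℝ) * (2 * Real.log ((M / 2 : ℕ) : ℝ)) =
        (M : ℝ) / 4 * (800 * Real.log ((M / 2 : ℕ) : ℝ)) := by ring
      _ ≤ ((M / 2 : ℕ) : ℝ) * Real.log N :=
        mul_le_mul hML2 (by linarith) (by positivity) (by linarith)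
  have h10 : 2 * Real.log N ≤ 4 * (M : ℝ) / Real.log N := by
    rw [le_div_iff₀ hlN]
    have h11 : Real.log N ^ 2 ≤ Real.log N ^ S := pow_le_pow_right₀ g3 hS
    nlinarith
  have h13 : 100 * (M : ℝ) / Real.log N = 95 * (M / Real.log N) + (M / Real.log N) +
      4 * (M : ℝ) / Real.log N := by ring
  have h14 : 0 ≤ (M : ℝ) / Real.log N := by positivity
  rw [h13] at h7
  linarith

end Pool.Agent.Lib.PL
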