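import Pool.Agent.Lib.MP_7b7e48_nt.PL.B6l
import Pool.Agent.Lib.MP_7b7e48_nt.PQ.B4m
import Pool.Agent.Lib.MP_7b7e48_nt.PQ.B1m

/-!
# B7l: few characters have a large average over the small primes

PROOF. Adapt `PQ/B7m.lean`. `M = pl N S`. Let `u` be the largest integer with `M^u < N`; so `M^(u+1) ≥ N` and `u log M ≤ log N`. `B4m` with `Q = PPl S N`:
`#XXl * (log N)^(-2uT) ≤ φ(N) u!/#PPl^u ≤ N u^u (log N/M)^u` (`B6l`), and `N ≤ M^(u+1)`, `u ≤ log N` (`log M ≥ 1`), so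
`#XXl ≤ M (log N)^(2u + 2uT) = M exp((2T+2) u log log N)`, `u ≤ log N/log M`, and `log M ≥ S log log N - log 2`, so
`(2T+2) log log N/log M ≤ (2T+3)/S` for large `N`: `#XXl ≤ (log N)^S N^((2T+3)/S)`. As `S ≥ 10k(2T+4)`, `(2T+3)/S ≤ (2T+3)/(2T+4) * 1/(10k) < 1/(10k)`: the product
is `≤ N^(1/(10k))/100` for large `N`. The principal character is in `XXl` (average `1`, `log N ≥ 1`); `XXl` is closed under inversion (`av_inv`).
-/

set_option autoImplicit false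

open Finset
open Pool.Agent.Lib.GT (Rough pr V)
open Pool.Agent.Lib.MP_45349e_nt.LS (lam)
open Pool.Agent.Lib.RG (RC LV rr SS PB sig)

namespace Pool.Agent.Lib.PL

open Pool.Agent.Lib.PQ

private theorem B7l_ev (C : ℝ) : ∃ N0 : ℕ, ∀ N : ℕ, N0 ≤ N →
    C ≤ Real.log (Real.log N) := by
  have h := (Real.tendsto_log_atTop.comp
    (Real.tendsto_log_atTop.comp tendsto_natCast_atTop_atTop)).eventually_ge_atTop C
  obtain ⟨N0, hN0⟩ := Filter.eventually_atTop.1 h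
  exact ⟨N0, hN0⟩

/-- the counting step -/
private theorem B7l_count {L x P M N u : ℝ} {n T : ℕ} (hL : 1 ≤ L) (hM : 0 < M) (hP : M / L ≤ P)
    (hN : N ≤ M ^ (n + 1)) (hu0 : 0 ≤ u) (hu : u ≤ L ^ n)
    (h : x * ((L ^ T)⁻¹) ^ (2 * n) ≤ N * u / P ^ n) : x ≤ M * L ^ (2 * (T + 1) * n) := by
  have hL0 : 0 < L := by linarith
  have hML : 0 < M / L := by positivity
  have h1 : N * u / P ^ n ≤ M * L ^ (2 * n) := by
    calc N * u / P ^ n ≤ M ^ (n + 1) * L ^ n / (M / L) ^ n := by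
          have h2 : (M / L) ^ n ≤ P ^ n := pow_le_pow_left₀ hML.le hP n
          have h3 : N * u ≤ M ^ (n + 1) * L ^ n := mul_le_mul hN hu hu0 (by positivity)
          exact div_le_div₀ (by positivity) h3 (by positivity) h2
      _ = M * L ^ (2 * n) := by
          rw [div_pow]
          field_simp
          ring
  have h2 := h.trans h1
  have h3 : x * ((L ^ T)⁻¹) ^ (2 * n) = x / L ^ (T * (2 * n)) := by
    rw [inv_pow, ← pow_mul]
    rfl
  rw [h3, div_le_iff₀ (by positivity)] at h2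
  refine h2.trans (le_of_eq ?_)
  rw [mul_assoc, ← pow_add]
  congr 2
  ring

theorem B7l (k T S : ℕ) (hk : 1 ≤ k) (hS : 10 * k * (2 * T + 4) ≤ S) : ∃ N0 : ℕ, ∀ (N : ℕ) [NeZero N], N0 ≤ N →
    (PPl S N).Nonempty ∧ 4 * (XXl T S N).card + 4 ≤ pw N (1 / (10 * k)) ∧
      (1 : DirichletCharacter ℂ N) ∈ XXl T S N ∧ ∀ χ ∈ XXl T S N, χ⁻¹ ∈ XXl T S N := by
  have hk0 : (1 : ℝ) ≤ k := by exact_mod_cast hk
  have hT0 : (0 : ℝ) ≤ T := Nat.cast_nonneg T
  have hSr : 10 * (k : ℝ) * (2 * T + 4) ≤ S := by exact_mod_cast hS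
  have hS40 : (40 : ℝ) ≤ S := by nlinarith
  have hS2 : 2 ≤ S := by
    have : (2 : ℝ) ≤ S := by linarith
    exact_mod_cast this
  obtain ⟨K, hK⟩ : ∃ K : ℝ, K = 10 * (k : ℝ) * (2 * T + 4) := ⟨_, rfl⟩
  have hK0 : 0 < K := by
    rw [hK]
    positivity
  obtain ⟨N1, h1⟩ := sz_pl S (by omega) 3 1 one_pos
  obtain ⟨N2, h2⟩ := B6l S hS2
  obtain ⟨N3, h3⟩ := B7l_ev (2 * T + 5)
  obtain ⟨N4, h4⟩ := sz_log S 8 (1 / K) (by positivity)
  refine ⟨max (max N1 N2) (max (max N3 N4) 3), ?_⟩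
  intro N _ hN
  have g1 : N1 ≤ N := ((le_max_left _ _).trans (le_max_left _ _)).trans hN
  have g2 : N2 ≤ N := ((le_max_right _ _).trans (le_max_left _ _)).trans hN
  have g3 : N3 ≤ N := (((le_max_left _ _).trans (le_max_left _ _)).trans (le_max_right _ _)).trans hN
  have g4 : N4 ≤ N := (((le_max_right _ _).trans (le_max_left _ _)).trans (le_max_right _ _)).trans hN
  have g5 : 3 ≤ N := ((le_max_right _ _).trans (le_max_right _ _)).trans hN
  obtain ⟨hM3, hML, hLM, -, hL1⟩ := h1 N g1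
  have hP := h2 N g2
  have hℓ := h3 N g3
  have h8 := h4 N g4
  obtain ⟨M, hM⟩ : ∃ M : ℕ, M = pl N S := ⟨_, rfl⟩
  obtain ⟨L, hL⟩ : ∃ L : ℝ, L = Real.log N := ⟨_, rfl⟩
  rw [← hM] at hM3 hML hLM hP
  rw [← hL] at hML hLM hL1 hP hℓ h8
  obtain ⟨ℓ, hℓd⟩ : ∃ ℓ : ℝ, ℓ = Real.log L := ⟨_, rfl⟩
  rw [← hℓd] at hℓ
  have hNr : (3 : ℝ) ≤ N := by exact_mod_cast g5
  have hN0 : (0 : ℝ) < N := by linarith
  have hNone : (1 : ℝ) ≤ N := by linarith
  have hM3r : (3 : ℝ) ≤ M := by exact_mod_cast hM3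
  have hM0 : (0 : ℝ) < M := by linarith
  have hL0 : 0 < L := by linarith
  -- nonempty
  have hcard : (0 : ℝ) < (PPl S N).card := lt_of_lt_of_le (div_pos hM0 hL0) hP
  have hne : (PPl S N).Nonempty := by
    rw [← Finset.card_pos]
    exact_mod_cast hcard
  have hmem : ∀ l ∈ PPl S N, l.Prime ∧ l ≤ M ∧ ¬ l ∣ N := by
    intro l hl
    unfold PPl at hl
    rw [mem_filter, mem_Ioc, ← hM] at hl
    exact ⟨hl.2.1, hl.1.2, hl.2.2⟩
  have hcopr : ∀ l ∈ PPl S N, l.Coprime N := by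
    intro l hl
    obtain ⟨hp, -, hd⟩ := hmem l hl
    exact (Nat.Prime.coprime_iff_not_dvd hp).2 hd
  -- the exponent
  obtain ⟨u, hu⟩ : ∃ u : ℕ, u = Nat.log M (N - 1) := ⟨_, rfl⟩
  have hMu : M ^ u < N := by
    have h5 := Nat.pow_log_le_self M (show N - 1 ≠ 0 by omega)
    rw [← hu] at h5
    omega
  have hMu1 : N ≤ M ^ (u + 1) := by
    have h5 := Nat.lt_pow_succ_log_self (show 1 < M by omega) (N - 1)
    rw [← hu, Nat.succ_eq_add_one] at h5
    omega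
  have hmom := B4m N (PPl S N) M u hmem hne hMu
  -- logarithms
  have hlog2 : Real.log 2 ≤ 1 := by
    have := Real.log_two_lt_d9
    linarith
  have hlM : (S : ℝ) * ℓ - Real.log 2 ≤ Real.log M := by
    have h5 : Real.log (L ^ S) ≤ Real.log (2 * M) := Real.log_le_log (by positivity) hLM
    rw [Real.log_pow, Real.log_mul (by norm_num) hM0.ne', ← hℓd] at h5
    linarith
  have hulM : (u : ℝ) * Real.log M ≤ L := by
    have h5 : ((M : ℝ)) ^ u ≤ N := by exact_mod_cast hMu.le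
    have h6 := Real.log_le_log (by positivity) h5
    rw [Real.log_pow, ← hL] at h6
    exact h6
  have hℓ0 : 5 ≤ ℓ := by linarith
  have hu0 : (0 : ℝ) ≤ u := Nat.cast_nonneg u
  have hlM1 : 1 ≤ Real.log M := by nlinarith
  have huL : (u : ℝ) ≤ L := by nlinarith
  -- the number of characters
  have hcount : ((XXl T S N).card : ℝ) * ((L ^ T)⁻¹) ^ (2 * u) ≤
      N * (u.factorial : ℝ) / ((PPl S N).card : ℝ) ^ u := by
    have h6 : (N.totient : ℝ) ≤ N := by exact_mod_cast Nat.totient_le N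
    refine le_trans ?_ (hmom.trans ?_)
    · calc ((XXl T S N).card : ℝ) * ((L ^ T)⁻¹) ^ (2 * u)
          = ∑ χ ∈ XXl T S N, ((L ^ T)⁻¹) ^ (2 * u) := by rw [sum_const, nsmul_eq_mul]
        _ ≤ ∑ χ ∈ XXl T S N, ‖av (PPl S N) (fun l => l) χ‖ ^ (2 * u) := by
            refine sum_le_sum fun χ hχ => ?_
            unfold XXl at hχ
            rw [mem_filter, ← hL] at hχ
            exact pow_le_pow_left₀ (by positivity) hχ.2 _
        _ ≤ ∑ χ : DirichletCharacter ℂ N, ‖av (PPl S N) (fun l => l) χ‖ ^ (2 * u) :=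
            sum_le_sum_of_subset_of_nonneg (subset_univ _) fun χ _ _ => by positivity
    · gcongr
  have hfac : (u.factorial : ℝ) ≤ L ^ u := by
    have h5 : ((u.factorial : ℕ) : ℝ) ≤ ((u ^ u : ℕ) : ℝ) := by
      exact_mod_cast Nat.factorial_le_pow u
    rw [Nat.cast_pow] at h5
    exact h5.trans (pow_le_pow_left₀ hu0 huL u)
  have hX := B7l_count hL1 hM0 hP (by exact_mod_cast hMu1) (Nat.cast_nonneg _) hfac hcount
  -- sizes
  have hexp : 2 * ((T : ℝ) + 1) * u * ℓ ≤ (2 * T + 3) / K * L := by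
    rw [div_mul_eq_mul_div, le_div_iff₀ hK0]
    have h5 : (2 * (T : ℝ) + 3) * Real.log 2 ≤ S * ℓ := by nlinarith
    have h6 : (2 * (T : ℝ) + 2) * (S * ℓ) ≤ (2 * T + 3) * (S * ℓ - Real.log 2) := by linarith
    have h7 : (u : ℝ) * (S * ℓ - Real.log 2) ≤ L :=
      (mul_le_mul_of_nonneg_left hlM hu0).trans hulM
    have h8' : (2 * (T : ℝ) + 2) * (S * ℓ) * u ≤ (2 * T + 3) * L := by
      calc (2 * (T : ℝ) + 2) * (S * ℓ) * u ≤ (2 * T + 3) * (S * ℓ - Real.log 2) * u :=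
            mul_le_mul_of_nonneg_right h6 hu0
        _ = (2 * T + 3) * (u * (S * ℓ - Real.log 2)) := by ring
        _ ≤ (2 * T + 3) * L := mul_le_mul_of_nonneg_left h7 (by linarith)
    have h9 : 2 * ((T : ℝ) + 1) * u * ℓ * K ≤ (2 * (T : ℝ) + 2) * (S * ℓ) * u := by
      have h10 : K ≤ S := by
        rw [hK]
        exact hSr
      have h11 : 0 ≤ 2 * ((T : ℝ) + 1) * u * ℓ := by positivity
      calc 2 * ((T : ℝ) + 1) * u * ℓ * K ≤ 2 * ((T : ℝ) + 1) * u * ℓ * S :=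
            mul_le_mul_of_nonneg_left h10 h11
        _ = (2 * (T : ℝ) + 2) * (S * ℓ) * u := by ring
    linarith
  have hLexp : L ^ (2 * (T + 1) * u) ≤ (N : ℝ) ^ ((2 * (T : ℝ) + 3) / K) := by
    have h5 : L ^ (2 * (T + 1) * u) = Real.exp (2 * ((T : ℝ) + 1) * u * ℓ) := by
      rw [← Real.rpow_natCast, Real.rpow_def_of_pos hL0, ← hℓd]
      congr 1
      push_cast
      ring
    rw [h5, Real.rpow_def_of_pos hN0, ← hL]
    refine Real.exp_le_exp.2 ?_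
    linarith
  have hsum : (2 * (T : ℝ) + 3) / K + 1 / K = 1 / (10 * k) := by
    rw [hK]
    field_simp
    ring
  have hX2 : 8 * ((XXl T S N).card : ℝ) ≤ (N : ℝ) ^ ((1 : ℝ) / (10 * k)) := by
    calc 8 * ((XXl T S N).card : ℝ) ≤ 8 * (L ^ S * (N : ℝ) ^ ((2 * (T : ℝ) + 3) / K)) := by
          have h5 : (M : ℝ) * L ^ (2 * (T + 1) * u) ≤ L ^ S * (N : ℝ) ^ ((2 * (T : ℝ) + 3) / K) :=
            mul_le_mul hML hLexp (by positivity) (by positivity)
          linarith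
      _ = (N : ℝ) ^ ((2 * (T : ℝ) + 3) / K) * (8 * L ^ S) := by ring
      _ ≤ (N : ℝ) ^ ((2 * (T : ℝ) + 3) / K) * (N : ℝ) ^ (1 / K) :=
          mul_le_mul_of_nonneg_left h8 (by positivity)
      _ = (N : ℝ) ^ ((1 : ℝ) / (10 * k)) := by rw [← Real.rpow_add hN0, hsum]
  have h88 : 8 ≤ (N : ℝ) ^ ((1 : ℝ) / (10 * k)) := by
    have h5 : 1 ≤ L ^ S := one_le_pow₀ hL1
    have h6 : (N : ℝ) ^ (1 / K) ≤ (N : ℝ) ^ ((1 : ℝ) / (10 * k)) := by
      refine Real.rpow_le_rpow_of_exponent_le hNone ?_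
      rw [← hsum]
      have : 0 ≤ (2 * (T : ℝ) + 3) / K := by positivity
      linarith
    linarith
  refine ⟨hne, ?_, ?_, ?_⟩
  · unfold pw
    apply Nat.le_floor
    push_cast
    linarith
  · unfold XXl
    rw [mem_filter, ← hL]
    refine ⟨mem_univ _, ?_⟩
    rw [av_one (PPl S N) (fun l => l) hcopr hne, norm_one]
    exact inv_le_one_of_one_le₀ (one_le_pow₀ hL1)
  · intro χ hχ
    unfold XXl at hχ ⊢
    rw [mem_filter] at hχ ⊢
    refine ⟨mem_univ _, ?_⟩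
    rw [av_inv, Complex.norm_conj]
    exact hχ.2

end Pool.Agent.Lib.PL
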