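import Pool.Agent.Lib.MP_7b7e48_nt.PL.N1
import Pool.Agent.Lib.MP_7b7e48_nt.PQ.C1m
import Pool.Agent.Lib.MP_7b7e48_nt.PQ.C3m
import Pool.Agent.Lib.SW.SWFinal

/-!
# C3l: lower bound for the logarithmic mass of `R0l`

PROOF. Adapt `PQ/C3m.lean`. `C1m` with `A = A0l N`, `B = 2 A0l N` (`log (B/A) = log 2`), constant `K₁`; `K = 2K₁ + 1`. `z = pw N c`, `z^(K₁ b) ≤ N^(1/(20k))`
(`c K₁ b ≤ 1/(20k)`), `A ≥ √N/3`. Remove the `n` divisible by a prime `p ∣ N`, `p > z`: at most `2/c` such primes, each contributes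
`∑_{A < n ≤ 2A, p ∣ n} 1/n ≤ 2/p ≤ 2/z`. `V z ≥ c'/log N`. With `K₁ (1/2)^b ≤ 1/8` the total is `≥ (3/4) V z log 2` for large `N`.
`D6l`: the primes of `(A, 2A]` not dividing `N` are in `R0l` (they are `> pw N c` as `c ≤ 1/4`); by the prime number theorem there are `≥ A/(2 log A)`
in `(A, 2A]`, minus `2 log N` dividing `N`; each has `1/p ≥ 1/(2A)`: `ms ≥ 1/(5 log A) ≥ 1/(4 log N)` as `log A ≤ (1/2) log N`.
(`SW.pnt 1`, see `PQ/E4p.lean`.)
-/

set_option autoImplicit false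

open Finset
open Pool.Agent.Lib.GT (Rough pr V)
open Pool.Agent.Lib.MP_45349e_nt.LS (lam)
open Pool.Agent.Lib.RG (RC LV rr SS PB sig)

namespace Pool.Agent.Lib.PL

open Pool.Agent.Lib.PQ

private theorem C3l_ev (s C δ : ℝ) (hs : 0 < s) (hδ : 0 < δ) : ∃ N0 : ℕ, ∀ N : ℕ, N0 ≤ N → C * (N : ℝ) ^ (-s) ≤ δ := by
  have h1 : Filter.Tendsto (fun N : ℕ => C * (N : ℝ) ^ (-s)) Filter.atTop (nhds (C * 0)) :=
    ((tendsto_rpow_neg_atTop hs).comp tendsto_natCast_atTop_atTop).const_mul C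
  rw [mul_zero] at h1
  obtain ⟨N0, h2⟩ := Filter.eventually_atTop.mp (h1.eventually (gt_mem_nhds hδ))
  exact ⟨N0, fun N hN => (h2 N hN).le⟩

private theorem C3l_log (T : ℝ) : ∃ N0 : ℕ, ∀ N : ℕ, N0 ≤ N → T ≤ Real.log N := by
  have h1 : Filter.Tendsto (fun N : ℕ => Real.log (N : ℝ)) Filter.atTop Filter.atTop :=
    Real.tendsto_log_atTop.comp tendsto_natCast_atTop_atTop
  obtain ⟨N0, h2⟩ := Filter.eventually_atTop.mp (h1.eventually (Filter.eventually_ge_atTop T))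
  exact ⟨N0, fun N hN => h2 N hN⟩

private theorem C3l_card {N z : ℕ} {c : ℝ} (hN : 2 ≤ N) (hzc : (N : ℝ) ^ c ≤ (z : ℝ) + 1) :
    c * ((N.primeFactors.filter (fun p => z < p)).card : ℝ) ≤ 1 := by
  set S := N.primeFactors.filter (fun p => z < p) with hS
  have hN1 : (1 : ℝ) < N := by exact_mod_cast (by omega : 1 < N)
  have h1 : ∏ p ∈ S, p ≤ N := by
    refine Nat.le_of_dvd (by omega) ?_
    refine dvd_trans ?_ (Nat.prod_primeFactors_dvd N)
    exact Finset.prod_dvd_prod_of_subset _ _ _ (Finset.filter_subset _ _)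
  have h2 : ((N : ℝ) ^ c) ^ S.card ≤ ∏ p ∈ S, (p : ℝ) := by
    rw [← Finset.prod_const]
    refine Finset.prod_le_prod (fun _ _ => by positivity) fun p hp => ?_
    rw [hS, Finset.mem_filter] at hp
    refine hzc.trans ?_
    exact_mod_cast hp.2
  have h3 : (N : ℝ) ^ (c * (S.card : ℝ)) ≤ (N : ℝ) ^ (1 : ℝ) := by
    rw [Real.rpow_mul (by linarith), Real.rpow_natCast, Real.rpow_one]
    refine h2.trans ?_
    have h4 : ((∏ p ∈ S, p : ℕ) : ℝ) ≤ N := Nat.cast_le.mpr h1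
    rw [Nat.cast_prod] at h4
    exact h4
  exact (Real.rpow_le_rpow_left_iff hN1).mp h3

private theorem C3l_bi (S : Finset ℕ) (t : ℕ → Finset ℕ) (f : ℕ → ℝ) (hf : ∀ n, 0 ≤ f n) :
    ∑ n ∈ S.biUnion t, f n ≤ ∑ p ∈ S, ∑ n ∈ t p, f n := by
  classical
  induction S using Finset.induction_on with
  | empty => simp
  | insert a S ha ih =>
    rw [Finset.biUnion_insert, Finset.sum_insert ha]
    have h1 := Finset.sum_union_inter (s₁ := t a) (s₂ := S.biUnion t) (f := f)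
    have h2 : 0 ≤ ∑ n ∈ t a ∩ S.biUnion t, f n := Finset.sum_nonneg fun n _ => hf n
    linarith

private theorem C3l_div {p A B : ℕ} (hp : 0 < p) :
    ∑ n ∈ (Finset.Ioc A B).filter (fun n => p ∣ n), 1 / (n : ℝ) ≤ 1 / (p : ℝ) * (1 + Real.log B) := by
  have h1 : ∑ n ∈ (Finset.Ioc A B).filter (fun n => p ∣ n), 1 / (n : ℝ) ≤
      ∑ m ∈ Finset.Icc 1 B, 1 / ((p * m : ℕ) : ℝ) := by
    rw [← Finset.sum_image (s := Finset.Icc 1 B) (g := fun m => p * m) (f := fun n : ℕ => 1 / (n : ℝ))]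
    · refine Finset.sum_le_sum_of_subset_of_nonneg ?_ (fun _ _ _ => by positivity)
      intro n hn
      rw [Finset.mem_filter, Finset.mem_Ioc] at hn
      obtain ⟨m, hm⟩ := hn.2
      rw [Finset.mem_image]
      refine ⟨m, ?_, hm.symm⟩
      rw [Finset.mem_Icc]
      have hm0 : 0 < m := by
        rcases Nat.eq_zero_or_pos m with h | h
        · subst h
          omega
        · exact h
      refine ⟨hm0, ?_⟩
      have : m ≤ p * m := Nat.le_mul_of_pos_left m hp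
      omega
    · intro x _ y _ hxy
      exact Nat.eq_of_mul_eq_mul_left hp hxy
  have h2 : ∑ m ∈ Finset.Icc 1 B, 1 / ((p * m : ℕ) : ℝ) = 1 / (p : ℝ) * ((harmonic B : ℚ) : ℝ) := by
    rw [harmonic_eq_sum_Icc]
    push_cast
    rw [Finset.mul_sum]
    refine Finset.sum_congr rfl fun m _ => ?_
    rw [one_div_mul_eq_div, one_div, mul_inv]
    rw [div_eq_mul_inv, mul_comm]
  rw [h2] at h1
  refine h1.trans ?_
  exact mul_le_mul_of_nonneg_left (harmonic_le_one_add_log B) (by positivity)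

private theorem C3l_bad {N z A B : ℕ} {c : ℝ} (hc : 0 < c) (hN : 2 ≤ N) (hz : 1 ≤ z) (hzc : (N : ℝ) ^ c ≤ (z : ℝ) + 1)
    (hB : B ≤ N) (hB1 : 1 ≤ B) :
    ∑ n ∈ (Finset.Ioc A B).filter (fun n => Rough z n ∧ ¬ n.Coprime N), 1 / (n : ℝ) ≤
      1 / c * (1 / (z : ℝ) * (1 + Real.log N)) := by
  set S := N.primeFactors.filter (fun p => z < p) with hS
  have hz0 : (0 : ℝ) < z := by exact_mod_cast hz
  have hsub : (Finset.Ioc A B).filter (fun n => Rough z n ∧ ¬ n.Coprime N) ⊆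
      S.biUnion fun p => (Finset.Ioc A B).filter (fun n => p ∣ n) := by
    intro n hn
    rw [Finset.mem_filter] at hn
    obtain ⟨hn1, hn2, hn3⟩ := hn
    obtain ⟨p, hp, hpn, hpN⟩ := Nat.Prime.not_coprime_iff_dvd.mp hn3
    rw [Finset.mem_biUnion]
    refine ⟨p, ?_, ?_⟩
    · rw [hS, Finset.mem_filter, Nat.mem_primeFactors]
      exact ⟨⟨hp, hpN, by omega⟩, hn2 p hp hpn⟩
    · rw [Finset.mem_filter]
      exact ⟨hn1, hpn⟩
  have hlogB : Real.log B ≤ Real.log N := Real.log_le_log (by exact_mod_cast hB1) (by exact_mod_cast hB)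
  have hlogB0 : 0 ≤ Real.log B := Real.log_natCast_nonneg B
  calc _ ≤ ∑ n ∈ S.biUnion fun p => (Finset.Ioc A B).filter (fun n => p ∣ n), 1 / (n : ℝ) :=
        Finset.sum_le_sum_of_subset_of_nonneg hsub (fun _ _ _ => by positivity)
    _ ≤ ∑ p ∈ S, ∑ n ∈ (Finset.Ioc A B).filter (fun n => p ∣ n), 1 / (n : ℝ) := by
        exact C3l_bi S _ _ (fun _ => by positivity)
    _ ≤ ∑ p ∈ S, 1 / (z : ℝ) * (1 + Real.log N) := by
        refine Finset.sum_le_sum fun p hp => ?_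
        rw [hS, Finset.mem_filter] at hp
        refine (C3l_div (by omega)).trans ?_
        have h1 : 1 / (p : ℝ) ≤ 1 / (z : ℝ) := one_div_le_one_div_of_le hz0 (by exact_mod_cast hp.2.le)
        exact mul_le_mul h1 (by linarith) (by linarith) (by positivity)
    _ = (S.card : ℝ) * (1 / (z : ℝ) * (1 + Real.log N)) := by rw [Finset.sum_const, nsmul_eq_mul]
    _ ≤ 1 / c * (1 / (z : ℝ) * (1 + Real.log N)) := by
        refine mul_le_mul_of_nonneg_right ?_ (by have := hlogB; positivity)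
        rw [le_div_iff₀ hc, mul_comm]
        exact C3l_card hN hzc

/-- the prime number theorem for `theta` -/
private theorem C3l_ptheta : ∃ X0 : ℝ, ∀ x : ℝ, X0 ≤ x → |Chebyshev.theta x - x| ≤ x / 100 := by
  obtain ⟨C, hC, h⟩ := SW.pnt 1
  have h1 : ∀ᶠ x : ℝ in Filter.atTop, 200 * C ≤ Real.log x :=
    Real.tendsto_log_atTop.eventually_ge_atTop (200 * C)
  have h2 := (isLittleO_log_rpow_atTop (show (0 : ℝ) < 1 / 2 by norm_num)).bound
    (show (0 : ℝ) < 1 / 400 by norm_num)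
  have h3 := Filter.eventually_ge_atTop (2 : ℝ)
  obtain ⟨X, hX⟩ := Filter.eventually_atTop.mp (h1.and (h2.and h3))
  refine ⟨X, fun x hx => ?_⟩
  obtain ⟨g1, g2, g3⟩ := hX x hx
  have hxpos : 0 < x := by linarith
  have hl : 0 < Real.log x := by nlinarith
  have e1 : |Chebyshev.psi x - x| ≤ C * x / (Real.log x) ^ 1 := by
    have := h x g3
    have e : Chebyshev.psi x = ∑ n ∈ Finset.Icc 1 ⌊x⌋₊, ArithmeticFunction.vonMangoldt n := by
      unfold Chebyshev.psi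
      rfl
    rw [e]
    exact this
  have e2 := Chebyshev.abs_psi_sub_theta_le_sqrt_mul_log (show (1 : ℝ) ≤ x by linarith)
  rw [Real.norm_eq_abs, Real.norm_eq_abs, abs_of_pos hl, abs_of_nonneg (by positivity),
    ← Real.sqrt_eq_rpow] at g2
  have e3 : C * x / (Real.log x) ^ 1 ≤ x / 200 := by
    rw [pow_one, div_le_div_iff₀ hl (by norm_num)]
    nlinarith
  have e4 : 2 * x.sqrt * x.log ≤ x / 200 := by
    have := Real.mul_self_sqrt hxpos.le
    have hs : 0 < x.sqrt := Real.sqrt_pos.mpr hxpos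
    nlinarith
  have e5 : Chebyshev.theta x - x =
      (Chebyshev.psi x - x) - (Chebyshev.psi x - Chebyshev.theta x) := by ring
  rw [e5]
  refine (abs_sub _ _).trans ?_
  linarith

private theorem C3l_pdiff (x y : ℝ) (hxy : x ≤ y) : Chebyshev.theta y - Chebyshev.theta x =
    ∑ p ∈ (Finset.Ioc ⌊x⌋₊ ⌊y⌋₊).filter Nat.Prime, Real.log p := by
  unfold Chebyshev.theta
  have hf : ⌊x⌋₊ ≤ ⌊y⌋₊ := Nat.floor_le_floor hxy
  have h : Finset.Ioc 0 ⌊y⌋₊ = Finset.Ioc 0 ⌊x⌋₊ ∪ Finset.Ioc ⌊x⌋₊ ⌊y⌋₊ := by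
    rw [Finset.Ioc_union_Ioc_eq_Ioc (by omega) hf]
  rw [h, Finset.filter_union, Finset.sum_union]
  · ring
  · apply Finset.disjoint_filter_filter
    rw [Finset.disjoint_left]
    intro a ha hb
    rw [Finset.mem_Ioc] at ha hb
    omega

private theorem C3l_pdiv (N : ℕ) (hN : 1 ≤ N) : ∑ p ∈ N.primeFactors, Real.log p ≤ Real.log N := by
  rw [← Real.log_prod (fun p hp => by
    have := (Nat.prime_of_mem_primeFactors hp).pos
    positivity)]
  apply Real.log_le_log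
  · apply Finset.prod_pos
    intro p hp
    have := (Nat.prime_of_mem_primeFactors hp).pos
    exact_mod_cast this
  · have h := Nat.le_of_dvd (by omega) (Nat.prod_primeFactors_dvd N)
    have h' : ((∏ p ∈ N.primeFactors, p : ℕ) : ℝ) ≤ N := by exact_mod_cast h
    rw [Nat.cast_prod] at h'
    exact h'

/-- a power of `N` against the logarithm -/
private theorem C3l_evl (s C δ : ℝ) (hs : 0 < s) (hC : 0 ≤ C) (hδ : 0 < δ) : ∃ N0 : ℕ, 3 ≤ N0 ∧ ∀ N : ℕ, N0 ≤ N →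
    C * (N : ℝ) ^ (-s) ≤ δ / Real.log N := by
  obtain ⟨n1, g1⟩ := C3l_ev (s / 2) (C * (2 / s)) δ (by positivity) hδ
  refine ⟨max n1 3, le_max_right _ _, fun N hN => ?_⟩
  have hN3 : 3 ≤ N := (le_max_right _ _).trans hN
  have e1 := g1 N ((le_max_left _ _).trans hN)
  have hNr : (3 : ℝ) ≤ N := by exact_mod_cast hN3
  have hN0 : (0 : ℝ) < N := by linarith
  have hl : 0 < Real.log N := Real.log_pos (by linarith)
  have h2 : Real.log N ≤ (N : ℝ) ^ (s / 2) / (s / 2) := Real.log_le_rpow_div hN0.le (by positivity)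
  rw [le_div_iff₀ hl]
  calc C * (N : ℝ) ^ (-s) * Real.log N ≤ C * (N : ℝ) ^ (-s) * ((N : ℝ) ^ (s / 2) / (s / 2)) :=
        mul_le_mul_of_nonneg_left h2 (by positivity)
    _ = C * (2 / s) * ((N : ℝ) ^ (-s) * (N : ℝ) ^ (s / 2)) := by field_simp
    _ = C * (2 / s) * (N : ℝ) ^ (-(s / 2)) := by
        rw [← Real.rpow_add hN0]
        congr 2
        ring
    _ ≤ δ := e1

theorem C3l : ∃ K : ℕ, 1 ≤ K ∧ ∀ k b : ℕ, 160 ≤ k → 1 ≤ b → ∀ c : ℝ, 0 < c → c * (20 * k * K * b) ≤ 1 →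
    (K : ℝ) * (1 / 2) ^ b ≤ 1 / 4 → ∃ N0 : ℕ, ∀ N : ℕ, N0 ≤ N →
    3 / 4 * (V (pw N c) * Real.log 2) ≤ ms (R0l c N) := by
  obtain ⟨K1, hK1, h1⟩ := C1m
  obtain ⟨c', hc', hV⟩ := Pool.Agent.Lib.RG.prod_lower
  refine ⟨2 * K1 + 1, by omega, ?_⟩
  intro k b hk hb c hc hck hKb
  have hk160 : (160 : ℝ) ≤ k := by exact_mod_cast hk
  have hk0 : (0 : ℝ) < k := by linarith
  have hb1 : (1 : ℝ) ≤ b := by exact_mod_cast hb
  have hK1' : (1 : ℝ) ≤ K1 := by exact_mod_cast hK1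
  have hlog2 : 0 < Real.log 2 := Real.log_pos (by norm_num)
  -- the exponents
  have hexp : c * (K1 * b) ≤ 1 / 4 := by
    have h2 : c * (20 * k * (((2 * K1 + 1 : ℕ) : ℝ)) * b) = (c * (K1 * b)) * (40 * k) + c * (20 * k * b) := by
      push_cast
      ring
    rw [h2] at hck
    have h3 : 0 ≤ c * (20 * k * b) := by positivity
    have h4 : 0 ≤ c * (K1 * b) := by positivity
    nlinarith
  have hc1 : c ≤ 1 := by
    have h2 : c * 1 ≤ c * (K1 * b) := mul_le_mul_of_nonneg_left (by nlinarith) hc.le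
    linarith
  have hK8 : (K1 : ℝ) * (1 / 2) ^ b ≤ 1 / 8 := by
    have h2 : (((2 * K1 + 1 : ℕ) : ℝ)) * (1 / 2) ^ b = 2 * (K1 * (1 / 2) ^ b) + (1 / 2) ^ b := by
      push_cast
      ring
    rw [h2] at hKb
    have h3 : (0 : ℝ) ≤ (1 / 2) ^ b := by positivity
    linarith
  set δ : ℝ := 1 / 32 * (c' * Real.log 2) with hδ
  have hδ0 : 0 < δ := by rw [hδ]; positivity
  obtain ⟨n1, -, g1⟩ := C3l_evl (1 / 4) 9 δ (by norm_num) (by norm_num) hδ0
  obtain ⟨n2, -, g2⟩ := C3l_evl (c / 2) (2 / c * (1 + 2 / c)) δ (by positivity) (by positivity) hδ0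
  obtain ⟨n3, g3⟩ := sz_A0
  obtain ⟨n4, g4⟩ := C3l_ev (c / 2) 4 1 (by positivity) one_pos
  refine ⟨max (max n1 n2) (max (max n3 n4) 16), ?_⟩
  intro N hN
  have hNn1 : n1 ≤ N := le_trans (by simp) hN
  have hNn2 : n2 ≤ N := le_trans (by simp) hN
  have hNn3 : n3 ≤ N := le_trans (by simp) hN
  have hNn4 : n4 ≤ N := le_trans (by simp) hN
  have hN16 : 16 ≤ N := le_trans (by simp) hN
  have e1 := g1 N hNn1
  have e2 := g2 N hNn2
  obtain ⟨hA1, hAN, -, hAlow⟩ := g3 N hNn3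
  have e4 := g4 N hNn4
  have hNr : (16 : ℝ) ≤ N := by exact_mod_cast hN16
  have hN0 : (0 : ℝ) < N := by linarith
  have hN1 : (1 : ℝ) ≤ N := by linarith
  have hlog0 : 0 < Real.log N := Real.log_pos (by linarith)
  -- powers
  have hNc : 4 ≤ (N : ℝ) ^ c := by
    have h2 : (N : ℝ) ^ (-(c / 2)) * (N : ℝ) ^ (c / 2) = 1 := by
      rw [← Real.rpow_add hN0]
      simp
    have h3 : 0 < (N : ℝ) ^ (c / 2) := by positivity
    have h4 : 4 ≤ (N : ℝ) ^ (c / 2) := by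
      have : 4 * ((N : ℝ) ^ (-(c / 2)) * (N : ℝ) ^ (c / 2)) ≤ 1 * (N : ℝ) ^ (c / 2) := by
        rw [← mul_assoc]
        exact mul_le_mul_of_nonneg_right e4 h3.le
      rw [h2] at this
      linarith
    refine h4.trans (Real.rpow_le_rpow_of_exponent_le hN1 (by linarith))
  set z : ℕ := pw N c with hz
  have hz_le : (z : ℝ) ≤ (N : ℝ) ^ c := Nat.floor_le (by positivity)
  have hz_lt : (N : ℝ) ^ c < (z : ℝ) + 1 := Nat.lt_floor_add_one _
  have hz2 : 2 ≤ z := by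
    have h2 : (2 : ℝ) < z := by linarith
    exact_mod_cast h2.le
  have hz_half : (N : ℝ) ^ c / 2 ≤ z := by linarith
  have hz0 : (0 : ℝ) < z := by exact_mod_cast (by omega : 0 < z)
  have hzN : (z : ℝ) ≤ N := by
    refine hz_le.trans ?_
    calc (N : ℝ) ^ c ≤ (N : ℝ) ^ (1 : ℝ) := Real.rpow_le_rpow_of_exponent_le hN1 hc1
      _ = N := Real.rpow_one _
  set A : ℕ := A0l N with hA
  have hA0 : (0 : ℝ) < A := by exact_mod_cast hA1
  have hAB : A ≤ 2 * A := by omega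
  have hB1 : 1 ≤ 2 * A := by omega
  have hBN : 2 * A ≤ N := by
    have : 2 * A ≤ (2 * A) ^ 2 := Nat.le_self_pow (by norm_num) _
    omega
  have hBA : (((2 * A : ℕ) : ℝ) / A) = 2 := by
    push_cast
    field_simp
  -- lower bound for `V`
  have hVl : c' / Real.log N ≤ V z := by
    have h2 := hV z hz2 (pr z) (fun r hr => by
      unfold Pool.Agent.Lib.GT.pr at hr
      rw [Finset.mem_filter, Finset.mem_range] at hr
      exact ⟨hr.2, by omega⟩)
    have h3 : Real.log z ≤ Real.log N := Real.log_le_log hz0 hzN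
    have h4 : 0 < Real.log z := Real.log_pos (by exact_mod_cast hz2)
    have h5 : c' / Real.log N ≤ c' / Real.log z := div_le_div_of_nonneg_left hc'.le h4 h3
    exact h5.trans h2
  have hVpos := Pool.Agent.Lib.GT.V_pos z
  have hv : δ / Real.log N * 32 ≤ V z * Real.log 2 := by
    have h2 : c' / Real.log N * Real.log 2 ≤ V z * Real.log 2 := mul_le_mul_of_nonneg_right hVl hlog2.le
    have h3 : δ / Real.log N * 32 = c' / Real.log N * Real.log 2 := by
      rw [hδ]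
      ring
    rw [h3]
    exact h2
  -- the error terms
  have herr1 : 3 * (z : ℝ) ^ (K1 * b) / A ≤ δ / Real.log N := by
    have h2 : (z : ℝ) ^ (K1 * b) ≤ (N : ℝ) ^ ((1 : ℝ) / 4) := by
      calc (z : ℝ) ^ (K1 * b) ≤ ((N : ℝ) ^ c) ^ (K1 * b) := pow_le_pow_left₀ hz0.le hz_le _
        _ = (N : ℝ) ^ (c * (K1 * b)) := by
            rw [← Real.rpow_natCast, ← Real.rpow_mul hN0.le]
            push_cast
            rfl
        _ ≤ (N : ℝ) ^ ((1 : ℝ) / 4) := Real.rpow_le_rpow_of_exponent_le hN1 hexp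
    have h3 : 3 * (z : ℝ) ^ (K1 * b) / A ≤ 3 * (N : ℝ) ^ ((1 : ℝ) / 4) / ((N : ℝ) ^ ((1 : ℝ) / 2) / 3) :=
      div_le_div₀ (by positivity) (by linarith) (by positivity) hAlow
    have h4 : 3 * (N : ℝ) ^ ((1 : ℝ) / 4) / ((N : ℝ) ^ ((1 : ℝ) / 2) / 3) = 9 * (N : ℝ) ^ (-((1 : ℝ) / 4)) := by
      have h5 : (N : ℝ) ^ (-((1 : ℝ) / 4)) = (N : ℝ) ^ ((1 : ℝ) / 4) / (N : ℝ) ^ ((1 : ℝ) / 2) := by
        rw [← Real.rpow_sub hN0]
        norm_num
      rw [h5]
      field_simp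
      norm_num
    rw [h4] at h3
    exact h3.trans e1
  have herr2 : 1 / c * (1 / (z : ℝ) * (1 + Real.log N)) ≤ δ / Real.log N := by
    have h2 : Real.log N ≤ (N : ℝ) ^ (c / 2) / (c / 2) := Real.log_le_rpow_div hN0.le (by positivity)
    have h3 : (1 : ℝ) ≤ (N : ℝ) ^ (c / 2) := Real.one_le_rpow hN1 (by positivity)
    have h4 : 1 + Real.log N ≤ (1 + 2 / c) * (N : ℝ) ^ (c / 2) := by
      have : (N : ℝ) ^ (c / 2) / (c / 2) = 2 / c * (N : ℝ) ^ (c / 2) := by field_simp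
      rw [this] at h2
      linarith
    have h5 : 1 / (z : ℝ) ≤ 2 / (N : ℝ) ^ c := by
      rw [div_le_div_iff₀ hz0 (by positivity)]
      linarith
    calc 1 / c * (1 / (z : ℝ) * (1 + Real.log N)) ≤ 1 / c * (2 / (N : ℝ) ^ c * ((1 + 2 / c) * (N : ℝ) ^ (c / 2))) := by
          refine mul_le_mul_of_nonneg_left ?_ (by positivity)
          exact mul_le_mul h5 h4 (by positivity) (by positivity)
      _ = 2 / c * (1 + 2 / c) * (N : ℝ) ^ (-(c / 2)) := by
          have h6 : (N : ℝ) ^ (-(c / 2)) = (N : ℝ) ^ (c / 2) / (N : ℝ) ^ c := by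
            rw [← Real.rpow_sub hN0]
            congr 1
            ring
          rw [h6]
          ring
      _ ≤ δ / Real.log N := e2
  have hbad := C3l_bad (A := A) hc (by omega : 2 ≤ N) (by omega : 1 ≤ z) hz_lt.le hBN hB1
  have hrough := h1 b hb z hz2 A (2 * A) hA1 hAB
  rw [hBA] at hrough
  have hsplit : ∑ n ∈ (Finset.Ioc A (2 * A)).filter (fun n => Rough z n), 1 / (n : ℝ) ≤ ms (R0l c N) +
      ∑ n ∈ (Finset.Ioc A (2 * A)).filter (fun n => Rough z n ∧ ¬ n.Coprime N), 1 / (n : ℝ) := by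
    unfold ms R0l RS
    rw [← hz, ← hA]
    rw [Finset.sum_filter, Finset.sum_filter, Finset.sum_filter, ← Finset.sum_add_distrib]
    refine Finset.sum_le_sum fun n _ => ?_
    have hn0 : (0 : ℝ) ≤ 1 / (n : ℝ) := by positivity
    by_cases q1 : Rough z n
    · by_cases q2 : n.Coprime N
      · rw [if_pos q1, if_pos ⟨q1, q2⟩, if_neg (fun h => h.2 q2), add_zero]
      · rw [if_pos q1, if_neg (fun h => q2 h.2), if_pos ⟨q1, q2⟩, zero_add]
    · rw [if_neg q1, if_neg (fun h => q1 h.1), if_neg (fun h => q1 h.1), add_zero]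
  have hVL0 : 0 ≤ V z * Real.log 2 := by positivity
  have h8 : (K1 : ℝ) * (1 / 2) ^ b * (V z * Real.log 2) ≤ 1 / 8 * (V z * Real.log 2) :=
    mul_le_mul_of_nonneg_right hK8 hVL0
  rw [abs_le] at hrough
  have h9 := hrough.1
  linarith

theorem D6l (c : ℝ) (hc : 0 < c) (hc1 : c ≤ 1 / 4) : ∃ N0 : ℕ, ∀ N : ℕ, N0 ≤ N →
    1 / (4 * Real.log N) ≤ ms (R0l c N) := by
  classical
  obtain ⟨X0, hX0⟩ := C3l_ptheta
  obtain ⟨n1, g1⟩ := sz_A0
  have h1 : ∀ᶠ x : ℝ in Filter.atTop, 3 * |X0| + 3 ≤ x ^ (1 / 2 : ℝ) :=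
    (tendsto_rpow_atTop (by norm_num)).eventually_ge_atTop _
  have h2 := (isLittleO_log_rpow_atTop (show (0 : ℝ) < 1 / 2 by norm_num)).bound
    (show (0 : ℝ) < 1 / 12 by norm_num)
  have h3 : ∀ᶠ x : ℝ in Filter.atTop, 4 ≤ x ^ (1 / 4 : ℝ) :=
    (tendsto_rpow_atTop (by norm_num)).eventually_ge_atTop _
  have h4 := Filter.eventually_ge_atTop (16 : ℝ)
  obtain ⟨X, hX⟩ := Filter.eventually_atTop.mp (h1.and (h2.and (h3.and h4)))
  refine ⟨max n1 ⌈X⌉₊, fun N hN => ?_⟩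
  have hNX : X ≤ N := (Nat.le_ceil X).trans (by exact_mod_cast (le_max_right _ _).trans hN)
  obtain ⟨hA1, hAN, -, hAlow⟩ := g1 N ((le_max_left _ _).trans hN)
  obtain ⟨q1, q2, q3, q4⟩ := hX N hNX
  have hN0 : (0 : ℝ) < N := by linarith
  have hN1 : (1 : ℝ) ≤ N := by linarith
  have hNn : 1 ≤ N := by exact_mod_cast hN1
  have hl : 0 < Real.log N := Real.log_pos (by linarith)
  rw [Real.norm_eq_abs, Real.norm_eq_abs, abs_of_pos hl, abs_of_nonneg (by positivity)] at q2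
  set A : ℕ := A0l N with hA
  have hA0 : (0 : ℝ) < A := by exact_mod_cast hA1
  have hlogA : Real.log N ≤ A / 4 := by linarith
  have hX0A : X0 ≤ A := by
    have := le_abs_self X0
    linarith
  -- logarithm of `2 A`
  have hlog2A : Real.log ((2 * A : ℕ) : ℝ) ≤ 1 / 2 * Real.log N := by
    have h5 : (((2 * A : ℕ) : ℝ)) ^ 2 ≤ N := by exact_mod_cast hAN
    have h6 := Real.log_le_log (by positivity) h5
    rw [Real.log_pow] at h6
    push_cast at h6 ⊢
    linarith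
  -- the primes
  have hth1 := hX0 A hX0A
  have hth2 := hX0 (2 * A) (by linarith)
  rw [abs_le] at hth1 hth2
  have hdiff := C3l_pdiff (A : ℝ) (2 * A) (by linarith)
  have hfl1 : ⌊(A : ℝ)⌋₊ = A := Nat.floor_natCast A
  have hfl2 : ⌊(2 * (A : ℝ))⌋₊ = 2 * A := by
    have : (2 * (A : ℝ)) = ((2 * A : ℕ) : ℝ) := by push_cast; ring
    rw [this, Nat.floor_natCast]
  rw [hfl1, hfl2] at hdiff
  set T : Finset ℕ := (Finset.Ioc A (2 * A)).filter (fun p => p.Prime ∧ ¬ p ∣ N) with hT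
  have hnn : ∀ p : ℕ, 0 ≤ Real.log (p : ℝ) := fun p => Real.log_natCast_nonneg p
  have hsub : (Finset.Ioc A (2 * A)).filter Nat.Prime ⊆ T ∪ N.primeFactors := by
    intro p hp
    rw [Finset.mem_filter] at hp
    rw [Finset.mem_union]
    by_cases hd : p ∣ N
    · right
      rw [Nat.mem_primeFactors]
      exact ⟨hp.2, hd, by omega⟩
    · left
      rw [hT, Finset.mem_filter]
      exact ⟨hp.1, hp.2, hd⟩
  have h6 : ∑ p ∈ (Finset.Ioc A (2 * A)).filter Nat.Prime, Real.log p ≤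
      ∑ p ∈ T, Real.log p + ∑ p ∈ N.primeFactors, Real.log p := by
    refine (Finset.sum_le_sum_of_subset_of_nonneg hsub (fun p _ _ => hnn p)).trans ?_
    have := Finset.sum_union_inter (s₁ := T) (s₂ := N.primeFactors) (f := fun p : ℕ => Real.log (p : ℝ))
    have h3 : 0 ≤ ∑ p ∈ T ∩ N.primeFactors, Real.log (p : ℝ) := Finset.sum_nonneg (fun p _ => hnn p)
    linarith
  have h7 := C3l_pdiv N hNn
  have h8 : ∑ p ∈ T, Real.log p ≤ T.card * (1 / 2 * Real.log N) := by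
    rw [← nsmul_eq_mul]
    apply Finset.sum_le_card_nsmul
    intro p hp
    rw [hT, Finset.mem_filter, Finset.mem_Ioc] at hp
    refine (Real.log_le_log ?_ ?_).trans hlog2A
    · exact_mod_cast hp.2.1.pos
    · exact_mod_cast hp.1.2
  have hcard : (A : ℝ) / 2 ≤ T.card * (1 / 2 * Real.log N) := by linarith
  -- the mass
  have hcA : (pw N c : ℝ) < A := by
    have h9 : (pw N c : ℝ) ≤ (N : ℝ) ^ c := Nat.floor_le (by positivity)
    have h10 : (N : ℝ) ^ c ≤ (N : ℝ) ^ (1 / 4 : ℝ) := Real.rpow_le_rpow_of_exponent_le hN1 hc1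
    have h11 : (N : ℝ) ^ (1 / 2 : ℝ) = (N : ℝ) ^ (1 / 4 : ℝ) * (N : ℝ) ^ (1 / 4 : ℝ) := by
      rw [← Real.rpow_add hN0]
      norm_num
    have h12 : 4 * (N : ℝ) ^ (1 / 4 : ℝ) ≤ (N : ℝ) ^ (1 / 4 : ℝ) * (N : ℝ) ^ (1 / 4 : ℝ) :=
      mul_le_mul_of_nonneg_right q3 (by positivity)
    have h13 : 0 < (N : ℝ) ^ (1 / 4 : ℝ) := by positivity
    linarith
  have hcA' : pw N c < A := by exact_mod_cast hcA
  have hTR : T ⊆ R0l c N := by
    intro p hp
    rw [hT, Finset.mem_filter] at hp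
    obtain ⟨hp1, hp2, hp3⟩ := hp
    unfold R0l RS
    rw [Finset.mem_filter]
    refine ⟨hp1, ?_, (Nat.Prime.coprime_iff_not_dvd hp2).2 hp3⟩
    intro r hr hrp
    have := (Nat.prime_dvd_prime_iff_eq hr hp2).1 hrp
    rw [this]
    have := (Finset.mem_Ioc.1 hp1).1
    omega
  have h9 : (T.card : ℝ) * (1 / (2 * A)) ≤ ms (R0l c N) := by
    unfold ms
    refine le_trans ?_ (Finset.sum_le_sum_of_subset_of_nonneg hTR fun _ _ _ => by positivity)
    rw [← nsmul_eq_mul]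
    refine Finset.card_nsmul_le_sum _ _ _ fun p hp => ?_
    rw [hT, Finset.mem_filter, Finset.mem_Ioc] at hp
    have hp0 : (0 : ℝ) < p := by exact_mod_cast hp.2.1.pos
    refine one_div_le_one_div_of_le hp0 ?_
    exact_mod_cast hp.1.2
  refine le_trans ?_ h9
  rw [div_le_iff₀ (by positivity)]
  have h10 : (T.card : ℝ) * (1 / (2 * A)) * (4 * Real.log N) = 4 * (T.card * (1 / 2 * Real.log N)) / A := by
    field_simp
  rw [h10, le_div_iff₀ hA0]
  linarith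

end Pool.Agent.Lib.PL
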