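import Pool.Agent.Lib.MP_7b7e48_nt.PL.C3l
import Pool.Agent.Lib.MP_7b7e48_nt.PQ.C2m

/-!
# C3v: the sieve weights for the variable `m`

PROOF. Adapt `PQ/C3w.lean`. `D` from `C2m` (constant `K₂`) with `z = pw N c`: `z^(K₂ b) ≤ N^(1/(20k))`. The terms `(WD D m - 1_rough(m))/m` are `≥ 0`, the sum
over `MMl` is at most the sum over all `m ∈ (A0l, 2 A0l]`: `≤ K₂ (1/2)^b V z (log 2 + 1) + z^(K₂ b)/A0l`, and `V z log 2 ≤ (4/3) ms R0l` (`C3l`), so it is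
`≤ 4 K₂ (1/2)^b ms + (1/2)^b ms` for large `N` (`D6l`). `ZWl_low`: `DD.upper`: `WD m ≥ 1` for rough `m` and `≥ 0` for all `m ≥ 1`; `m ∈ MMl` is rough iff
`m ∈ R0l`.
-/

set_option autoImplicit false

open Finset
open Pool.Agent.Lib.GT (Rough pr V)
open Pool.Agent.Lib.MP_45349e_nt.LS (lam)
open Pool.Agent.Lib.RG (RC LV rr SS PB sig)

namespace Pool.Agent.Lib.PL

open Pool.Agent.Lib.PQ

/-- a power of `N` against the logarithm -/
private theorem C3v_evl (s C : ℝ) (hs : 0 < s) (hC : 0 ≤ C) : ∃ N0 : ℕ, 3 ≤ N0 ∧ ∀ N : ℕ, N0 ≤ N →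
    C * (N : ℝ) ^ (-s) ≤ 1 / Real.log N := by
  have h1 : Filter.Tendsto (fun N : ℕ => (C * (2 / s)) * (N : ℝ) ^ (-(s / 2))) Filter.atTop (nhds ((C * (2 / s)) * 0)) :=
    ((tendsto_rpow_neg_atTop (by positivity : 0 < s / 2)).comp tendsto_natCast_atTop_atTop).const_mul _
  rw [mul_zero] at h1
  obtain ⟨n1, g1⟩ := Filter.eventually_atTop.mp (h1.eventually (gt_mem_nhds one_pos))
  refine ⟨max n1 3, le_max_right _ _, fun N hN => ?_⟩
  have hN3 : 3 ≤ N := (le_max_right _ _).trans hN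
  have e1 := (g1 N ((le_max_left _ _).trans hN)).le
  have hNr : (3 : ℝ) ≤ N := by exact_mod_cast hN3
  have hN0 : (0 : ℝ) < N := by linarith
  have hl : 0 < Real.log N := Real.log_pos (by linarith)
  have h2 : Real.log N ≤ (N : ℝ) ^ (s / 2) / (s / 2) := Real.log_le_rpow_div hN0.le (by positivity)
  rw [le_div_iff₀ hl]
  calc C * (N : ℝ) ^ (-s) * Real.log N ≤ C * (N : ℝ) ^ (-s) * ((N : ℝ) ^ (s / 2) / (s / 2)) :=
        mul_le_mul_of_nonneg_left h2 (by positivity)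
    _ = C * (2 / s) * ((N : ℝ) ^ (-s) * (N : ℝ) ^ (s / 2)) := by field_simp
    _ = C * (2 / s) * (N : ℝ) ^ (-(s / 2)) := by
        rw [← Real.rpow_add hN0]
        congr 2
        ring
    _ ≤ 1 := e1

theorem C3v : ∃ K : ℕ, 1 ≤ K ∧ ∀ k b : ℕ, 160 ≤ k → 1 ≤ b → ∀ c : ℝ, 0 < c → c ≤ 1 / 4 → c * (20 * k * K * b) ≤ 1 →
    (K : ℝ) * (1 / 2) ^ b ≤ 1 / 4 → ∃ N0 : ℕ, ∀ N : ℕ, N0 ≤ N → ∃ D : Finset ℕ, DD k c N D ∧
    ∑ m ∈ MMl N, (WD D m - (if Rough (pw N c) m then (1 : ℝ) else 0)) / m ≤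
      K * (1 / 2) ^ b * ms (R0l c N) := by
  obtain ⟨K₂, hK₂, h2⟩ := C2m
  obtain ⟨K₃, hK₃, h3⟩ := C3l
  refine ⟨4 * K₂ + 4 + K₃, by omega, fun k b hk hb c hc hc14 hck hKb => ?_⟩
  have hkR : (160 : ℝ) ≤ k := by exact_mod_cast hk
  have hbR : (1 : ℝ) ≤ b := by exact_mod_cast hb
  have hK₂R : (1 : ℝ) ≤ K₂ := by exact_mod_cast hK₂
  have hK₃R : (1 : ℝ) ≤ K₃ := by exact_mod_cast hK₃
  have hpb : (0 : ℝ) < (1 / 2) ^ b := by positivity
  push_cast at hck hKb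
  have hmono : ∀ K' : ℝ, K' ≤ 4 * (K₂ : ℝ) + 4 + K₃ → c * (20 * k * K' * b) ≤ 1 := by
    intro K' hK'
    refine le_trans ?_ hck
    have h1 : 20 * (k : ℝ) * K' * b ≤ 20 * k * (4 * (K₂ : ℝ) + 4 + K₃) * b := by gcongr
    exact mul_le_mul_of_nonneg_left h1 hc.le
  have hc3 : c * (20 * k * K₃ * b) ≤ 1 := hmono K₃ (by linarith)
  have hc2 : c * (20 * k * K₂ * b) ≤ 1 := hmono K₂ (by linarith)
  have hKb3 : (K₃ : ℝ) * (1 / 2) ^ b ≤ 1 / 4 :=
    (mul_le_mul_of_nonneg_right (by linarith) hpb.le).trans hKb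
  obtain ⟨N3, hN3⟩ := h3 k b hk hb c hc hc3 hKb3
  obtain ⟨N4, hN4⟩ := D6l c hc hc14
  obtain ⟨N5, hN5⟩ := sz_A0
  obtain ⟨N6, -, hN6⟩ := C3v_evl (1 / 4) (12 * 2 ^ b) (by norm_num) (by positivity)
  have hcast : Filter.Tendsto (fun N : ℕ => (N : ℝ)) Filter.atTop Filter.atTop :=
    tendsto_natCast_atTop_atTop
  have ev1 : ∀ᶠ N : ℕ in Filter.atTop, (2 : ℝ) ≤ (N : ℝ) ^ c :=
    ((tendsto_rpow_atTop hc).comp hcast).eventually_ge_atTop 2
  obtain ⟨N0, hN0⟩ := Filter.eventually_atTop.1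
    (ev1.and (Filter.eventually_ge_atTop (max (max N3 N4) (max (max N5 N6) 3))))
  refine ⟨N0, fun N hN => ?_⟩
  obtain ⟨e1, e4⟩ := hN0 N hN
  have i3 : N3 ≤ N := le_trans (by simp) e4
  have i4 : N4 ≤ N := le_trans (by simp) e4
  have i5 : N5 ≤ N := le_trans (by simp) e4
  have i6 : N6 ≤ N := le_trans (by simp) e4
  have i7 : 3 ≤ N := le_trans (by simp) e4
  have hms := hN3 N i3
  have hms2 := hN4 N i4
  obtain ⟨hA1, -, -, hAlow⟩ := hN5 N i5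
  have hlog := hN6 N i6
  have hNR : (1 : ℝ) ≤ N := by
    have : 1 ≤ N := by omega
    exact_mod_cast this
  have hN0' : (0 : ℝ) < N := by linarith
  have hl0 : 0 < Real.log N := Real.log_pos (by
    have : (3 : ℝ) ≤ N := by exact_mod_cast i7
    linarith)
  -- the sieving level
  obtain ⟨z, hzd⟩ : ∃ z, z = pw N c := ⟨_, rfl⟩
  have hz2 : 2 ≤ z := by
    rw [hzd]
    exact Nat.le_floor (by simpa using e1)
  have hzle : (z : ℝ) ≤ (N : ℝ) ^ c := by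
    rw [hzd]
    exact Nat.floor_le (by positivity)
  rw [← hzd] at hms ⊢
  obtain ⟨D, d1, d2, d3⟩ := h2 b hb z hz2
  have hk0 : (0 : ℝ) < k := by linarith
  have hexp : c * ((K₂ * b : ℕ) : ℝ) ≤ 1 / (20 * k) := by
    rw [le_div_iff₀ (by positivity)]
    push_cast
    calc c * ((K₂ : ℝ) * b) * (20 * k) = c * (20 * k * K₂ * b) := by ring
      _ ≤ 1 := hc2
  have hzpow : (z : ℝ) ^ (K₂ * b) ≤ (N : ℝ) ^ ((1 : ℝ) / (20 * k)) := by
    calc (z : ℝ) ^ (K₂ * b) ≤ ((N : ℝ) ^ c) ^ (K₂ * b) :=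
          pow_le_pow_left₀ (by positivity) hzle _
      _ = (N : ℝ) ^ (c * ((K₂ * b : ℕ) : ℝ)) := by
          rw [← Real.rpow_natCast, ← Real.rpow_mul hN0'.le]
      _ ≤ _ := Real.rpow_le_rpow_of_exponent_le hNR hexp
  refine ⟨D, ⟨fun d hd => ⟨(d1 d hd).1, (d1 d hd).2.trans hzpow⟩, fun m hm => ?_⟩, ?_⟩
  · rw [← hzd]
    exact d2 m hm
  set A : ℕ := A0l N with hA
  have hA0 : (0 : ℝ) < A := by exact_mod_cast hA1
  have hBA : (((2 * A : ℕ) : ℝ) / A) = 2 := by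
    push_cast
    field_simp
  have hV := Pool.Agent.Lib.GT.V_pos z
  have hlog2 : (0.69 : ℝ) ≤ Real.log 2 := by
    have := Real.log_two_gt_d9
    linarith
  -- the first error term
  have t1 : V z * (Real.log (((2 * A : ℕ) : ℝ) / A) + 1) ≤ 4 * ms (R0l c N) := by
    rw [hBA]
    calc V z * (Real.log 2 + 1) ≤ V z * (3 * Real.log 2) :=
          mul_le_mul_of_nonneg_left (by linarith) hV.le
      _ = 4 * (3 / 4 * (V z * Real.log 2)) := by ring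
      _ ≤ _ := mul_le_mul_of_nonneg_left hms (by norm_num)
  -- the second error term
  have t2 : (z : ℝ) ^ (K₂ * b) / A ≤ (1 / 2) ^ b * ms (R0l c N) := by
    have h10 : (z : ℝ) ^ (K₂ * b) / A ≤ 3 * (N : ℝ) ^ (-(1 / 4) : ℝ) := by
      have h11 : (N : ℝ) ^ ((1 : ℝ) / (20 * k)) ≤ (N : ℝ) ^ ((1 : ℝ) / 4) :=
        Real.rpow_le_rpow_of_exponent_le hNR
          (one_div_le_one_div_of_le (by norm_num) (by linarith))
      have h12 : (z : ℝ) ^ (K₂ * b) / A ≤ (N : ℝ) ^ ((1 : ℝ) / 4) / ((N : ℝ) ^ ((1 : ℝ) / 2) / 3) :=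
        div_le_div₀ (by positivity) (hzpow.trans h11) (by positivity) hAlow
      refine h12.trans (le_of_eq ?_)
      have h5 : (N : ℝ) ^ (-(1 / 4) : ℝ) = (N : ℝ) ^ ((1 : ℝ) / 4) / (N : ℝ) ^ ((1 : ℝ) / 2) := by
        rw [← Real.rpow_sub hN0']
        norm_num
      rw [h5]
      field_simp
    refine h10.trans ?_
    have h13 : 3 * (N : ℝ) ^ (-(1 / 4) : ℝ) ≤ (1 / 2) ^ b * (1 / (4 * Real.log N)) := by
      have h14 : (1 / 2 : ℝ) ^ b * (1 / (4 * Real.log N)) = 1 / Real.log N / (4 * 2 ^ b) := by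
        rw [one_div_pow]
        field_simp
      rw [h14, le_div_iff₀ (by positivity)]
      refine le_trans (le_of_eq ?_) hlog
      ring
    exact h13.trans (mul_le_mul_of_nonneg_left hms2 hpb.le)
  have t3 : ∑ m ∈ MMl N, (WD D m - (if Rough z m then (1 : ℝ) else 0)) / m ≤
      ∑ m ∈ Finset.Ioc A (2 * A), (WD D m - (if Rough z m then (1 : ℝ) else 0)) / m := by
    unfold MMl
    rw [← hA]
    refine Finset.sum_le_sum_of_subset_of_nonneg (Finset.filter_subset _ _) fun m hm _ => ?_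
    have hm1 : 1 ≤ m := by
      have := (Finset.mem_Ioc.1 hm).1
      omega
    exact div_nonneg (sub_nonneg.2 (d2 m hm1)) (Nat.cast_nonneg _)
  have t4 := d3 A (2 * A) hA1 (by omega)
  have hms0 : 0 ≤ ms (R0l c N) := by
    refine le_trans ?_ hms2
    positivity
  push_cast
  calc ∑ m ∈ MMl N, (WD D m - (if Rough z m then (1 : ℝ) else 0)) / m
      ≤ K₂ * (1 / 2) ^ b * (V z * (Real.log (((2 * A : ℕ) : ℝ) / A) + 1)) +
        (z : ℝ) ^ (K₂ * b) / A := t3.trans t4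
    _ ≤ K₂ * (1 / 2) ^ b * (4 * ms (R0l c N)) + (1 / 2) ^ b * ms (R0l c N) := by
        refine add_le_add (mul_le_mul_of_nonneg_left t1 (by positivity)) t2
    _ = (4 * K₂ + 1) * ((1 / 2) ^ b * ms (R0l c N)) := by ring
    _ ≤ (4 * K₂ + 4 + K₃) * ((1 / 2) ^ b * ms (R0l c N)) := by
        refine mul_le_mul_of_nonneg_right (by linarith) (by positivity)
    _ = _ := by ring

theorem ZWl_low (k : ℕ) (c : ℝ) (hc : 0 < c) (hc1 : c ≤ 1 / 4) : ∃ N0 : ℕ, ∀ N : ℕ, N0 ≤ N →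
    ∀ D : Finset ℕ, DD k c N D → 1 / (4 * Real.log N) ≤ ZWl N D ∧ ms (R0l c N) ≤ ZWl N D := by
  classical
  obtain ⟨N4, hN4⟩ := D6l c hc hc1
  refine ⟨N4, fun N hN D hD => ?_⟩
  have h1 := hN4 N hN
  have h2 : ms (R0l c N) ≤ ZWl N D := by
    have h3 : ms (R0l c N) = ∑ m ∈ MMl N, (if Rough (pw N c) m then (1 : ℝ) else 0) / m := by
      unfold ms R0l RS MMl
      rw [Finset.sum_filter, Finset.sum_filter]
      refine Finset.sum_congr rfl fun m _ => ?_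
      by_cases q1 : Rough (pw N c) m
      · by_cases q2 : m.Coprime N
        · rw [if_pos ⟨q1, q2⟩, if_pos q2, if_pos q1]
        · rw [if_neg (fun h => q2 h.2), if_neg q2]
      · rw [if_neg (fun h => q1 h.1), if_neg q1, zero_div, ite_self]
    rw [h3]
    unfold ZWl
    refine Finset.sum_le_sum fun m hm => ?_
    unfold MMl at hm
    have hm1 : 1 ≤ m := by
      have := (Finset.mem_Ioc.1 (Finset.mem_filter.1 hm).1).1
      omega
    exact div_le_div_of_nonneg_right (hD.upper m hm1) (Nat.cast_nonneg _)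
  exact ⟨h1.trans h2, h2⟩

end Pool.Agent.Lib.PL
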