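import Pool.Agent.Lib.MP_7b7e48_nt.PL.N1

/-!
# C4v: logarithmic character sums over the multiples of `d`, with the sub Polya-Vinogradov bound

PROOF. Adapt `PQ/C4p.lean`. The `n ∈ (A, 2A]` with `d ∣ n` are `n = d m`, `a = A/d < m ≤ b = 2A/d` (natural division); the sum is `ψ(d)/d * ∑_{a<m≤b} ψ(m)/m`.
`A = A0l N ≥ √N/3`, `d ≤ N^(1/(20k))`, `1/(20k) ≤ β/800`: `a ≥ √N/(3d) - 1 ≥ N^(1/2 - β)` and `a ≥ 1` for large `N`. So `F(y) = ∑_{m≤y} ψ(m)` satisfies `‖F(y)‖ ≤ y N^(-β)` for all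
`y ≥ a` (`hP.spv`, `N ≥ Q0`). Partial summation: `∑_{a<m≤b} ψ(m)/m = F(b)/(b+1) - F(a)/(a+1) + ∑_{a<m≤b} F(m)(1/m - 1/(m+1))`, norm `≤ N^(-β)(2 + ∑_{a<m≤b} 1/(m+1)) ≤
4 N^(-β)` (`b ≤ 2a + 2`, so the last sum is `≤ 2`).
-/

set_option autoImplicit false

open Finset
open Pool.Agent.Lib.GT (Rough pr V)
open Pool.Agent.Lib.MP_45349e_nt.LS (lam)
open Pool.Agent.Lib.RG (RC LV rr SS PB sig)

namespace Pool.Agent.Lib.PL

open Pool.Agent.Lib.PQ

/-- partial summation with the full partial sums -/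
private theorem C4v_abel (f : ℕ → ℂ) {a b : ℕ} (hab : a ≤ b) :
    ∑ m ∈ Finset.Ioc a b, f m / (m : ℂ) = (∑ m ∈ Finset.Icc 1 b, f m) / ((b : ℂ) + 1) -
      (∑ m ∈ Finset.Icc 1 a, f m) / ((a : ℂ) + 1) +
      ∑ y ∈ Finset.Ioc a b, (∑ m ∈ Finset.Icc 1 y, f m) * (1 / (y : ℂ) - 1 / ((y : ℂ) + 1)) := by
  induction b, hab using Nat.le_induction with
  | base => simp
  | succ b hab ih =>
    rw [Finset.sum_Ioc_succ_top hab, Finset.sum_Ioc_succ_top hab (fun y => (∑ m ∈ Finset.Icc 1 y, f m) *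
      (1 / (y : ℂ) - 1 / ((y : ℂ) + 1))), Finset.sum_Icc_succ_top (by omega) f, ih]
    have h1 : ((b : ℂ) + 1) ≠ 0 := by exact_mod_cast Nat.succ_ne_zero b
    have h2 : ((b : ℂ) + 1 + 1) ≠ 0 := by
      have : ((b + 1 + 1 : ℕ) : ℂ) ≠ 0 := by exact_mod_cast Nat.succ_ne_zero (b + 1)
      push_cast at this
      exact this
    push_cast
    field_simp
    ring

private theorem C4v_main (f : ℕ → ℂ) {a b : ℕ} (hab : a ≤ b) (hb : b ≤ 2 * a + 1) (v : ℝ) (hv : 0 ≤ v)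
    (hf : ∀ y : ℕ, a ≤ y → ‖∑ m ∈ Finset.Icc 1 y, f m‖ ≤ y * v) :
    ‖∑ m ∈ Finset.Ioc a b, f m / (m : ℂ)‖ ≤ 4 * v := by
  rw [C4v_abel f hab]
  have hn : ∀ y : ℕ, ‖((y : ℂ) + 1)‖ = (y : ℝ) + 1 := by
    intro y
    have : ((y : ℂ) + 1) = (((y : ℝ) + 1 : ℝ) : ℂ) := by push_cast; rfl
    rw [this, Complex.norm_real, Real.norm_eq_abs, abs_of_pos (by positivity)]
  have h1 : ∀ y : ℕ, a ≤ y → ‖(∑ m ∈ Finset.Icc 1 y, f m) / ((y : ℂ) + 1)‖ ≤ v := by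
    intro y hy
    rw [norm_div, hn, div_le_iff₀ (by positivity)]
    refine (hf y hy).trans ?_
    nlinarith
  have h2 : ‖∑ y ∈ Finset.Ioc a b, (∑ m ∈ Finset.Icc 1 y, f m) * (1 / (y : ℂ) - 1 / ((y : ℂ) + 1))‖ ≤ v := by
    refine (norm_sum_le _ _).trans ?_
    have h3 : ∀ y ∈ Finset.Ioc a b,
        ‖(∑ m ∈ Finset.Icc 1 y, f m) * (1 / (y : ℂ) - 1 / ((y : ℂ) + 1))‖ ≤ v / ((a : ℝ) + 1) := by
      intro y hy
      rw [Finset.mem_Ioc] at hy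
      have hy0 : (0 : ℝ) < y := by exact_mod_cast (by omega : 0 < y)
      rw [norm_mul]
      have e : ‖(1 / (y : ℂ) - 1 / ((y : ℂ) + 1))‖ = 1 / (y : ℝ) - 1 / ((y : ℝ) + 1) := by
        have : (1 / (y : ℂ) - 1 / ((y : ℂ) + 1)) = ((1 / (y : ℝ) - 1 / ((y : ℝ) + 1) : ℝ) : ℂ) := by
          push_cast; rfl
        rw [this, Complex.norm_real, Real.norm_eq_abs, abs_of_nonneg]
        have : 1 / ((y : ℝ) + 1) ≤ 1 / (y : ℝ) := one_div_le_one_div_of_le hy0 (by linarith)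
        linarith
      rw [e]
      have e2 : 1 / (y : ℝ) - 1 / ((y : ℝ) + 1) = 1 / (y * ((y : ℝ) + 1)) := by
        field_simp
        ring
      have e3 : 0 ≤ 1 / ((y : ℝ) * ((y : ℝ) + 1)) := by positivity
      rw [e2]
      calc ‖∑ m ∈ Finset.Icc 1 y, f m‖ * (1 / ((y : ℝ) * ((y : ℝ) + 1)))
          ≤ (y * v) * (1 / ((y : ℝ) * ((y : ℝ) + 1))) :=
            mul_le_mul_of_nonneg_right (hf y hy.1.le) e3
        _ = v / ((y : ℝ) + 1) := by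
            field_simp
        _ ≤ v / ((a : ℝ) + 1) := by
            have : (a : ℝ) ≤ y := by exact_mod_cast hy.1.le
            exact div_le_div_of_nonneg_left hv (by positivity) (by linarith)
    refine (Finset.sum_le_sum h3).trans ?_
    rw [Finset.sum_const, Nat.card_Ioc, nsmul_eq_mul, mul_div_assoc', div_le_iff₀ (by positivity), mul_comm]
    apply mul_le_mul_of_nonneg_left _ hv
    have : b - a ≤ a + 1 := by omega
    exact_mod_cast this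
  have h3 := h1 b hab
  have h4 := h1 a le_rfl
  refine (norm_add_le _ _).trans ?_
  have h5 := norm_sub_le ((∑ m ∈ Finset.Icc 1 b, f m) / ((b : ℂ) + 1))
    ((∑ m ∈ Finset.Icc 1 a, f m) / ((a : ℂ) + 1))
  linarith

/-- reduction to an interval -/
private theorem C4v_red (N : ℕ) [NeZero N] (ψ : DirichletCharacter ℂ N) (A B d : ℕ) (hd : 1 ≤ d) :
    ‖∑ n ∈ (Finset.Ioc A B).filter (fun n => d ∣ n), ψ (n : ZMod N) / (n : ℂ)‖ ≤
      ‖∑ m ∈ Finset.Ioc (A / d) (B / d), ψ (m : ZMod N) / (m : ℂ)‖ := by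
  have hd0 : (1 : ℝ) ≤ d := by exact_mod_cast hd
  have himg : (Finset.Ioc A B).filter (fun n => d ∣ n) =
      (Finset.Ioc (A / d) (B / d)).image (fun m => d * m) := by
    ext n
    simp only [Finset.mem_filter, Finset.mem_Ioc, Finset.mem_image]
    constructor
    · rintro ⟨⟨h1, h2⟩, m, rfl⟩
      refine ⟨m, ⟨?_, ?_⟩, rfl⟩
      · rw [Nat.div_lt_iff_lt_mul hd, mul_comm]
        exact h1
      · rw [Nat.le_div_iff_mul_le hd, mul_comm]
        exact h2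
    · rintro ⟨m, ⟨h1, h2⟩, rfl⟩
      rw [Nat.div_lt_iff_lt_mul hd, mul_comm] at h1
      rw [Nat.le_div_iff_mul_le hd, mul_comm] at h2
      exact ⟨⟨h1, h2⟩, dvd_mul_right d m⟩
  rw [himg, Finset.sum_image (fun x _ y _ h => Nat.eq_of_mul_eq_mul_left hd h)]
  have hsum : ∑ m ∈ Finset.Ioc (A / d) (B / d), ψ ((d * m : ℕ) : ZMod N) / ((d * m : ℕ) : ℂ) =
      ψ (d : ZMod N) / (d : ℂ) * ∑ m ∈ Finset.Ioc (A / d) (B / d), ψ (m : ZMod N) / (m : ℂ) := by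
    rw [Finset.mul_sum]
    refine Finset.sum_congr rfl fun m _ => ?_
    push_cast
    rw [map_mul, mul_div_mul_comm]
  rw [hsum, norm_mul, norm_div, Complex.norm_natCast]
  have h2 : ‖ψ (d : ZMod N)‖ / d ≤ 1 := by
    rw [div_le_one (by linarith)]
    exact (DirichletCharacter.norm_le_one ψ _).trans hd0
  calc ‖ψ (d : ZMod N)‖ / d * ‖∑ m ∈ Finset.Ioc (A / d) (B / d), ψ (m : ZMod N) / (m : ℂ)‖
      ≤ 1 * ‖∑ m ∈ Finset.Ioc (A / d) (B / d), ψ (m : ZMod N) / (m : ℂ)‖ :=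
        mul_le_mul_of_nonneg_right h2 (norm_nonneg _)
    _ = _ := one_mul _

theorem C4v {k : ℕ} {β : ℝ} (hP : Par k β) : ∃ N0 : ℕ, ∀ (N : ℕ) [NeZero N], N0 ≤ N →
    ∀ ψ : DirichletCharacter ℂ N, ψ ≠ 1 → ∀ d : ℕ, 1 ≤ d → (d : ℝ) ≤ (N : ℝ) ^ ((1 : ℝ) / (20 * k)) →
    ‖∑ n ∈ (Finset.Ioc (A0l N) (2 * A0l N)).filter (fun n => d ∣ n), ψ (n : ZMod N) / (n : ℂ)‖ ≤
      4 * (N : ℝ) ^ (-β) := by
  have hβ := hP.pos
  have hβ1 := hP.le
  have hbig := hP.big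
  obtain ⟨Q0, hQ2, hQ⟩ := hP.spv
  obtain ⟨N1, hN1⟩ := sz_A0
  have hlim : Filter.Tendsto (fun N : ℕ => (N : ℝ) ^ (799 * β / 800)) Filter.atTop Filter.atTop :=
    (tendsto_rpow_atTop (by positivity)).comp tendsto_natCast_atTop_atTop
  obtain ⟨N2, hN2⟩ := Filter.eventually_atTop.1 (hlim.eventually_ge_atTop (6 : ℝ))
  refine ⟨max Q0 (max N1 (max N2 1)), fun N inst hN ψ hψ d hd hdN => ?_⟩
  have hNQ : Q0 ≤ N := (le_max_left _ _).trans hN
  have hN' : max N1 (max N2 1) ≤ N := (le_max_right _ _).trans hN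
  have hNN1 : N1 ≤ N := (le_max_left _ _).trans hN'
  have hN'' : max N2 1 ≤ N := (le_max_right _ _).trans hN'
  have hNN2 : N2 ≤ N := (le_max_left _ _).trans hN''
  have hNN3 : 1 ≤ N := (le_max_right _ _).trans hN''
  obtain ⟨hA1, -, -, hA3⟩ := hN1 N hNN1
  have h6 := hN2 N hNN2
  have hN1' : (1 : ℝ) ≤ N := by exact_mod_cast hNN3
  have hN0 : (0 : ℝ) < N := by linarith
  have hk0 : (0 : ℝ) < k := by
    by_contra h
    push Not at h
    nlinarith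
  have hd0 : (0 : ℝ) < d := by exact_mod_cast hd
  -- the lower end is large
  have hexp : (1 : ℝ) / (20 * k) ≤ β / 800 := by
    rw [div_le_div_iff₀ (by positivity) (by norm_num)]
    linarith
  have hx1 : 1 ≤ (N : ℝ) ^ (1 / 2 - β) := Real.one_le_rpow hN1' (by linarith)
  have hlow : (N : ℝ) ^ (1 / 2 - β) ≤ ((A0l N / d : ℕ) : ℝ) := by
    have e1 : (A0l N : ℝ) / d < ((A0l N / d : ℕ) : ℝ) + 1 := by
      rw [div_lt_iff₀ hd0]
      have : A0l N < d * (A0l N / d + 1) := Nat.lt_mul_div_succ _ hd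
      have h : (A0l N : ℝ) < d * (((A0l N / d : ℕ) : ℝ) + 1) := by exact_mod_cast this
      linarith
    have e2 : (d : ℝ) ≤ (N : ℝ) ^ (β / 800) :=
      hdN.trans (Real.rpow_le_rpow_of_exponent_le hN1' hexp)
    have e3 : 2 * (N : ℝ) ^ (1 / 2 - β) ≤ (A0l N : ℝ) / d := by
      rw [le_div_iff₀ hd0]
      have e4 : (N : ℝ) ^ (1 / 2 - β) * (N : ℝ) ^ (799 * β / 800) * (N : ℝ) ^ (β / 800) =
          (N : ℝ) ^ (1 / 2 : ℝ) := by
        rw [← Real.rpow_add hN0, ← Real.rpow_add hN0]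
        congr 1
        ring
      have e5 : 0 < (N : ℝ) ^ (1 / 2 - β) := by linarith
      calc 2 * (N : ℝ) ^ (1 / 2 - β) * d ≤ 2 * (N : ℝ) ^ (1 / 2 - β) * (N : ℝ) ^ (β / 800) :=
            mul_le_mul_of_nonneg_left e2 (by positivity)
        _ = (N : ℝ) ^ (1 / 2 - β) * 6 * (N : ℝ) ^ (β / 800) / 3 := by ring
        _ ≤ (N : ℝ) ^ (1 / 2 - β) * (N : ℝ) ^ (799 * β / 800) * (N : ℝ) ^ (β / 800) / 3 := by
            gcongr
        _ = (N : ℝ) ^ (1 / 2 : ℝ) / 3 := by rw [e4]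
        _ ≤ A0l N := hA3
    linarith
  refine (C4v_red N ψ (A0l N) (2 * A0l N) d hd).trans ?_
  refine C4v_main (fun m => ψ (m : ZMod N)) (Nat.div_le_div_right (by omega)) ?_ _
    (Real.rpow_nonneg hN0.le _) ?_
  · have h1 : A0l N < d * (A0l N / d + 1) := Nat.lt_mul_div_succ _ hd
    rw [← Nat.lt_succ_iff, Nat.div_lt_iff_lt_mul hd]
    calc 2 * A0l N < 2 * (d * (A0l N / d + 1)) := by omega
      _ = (2 * (A0l N / d) + 1).succ * d := by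
          rw [Nat.succ_eq_add_one]
          ring
  · intro y hy
    have hy' : ((A0l N / d : ℕ) : ℝ) ≤ y := by exact_mod_cast hy
    exact hQ N hNQ inst ψ hψ y (hlow.trans hy')

end Pool.Agent.Lib.PL
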