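import Pool.Agent.Lib.MP_7b7e48_nt.PL.C3v
import Pool.Agent.Lib.MP_7b7e48_nt.PL.C4v
import Pool.Agent.Lib.MP_7b7e48_nt.PQ.C4a
import Pool.Agent.Lib.MP_7b7e48_nt.PQ.C2m

/-!
# C4l: Bessel's inequality for `R0l`

PROOF. Adapt `PQ/C4a.lean` and `PQ/C4b.lean`. `D` from `C2m` (constant `K₂`), `W n = ∑_{d ∈ D, d ∣ n} μ(d) ≥ 1_rough(n)`, `c4aExp` with `s = (A, 2A]`, `A = A0l N`, `g n = W n/n`:
`∑_{R0l} T n/n ≤ ∑_{A<n≤2A} W n T n/n ≤ (∑_{(n,N)=1} W n/n + #X P) ∑ ‖a‖²`, `P = #D * 4 N^(-β)` (`C4v` for every `d ∈ D`; `d ≤ z^(K₂ b) ≤ N^(1/(20k))`, so also `#D ≤ N^(1/(20k))`).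
`∑_{(n,N)=1} W n/n ≤ ms R0l + K₂ (1/2)^b V z (log 2 + 1) + z^(K₂ b)/A`. Divide by `ms R0l ≥ (3/4) V z log 2` (`C3l`), `≥ 1/(4 log N)` (`D6l`): the constant is
`≤ 1 + 4K₂ (1/2)^b + 4 log N (N^(1/(20k)-1/2) * 3 + N^(1/(5k) + 1/(20k) - β) * 4) ≤ 1 + K (1/2)^b` for large `N`: `1/(5k) + 1/(20k) ≤ 1/(4k) ≤ β/160`. `Wt`: `∑ 1/(n ms) = 1`.
-/

set_option autoImplicit false

open Finset
open Pool.Agent.Lib.GT (Rough pr V)
open Pool.Agent.Lib.MP_45349e_nt.LS (lam)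
open Pool.Agent.Lib.RG (RC LV rr SS PB sig)

namespace Pool.Agent.Lib.PL

open Pool.Agent.Lib.PQ

/-- a power of `N` against the logarithm -/
private theorem C4l_evl (s C : ℝ) (hs : 0 < s) (hC : 0 ≤ C) : ∃ N0 : ℕ, 3 ≤ N0 ∧ ∀ N : ℕ, N0 ≤ N →
    C * (N : ℝ) ^ (-s) ≤ 1 / Real.log N := by
  have h1 : Filter.Tendsto (fun N : ℕ => (C * (2 / s)) * (N : ℝ) ^ (-(s / 2))) Filter.atTop (nhds ((C * (2 / s)) * 0)) :=
    ((tendsto_rpow_neg_atTop (by positivity : 0 < s / 2)).comp tendsto_natCast_atTop_atTop).const_mul _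
  rw [mul_zero] at h1
  obtain ⟨n1, g1⟩ := Filter.eventually_atTop.mp (h1.eventually (gt_mem_nhds one_pos))
  refine ⟨max n1 3, le_max_right _ _, fun N hN => ?_⟩
  have hN3 : 3 ≤ N := (le_max_right _ _).trans hN
  have e1 := (g1 N ((le_max_left _ _).trans hN)).le
  have hNr : (3 : ℝ) ≤ N := by exact_mod_cast hN3
  have hN0 : (0 : ℝ) < N := by linarith
  have hl : 0 < Real.log N := Real.log_pos (by linarith)
  have h2 : Real.log N ≤ (N : ℝ) ^ (s / 2) / (s / 2) := Real.log_le_rpow_div hN0.le (by positivity)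
  rw [le_div_iff₀ hl]
  calc C * (N : ℝ) ^ (-s) * Real.log N ≤ C * (N : ℝ) ^ (-s) * ((N : ℝ) ^ (s / 2) / (s / 2)) :=
        mul_le_mul_of_nonneg_left h2 (by positivity)
    _ = C * (2 / s) * ((N : ℝ) ^ (-s) * (N : ℝ) ^ (s / 2)) := by field_simp
    _ = C * (2 / s) * (N : ℝ) ^ (-(s / 2)) := by
        rw [← Real.rpow_add hN0]
        congr 2
        ring
    _ ≤ 1 := e1

private theorem C4l_wt {N : ℕ} {c : ℝ} (h : 0 < ms (R0l c N)) : Wt N (R0l c N) (w0l c N) := by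
  refine ⟨?_, ?_, ?_⟩
  · intro n _
    unfold w0l wt
    positivity
  · unfold w0l wt
    have h1 : ∀ n ∈ R0l c N, 1 / ((n : ℝ) * ms (R0l c N)) = (1 / (n : ℝ)) * (ms (R0l c N))⁻¹ := by
      intro n _
      rw [one_div, mul_inv, one_div]
    rw [Finset.sum_congr rfl h1, ← Finset.sum_mul]
    exact mul_inv_cancel₀ h.ne'
  · intro n hn
    unfold R0l RS at hn
    rw [Finset.mem_filter] at hn
    exact hn.2.2

/-- Bessel's inequality with the sieve weights, explicit error -/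
private theorem C4l_main (N : ℕ) [NeZero N] (z A : ℕ) (hA : 1 ≤ A) (D : Finset ℕ) (Y ee qq : ℝ)
    (hD1 : ∀ d ∈ D, 1 ≤ d ∧ (d : ℝ) ≤ Y)
    (hD2 : ∀ n : ℕ, 1 ≤ n → (if Rough z n then (1 : ℝ) else 0) ≤
      ∑ d ∈ D with d ∣ n, (ArithmeticFunction.moebius d : ℝ))
    (hD3 : ∑ n ∈ Finset.Ioc A (2 * A),
      (∑ d ∈ D with d ∣ n, (ArithmeticFunction.moebius d : ℝ) - (if Rough z n then (1 : ℝ) else 0)) / n ≤ ee)
    (hY : 1 ≤ Y) (hq : 0 ≤ qq)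
    (hP : ∀ ψ : DirichletCharacter ℂ N, ψ ≠ 1 → ∀ d ∈ D,
      ‖∑ n ∈ (Finset.Ioc A (2 * A)).filter (fun n => d ∣ n), ψ (n : ZMod N) / (n : ℂ)‖ ≤ qq)
    (X : Finset (DirichletCharacter ℂ N)) (a : DirichletCharacter ℂ N → ℂ) :
    ∑ n ∈ RS N z A (2 * A), 1 / (n : ℝ) * ‖∑ χ ∈ X, a χ * χ (n : ZMod N)‖ ^ 2 ≤
      (ms (RS N z A (2 * A)) + ee + X.card * (Y * qq)) * ∑ χ ∈ X, ‖a χ‖ ^ 2 := by
  classical
  have hA0 : (0 : ℝ) < A := by exact_mod_cast hA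
  have hS : 0 ≤ ∑ χ ∈ X, ‖a χ‖ ^ 2 := sum_nonneg fun _ _ => by positivity
  set W : ℕ → ℝ := fun n => ∑ d ∈ D with d ∣ n, (ArithmeticFunction.moebius d : ℝ) with hW
  -- the number of the moduli
  have hcard : (D.card : ℝ) ≤ Y := by
    have h1 : D ⊆ Finset.Icc 1 ⌊Y⌋₊ := by
      intro d hd
      obtain ⟨h4, h5⟩ := hD1 d hd
      rw [mem_Icc]
      exact ⟨h4, Nat.le_floor h5⟩
    have h4 := card_le_card h1
    rw [Nat.card_Icc, Nat.add_sub_cancel] at h4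
    have h5 : ((⌊Y⌋₊ : ℕ) : ℝ) ≤ Y := Nat.floor_le (by linarith)
    have h6 : (D.card : ℝ) ≤ ((⌊Y⌋₊ : ℕ) : ℝ) := by exact_mod_cast h4
    linarith
  -- step 1
  have h1 : ∑ n ∈ RS N z A (2 * A), 1 / (n : ℝ) * ‖∑ χ ∈ X, a χ * χ (n : ZMod N)‖ ^ 2 ≤
      ∑ n ∈ Finset.Ioc A (2 * A), (W n / n) * ‖∑ χ ∈ X, a χ * χ (n : ZMod N)‖ ^ 2 := by
    rw [RS, sum_filter]
    refine sum_le_sum fun n hn => ?_
    have hn1 : 1 ≤ n := by have := (mem_Ioc.mp hn).1; omega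
    have h5 : (if Rough z n then (1 : ℝ) else 0) ≤ W n := hD2 n hn1
    split_ifs with h6
    · rw [if_pos h6.1] at h5
      gcongr
    · have h7 : 0 ≤ W n := by
        refine le_trans ?_ h5
        split_ifs <;> norm_num
      positivity
  -- the off diagonal terms
  have hoff : ∀ χ ∈ X, ∀ ψ ∈ X, χ ≠ ψ →
      ‖∑ n ∈ Finset.Ioc A (2 * A), ((W n / n : ℝ) : ℂ) * (χ * ψ⁻¹) (n : ZMod N)‖ ≤ Y * qq := by
    intro χ _ ψ _ hne
    have hne' : χ * ψ⁻¹ ≠ 1 := fun h => hne (mul_inv_eq_one.mp h)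
    have h4 : ∑ n ∈ Finset.Ioc A (2 * A), ((W n / n : ℝ) : ℂ) * (χ * ψ⁻¹) (n : ZMod N) =
        ∑ d ∈ D, (ArithmeticFunction.moebius d : ℂ) *
          ∑ n ∈ (Finset.Ioc A (2 * A)).filter (fun n => d ∣ n), (χ * ψ⁻¹) (n : ZMod N) / (n : ℂ) := by
      have h5 : ∀ n ∈ Finset.Ioc A (2 * A), ((W n / n : ℝ) : ℂ) * (χ * ψ⁻¹) (n : ZMod N) =
          ∑ d ∈ D, (if d ∣ n then (ArithmeticFunction.moebius d : ℂ) *
            ((χ * ψ⁻¹) (n : ZMod N) / (n : ℂ)) else 0) := by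
        intro n _
        rw [← sum_filter, ← sum_mul, hW]
        push_cast
        ring
      rw [sum_congr rfl h5, sum_comm]
      refine sum_congr rfl fun d _ => ?_
      rw [← sum_filter, mul_sum]
    rw [h4]
    refine (norm_sum_le _ _).trans ?_
    have h6 : ∀ d ∈ D, ‖(ArithmeticFunction.moebius d : ℂ) *
          ∑ n ∈ (Finset.Ioc A (2 * A)).filter (fun n => d ∣ n), (χ * ψ⁻¹) (n : ZMod N) / (n : ℂ)‖ ≤ qq := by
      intro d hd
      have h7 := hP (χ * ψ⁻¹) hne' d hd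
      rw [norm_mul]
      have h8 : ‖(ArithmeticFunction.moebius d : ℂ)‖ ≤ 1 := by
        rw [Complex.norm_intCast]
        exact_mod_cast ArithmeticFunction.abs_moebius_le_one
      calc _ ≤ 1 * qq := mul_le_mul h8 h7 (norm_nonneg _) zero_le_one
        _ = _ := one_mul _
    refine (sum_le_sum h6).trans ?_
    rw [sum_const, nsmul_eq_mul]
    gcongr
  have h4 := c4aExp N X a (Finset.Ioc A (2 * A)) (fun n => W n / n) (Y * qq) (by positivity) hoff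
  -- the diagonal
  have h5 : ∑ n ∈ Finset.Ioc A (2 * A) with Nat.Coprime n N, W n / n ≤ ms (RS N z A (2 * A)) + ee := by
    have h6 : ∑ n ∈ Finset.Ioc A (2 * A) with Nat.Coprime n N, W n / n ≤
        ms (RS N z A (2 * A)) + ∑ n ∈ Finset.Ioc A (2 * A), (W n - (if Rough z n then (1 : ℝ) else 0)) / n := by
      rw [ms, RS, sum_filter, sum_filter, ← sum_add_distrib]
      refine sum_le_sum fun n hn => ?_
      have hn1 : 1 ≤ n := by have := (mem_Ioc.mp hn).1; omega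
      have h7 : (if Rough z n then (1 : ℝ) else 0) ≤ W n := hD2 n hn1
      by_cases h8 : Rough z n
      · rw [if_pos h8] at h7 ⊢
        by_cases h9 : Nat.Coprime n N
        · rw [if_pos h9, if_pos ⟨h8, h9⟩]
          apply le_of_eq; ring
        · rw [if_neg h9, if_neg (fun h => h9 h.2)]
          have : 0 ≤ W n - 1 := by linarith
          positivity
      · rw [if_neg h8] at h7 ⊢
        rw [if_neg (fun h : Rough z n ∧ n.Coprime N => h8 h.1)]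
        by_cases h9 : Nat.Coprime n N
        · rw [if_pos h9]
          apply le_of_eq; ring
        · rw [if_neg h9]
          have : 0 ≤ W n - 0 := by linarith
          positivity
    exact h6.trans (add_le_add le_rfl hD3)
  refine h1.trans (h4.trans (mul_le_mul_of_nonneg_right ?_ hS))
  linarith [h5]

theorem C4l : ∃ K : ℕ, 1 ≤ K ∧ ∀ (k b : ℕ) (β : ℝ), Par k β → 1 ≤ b → ∀ c : ℝ, 0 < c → c ≤ 1 / 4 → c * (20 * k * K * b) ≤ 1 →
    (K : ℝ) * (1 / 2) ^ b ≤ 1 / 4 → ∃ N0 : ℕ, ∀ (N : ℕ) [NeZero N], N0 ≤ N →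
    Wt N (R0l c N) (w0l c N) ∧
      Bes N (R0l c N) (w0l c N) (K * (1 / 2) ^ b) (pw N (1 / (5 * k))) := by
  obtain ⟨K₂, hK₂, h2⟩ := C2m
  obtain ⟨K₃, hK₃, h3⟩ := C3l
  refine ⟨4 * K₂ + 4 + K₃, by omega, fun k b β hPar hb c hc hc14 hck hKb => ?_⟩
  have hβ0 := hPar.pos
  have hβ1 := hPar.le
  have hβk := hPar.big
  have hkR : (40000 : ℝ) ≤ k := by
    by_contra hcon
    have h5 : (k : ℝ) < 40000 := not_le.1 hcon
    have h6 : (0 : ℝ) ≤ k := Nat.cast_nonneg _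
    nlinarith
  have hk : 160 ≤ k := by
    have : (160 : ℝ) ≤ k := by linarith
    exact_mod_cast this
  have hk0 : (0 : ℝ) < k := by linarith
  have hbR : (1 : ℝ) ≤ b := by exact_mod_cast hb
  have hK₂R : (1 : ℝ) ≤ K₂ := by exact_mod_cast hK₂
  have hK₃R : (1 : ℝ) ≤ K₃ := by exact_mod_cast hK₃
  have hpb : (0 : ℝ) < (1 / 2) ^ b := by positivity
  have hKcast : ((4 * K₂ + 4 + K₃ : ℕ) : ℝ) = 4 * K₂ + 4 + K₃ := by push_cast; ring
  rw [hKcast] at hck hKb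
  have hmono : ∀ K' : ℝ, K' ≤ 4 * (K₂ : ℝ) + 4 + K₃ → c * (20 * k * K' * b) ≤ 1 := by
    intro K' hK'
    refine le_trans ?_ hck
    have h1 : 20 * (k : ℝ) * K' * b ≤ 20 * k * (4 * (K₂ : ℝ) + 4 + K₃) * b := by gcongr
    exact mul_le_mul_of_nonneg_left h1 hc.le
  have hc3 : c * (20 * k * K₃ * b) ≤ 1 := hmono K₃ (by linarith)
  have hc2 : c * (20 * k * K₂ * b) ≤ 1 := hmono K₂ (by linarith)
  have hKb3 : (K₃ : ℝ) * (1 / 2) ^ b ≤ 1 / 4 :=
    (mul_le_mul_of_nonneg_right (by linarith) hpb.le).trans hKb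
  obtain ⟨N3, hN3⟩ := h3 k b hk hb c hc hc3 hKb3
  obtain ⟨N4, hN4⟩ := D6l c hc hc14
  obtain ⟨N5, hN5⟩ := sz_A0
  obtain ⟨N6, -, hN6⟩ := C4l_evl (1 / 4) (12 * 2 ^ b) (by norm_num) (by positivity)
  obtain ⟨N7, -, hN7⟩ := C4l_evl (β / 2) (16 * 2 ^ b) (by positivity) (by positivity)
  obtain ⟨N8, hN8⟩ := C4v hPar
  have hcast : Filter.Tendsto (fun N : ℕ => (N : ℝ)) Filter.atTop Filter.atTop :=
    tendsto_natCast_atTop_atTop
  have ev1 : ∀ᶠ N : ℕ in Filter.atTop, (2 : ℝ) ≤ (N : ℝ) ^ c :=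
    ((tendsto_rpow_atTop hc).comp hcast).eventually_ge_atTop 2
  obtain ⟨N0, hN0⟩ := Filter.eventually_atTop.1
    (ev1.and (Filter.eventually_ge_atTop (max (max (max N3 N4) (max N7 N8)) (max (max N5 N6) 3))))
  refine ⟨N0, fun N hNe hN => ?_⟩
  obtain ⟨e1, e4⟩ := hN0 N hN
  have i3 : N3 ≤ N := le_trans (by simp) e4
  have i4 : N4 ≤ N := le_trans (by simp) e4
  have i5 : N5 ≤ N := le_trans (by simp) e4
  have i6 : N6 ≤ N := le_trans (by simp) e4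
  have i7 : N7 ≤ N := le_trans (by simp) e4
  have i8 : N8 ≤ N := le_trans (by simp) e4
  have i9 : 3 ≤ N := le_trans (by simp) e4
  have hms := hN3 N i3
  have hms2 := hN4 N i4
  obtain ⟨hA1, -, -, hAlow⟩ := hN5 N i5
  have hlog := hN6 N i6
  have hlog7 := hN7 N i7
  have hchar := hN8 N i8
  have hNR : (1 : ℝ) ≤ N := by
    have : 1 ≤ N := by omega
    exact_mod_cast this
  have hN0' : (0 : ℝ) < N := by linarith
  have hl0 : 0 < Real.log N := Real.log_pos (by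
    have : (3 : ℝ) ≤ N := by exact_mod_cast i9
    linarith)
  have hms0 : 0 < ms (R0l c N) := lt_of_lt_of_le (by positivity) hms2
  -- the sieving level
  obtain ⟨z, hzd⟩ : ∃ z, z = pw N c := ⟨_, rfl⟩
  have hz2 : 2 ≤ z := by
    rw [hzd]
    exact Nat.le_floor (by simpa using e1)
  have hzle : (z : ℝ) ≤ (N : ℝ) ^ c := by
    rw [hzd]
    exact Nat.floor_le (by positivity)
  rw [← hzd] at hms
  obtain ⟨D, d1, d2, d3⟩ := h2 b hb z hz2
  have hexp : c * ((K₂ * b : ℕ) : ℝ) ≤ 1 / (20 * k) := by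
    rw [le_div_iff₀ (by positivity)]
    push_cast
    calc c * ((K₂ : ℝ) * b) * (20 * k) = c * (20 * k * K₂ * b) := by ring
      _ ≤ 1 := hc2
  set Y : ℝ := (N : ℝ) ^ ((1 : ℝ) / (20 * k)) with hYd
  have hzpow : (z : ℝ) ^ (K₂ * b) ≤ Y := by
    calc (z : ℝ) ^ (K₂ * b) ≤ ((N : ℝ) ^ c) ^ (K₂ * b) :=
          pow_le_pow_left₀ (by positivity) hzle _
      _ = (N : ℝ) ^ (c * ((K₂ * b : ℕ) : ℝ)) := by
          rw [← Real.rpow_natCast, ← Real.rpow_mul hN0'.le]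
      _ ≤ _ := Real.rpow_le_rpow_of_exponent_le hNR hexp
  have hY1 : 1 ≤ Y := Real.one_le_rpow hNR (by positivity)
  set A : ℕ := A0l N with hA
  have hA0 : (0 : ℝ) < A := by exact_mod_cast hA1
  have hBA : (((2 * A : ℕ) : ℝ) / A) = 2 := by
    push_cast
    field_simp
  have hV := Pool.Agent.Lib.GT.V_pos z
  have hlog2 : (0.69 : ℝ) ≤ Real.log 2 := by
    have := Real.log_two_gt_d9
    linarith
  refine ⟨C4l_wt hms0, ?_⟩
  intro X hX a
  have hS0 : 0 ≤ ∑ χ ∈ X, ‖a χ‖ ^ 2 := Finset.sum_nonneg fun _ _ => by positivity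
  have hmain := C4l_main N z A hA1 D Y (K₂ * (1 / 2) ^ b * (V z * (Real.log (((2 * A : ℕ) : ℝ) / A) + 1)) +
    (z : ℝ) ^ (K₂ * b) / A) (4 * (N : ℝ) ^ (-β)) (fun d hd => ⟨(d1 d hd).1, (d1 d hd).2.trans hzpow⟩) d2
    (d3 A (2 * A) hA1 (by omega)) hY1 (by positivity)
    (fun ψ hψ d hd => hchar ψ hψ d (d1 d hd).1 ((d1 d hd).2.trans hzpow)) X a
  have hRS : RS N z A (2 * A) = R0l c N := by
    unfold R0l
    rw [hzd]
  rw [hRS] at hmain
  -- the first error term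
  have t1 : V z * (Real.log (((2 * A : ℕ) : ℝ) / A) + 1) ≤ 4 * ms (R0l c N) := by
    rw [hBA]
    calc V z * (Real.log 2 + 1) ≤ V z * (3 * Real.log 2) :=
          mul_le_mul_of_nonneg_left (by linarith) hV.le
      _ = 4 * (3 / 4 * (V z * Real.log 2)) := by ring
      _ ≤ _ := mul_le_mul_of_nonneg_left hms (by norm_num)
  -- the second error term
  have t2 : (z : ℝ) ^ (K₂ * b) / A ≤ (1 / 2) ^ b * ms (R0l c N) := by
    have h10 : (z : ℝ) ^ (K₂ * b) / A ≤ 3 * (N : ℝ) ^ (-(1 / 4) : ℝ) := by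
      have h11 : Y ≤ (N : ℝ) ^ ((1 : ℝ) / 4) :=
        Real.rpow_le_rpow_of_exponent_le hNR
          (one_div_le_one_div_of_le (by norm_num) (by linarith))
      have h12 : (z : ℝ) ^ (K₂ * b) / A ≤ (N : ℝ) ^ ((1 : ℝ) / 4) / ((N : ℝ) ^ ((1 : ℝ) / 2) / 3) :=
        div_le_div₀ (by positivity) (hzpow.trans h11) (by positivity) hAlow
      refine h12.trans (le_of_eq ?_)
      have h5 : (N : ℝ) ^ (-(1 / 4) : ℝ) = (N : ℝ) ^ ((1 : ℝ) / 4) / (N : ℝ) ^ ((1 : ℝ) / 2) := by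
        rw [← Real.rpow_sub hN0']
        norm_num
      rw [h5]
      field_simp
    refine h10.trans ?_
    have h13 : 3 * (N : ℝ) ^ (-(1 / 4) : ℝ) ≤ (1 / 2) ^ b * (1 / (4 * Real.log N)) := by
      have h14 : (1 / 2 : ℝ) ^ b * (1 / (4 * Real.log N)) = 1 / Real.log N / (4 * 2 ^ b) := by
        rw [one_div_pow]
        field_simp
      rw [h14, le_div_iff₀ (by positivity)]
      refine le_trans (le_of_eq ?_) hlog
      ring
    exact h13.trans (mul_le_mul_of_nonneg_left hms2 hpb.le)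
  -- the third error term
  have t3 : (X.card : ℝ) * (Y * (4 * (N : ℝ) ^ (-β))) ≤ (1 / 2) ^ b * ms (R0l c N) := by
    have h5 : (X.card : ℝ) ≤ (N : ℝ) ^ (1 / (5 * (k : ℝ))) := by
      calc (X.card : ℝ) ≤ (pw N (1 / (5 * k)) : ℝ) := by exact_mod_cast hX
        _ ≤ (N : ℝ) ^ (1 / (5 * (k : ℝ))) := Nat.floor_le (by positivity)
    have h6 : (X.card : ℝ) * (Y * (4 * (N : ℝ) ^ (-β))) ≤ 4 * (N : ℝ) ^ (-(β / 2)) := by
      calc (X.card : ℝ) * (Y * (4 * (N : ℝ) ^ (-β))) ≤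
            (N : ℝ) ^ (1 / (5 * (k : ℝ))) * (Y * (4 * (N : ℝ) ^ (-β))) :=
              mul_le_mul_of_nonneg_right h5 (by positivity)
        _ = 4 * (N : ℝ) ^ (1 / (5 * (k : ℝ)) + (1 / (20 * (k : ℝ)) + -β)) := by
            rw [Real.rpow_add hN0', Real.rpow_add hN0', hYd]
            ring
        _ ≤ 4 * (N : ℝ) ^ (-(β / 2)) := by
            refine mul_le_mul_of_nonneg_left ?_ (by norm_num)
            refine Real.rpow_le_rpow_of_exponent_le hNR ?_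
            have e5 : (1 : ℝ) / (5 * (k : ℝ)) + 1 / (20 * (k : ℝ)) = 1 / 4 * (1 / (k : ℝ)) := by
              field_simp
              norm_num
            have e6 : 1 / (k : ℝ) ≤ β / 40 := by
              rw [div_le_div_iff₀ hk0 (by norm_num)]
              linarith
            linarith
    refine h6.trans ?_
    have h13 : 4 * (N : ℝ) ^ (-(β / 2)) ≤ (1 / 2) ^ b * (1 / (4 * Real.log N)) := by
      have h14 : (1 / 2 : ℝ) ^ b * (1 / (4 * Real.log N)) = 1 / Real.log N / (4 * 2 ^ b) := by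
        rw [one_div_pow]
        field_simp
      rw [h14, le_div_iff₀ (by positivity)]
      refine le_trans (le_of_eq ?_) hlog7
      ring
    exact h13.trans (mul_le_mul_of_nonneg_left hms2 hpb.le)
  -- conclusion
  have hw : ∀ n ∈ R0l c N, w0l c N n * ‖∑ χ ∈ X, a χ * χ (n : ZMod N)‖ ^ 2 =
      (1 / (n : ℝ) * ‖∑ χ ∈ X, a χ * χ (n : ZMod N)‖ ^ 2) * (ms (R0l c N))⁻¹ := by
    intro n _
    unfold w0l wt
    rw [one_div, mul_inv, one_div]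
    ring
  rw [Finset.sum_congr rfl hw, ← Finset.sum_mul, ← div_eq_mul_inv, div_le_iff₀ hms0, hKcast]
  refine hmain.trans ?_
  have hcoef : ms (R0l c N) + (K₂ * (1 / 2) ^ b * (V z * (Real.log (((2 * A : ℕ) : ℝ) / A) + 1)) +
        (z : ℝ) ^ (K₂ * b) / A) + X.card * (Y * (4 * (N : ℝ) ^ (-β))) ≤
      (1 + (4 * K₂ + 4 + K₃) * (1 / 2) ^ b) * ms (R0l c N) := by
    have h5 : K₂ * (1 / 2) ^ b * (V z * (Real.log (((2 * A : ℕ) : ℝ) / A) + 1)) ≤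
        K₂ * (1 / 2) ^ b * (4 * ms (R0l c N)) := mul_le_mul_of_nonneg_left t1 (by positivity)
    have h6 : 0 ≤ (2 + K₃) * ((1 / 2 : ℝ) ^ b * ms (R0l c N)) := by positivity
    nlinarith
  calc _ ≤ ((1 + (4 * K₂ + 4 + K₃) * (1 / 2) ^ b) * ms (R0l c N)) * ∑ χ ∈ X, ‖a χ‖ ^ 2 :=
        mul_le_mul_of_nonneg_right hcoef hS0
    _ = _ := by ring

end Pool.Agent.Lib.PL
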