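import Pool.Agent.Lib.MP_7b7e48_nt.PL.Defs
import Pool.Agent.Lib.MP_7b7e48_nt.PQ.C6m

/-!
# C6l: character sums over primes, mean square, with the sub Polya-Vinogradov bound

PROOF. Adapt `PQ/C6m.lean`: the same weights. Only the off-diagonal terms change: for `ψ ≠ 1`, `d₁, d₂ ≤ Z`, `l = lcm(d₁,d₂) ≤ Z²`: `∑_{n ≤ B, l ∣ n} ψ n = ψ(l) ∑_{m ≤ B/l} ψ m` and
`B/l ≥ N^(1/2-β)` (natural division: `B ≥ Z² (N^(1/2-β) + 1)`), so the norm is `≤ (B/l) N^(-β)` (`hS`). `∑_{d₁,d₂ ≤ Z} 1/lcm(d₁,d₂) = ∑ gcd/(d₁d₂) ≤ ∑_{g≤Z} (1/g) (∑_{m≤Z} 1/m)² ≤ (1 + log Z)³`.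
So `‖S ψ‖ ≤ B N^(-β) (1 + log Z)³`.
-/

set_option autoImplicit false

open Finset
open Pool.Agent.Lib.GT (Rough pr V)
open Pool.Agent.Lib.MP_45349e_nt.LS (lam)
open Pool.Agent.Lib.RG (RC LV rr SS PB sig)
open scoped ComplexConjugate

namespace Pool.Agent.Lib.PL

open Pool.Agent.Lib.PQ

/-- the sieve with density `1 / d` -/
private noncomputable def C6l_sieve (Z B : ℕ) : BoundingSieve where
  support := Finset.Icc 1 B
  prodPrimes := ∏ p ∈ (Finset.Icc 1 Z).filter Nat.Prime, p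
  prodPrimes_squarefree := by
    apply Finset.squarefree_prod_of_pairwise_isCoprime
    · intro p hp q hq hpq
      have hp' := (Finset.mem_filter.mp (Finset.mem_coe.mp hp)).2
      have hq' := (Finset.mem_filter.mp (Finset.mem_coe.mp hq)).2
      exact Nat.coprime_iff_isRelPrime.mp ((Nat.coprime_primes hp' hq').mpr hpq)
    · intro p hp
      exact (Finset.mem_filter.mp hp).2.prime.squarefree
  weights := fun _ => 1
  weights_nonneg := fun _ => zero_le_one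
  totalMass := B
  nu := ArithmeticFunction.prodPrimeFactors (fun p => (1 : ℝ) / p)
  nu_mult := ArithmeticFunction.IsMultiplicative.prodPrimeFactors _
  nu_pos_of_prime := by
    intro p hp _
    rw [ArithmeticFunction.prodPrimeFactors_apply hp.ne_zero, hp.primeFactors,
      Finset.prod_singleton]
    have := hp.pos
    positivity
  nu_lt_one_of_prime := by
    intro p hp _
    rw [ArithmeticFunction.prodPrimeFactors_apply hp.ne_zero, hp.primeFactors,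
      Finset.prod_singleton]
    have hp0 : (0 : ℝ) < p := by exact_mod_cast hp.pos
    rw [div_lt_one hp0]
    exact_mod_cast hp.one_lt

private lemma C6l_nu (Z B : ℕ) {d : ℕ} (hd : Squarefree d) :
    (C6l_sieve Z B).nu d = 1 / (d : ℝ) := by
  show ArithmeticFunction.prodPrimeFactors (fun p => (1 : ℝ) / p) d = 1 / (d : ℝ)
  rw [ArithmeticFunction.prodPrimeFactors_apply hd.ne_zero]
  have h : (d : ℝ) = ∏ p ∈ d.primeFactors, (p : ℝ) := by
    conv_lhs => rw [← Nat.prod_primeFactors_of_squarefree hd]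
    push_cast
    rfl
  rw [h, Finset.prod_div_distrib, Finset.prod_const_one]

/-- the square of a divisor sum -/
private lemma C6l_expand {R : Type} [CommSemiring R] (D : Finset ℕ) (w : ℕ → R) (B : ℕ)
    (ψ : ℕ → R) :
    ∑ n ∈ Finset.Icc 1 B, (∑ d ∈ D, if d ∣ n then w d else 0) ^ 2 * ψ n =
      ∑ d₁ ∈ D, ∑ d₂ ∈ D, w d₁ * w d₂ *
        ∑ n ∈ (Finset.Icc 1 B).filter (fun n => Nat.lcm d₁ d₂ ∣ n), ψ n := by
  have h1 : ∀ n : ℕ, (∑ d ∈ D, if d ∣ n then w d else 0) ^ 2 * ψ n =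
      ∑ d₁ ∈ D, ∑ d₂ ∈ D, if Nat.lcm d₁ d₂ ∣ n then w d₁ * w d₂ * ψ n else 0 := by
    intro n
    rw [pow_two, Finset.sum_mul_sum, Finset.sum_mul]
    refine Finset.sum_congr rfl fun d₁ _ => ?_
    rw [Finset.sum_mul]
    refine Finset.sum_congr rfl fun d₂ _ => ?_
    by_cases h : Nat.lcm d₁ d₂ ∣ n
    · obtain ⟨ha, hb⟩ := Nat.lcm_dvd_iff.mp h
      rw [if_pos h, if_pos ha, if_pos hb]
    · rw [if_neg h]
      by_cases ha : d₁ ∣ n
      · have hb : ¬ d₂ ∣ n := fun hb => h (Nat.lcm_dvd ha hb)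
        rw [if_neg hb, mul_zero, zero_mul]
      · rw [if_neg ha, zero_mul, zero_mul]
  simp only [h1]
  rw [Finset.sum_comm]
  refine Finset.sum_congr rfl fun d₁ _ => ?_
  rw [Finset.sum_comm]
  refine Finset.sum_congr rfl fun d₂ _ => ?_
  rw [← Finset.sum_filter, Finset.mul_sum]

/-- a sum over the multiples of `l` -/
private lemma C6l_mult {R : Type} [CommSemiring R] (B : ℕ) {l : ℕ} (hl : 0 < l) (ψ : ℕ → R) :
    ∑ n ∈ (Finset.Icc 1 B).filter (fun n => l ∣ n), ψ n = ∑ m ∈ Finset.Icc 1 (B / l), ψ (l * m) := by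
  symm
  refine Finset.sum_nbij (fun m => l * m) ?_ ?_ ?_ (fun _ _ => rfl)
  · intro m hm
    rw [Finset.mem_Icc] at hm
    rw [Finset.mem_filter, Finset.mem_Icc]
    refine ⟨⟨Nat.mul_pos hl hm.1, ?_⟩, Dvd.intro _ rfl⟩
    calc l * m ≤ l * (B / l) := Nat.mul_le_mul_left l hm.2
      _ ≤ B := Nat.mul_div_le B l
  · intro a _ b _ hab
    exact Nat.eq_of_mul_eq_mul_left hl hab
  · intro n hn
    rw [Finset.mem_coe, Finset.mem_filter, Finset.mem_Icc] at hn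
    obtain ⟨⟨h1, h2⟩, m, rfl⟩ := hn
    refine ⟨m, ?_, rfl⟩
    rw [Finset.mem_coe, Finset.mem_Icc]
    refine ⟨Nat.pos_of_ne_zero ?_, ?_⟩
    · rintro rfl
      omega
    · rw [Nat.le_div_iff_mul_le hl, mul_comm]
      exact h2

/-- the sum of the reciprocals of the least common multiples -/
private lemma C6l_lcm (Z : ℕ) (D : Finset ℕ) (hD : D ⊆ Finset.Icc 1 Z) :
    ∑ d₁ ∈ D, ∑ d₂ ∈ D, 1 / (Nat.lcm d₁ d₂ : ℝ) ≤ (1 + Real.log Z) ^ 3 := by
  set H : ℝ := ∑ m ∈ Finset.Icc 1 Z, 1 / (m : ℝ) with hH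
  have hH0 : 0 ≤ H := Finset.sum_nonneg fun m _ => by positivity
  have hH1 : H ≤ 1 + Real.log Z := by
    have h2 := harmonic_le_one_add_log Z
    have h3 : ((harmonic Z : ℚ) : ℝ) = H := by
      rw [harmonic_eq_sum_Icc, hH]
      push_cast
      refine Finset.sum_congr rfl fun m _ => ?_
      rw [one_div]
    rw [← h3]
    exact h2
  have h1 : ∀ d₁ ∈ D, ∀ d₂ ∈ D, 1 / (Nat.lcm d₁ d₂ : ℝ) ≤
      ∑ g ∈ Finset.Icc 1 Z, (g : ℝ) * ((if g ∣ d₁ then 1 / (d₁ : ℝ) else 0) *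
        (if g ∣ d₂ then 1 / (d₂ : ℝ) else 0)) := by
    intro d₁ hd₁ d₂ hd₂
    have k1 := Finset.mem_Icc.mp (hD hd₁)
    have k2 := Finset.mem_Icc.mp (hD hd₂)
    have p3 : 0 < d₁.gcd d₂ := Nat.gcd_pos_of_pos_left _ (by omega)
    have hg : d₁.gcd d₂ ∈ Finset.Icc 1 Z := by
      rw [Finset.mem_Icc]
      exact ⟨p3, (Nat.gcd_le_left _ (by omega)).trans k1.2⟩
    have hnn : ∀ g ∈ Finset.Icc 1 Z, 0 ≤ (g : ℝ) * ((if g ∣ d₁ then 1 / (d₁ : ℝ) else 0) *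
        (if g ∣ d₂ then 1 / (d₂ : ℝ) else 0)) := by
      intro g _
      have a1 : (0 : ℝ) ≤ (if g ∣ d₁ then 1 / (d₁ : ℝ) else 0) := by
        split_ifs
        · positivity
        · exact le_rfl
      have a2 : (0 : ℝ) ≤ (if g ∣ d₂ then 1 / (d₂ : ℝ) else 0) := by
        split_ifs
        · positivity
        · exact le_rfl
      exact mul_nonneg (Nat.cast_nonneg g) (mul_nonneg a1 a2)
    refine le_trans (le_of_eq ?_) (Finset.single_le_sum hnn hg)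
    rw [if_pos (Nat.gcd_dvd_left _ _), if_pos (Nat.gcd_dvd_right _ _)]
    have q1 : (0 : ℝ) < d₁ := by exact_mod_cast (by omega : 0 < d₁)
    have q2 : (0 : ℝ) < d₂ := by exact_mod_cast (by omega : 0 < d₂)
    have q3 : (0 : ℝ) < (d₁.gcd d₂ : ℝ) := by exact_mod_cast p3
    have q4 : (0 : ℝ) < (d₁.lcm d₂ : ℝ) := by
      exact_mod_cast Nat.lcm_pos (by omega) (by omega)
    have e4 : (d₁.gcd d₂ : ℝ) * (d₁.lcm d₂ : ℝ) = d₁ * d₂ := by
      exact_mod_cast Nat.gcd_mul_lcm d₁ d₂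
    have e5 : 1 / (d₁.lcm d₂ : ℝ) = (d₁.gcd d₂ : ℝ) / (d₁ * d₂) := by
      rw [← e4]
      field_simp
    rw [e5]
    field_simp
  have h2 : ∀ g ∈ Finset.Icc 1 Z, ∑ d ∈ D, (if g ∣ d then 1 / (d : ℝ) else 0) ≤ 1 / (g : ℝ) * H := by
    intro g hg
    have hg1 := (Finset.mem_Icc.mp hg).1
    calc ∑ d ∈ D, (if g ∣ d then 1 / (d : ℝ) else 0)
        ≤ ∑ d ∈ Finset.Icc 1 Z, (if g ∣ d then 1 / (d : ℝ) else 0) := by
          refine Finset.sum_le_sum_of_subset_of_nonneg hD fun d _ _ => ?_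
          split_ifs
          · positivity
          · exact le_rfl
      _ = ∑ d ∈ (Finset.Icc 1 Z).filter (fun d => g ∣ d), 1 / (d : ℝ) := by
          rw [Finset.sum_filter]
      _ = ∑ m ∈ Finset.Icc 1 (Z / g), 1 / ((g * m : ℕ) : ℝ) :=
          C6l_mult Z (by omega) (fun d => 1 / (d : ℝ))
      _ = 1 / (g : ℝ) * ∑ m ∈ Finset.Icc 1 (Z / g), 1 / (m : ℝ) := by
          rw [Finset.mul_sum]
          refine Finset.sum_congr rfl fun m _ => ?_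
          push_cast
          rw [one_div_mul_one_div]
      _ ≤ 1 / (g : ℝ) * H := by
          refine mul_le_mul_of_nonneg_left ?_ (by positivity)
          refine Finset.sum_le_sum_of_subset_of_nonneg ?_ fun d _ _ => by positivity
          exact Finset.Icc_subset_Icc_right (Nat.div_le_self Z g)
  calc ∑ d₁ ∈ D, ∑ d₂ ∈ D, 1 / (Nat.lcm d₁ d₂ : ℝ)
      ≤ ∑ d₁ ∈ D, ∑ d₂ ∈ D, ∑ g ∈ Finset.Icc 1 Z, (g : ℝ) *
        ((if g ∣ d₁ then 1 / (d₁ : ℝ) else 0) * (if g ∣ d₂ then 1 / (d₂ : ℝ) else 0)) :=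
        Finset.sum_le_sum fun d₁ hd₁ => Finset.sum_le_sum fun d₂ hd₂ => h1 d₁ hd₁ d₂ hd₂
    _ = ∑ g ∈ Finset.Icc 1 Z, (g : ℝ) * ((∑ d ∈ D, (if g ∣ d then 1 / (d : ℝ) else 0)) *
        (∑ d ∈ D, (if g ∣ d then 1 / (d : ℝ) else 0))) := by
        have e1 : ∀ d₁ ∈ D, ∑ d₂ ∈ D, ∑ g ∈ Finset.Icc 1 Z, (g : ℝ) *
            ((if g ∣ d₁ then 1 / (d₁ : ℝ) else 0) * (if g ∣ d₂ then 1 / (d₂ : ℝ) else 0)) =
            ∑ g ∈ Finset.Icc 1 Z, ∑ d₂ ∈ D, (g : ℝ) *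
            ((if g ∣ d₁ then 1 / (d₁ : ℝ) else 0) * (if g ∣ d₂ then 1 / (d₂ : ℝ) else 0)) :=
          fun _ _ => Finset.sum_comm
        rw [Finset.sum_congr rfl e1, Finset.sum_comm]
        refine Finset.sum_congr rfl fun g _ => ?_
        rw [Finset.sum_mul_sum, Finset.mul_sum]
        refine Finset.sum_congr rfl fun d₁ _ => ?_
        rw [Finset.mul_sum]
    _ ≤ ∑ g ∈ Finset.Icc 1 Z, (g : ℝ) * ((1 / (g : ℝ) * H) * (1 / (g : ℝ) * H)) := by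
        refine Finset.sum_le_sum fun g hg => ?_
        refine mul_le_mul_of_nonneg_left ?_ (Nat.cast_nonneg g)
        have h0 : 0 ≤ ∑ d ∈ D, (if g ∣ d then 1 / (d : ℝ) else 0) := by
          refine Finset.sum_nonneg fun d _ => ?_
          split_ifs
          · positivity
          · exact le_rfl
        exact mul_le_mul (h2 g hg) (h2 g hg) h0 (by positivity)
    _ = H ^ 3 := by
        have e1 : ∀ g ∈ Finset.Icc 1 Z, (g : ℝ) * ((1 / (g : ℝ) * H) * (1 / (g : ℝ) * H)) =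
            1 / (g : ℝ) * H ^ 2 := by
          intro g hg
          have hg1 : (0 : ℝ) < g := by exact_mod_cast (Finset.mem_Icc.mp hg).1
          field_simp
        rw [Finset.sum_congr rfl e1, ← Finset.sum_mul]
        ring
    _ ≤ (1 + Real.log Z) ^ 3 := pow_le_pow_left₀ hH0 hH1 3

theorem C6l (N : ℕ) [NeZero N] (hN : 2 ≤ N) (β : ℝ)
    (hS : ∀ χ : DirichletCharacter ℂ N, χ ≠ 1 → ∀ y : ℕ, (N : ℝ) ^ (1 / 2 - β) ≤ y →
      ‖∑ n ∈ Finset.Icc 1 y, χ ((n : ℕ) : ZMod N)‖ ≤ y * (N : ℝ) ^ (-β))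
    (Z B : ℕ) (hZ : 2 ≤ Z) (hB : (Z : ℝ) ^ 2 * ((N : ℝ) ^ (1 / 2 - β) + 1) ≤ B)
    (X : Finset (DirichletCharacter ℂ N)) (a : DirichletCharacter ℂ N → ℂ) :
    ∑ q ∈ (Finset.Ioc Z B).filter Nat.Prime, ‖∑ χ ∈ X, a χ * χ (q : ZMod N)‖ ^ 2 ≤
      ((B : ℝ) / Real.log Z + (Z : ℝ) ^ 2 + X.card * ((B : ℝ) * (N : ℝ) ^ (-β) * (1 + Real.log Z) ^ 3)) *
        ∑ χ ∈ X, ‖a χ‖ ^ 2 := by
  classical
  set s := C6l_sieve Z B with hs
  have hPeq : s.prodPrimes = ∏ p ∈ (Finset.Icc 1 Z).filter Nat.Prime, p := rfl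
  have hPsq : Squarefree s.prodPrimes := s.prodPrimes_squarefree
  have hP0 : s.prodPrimes ≠ 0 := hPsq.ne_zero
  set w : ℕ → ℝ := Sieve.selW s Z with hw
  set D : Finset ℕ := s.prodPrimes.divisors.filter (fun d => d ≤ Z) with hD
  have hw1 : w 1 = 1 := Sieve.selW_one s Z (by omega)
  have hwle : ∀ d, |w d| ≤ 1 := fun d => Sieve.abs_selW_le s Z (by omega) d
  have hDpos : ∀ d ∈ D, 0 < d := fun d hd =>
    Nat.pos_of_mem_divisors (Finset.mem_filter.mp hd).1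
  have hDcard : (D.card : ℝ) ≤ Z := by
    have h1 : D ⊆ Finset.Icc 1 Z := by
      intro d hd
      rw [Finset.mem_Icc]
      exact ⟨hDpos d hd, (Finset.mem_filter.mp hd).2⟩
    have h2 := Finset.card_le_card h1
    rw [Nat.card_Icc, Nat.add_sub_cancel] at h2
    exact_mod_cast h2
  have hD1 : 1 ∈ D := by
    rw [hD, Finset.mem_filter]
    exact ⟨Nat.one_mem_divisors.mpr hP0, by omega⟩
  set W : ℕ → ℝ := fun n => ∑ d ∈ D, if d ∣ n then w d else 0 with hW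
  have hWq : ∀ q ∈ (Finset.Ioc Z B).filter Nat.Prime, W q = 1 := by
    intro q hq
    rw [Finset.mem_filter, Finset.mem_Ioc] at hq
    have h1 : W q = ∑ d ∈ D, if d = 1 then w d else 0 := by
      simp only [hW]
      refine Finset.sum_congr rfl fun d hd => ?_
      by_cases h : d = 1
      · rw [if_pos h, if_pos (by rw [h]; exact one_dvd _)]
      · rw [if_neg h, if_neg]
        intro hdq
        rcases (Nat.dvd_prime hq.2).mp hdq with h2 | h2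
        · exact h h2
        · have := (Finset.mem_filter.mp hd).2
          omega
    rw [h1, Finset.sum_ite_eq' D 1, if_pos hD1, hw1]
  set T : ℕ → ℂ := fun n => ∑ χ ∈ X, a χ * χ (n : ZMod N) with hT
  -- the selberg sum
  have hselS : Real.log Z ≤ Sieve.selS s Z := by
    have h1 := Sieve.sum_le_selS s Z (fun m => 1 / (m : ℝ)) (fun m => by positivity)
      (by simp) (fun m n => by push_cast; rw [one_div_mul_one_div]) ?_ ?_
    · refine le_trans ?_ h1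
      have h2 := log_add_one_le_harmonic Z
      have h3 : ((harmonic Z : ℚ) : ℝ) = ∑ m ∈ Finset.Icc 1 Z, 1 / (m : ℝ) := by
        rw [harmonic_eq_sum_Icc]
        push_cast
        refine Finset.sum_congr rfl fun m _ => ?_
        rw [one_div]
      rw [h3] at h2
      refine le_trans ?_ h2
      have hZ0 : (0 : ℝ) < Z := by exact_mod_cast (by omega : 0 < Z)
      exact Real.log_le_log hZ0 (by push_cast; linarith)
    · intro p hp hpZ
      rw [hPeq]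
      exact Finset.dvd_prod_of_mem (fun p => p)
        (Finset.mem_filter.mpr ⟨Finset.mem_Icc.mpr ⟨hp.one_lt.le, hpZ⟩, hp⟩)
    · intro p hp _
      rw [hs, C6l_nu Z B hp.prime.squarefree]
  have hlogZ : 0 < Real.log Z := Real.log_pos (by exact_mod_cast (by omega : 1 < Z))
  have hmain : ∑ d₁ ∈ D, ∑ d₂ ∈ D, w d₁ * w d₂ * (1 / (Nat.lcm d₁ d₂ : ℝ)) =
      (Sieve.selS s Z)⁻¹ := by
    rw [← Sieve.mainSum_selW s Z (by omega), BoundingSieve.mainSum_lambdaSquared_eq_sum_sum_mul,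
      ← hw]
    have hz : ∀ d ∈ s.prodPrimes.divisors, d ∉ D → w d = 0 := by
      intro d hd hdD
      apply Sieve.selW_eq_zero
      by_contra hcon
      exact hdD (Finset.mem_filter.mpr ⟨hd, by omega⟩)
    have hsub : D ⊆ s.prodPrimes.divisors := Finset.filter_subset _ _
    rw [← Finset.sum_subset hsub (f := fun d₁ => ∑ d₂ ∈ s.prodPrimes.divisors,
      s.nu d₁ * w d₁ * s.nu d₂ * w d₂ * (s.nu (d₁.gcd d₂))⁻¹)]
    · refine Finset.sum_congr rfl fun d₁ hd₁ => ?_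
      rw [← Finset.sum_subset hsub (f := fun d₂ =>
        s.nu d₁ * w d₁ * s.nu d₂ * w d₂ * (s.nu (d₁.gcd d₂))⁻¹)]
      · refine Finset.sum_congr rfl fun d₂ hd₂ => ?_
        have e1 : d₁ ∣ s.prodPrimes := Nat.dvd_of_mem_divisors (Finset.mem_filter.mp hd₁).1
        have e2 : d₂ ∣ s.prodPrimes := Nat.dvd_of_mem_divisors (Finset.mem_filter.mp hd₂).1
        have e3 : d₁.gcd d₂ ∣ s.prodPrimes := (Nat.gcd_dvd_left _ _).trans e1
        rw [hs, C6l_nu Z B (hPsq.squarefree_of_dvd e1), C6l_nu Z B (hPsq.squarefree_of_dvd e2),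
          C6l_nu Z B (hPsq.squarefree_of_dvd e3)]
        have p1 : (0 : ℝ) < d₁ := by exact_mod_cast hDpos d₁ hd₁
        have p2 : (0 : ℝ) < d₂ := by exact_mod_cast hDpos d₂ hd₂
        have p3 : (0 : ℝ) < (d₁.gcd d₂ : ℝ) := by
          exact_mod_cast Nat.gcd_pos_of_pos_left _ (hDpos d₁ hd₁)
        have p4 : (0 : ℝ) < (d₁.lcm d₂ : ℝ) := by
          exact_mod_cast Nat.lcm_pos (hDpos d₁ hd₁) (hDpos d₂ hd₂)
        have e4 : (d₁.gcd d₂ : ℝ) * (d₁.lcm d₂ : ℝ) = d₁ * d₂ := by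
          exact_mod_cast Nat.gcd_mul_lcm d₁ d₂
        have e5 : 1 / (d₁.lcm d₂ : ℝ) = (d₁.gcd d₂ : ℝ) / (d₁ * d₂) := by
          rw [← e4]
          field_simp
        rw [e5]
        field_simp
      · intro d₂ hd₂ hd₂'
        rw [hz d₂ hd₂ hd₂', mul_zero, zero_mul]
    · intro d₁ hd₁ hd₁'
      refine Finset.sum_eq_zero fun d₂ _ => ?_
      rw [hz d₁ hd₁ hd₁', mul_zero, zero_mul, zero_mul, zero_mul]
  -- the diagonal
  have hdiag : ∑ n ∈ Finset.Icc 1 B, W n ^ 2 ≤ (B : ℝ) / Real.log Z + (Z : ℝ) ^ 2 := by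
    have h1 := C6l_expand D w B (fun _ => (1 : ℝ))
    simp only [mul_one] at h1
    have h2 : ∑ n ∈ Finset.Icc 1 B, W n ^ 2 = ∑ d₁ ∈ D, ∑ d₂ ∈ D, w d₁ * w d₂ *
        ∑ n ∈ (Finset.Icc 1 B).filter (fun n => Nat.lcm d₁ d₂ ∣ n), (1 : ℝ) := h1
    rw [h2]
    have h3 : ∀ d₁ ∈ D, ∀ d₂ ∈ D, w d₁ * w d₂ *
        ∑ n ∈ (Finset.Icc 1 B).filter (fun n => Nat.lcm d₁ d₂ ∣ n), (1 : ℝ) ≤
        B * (w d₁ * w d₂ * (1 / (Nat.lcm d₁ d₂ : ℝ))) + 1 := by
      intro d₁ hd₁ d₂ hd₂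
      have hl := Nat.lcm_pos (hDpos d₁ hd₁) (hDpos d₂ hd₂)
      have hlR : (0 : ℝ) < (Nat.lcm d₁ d₂ : ℝ) := by exact_mod_cast hl
      rw [C6l_mult B hl, Finset.sum_const, Nat.card_Icc, Nat.add_sub_cancel, nsmul_eq_mul, mul_one]
      have e1 : ((B / Nat.lcm d₁ d₂ : ℕ) : ℝ) ≤ (B : ℝ) / (Nat.lcm d₁ d₂ : ℝ) := Nat.cast_div_le
      have e2 : (B : ℝ) / (Nat.lcm d₁ d₂ : ℝ) < ((B / Nat.lcm d₁ d₂ : ℕ) : ℝ) + 1 := by
        rw [div_lt_iff₀ hlR]
        have h4 := Nat.lt_mul_div_succ B hl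
        rw [mul_comm] at h4
        exact_mod_cast h4
      have e3 : |w d₁ * w d₂| ≤ 1 := by
        rw [abs_mul]
        calc |w d₁| * |w d₂| ≤ 1 * 1 :=
              mul_le_mul (hwle d₁) (hwle d₂) (abs_nonneg _) zero_le_one
          _ = 1 := one_mul _
      have e4 : |((B / Nat.lcm d₁ d₂ : ℕ) : ℝ) - (B : ℝ) / (Nat.lcm d₁ d₂ : ℝ)| ≤ 1 := by
        rw [abs_le]
        constructor <;> linarith
      have e5 : w d₁ * w d₂ * (((B / Nat.lcm d₁ d₂ : ℕ) : ℝ) - (B : ℝ) / (Nat.lcm d₁ d₂ : ℝ)) ≤ 1 := by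
        refine (le_abs_self _).trans ?_
        rw [abs_mul]
        calc |w d₁ * w d₂| * |((B / Nat.lcm d₁ d₂ : ℕ) : ℝ) - (B : ℝ) / (Nat.lcm d₁ d₂ : ℝ)|
            ≤ 1 * 1 := mul_le_mul e3 e4 (abs_nonneg _) zero_le_one
          _ = 1 := one_mul _
      have e6 : B * (w d₁ * w d₂ * (1 / (Nat.lcm d₁ d₂ : ℝ))) =
          w d₁ * w d₂ * ((B : ℝ) / (Nat.lcm d₁ d₂ : ℝ)) := by ring
      rw [e6]
      linarith
    calc ∑ d₁ ∈ D, ∑ d₂ ∈ D, w d₁ * w d₂ *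
          ∑ n ∈ (Finset.Icc 1 B).filter (fun n => Nat.lcm d₁ d₂ ∣ n), (1 : ℝ)
        ≤ ∑ d₁ ∈ D, ∑ d₂ ∈ D, (B * (w d₁ * w d₂ * (1 / (Nat.lcm d₁ d₂ : ℝ))) + 1) :=
          Finset.sum_le_sum fun d₁ hd₁ => Finset.sum_le_sum fun d₂ hd₂ => h3 d₁ hd₁ d₂ hd₂
      _ = B * (Sieve.selS s Z)⁻¹ + (D.card : ℝ) * D.card := by
          rw [← hmain, Finset.mul_sum]
          simp only [Finset.sum_add_distrib, Finset.sum_const, nsmul_eq_mul, mul_one,
            Finset.mul_sum]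
      _ ≤ (B : ℝ) / Real.log Z + (Z : ℝ) ^ 2 := by
          have e1 : (B : ℝ) * (Sieve.selS s Z)⁻¹ ≤ B / Real.log Z := by
            rw [div_eq_mul_inv]
            refine mul_le_mul_of_nonneg_left ?_ (Nat.cast_nonneg B)
            exact inv_anti₀ hlogZ hselS
          have e2 : (D.card : ℝ) * D.card ≤ (Z : ℝ) ^ 2 := by
            rw [pow_two]
            exact mul_le_mul hDcard hDcard (Nat.cast_nonneg _) (Nat.cast_nonneg _)
          linarith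
  -- off the diagonal
  have hN0 : (0 : ℝ) < N := by exact_mod_cast (by omega : 0 < N)
  have hβ0 : (0 : ℝ) ≤ (N : ℝ) ^ (-β) := Real.rpow_nonneg hN0.le _
  have hZ0 : (0 : ℝ) < Z := by exact_mod_cast (by omega : 0 < Z)
  set S : DirichletCharacter ℂ N → ℂ := fun ψ =>
    ∑ n ∈ Finset.Icc 1 B, ((W n : ℂ)) ^ 2 * ψ (n : ZMod N) with hSdef
  have hoff : ∀ ψ : DirichletCharacter ℂ N, ψ ≠ 1 →
      ‖S ψ‖ ≤ (B : ℝ) * (N : ℝ) ^ (-β) * (1 + Real.log Z) ^ 3 := by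
    intro ψ hψ
    have h1 : S ψ = ∑ d₁ ∈ D, ∑ d₂ ∈ D, ((w d₁ : ℂ)) * (w d₂ : ℂ) *
        ∑ n ∈ (Finset.Icc 1 B).filter (fun n => Nat.lcm d₁ d₂ ∣ n), ψ (n : ZMod N) := by
      rw [← C6l_expand D (fun d => ((w d : ℝ) : ℂ)) B (fun n => ψ (n : ZMod N))]
      simp only [hSdef]
      refine Finset.sum_congr rfl fun n _ => ?_
      congr 2
      simp only [hW]
      rw [Complex.ofReal_sum]
      refine Finset.sum_congr rfl fun d _ => ?_
      split_ifs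
      · rfl
      · exact Complex.ofReal_zero
    rw [h1]
    calc ‖∑ d₁ ∈ D, ∑ d₂ ∈ D, ((w d₁ : ℂ)) * (w d₂ : ℂ) *
          ∑ n ∈ (Finset.Icc 1 B).filter (fun n => Nat.lcm d₁ d₂ ∣ n), ψ (n : ZMod N)‖
        ≤ ∑ d₁ ∈ D, ∑ d₂ ∈ D, ((B : ℝ) * (N : ℝ) ^ (-β)) * (1 / (Nat.lcm d₁ d₂ : ℝ)) := by
          refine (norm_sum_le _ _).trans (Finset.sum_le_sum fun d₁ hd₁ => ?_)
          refine (norm_sum_le _ _).trans (Finset.sum_le_sum fun d₂ hd₂ => ?_)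
          have hl := Nat.lcm_pos (hDpos d₁ hd₁) (hDpos d₂ hd₂)
          rw [C6l_mult B hl]
          have e1 : ∑ m ∈ Finset.Icc 1 (B / Nat.lcm d₁ d₂),
              ψ ((Nat.lcm d₁ d₂ * m : ℕ) : ZMod N) = ψ ((Nat.lcm d₁ d₂ : ℕ) : ZMod N) *
              ∑ m ∈ Finset.Icc 1 (B / Nat.lcm d₁ d₂), ψ (m : ZMod N) := by
            rw [Finset.mul_sum]
            refine Finset.sum_congr rfl fun m _ => ?_
            rw [Nat.cast_mul, map_mul]
          rw [e1, norm_mul, norm_mul, norm_mul, Complex.norm_real, Complex.norm_real,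
            Real.norm_eq_abs, Real.norm_eq_abs]
          have hlR : (0 : ℝ) < (Nat.lcm d₁ d₂ : ℝ) := by exact_mod_cast hl
          have hlZ : (Nat.lcm d₁ d₂ : ℝ) ≤ (Z : ℝ) ^ 2 := by
            have g1 : Nat.lcm d₁ d₂ ≤ d₁ * d₂ :=
              Nat.le_of_dvd (Nat.mul_pos (hDpos d₁ hd₁) (hDpos d₂ hd₂)) (Nat.lcm_dvd_mul d₁ d₂)
            have g2 : d₁ * d₂ ≤ Z * Z := Nat.mul_le_mul (Finset.mem_filter.mp hd₁).2 (Finset.mem_filter.mp hd₂).2
            rw [pow_two]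
            exact_mod_cast g1.trans g2
          have g3 : (B : ℝ) / (Nat.lcm d₁ d₂ : ℝ) < ((B / Nat.lcm d₁ d₂ : ℕ) : ℝ) + 1 := by
            rw [div_lt_iff₀ hlR]
            have h4 := Nat.lt_mul_div_succ B hl
            rw [mul_comm] at h4
            exact_mod_cast h4
          have g4 : ((B / Nat.lcm d₁ d₂ : ℕ) : ℝ) ≤ (B : ℝ) / (Nat.lcm d₁ d₂ : ℝ) := Nat.cast_div_le
          have g5 : (N : ℝ) ^ (1 / 2 - β) ≤ ((B / Nat.lcm d₁ d₂ : ℕ) : ℝ) := by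
            have g6 : (N : ℝ) ^ (1 / 2 - β) + 1 ≤ (B : ℝ) / (Nat.lcm d₁ d₂ : ℝ) := by
              rw [le_div_iff₀ hlR]
              refine le_trans ?_ hB
              rw [mul_comm]
              refine mul_le_mul_of_nonneg_right hlZ ?_
              have := Real.rpow_nonneg hN0.le (1 / 2 - β)
              linarith
            linarith
          have e2 := hS ψ hψ (B / Nat.lcm d₁ d₂) g5
          have e2' : ‖∑ m ∈ Finset.Icc 1 (B / Nat.lcm d₁ d₂), ψ (m : ZMod N)‖ ≤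
              ((B : ℝ) * (N : ℝ) ^ (-β)) * (1 / (Nat.lcm d₁ d₂ : ℝ)) := by
            refine e2.trans ?_
            calc ((B / Nat.lcm d₁ d₂ : ℕ) : ℝ) * (N : ℝ) ^ (-β) ≤
                (B : ℝ) / (Nat.lcm d₁ d₂ : ℝ) * (N : ℝ) ^ (-β) := mul_le_mul_of_nonneg_right g4 hβ0
              _ = _ := by ring
          have e3 : ‖ψ ((Nat.lcm d₁ d₂ : ℕ) : ZMod N)‖ ≤ 1 := ψ.norm_le_one _
          calc |w d₁| * |w d₂| * (‖ψ ((Nat.lcm d₁ d₂ : ℕ) : ZMod N)‖ *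
                ‖∑ m ∈ Finset.Icc 1 (B / Nat.lcm d₁ d₂), ψ (m : ZMod N)‖)
              ≤ 1 * 1 * (1 * (((B : ℝ) * (N : ℝ) ^ (-β)) * (1 / (Nat.lcm d₁ d₂ : ℝ)))) := by
                refine mul_le_mul (mul_le_mul (hwle d₁) (hwle d₂) (abs_nonneg _) zero_le_one)
                  (mul_le_mul e3 e2' (norm_nonneg _) zero_le_one) (by positivity) (by norm_num)
            _ = _ := by ring
      _ = ((B : ℝ) * (N : ℝ) ^ (-β)) * ∑ d₁ ∈ D, ∑ d₂ ∈ D, 1 / (Nat.lcm d₁ d₂ : ℝ) := by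
          simp only [Finset.mul_sum]
      _ ≤ (B : ℝ) * (N : ℝ) ^ (-β) * (1 + Real.log Z) ^ 3 := by
          refine mul_le_mul_of_nonneg_left ?_ (by positivity)
          refine C6l_lcm Z D ?_
          intro d hd
          rw [Finset.mem_Icc]
          exact ⟨hDpos d hd, (Finset.mem_filter.mp hd).2⟩
  have hSone : ‖S 1‖ ≤ (B : ℝ) / Real.log Z + (Z : ℝ) ^ 2 := by
    refine le_trans ?_ hdiag
    simp only [hSdef]
    refine (norm_sum_le _ _).trans (Finset.sum_le_sum fun n _ => ?_)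
    rw [norm_mul, norm_pow, Complex.norm_real, Real.norm_eq_abs, sq_abs]
    have e3 : ‖(1 : DirichletCharacter ℂ N) (n : ZMod N)‖ ≤ 1 :=
      (1 : DirichletCharacter ℂ N).norm_le_one _
    calc W n ^ 2 * ‖(1 : DirichletCharacter ℂ N) (n : ZMod N)‖ ≤ W n ^ 2 * 1 :=
          mul_le_mul_of_nonneg_left e3 (sq_nonneg _)
      _ = W n ^ 2 := mul_one _
  -- the expansion
  have hexp : ((∑ n ∈ Finset.Icc 1 B, W n ^ 2 * ‖T n‖ ^ 2 : ℝ) : ℂ) =
      ∑ χ ∈ X, ∑ χ' ∈ X, a χ * conj (a χ') * S (χ * χ'⁻¹) := by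
    have h1 : ∀ n : ℕ, ((‖T n‖ ^ 2 : ℝ) : ℂ) = ∑ χ ∈ X, ∑ χ' ∈ X,
        a χ * conj (a χ') * (χ * χ'⁻¹) (n : ZMod N) := by
      intro n
      have e1 : ((‖T n‖ ^ 2 : ℝ) : ℂ) = T n * conj (T n) := by
        rw [Complex.mul_conj, Complex.normSq_eq_norm_sq]
      rw [e1]
      simp only [hT]
      rw [map_sum, Finset.sum_mul_sum]
      refine Finset.sum_congr rfl fun χ _ => Finset.sum_congr rfl fun χ' _ => ?_
      rw [map_mul, MulChar.mul_apply]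
      have e2 : conj (χ' (n : ZMod N)) = χ'⁻¹ (n : ZMod N) := by
        exact MulChar.star_apply' χ' (n : ZMod N)
      rw [e2]
      ring
    push_cast
    have h2 : ∀ n ∈ Finset.Icc 1 B, (W n : ℂ) ^ 2 * (‖T n‖ : ℂ) ^ 2 =
        ∑ χ ∈ X, ∑ χ' ∈ X, a χ * conj (a χ') * ((W n : ℂ) ^ 2 * (χ * χ'⁻¹) (n : ZMod N)) := by
      intro n _
      have h3 := h1 n
      push_cast at h3
      rw [h3, Finset.mul_sum]
      refine Finset.sum_congr rfl fun χ _ => ?_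
      rw [Finset.mul_sum]
      refine Finset.sum_congr rfl fun χ' _ => ?_
      ring
    rw [Finset.sum_congr rfl h2, Finset.sum_comm]
    refine Finset.sum_congr rfl fun χ _ => ?_
    rw [Finset.sum_comm]
    refine Finset.sum_congr rfl fun χ' _ => ?_
    simp only [hSdef]
    rw [Finset.mul_sum]
  set M1 : ℝ := (B : ℝ) / Real.log Z + (Z : ℝ) ^ 2 with hM1
  set M2 : ℝ := (B : ℝ) * (N : ℝ) ^ (-β) * (1 + Real.log Z) ^ 3 with hM2
  have hM20 : 0 ≤ M2 := by positivity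
  have hM10 : 0 ≤ M1 := by positivity
  have hterm : ∀ χ ∈ X, ∀ χ' ∈ X, ‖a χ * conj (a χ') * S (χ * χ'⁻¹)‖ ≤
      (if χ' = χ then ‖a χ‖ ^ 2 * M1 else 0) + ‖a χ‖ * ‖a χ'‖ * M2 := by
    intro χ _ χ' _
    rw [norm_mul, norm_mul, RCLike.norm_conj]
    by_cases h : χ' = χ
    · rw [if_pos h, h, mul_inv_cancel]
      have e1 : ‖a χ‖ * ‖a χ‖ * ‖S 1‖ ≤ ‖a χ‖ ^ 2 * M1 := by
        rw [← pow_two]
        exact mul_le_mul_of_nonneg_left hSone (by positivity)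
      have e2 : 0 ≤ ‖a χ‖ * ‖a χ‖ * M2 := by positivity
      linarith
    · rw [if_neg h, zero_add]
      refine mul_le_mul_of_nonneg_left (hoff _ ?_) (by positivity)
      intro hcon
      exact h (mul_inv_eq_one.mp hcon).symm
  have hsum : ∑ n ∈ Finset.Icc 1 B, W n ^ 2 * ‖T n‖ ^ 2 ≤
      (M1 + X.card * M2) * ∑ χ ∈ X, ‖a χ‖ ^ 2 := by
    have h1 : ∑ n ∈ Finset.Icc 1 B, W n ^ 2 * ‖T n‖ ^ 2 =
        ‖((∑ n ∈ Finset.Icc 1 B, W n ^ 2 * ‖T n‖ ^ 2 : ℝ) : ℂ)‖ := by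
      rw [Complex.norm_real, Real.norm_of_nonneg (Finset.sum_nonneg fun n _ => by positivity)]
    rw [h1, hexp]
    have hCS : (∑ χ ∈ X, ‖a χ‖) ^ 2 ≤ X.card * ∑ χ ∈ X, ‖a χ‖ ^ 2 := sq_sum_le_card_mul_sum_sq
    calc ‖∑ χ ∈ X, ∑ χ' ∈ X, a χ * conj (a χ') * S (χ * χ'⁻¹)‖
        ≤ ∑ χ ∈ X, ∑ χ' ∈ X, ((if χ' = χ then ‖a χ‖ ^ 2 * M1 else 0) + ‖a χ‖ * ‖a χ'‖ * M2) := by
          refine (norm_sum_le _ _).trans (Finset.sum_le_sum fun χ hχ => ?_)
          exact (norm_sum_le _ _).trans (Finset.sum_le_sum fun χ' hχ' => hterm χ hχ χ' hχ')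
      _ = ∑ χ ∈ X, ‖a χ‖ ^ 2 * M1 + (∑ χ ∈ X, ‖a χ‖) ^ 2 * M2 := by
          simp only [Finset.sum_add_distrib]
          congr 1
          · refine Finset.sum_congr rfl fun χ hχ => ?_
            rw [Finset.sum_ite_eq' X χ, if_pos hχ]
          · rw [pow_two, Finset.sum_mul_sum, Finset.sum_mul]
            exact Finset.sum_congr rfl fun χ _ => by rw [Finset.sum_mul]
      _ ≤ ∑ χ ∈ X, ‖a χ‖ ^ 2 * M1 + (X.card * ∑ χ ∈ X, ‖a χ‖ ^ 2) * M2 := by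
          gcongr
      _ = (M1 + X.card * M2) * ∑ χ ∈ X, ‖a χ‖ ^ 2 := by
          rw [← Finset.sum_mul]
          ring
  calc ∑ q ∈ (Finset.Ioc Z B).filter Nat.Prime, ‖T q‖ ^ 2
      = ∑ q ∈ (Finset.Ioc Z B).filter Nat.Prime, W q ^ 2 * ‖T q‖ ^ 2 := by
        refine Finset.sum_congr rfl fun q hq => ?_
        rw [hWq q hq, one_pow, one_mul]
    _ ≤ ∑ n ∈ Finset.Icc 1 B, W n ^ 2 * ‖T n‖ ^ 2 := by
        refine Finset.sum_le_sum_of_subset_of_nonneg ?_ fun n _ _ => by positivity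
        intro q hq
        rw [Finset.mem_filter, Finset.mem_Ioc] at hq
        rw [Finset.mem_Icc]
        exact ⟨hq.2.one_lt.le, hq.1.2⟩
    _ ≤ (M1 + X.card * M2) * ∑ χ ∈ X, ‖a χ‖ ^ 2 := hsum
    _ = _ := by
        rw [hM1, hM2]

end Pool.Agent.Lib.PL
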