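import Pool.Agent.Lib.MP_7b7e48_nt.PL.N1
import Pool.Agent.Lib.MP_7b7e48_nt.PQ.C9m

/-!
# C9l: the number of primes in `QQl`

PROOF. Adapt `PQ/C9m.lean`. `B = Bl E N ≥ N (log N)^E/2`. The number of primes `≤ B` is `≥ θ(B)/log B ≥ (1 - e/3) B/log B` for large `N` (`SW.pnt 1`), `log B ≤ log N + E log log N ≤ (1 + e/3) log N`.
The primes `≤ N` are at most `C N/log N` (Chebyshev, e.g. again `SW.pnt 1`, or the trivial bound `N` if `E ≥ 2`: `N ≤ 2B/(log N)^E`): for `E ≥ 2` subtract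
`N ≤ 2 B (log N)^(-2) ≤ (e/3) B/log N`.
-/

set_option autoImplicit false

open Finset
open Pool.Agent.Lib.GT (Rough pr V)
open Pool.Agent.Lib.MP_45349e_nt.LS (lam)
open Pool.Agent.Lib.RG (RC LV rr SS PB sig)

namespace Pool.Agent.Lib.PL

open Pool.Agent.Lib.PQ

private theorem C9l_theta (B N : ℕ) (hB : 1 ≤ B) :
    ∑ n ∈ (Finset.Icc 1 B).filter (fun n => n.Prime ∧ n ≡ 0 [MOD 1]), Real.log n ≤
      ((N : ℝ) + ((Finset.Ioc N B).filter Nat.Prime).card) * Real.log B := by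
  have hB' : (1 : ℝ) ≤ B := by exact_mod_cast hB
  have hlog : 0 ≤ Real.log B := Real.log_nonneg hB'
  have h1 : ∑ n ∈ (Finset.Icc 1 B).filter (fun n => n.Prime ∧ n ≡ 0 [MOD 1]), Real.log n ≤
      ∑ n ∈ (Finset.Icc 1 B).filter (fun n => n.Prime ∧ n ≡ 0 [MOD 1]), Real.log B := by
    refine Finset.sum_le_sum fun n hn => ?_
    have hn' := (Finset.mem_Icc.1 (Finset.mem_filter.1 hn).1)
    refine Real.log_le_log ?_ ?_
    · have : 0 < n := by omega
      exact_mod_cast this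
    · exact_mod_cast hn'.2
  refine le_trans h1 ?_
  rw [Finset.sum_const, nsmul_eq_mul]
  refine mul_le_mul_of_nonneg_right ?_ hlog
  have h2 : (Finset.Icc 1 B).filter (fun n => n.Prime ∧ n ≡ 0 [MOD 1]) ⊆
      Finset.Icc 1 N ∪ (Finset.Ioc N B).filter Nat.Prime := by
    intro n hn
    obtain ⟨h3, h4, -⟩ := Finset.mem_filter.1 hn
    obtain ⟨h5, h6⟩ := Finset.mem_Icc.1 h3
    rw [Finset.mem_union, Finset.mem_Icc, Finset.mem_filter, Finset.mem_Ioc]
    by_cases h : n ≤ N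
    · exact Or.inl ⟨h5, h⟩
    · exact Or.inr ⟨⟨not_le.1 h, h6⟩, h4⟩
  have h3 := (Finset.card_le_card h2).trans (Finset.card_union_le _ _)
  rw [Nat.card_Icc, Nat.add_sub_cancel] at h3
  exact_mod_cast h3

theorem C9l (E : ℕ) (hE : 2 ≤ E) (e : ℝ) (he : 0 < e) : ∃ N0 : ℕ, ∀ N : ℕ, N0 ≤ N →
    (1 - e) * ((Bl E N : ℝ) / Real.log N) ≤ ((QQl E N).card : ℝ) := by
  obtain ⟨C, hC, hth⟩ := Pool.Agent.Lib.SW.theta_ap 1 1 one_pos
  have t0 : Filter.Tendsto (fun N : ℕ => Real.log (N : ℝ)) Filter.atTop Filter.atTop :=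
    Real.tendsto_log_atTop.comp tendsto_natCast_atTop_atTop
  have t1 : Filter.Tendsto (fun N : ℕ => C / Real.log (N : ℝ)) Filter.atTop (nhds 0) :=
    Filter.Tendsto.const_div_atTop t0 C
  have t2 : Filter.Tendsto (fun N : ℕ => Real.log (Real.log (N : ℝ)) / Real.log (N : ℝ))
      Filter.atTop (nhds 0) := by
    have h := (Real.isLittleO_log_id_atTop).tendsto_div_nhds_zero
    exact h.comp t0
  have e1 := t1.eventually (gt_mem_nhds (show (0 : ℝ) < e / 3 by linarith))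
  have e2 := t2.eventually (gt_mem_nhds (show (0 : ℝ) < e / (4 * (E : ℝ) + 4) by positivity))
  have e3 := t0.eventually_ge_atTop (4 : ℝ)
  have e4 := t0.eventually_ge_atTop (6 * (1 + e) * 2 / e)
  obtain ⟨N0, hN0⟩ := Filter.eventually_atTop.1 (e1.and (e2.and (e3.and e4)))
  refine ⟨max N0 3, ?_⟩
  intro N hN
  have hN3 : 3 ≤ N := le_trans (le_max_right _ _) hN
  have hN2 : 2 ≤ N := by omega
  obtain ⟨h1, h2, hL4, hL6⟩ := hN0 N (le_trans (le_max_left _ _) hN)
  have hNr : (3 : ℝ) ≤ N := by exact_mod_cast hN3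
  set L : ℝ := Real.log N with hL
  have hL0 : 0 < L := by linarith
  have hLE : 1 ≤ L ^ E := one_le_pow₀ (by linarith)
  have hLE2 : L ^ 2 ≤ L ^ E := pow_le_pow_right₀ (by linarith) hE
  have hNL : (N : ℝ) ≤ (N : ℝ) * L ^ E := by nlinarith
  have b3 : N ≤ Bl E N := by
    unfold Bl
    exact Nat.le_floor hNL
  have b1 : (Bl E N : ℝ) ≤ (N : ℝ) * L ^ E := by
    unfold Bl
    exact Nat.floor_le (by positivity)
  have hBN : (N : ℝ) ≤ Bl E N := by exact_mod_cast b3
  have b2 : (N : ℝ) * L ^ E / 2 ≤ (Bl E N : ℝ) := by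
    have h7 := Nat.lt_floor_add_one ((N : ℝ) * L ^ E)
    have h8 : (⌊(N : ℝ) * L ^ E⌋₊ : ℝ) = (Bl E N : ℝ) := rfl
    rw [h8] at h7
    linarith
  have hB2 : (2 : ℝ) ≤ Bl E N := by linarith
  have hBpos : (0 : ℝ) < Bl E N := by linarith
  have hlB : 0 < Real.log (Bl E N) := Real.log_pos (by linarith)
  have hlBN : L ≤ Real.log (Bl E N) := Real.log_le_log (by linarith) hBN
  -- the logarithm of `B`
  have hlB1 : Real.log (Bl E N) ≤ (1 + e / 4) * L := by
    have g1 : Real.log (Bl E N) ≤ L + E * Real.log L := by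
      have g2 := Real.log_le_log hBpos b1
      rw [Real.log_mul (by linarith) (by positivity), Real.log_pow] at g2
      exact g2
    have g3 : Real.log L ≤ e / (4 * (E : ℝ) + 4) * L := by
      rw [div_lt_iff₀ hL0] at h2
      exact h2.le
    have g4 : (E : ℝ) * Real.log L ≤ e / 4 * L := by
      have g5 : (E : ℝ) * Real.log L ≤ E * (e / (4 * (E : ℝ) + 4) * L) :=
        mul_le_mul_of_nonneg_left g3 (Nat.cast_nonneg E)
      have g6 : (E : ℝ) * (e / (4 * (E : ℝ) + 4)) ≤ e / 4 := by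
        rw [← mul_div_assoc, div_le_div_iff₀ (by positivity) (by norm_num)]
        nlinarith [Nat.cast_nonneg (α := ℝ) E]
      calc (E : ℝ) * Real.log L ≤ E * (e / (4 * (E : ℝ) + 4) * L) := g5
        _ = (E : ℝ) * (e / (4 * (E : ℝ) + 4)) * L := by ring
        _ ≤ e / 4 * L := mul_le_mul_of_nonneg_right g6 hL0.le
    linarith
  have h3 := hth 1 0 le_rfl (by norm_num) (Bl E N : ℝ) hB2
  rw [Nat.floor_natCast, Nat.totient_one, Nat.cast_one, div_one, Real.one_rpow, mul_one,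
    pow_one] at h3
  have h4 := (abs_le.1 h3).1
  have h5 := C9l_theta (Bl E N) N (by omega)
  have h6 : ((Finset.Ioc N (Bl E N)).filter Nat.Prime).card = (QQl E N).card := rfl
  rw [h6] at h5
  -- `C B / log B <= (e/3) B`
  have h7 : C * (Bl E N : ℝ) / Real.log (Bl E N) ≤ e / 3 * Bl E N := by
    have h8 : C / Real.log (Bl E N) ≤ C / L :=
      div_le_div_of_nonneg_left hC.le hL0 hlBN
    have h9 : C / Real.log (Bl E N) ≤ e / 3 := by linarith
    calc C * (Bl E N : ℝ) / Real.log (Bl E N) = C / Real.log (Bl E N) * Bl E N := by ring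
      _ ≤ e / 3 * Bl E N := mul_le_mul_of_nonneg_right h9 hBpos.le
  -- `N log B <= (e/3) B`
  have h10 : (N : ℝ) * Real.log (Bl E N) ≤ e / 3 * Bl E N := by
    rw [div_le_iff₀ he] at hL6
    have g1 : (N : ℝ) * Real.log (Bl E N) ≤ N * ((1 + e / 4) * L) :=
      mul_le_mul_of_nonneg_left hlB1 (by linarith)
    have g2 : (1 + e / 4) * L ≤ e / 3 * (L ^ E / 2) := by
      have g3 : (1 + e / 4) * L ≤ e / 3 * (L ^ 2 / 2) := by
        have g4 : 6 * (1 + e) ≤ L * e := by linarith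
        have g5 : 6 * (1 + e) * L ≤ L * e * L := mul_le_mul_of_nonneg_right g4 hL0.le
        have g6 : 0 < e * L := mul_pos he hL0
        nlinarith
      refine g3.trans ?_
      exact mul_le_mul_of_nonneg_left (by linarith) (by linarith)
    calc (N : ℝ) * Real.log (Bl E N) ≤ N * ((1 + e / 4) * L) := g1
      _ ≤ N * (e / 3 * (L ^ E / 2)) := mul_le_mul_of_nonneg_left g2 (by linarith)
      _ = e / 3 * (N * L ^ E / 2) := by ring
      _ ≤ e / 3 * Bl E N := mul_le_mul_of_nonneg_left b2 (by linarith)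
  have hQ0 : (0 : ℝ) ≤ (QQl E N).card := Nat.cast_nonneg _
  by_cases he1 : 1 ≤ e
  · refine le_trans ?_ hQ0
    exact mul_nonpos_of_nonpos_of_nonneg (by linarith) (by positivity)
  push Not at he1
  have h11 : (1 - 2 * e / 3) * Bl E N ≤ (QQl E N).card * Real.log (Bl E N) := by linarith
  have h12 : (1 - e) * (1 + e / 4) ≤ 1 - 2 * e / 3 := by nlinarith
  have h13 : (1 - e) * ((Bl E N : ℝ) / L) * Real.log (Bl E N) ≤
      (QQl E N).card * Real.log (Bl E N) := by
    calc (1 - e) * ((Bl E N : ℝ) / L) * Real.log (Bl E N)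
        ≤ (1 - e) * ((Bl E N : ℝ) / L) * ((1 + e / 4) * L) := by
          refine mul_le_mul_of_nonneg_left hlB1 ?_
          exact mul_nonneg (by linarith) (by positivity)
      _ = (1 - e) * (1 + e / 4) * Bl E N := by
          field_simp
      _ ≤ (1 - 2 * e / 3) * Bl E N := mul_le_mul_of_nonneg_right h12 hBpos.le
      _ ≤ _ := h11
  exact le_of_mul_le_mul_right h13 hlB

end Pool.Agent.Lib.PL
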