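import Pool.Agent.Lib.MP_7b7e48_nt.PL.C6l
import Pool.Agent.Lib.MP_7b7e48_nt.PL.C9l
import Pool.Agent.Lib.MP_7b7e48_nt.PQ.C7m

/-!
# C8l: the constant is below 4

PROOF. `C7m` for `Q ⊆ QQl` (a subset of the primes of `(Z, B]`), `Z = pw N (1/4 + β/4) ≤ N`, `B = Bl E N`, and `C6l`: `Z² (N^(1/2-β) + 1) ≤ 2 N^(1 - β/2) ≤ B`; `log Z ≥ (1 - e)(1/4 + β/4) log N`;
`Z² + #X B N^(-β) (1 + log Z)³ ≤ e B/log N` (`#X ≤ N^(1/(5k)) ≤ N^(β/200)`). So `∑_q ‖∑_X a χ χ q‖² ≤ (1 + 3e) (4/(1+β)) (B/log N) ∑‖a‖²`. First part: `#P ≥ (1 - 1/k)(1 - e) B/log N` (`C9l`), so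
`T ≤ (1 + 3e)(4/(1+β))/((1-1/k)(1-e))`; `1/k ≤ β/40`; `4/(1+β) ≤ 4 - 3.99 β`, and with `e` small (`e = β/100`) `T ≤ (4 - 3.99β)(1 + 0.1 β) ≤ 4 - 2β`. Second part: the dual form
`∑_X ‖∑_{q∈Q} χ⁻¹(-q)‖² = #Q² ∑ ‖rho Q‖² ≤ #Q * (1+3e) 4/(1+β) (B/log N) ≤ #Q * 5 #QQl` (apply `C7m` with `T = 5 #QQl/#Q`, `Q` nonempty).
-/

set_option autoImplicit false

open Finset
open Pool.Agent.Lib.GT (Rough pr V)
open Pool.Agent.Lib.MP_45349e_nt.LS (lam)
open Pool.Agent.Lib.RG (RC LV rr SS PB sig)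

namespace Pool.Agent.Lib.PL

open Pool.Agent.Lib.PQ

private theorem c8l_floor (y : ℝ) (hy : 1 ≤ y) : y / 2 ≤ (⌊y⌋₊ : ℝ) := by
  have h1 : (1 : ℝ) ≤ (⌊y⌋₊ : ℝ) := by
    have : 1 ≤ ⌊y⌋₊ := by
      rw [Nat.one_le_floor_iff]
      exact hy
    exact_mod_cast this
  have h2 := Nat.lt_floor_add_one y
  linarith

/-- the numerical inequality -/
private theorem c8l_num (x : ℝ) (h0 : 0 < x) (h1 : x ≤ 1 / 1000) :
    4 / ((1 - x / 100) * (1 + x)) + x / 100 ≤ (4 - 2 * x) * ((1 - x / 40) * (1 - x / 100)) := by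
  have d1 : 0 < (1 - x / 100) * (1 + x) := by
    apply mul_pos <;> linarith
  have e1 : 4 / ((1 - x / 100) * (1 + x)) + x / 100 =
      (4 + x / 100 * ((1 - x / 100) * (1 + x))) / ((1 - x / 100) * (1 + x)) := by
    rw [eq_div_iff d1.ne', add_mul, div_mul_cancel₀ _ d1.ne']
  rw [e1, div_le_iff₀ d1]
  have h2 : 0 ≤ 1 / 1000 - x := by linarith
  have h3 : 0 ≤ x * (1 / 1000 - x) := mul_nonneg h0.le h2
  have h4 : 0 ≤ x ^ 2 * (1 / 1000 - x) := mul_nonneg (by positivity) h2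
  have h5 : 0 ≤ x ^ 3 * (1 / 1000 - x) := mul_nonneg (by positivity) h2
  have h6 : 0 ≤ x ^ 4 * (1 / 1000 - x) := mul_nonneg (by positivity) h2
  have h7 : 0 ≤ x ^ 5 := by positivity
  nlinarith

theorem C8l {k : ℕ} {β : ℝ} (hP : Par k β) (E : ℕ) (hE : 2 ≤ E) : ∃ N0 : ℕ, ∀ (N : ℕ) [NeZero N], N0 ≤ N →
    ∀ X : Finset (DirichletCharacter ℂ N), X.card ≤ pw N (1 / (5 * k)) →
    (∀ P : Finset ℕ, PSl k E N P → ∑ χ ∈ X, ‖rho P χ‖ ^ 2 ≤ 4 - 2 * β) ∧
    ∀ Q : Finset ℕ, Q ⊆ QQl E N → ∑ χ ∈ X, ‖∑ q ∈ Q, χ⁻¹ (-(q : ZMod N))‖ ^ 2 ≤ 5 * (QQl E N).card * Q.card := by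
  have hβ0 := hP.pos
  have hβ1 := hP.le
  have hβk := hP.big
  obtain ⟨Q0, hQ02, hspv⟩ := hP.spv
  have hk0 : (0 : ℝ) < k := by
    rcases Nat.eq_zero_or_pos k with h | h
    · rw [h] at hβk
      norm_num at hβk
    · exact_mod_cast h
  set e : ℝ := β / 100 with he
  have he0 : 0 < e := by positivity
  have he1 : e < 1 := by rw [he]; linarith
  set α : ℝ := 1 / 4 + β / 4 with hα
  have hα0 : 0 < α := by positivity
  have hα1 : α ≤ 1 := by rw [hα]; linarith
  obtain ⟨N1, hN1⟩ := C9l E hE e he0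
  obtain ⟨N2, hN2⟩ := sz_log 4 (16 / e) (β / 2) (by positivity)
  obtain ⟨N3, hN3⟩ : ∃ N3 : ℕ, Real.exp (Real.log 2 / (e * α)) ≤ N3 := exists_nat_ge _
  obtain ⟨N4, hN4⟩ := sz_Bl E
  refine ⟨max (max (max N1 N2) (max N3 3)) (max N4 Q0), fun N hNZ hN X hX => ?_⟩
  have hNN : N1 ≤ N ∧ N2 ≤ N ∧ N3 ≤ N ∧ 3 ≤ N ∧ N4 ≤ N ∧ Q0 ≤ N := by
    simp only [max_le_iff] at hN
    exact ⟨hN.1.1.1, hN.1.1.2, hN.1.2.1, hN.1.2.2, hN.2.1, hN.2.2⟩
  obtain ⟨hNN1, hNN2, hNN3, h3, hNN4, hNQ0⟩ := hNN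
  have hNr : (3 : ℝ) ≤ N := by exact_mod_cast h3
  have hN0 : (0 : ℝ) < N := by linarith
  have hN1r : (1 : ℝ) ≤ N := by linarith
  have hL1 : 1 ≤ Real.log N := by
    rw [Real.le_log_iff_exp_le hN0]
    have := Real.exp_one_lt_d9
    linarith
  have hL0 : 0 < Real.log N := by linarith
  have hL2 : Real.log 2 ≤ e * α * Real.log N := by
    have h4 : Real.log 2 / (e * α) ≤ Real.log N := by
      rw [Real.le_log_iff_exp_le hN0]
      exact le_trans hN3 (by exact_mod_cast hNN3)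
    rwa [div_le_iff₀ (by positivity), mul_comm] at h4
  have hbig := hN2 N hNN2
  -- the number Z
  set Z : ℕ := pw N α with hZ
  have hZup : (Z : ℝ) ≤ (N : ℝ) ^ α := Nat.floor_le (Real.rpow_nonneg hN0.le _)
  have hZlow : (N : ℝ) ^ α / 2 ≤ Z := c8l_floor _ (Real.one_le_rpow (by linarith) hα0.le)
  have hlogZ : (1 - e) * α * Real.log N ≤ Real.log Z := by
    have h4 : Real.log ((N : ℝ) ^ α / 2) ≤ Real.log Z :=
      Real.log_le_log (div_pos (Real.rpow_pos_of_pos hN0 _) (by norm_num)) hZlow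
    rw [Real.log_div (Real.rpow_pos_of_pos hN0 _).ne' (by norm_num), Real.log_rpow hN0] at h4
    nlinarith
  have hlogZpos : 0 < (1 - e) * α * Real.log N := by
    apply mul_pos (mul_pos _ hα0) hL0
    linarith
  have hlogZ0 : 0 < Real.log Z := lt_of_lt_of_le hlogZpos hlogZ
  have hZ2 : 2 ≤ Z := by
    by_contra hcon
    have : (Z : ℝ) ≤ 1 := by exact_mod_cast (by omega : Z ≤ 1)
    have h5 := Real.log_nonpos (Nat.cast_nonneg Z) this
    linarith
  have hZN : Z ≤ N := by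
    have h5 : (N : ℝ) ^ α ≤ N := by
      calc (N : ℝ) ^ α ≤ (N : ℝ) ^ (1 : ℝ) := Real.rpow_le_rpow_of_exponent_le (by linarith) hα1
        _ = N := Real.rpow_one _
    exact_mod_cast le_trans hZup h5
  have hlogZN : Real.log Z ≤ Real.log N :=
    Real.log_le_log (by exact_mod_cast (by omega : 0 < Z)) (by exact_mod_cast hZN)
  -- the number B
  obtain ⟨hB1, hB2, hB3⟩ := hN4 N hNN4
  set B : ℕ := Bl E N with hB
  have hBN : (N : ℝ) ≤ B := by exact_mod_cast hB1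
  have hB0 : (0 : ℝ) < B := by linarith
  have hZsq : (Z : ℝ) ^ 2 ≤ (N : ℝ) ^ (1 / 2 + β / 2) := by
    calc (Z : ℝ) ^ 2 ≤ ((N : ℝ) ^ α) ^ 2 := pow_le_pow_left₀ (Nat.cast_nonneg _) hZup 2
      _ = (N : ℝ) ^ (1 / 2 + β / 2) := by
          rw [← Real.rpow_natCast, ← Real.rpow_mul hN0.le]
          congr 1
          rw [hα]
          push_cast
          ring
  have hL4 : Real.log N ≤ Real.log N ^ 4 := le_self_pow₀ hL1 (by norm_num)
  have hp2 : 2 / e * Real.log N ≤ (N : ℝ) ^ (β / 2) := by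
    refine le_trans ?_ hbig
    have : 2 / e * Real.log N ≤ 16 / e * Real.log N := by
      apply mul_le_mul_of_nonneg_right _ hL0.le
      apply div_le_div_of_nonneg_right _ he0.le
      norm_num
    exact this.trans (mul_le_mul_of_nonneg_left hL4 (by positivity))
  have hp2' : (2 : ℝ) ≤ (N : ℝ) ^ (β / 2) := by
    refine le_trans ?_ hp2
    have : (2 : ℝ) ≤ 2 / e := by
      rw [le_div_iff₀ he0]
      linarith
    nlinarith
  have hCB : (Z : ℝ) ^ 2 * ((N : ℝ) ^ (1 / 2 - β) + 1) ≤ B := by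
    have h4 : (1 : ℝ) ≤ (N : ℝ) ^ (1 / 2 - β) := Real.one_le_rpow hN1r (by linarith)
    calc (Z : ℝ) ^ 2 * ((N : ℝ) ^ (1 / 2 - β) + 1) ≤
          (N : ℝ) ^ (1 / 2 + β / 2) * (2 * (N : ℝ) ^ (1 / 2 - β)) := by
          apply mul_le_mul hZsq (by linarith) (by positivity) (by positivity)
      _ ≤ (N : ℝ) ^ (1 / 2 + β / 2) * ((N : ℝ) ^ (β / 2) * (N : ℝ) ^ (1 / 2 - β)) := by
          apply mul_le_mul_of_nonneg_left _ (by positivity)
          apply mul_le_mul_of_nonneg_right hp2' (by positivity)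
      _ = (N : ℝ) ^ (1 : ℝ) := by
          rw [← Real.rpow_add hN0, ← Real.rpow_add hN0]
          congr 1
          ring
      _ = N := Real.rpow_one _
      _ ≤ B := hBN
  -- the error term
  have hXc : (X.card : ℝ) ≤ (N : ℝ) ^ (β / 200) := by
    have h4 : (X.card : ℝ) ≤ (pw N (1 / (5 * k)) : ℝ) := by exact_mod_cast hX
    refine le_trans h4 (le_trans (Nat.floor_le (Real.rpow_nonneg hN0.le _)) ?_)
    apply Real.rpow_le_rpow_of_exponent_le hN1r
    rw [div_le_div_iff₀ (by positivity) (by norm_num)]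
    linarith
  have herr : (Z : ℝ) ^ 2 + X.card * ((B : ℝ) * (N : ℝ) ^ (-β) * (1 + Real.log Z) ^ 3) ≤
      e * (B / Real.log N) := by
    have h4 : (Z : ℝ) ^ 2 ≤ e / 2 * (B / Real.log N) := by
      have h5 : (Z : ℝ) ^ 2 * (2 / e * Real.log N) ≤ B := by
        calc (Z : ℝ) ^ 2 * (2 / e * Real.log N) ≤ (N : ℝ) ^ (1 / 2 + β / 2) * (N : ℝ) ^ (β / 2) :=
              mul_le_mul hZsq hp2 (by positivity) (by positivity)
          _ = (N : ℝ) ^ (1 / 2 + β / 2 + β / 2) := (Real.rpow_add hN0 _ _).symm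
          _ ≤ (N : ℝ) ^ (1 : ℝ) := Real.rpow_le_rpow_of_exponent_le hN1r (by linarith)
          _ = N := Real.rpow_one _
          _ ≤ B := hBN
      have h6 : (Z : ℝ) ^ 2 * (2 / e * Real.log N) * (e / 2 / Real.log N) = (Z : ℝ) ^ 2 := by
        field_simp
      rw [← h6]
      calc (Z : ℝ) ^ 2 * (2 / e * Real.log N) * (e / 2 / Real.log N) ≤ B * (e / 2 / Real.log N) :=
            mul_le_mul_of_nonneg_right h5 (by positivity)
        _ = e / 2 * (B / Real.log N) := by ring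
    have h7 : (X.card : ℝ) * ((B : ℝ) * (N : ℝ) ^ (-β) * (1 + Real.log Z) ^ 3) ≤ e / 2 * (B / Real.log N) := by
      have h8 : (1 + Real.log Z) ^ 3 ≤ 8 * Real.log N ^ 3 := by
        calc (1 + Real.log Z) ^ 3 ≤ (2 * Real.log N) ^ 3 :=
              pow_le_pow_left₀ (by linarith) (by linarith) 3
          _ = 8 * Real.log N ^ 3 := by ring
      have h9 : (N : ℝ) ^ (β / 200) * (N : ℝ) ^ (-β) * (N : ℝ) ^ (β / 2) ≤ 1 := by
        rw [← Real.rpow_add hN0, ← Real.rpow_add hN0]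
        exact Real.rpow_le_one_of_one_le_of_nonpos hN1r (by linarith)
      have h10 : 8 * Real.log N ^ 3 ≤ e / 2 / Real.log N * (N : ℝ) ^ (β / 2) := by
        have h11 : e / 2 / Real.log N * (16 / e * Real.log N ^ 4) = 8 * Real.log N ^ 3 := by
          field_simp
          ring
        rw [← h11]
        exact mul_le_mul_of_nonneg_left hbig (by positivity)
      calc (X.card : ℝ) * ((B : ℝ) * (N : ℝ) ^ (-β) * (1 + Real.log Z) ^ 3)
          ≤ (N : ℝ) ^ (β / 200) * ((B : ℝ) * (N : ℝ) ^ (-β) * (e / 2 / Real.log N * (N : ℝ) ^ (β / 2))) := by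
            apply mul_le_mul hXc _ _ (by positivity)
            · exact mul_le_mul_of_nonneg_left (h8.trans h10) (by positivity)
            · have : 0 ≤ 1 + Real.log Z := by linarith
              positivity
        _ = e / 2 * (B / Real.log N) * ((N : ℝ) ^ (β / 200) * (N : ℝ) ^ (-β) * (N : ℝ) ^ (β / 2)) := by ring
        _ ≤ e / 2 * (B / Real.log N) * 1 := mul_le_mul_of_nonneg_left h9 (by positivity)
        _ = e / 2 * (B / Real.log N) := mul_one _
    linarith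
  set W : ℝ := B / Real.log N with hW
  have hW0 : 0 < W := by positivity
  set T0 : ℝ := (B : ℝ) / Real.log Z + (Z : ℝ) ^ 2 +
    X.card * ((B : ℝ) * (N : ℝ) ^ (-β) * (1 + Real.log Z) ^ 3) with hT0
  have hT0le : T0 ≤ W * (4 / ((1 - β / 100) * (1 + β)) + β / 100) := by
    have h4 : (B : ℝ) / Real.log Z ≤ W * (4 / ((1 - β / 100) * (1 + β))) := by
      calc (B : ℝ) / Real.log Z ≤ B / ((1 - e) * α * Real.log N) :=
            div_le_div_of_nonneg_left hB0.le hlogZpos hlogZ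
        _ = W * (4 / ((1 - β / 100) * (1 + β))) := by
            rw [hW, he, hα]
            have h5 : (1 - β / 100) ≠ 0 := by
              have : 0 < 1 - β / 100 := by linarith
              exact this.ne'
            have h6 : (1 + β) ≠ 0 := by
              have : 0 < 1 + β := by linarith
              exact this.ne'
            have h7 : (1 / 4 + β / 4 : ℝ) = (1 + β) / 4 := by ring
            rw [h7]
            field_simp
    have h5 : W * (4 / ((1 - β / 100) * (1 + β)) + β / 100) = W * (4 / ((1 - β / 100) * (1 + β))) + e * W := by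
      rw [he]
      ring
    rw [h5, hT0]
    linarith
  have hnum := c8l_num β hβ0 hβ1
  have hQc := hN1 N hNN1
  have hlarge : ∀ a : DirichletCharacter ℂ N → ℂ, ∀ Q : Finset ℕ, Q ⊆ QQl E N →
      ∑ q ∈ Q, ‖∑ χ ∈ X, a χ * χ (q : ZMod N)‖ ^ 2 ≤ T0 * ∑ χ ∈ X, ‖a χ‖ ^ 2 := by
    intro a Q hQ
    refine le_trans ?_ (C6l N (by omega) β (fun χ hχ y hy => hspv N hNQ0 hNZ χ hχ y hy) Z B hZ2 hCB X a)
    refine Finset.sum_le_sum_of_subset_of_nonneg ?_ (fun _ _ _ => by positivity)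
    intro q hq
    have h4 := hQ hq
    unfold QQl at h4
    rw [mem_filter, mem_Ioc] at h4 ⊢
    exact ⟨⟨by omega, h4.1.2⟩, h4.2⟩
  have hQQpos : (0 : ℝ) < (QQl E N).card := lt_of_lt_of_le (mul_pos (by linarith) hW0) hQc
  constructor
  · intro P hPS
    have hk1 : 1 / (k : ℝ) ≤ β / 40 := by
      rw [div_le_div_iff₀ hk0 (by norm_num)]
      linarith
    have hPc : (1 - β / 40) * ((1 - β / 100) * W) ≤ P.card := by
      refine le_trans ?_ hPS.big
      apply mul_le_mul (by linarith) _ _ (by linarith)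
      · rw [he] at hQc
        exact hQc
      · apply mul_nonneg _ hW0.le
        linarith
    have hPpos : (0 : ℝ) < P.card := lt_of_lt_of_le (by
      apply mul_pos _ (mul_pos _ hW0) <;> linarith) hPc
    have hPne : P.Nonempty := by
      rw [← Finset.card_pos]
      exact_mod_cast hPpos
    apply C7m P hPne X (4 - 2 * β) (by linarith)
    intro a
    refine (hlarge a P hPS.sub).trans ?_
    refine mul_le_mul_of_nonneg_right ?_ (Finset.sum_nonneg fun _ _ => by positivity)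
    calc T0 ≤ W * (4 / ((1 - β / 100) * (1 + β)) + β / 100) := hT0le
      _ ≤ W * ((4 - 2 * β) * ((1 - β / 40) * (1 - β / 100))) := mul_le_mul_of_nonneg_left hnum hW0.le
      _ = (4 - 2 * β) * ((1 - β / 40) * ((1 - β / 100) * W)) := by ring
      _ ≤ (4 - 2 * β) * P.card := mul_le_mul_of_nonneg_left hPc (by linarith)
  · intro Q hQ
    rcases Q.eq_empty_or_nonempty with h | h
    · rw [h]
      simp
    have hQpos : (0 : ℝ) < Q.card := by exact_mod_cast h.card_pos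
    have h4 := C7m Q h X (5 * (QQl E N).card / Q.card) (by positivity) (by
      intro a
      refine (hlarge a Q hQ).trans ?_
      refine mul_le_mul_of_nonneg_right ?_ (Finset.sum_nonneg fun _ _ => by positivity)
      rw [div_mul_cancel₀ _ hQpos.ne']
      have h5 : (4 - 2 * β) * ((1 - β / 40) * (1 - β / 100)) ≤ 4 * (1 - e) := by
        rw [he]
        have h6 : (1 - β / 40) * (1 - β / 100) ≤ 1 - β / 100 := by
          apply mul_le_of_le_one_left <;> linarith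
        calc (4 - 2 * β) * ((1 - β / 40) * (1 - β / 100)) ≤ 4 * ((1 - β / 40) * (1 - β / 100)) := by
              apply mul_le_mul_of_nonneg_right (by linarith)
              apply mul_nonneg <;> linarith
          _ ≤ 4 * (1 - β / 100) := mul_le_mul_of_nonneg_left h6 (by norm_num)
      calc T0 ≤ W * (4 / ((1 - β / 100) * (1 + β)) + β / 100) := hT0le
        _ ≤ W * (4 * (1 - e)) := mul_le_mul_of_nonneg_left (hnum.trans h5) hW0.le
        _ = 4 * ((1 - e) * W) := by ring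
        _ ≤ 4 * (QQl E N).card := mul_le_mul_of_nonneg_left hQc (by norm_num)
        _ ≤ 5 * (QQl E N).card := by linarith)
    have h7 : ∀ χ : DirichletCharacter ℂ N, ‖∑ q ∈ Q, χ⁻¹ (-(q : ZMod N))‖ ^ 2 = (Q.card : ℝ) ^ 2 * ‖rho Q χ‖ ^ 2 := by
      intro χ
      unfold rho
      rw [norm_div, Complex.norm_natCast, div_pow]
      field_simp
    calc ∑ χ ∈ X, ‖∑ q ∈ Q, χ⁻¹ (-(q : ZMod N))‖ ^ 2 = (Q.card : ℝ) ^ 2 * ∑ χ ∈ X, ‖rho Q χ‖ ^ 2 := by
          rw [Finset.mul_sum]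
          exact Finset.sum_congr rfl fun χ _ => h7 χ
      _ ≤ (Q.card : ℝ) ^ 2 * (5 * (QQl E N).card / Q.card) := mul_le_mul_of_nonneg_left h4 (by positivity)
      _ = 5 * (QQl E N).card * Q.card := by
          field_simp

end Pool.Agent.Lib.PL
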