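import Pool.Agent.Lib.MP_7b7e48_nt.PQ.Defs

/-!
# PL: a prime plus an almost prime of prescribed parity, multiples `k N` with `k ≤ (log N)^C`. Definitions.

Paper proof: `/team-store/PBL_PROOF.md`. Everything of `PQ/Defs.lean` which does not mention the parameter `k` is reused.
Parameters: `k S E T : ℕ`, `β c : ℝ`. `β` is the exponent of the sub Polya-Vinogradov bound (`SPVB β`), `40 ≤ β k`, `z = pw N c` the
roughness of the long factors, `M = pl N S = ⌊(log N)^S⌋` the size of the small primes `PPl`, `Bl E N = ⌊N (log N)^E⌋` the size of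
everything, `T` the exponent for the set `XXl` of exceptional characters.
-/

set_option autoImplicit false

open Finset
open Pool.Agent.Lib.GT (Rough pr V)
open Pool.Agent.Lib.MP_45349e_nt.LS (lam)
open Pool.Agent.Lib.RG (RC LV rr SS PB sig)

namespace Pool.Agent.Lib.PL

open Pool.Agent.Lib.PQ

/-- the sub Polya-Vinogradov bound with exponent `β` -/
def SPVB (β : ℝ) : Prop := ∃ Q0 : ℕ, 2 ≤ Q0 ∧ ∀ q : ℕ, Q0 ≤ q → ∀ _hq : NeZero q,
    ∀ χ : DirichletCharacter ℂ q, χ ≠ 1 → ∀ y : ℕ, (q : ℝ) ^ (1 / 2 - β) ≤ y →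
    ‖∑ n ∈ Finset.Icc 1 y, χ ((n : ℕ) : ZMod q)‖ ≤ y * (q : ℝ) ^ (-β)

/-- the basic parameters -/
structure Par (k : ℕ) (β : ℝ) : Prop where
  pos : 0 < β
  le : β ≤ 1 / 1000
  big : 40 ≤ β * k
  spv : SPVB β

/-- `(log N)^S`, rounded down -/
noncomputable def pl (N S : ℕ) : ℕ := ⌊Real.log N ^ S⌋₊

/-- `N (log N)^E`, rounded down -/
noncomputable def Bl (E N : ℕ) : ℕ := ⌊(N : ℝ) * Real.log N ^ E⌋₊

/-- lower end of the range of the long variables: half of the square root of `N` -/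
noncomputable def A0l (N : ℕ) : ℕ := pw N (1 / 2) / 2

/-- the rough numbers in `(A0l, 2 A0l]` coprime to `N` -/
noncomputable def R0l (c : ℝ) (N : ℕ) : Finset ℕ := RS N (pw N c) (A0l N) (2 * A0l N)

/-- the logarithmic weights on `R0l` -/
noncomputable def w0l (c : ℝ) (N : ℕ) : ℕ → ℝ := wt (R0l c N)

open Classical in
/-- the small primes: `(M/2, M]`, not dividing `N`, `M = (log N)^S` -/
noncomputable def PPl (S N : ℕ) : Finset ℕ :=
  (Finset.Ioc (pl N S / 2) (pl N S)).filter fun l => l.Prime ∧ ¬ l ∣ N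

/-- the primes in `(N, Bl]` -/
noncomputable def QQl (E N : ℕ) : Finset ℕ := (Finset.Ioc N (Bl E N)).filter Nat.Prime

open Classical in
/-- the characters with a large average over `PPl` -/
noncomputable def XXl (T S N : ℕ) [NeZero N] : Finset (DirichletCharacter ℂ N) :=
  Finset.univ.filter fun χ => (Real.log N ^ T)⁻¹ ≤ ‖av (PPl S N) (fun l => l) χ‖

/-- the integers of `(A0l, 2 A0l]` coprime to `N` -/
noncomputable def MMl (N : ℕ) : Finset ℕ := (Finset.Ioc (A0l N) (2 * A0l N)).filter fun m => m.Coprime N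

/-- total sieve mass -/
noncomputable def ZWl (N : ℕ) (D : Finset ℕ) : ℝ := ∑ m ∈ MMl N, WD D m / m

/-- number of prime factors allowed for a `pw N c`-rough number `≤ N` -/
noncomputable def Jc (c : ℝ) : ℕ := ⌈1 / c⌉₊ + 1

/-- the hypothesis which is refuted -/
def HPl (N B w J : ℕ) (P : Finset ℕ) (t : ℝ) : Prop := ∀ p ∈ P, ∀ b : ℕ, N < b → b ≤ B → Rough w b →
  ArithmeticFunction.cardFactors b ≤ J → N ∣ p + b → lam b = t

/-- `P` consists of primes in `(N, Bl]` and contains all but the proportion `1 / k` of them -/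
structure PSl (k E N : ℕ) (P : Finset ℕ) : Prop where
  sub : P ⊆ QQl E N
  big : (1 - 1 / (k : ℝ)) * (QQl E N).card ≤ P.card

/-- the conditions on a set `Q` of primes, multipliers `m j`, `j ∈ J`, and a set `X` of characters -/
structure QJl (N E T : ℕ) {ι : Type} (Q : Finset ℕ) (J : Finset ι) (m : ι → ℕ)
    (X : Finset (DirichletCharacter ℂ N)) : Prop where
  qp : ∀ q ∈ Q, q.Prime ∧ N < q ∧ q ≤ Bl E N
  qc : (Bl E N : ℝ) / (8 * Real.log N) ≤ Q.card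
  j0 : J.Nonempty
  jc : ∀ j ∈ J, (m j).Coprime N
  xj : ∀ χ : DirichletCharacter ℂ N, χ ∉ X → ‖av J m χ‖ ≤ 4 * (Real.log N ^ T)⁻¹

/-- the conditions on the multipliers for the sieve hypothesis -/
structure MJl (N S E : ℕ) {ι : Type} (J : Finset ι) (m : ι → ℕ) (s : ℝ) : Prop where
  rough : ∀ j ∈ J, Rough (pl N S / 2) (m j)
  om : ∀ j ∈ J, ArithmeticFunction.cardFactors (m j) ≤ 2
  lam : ∀ j ∈ J, lam (m j) = s
  low : ∀ j ∈ J, N < m j * A0l N ^ 2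
  upp : ∀ j ∈ J, m j * N ≤ Bl E N

/-- a weight system `a` on a set `U` of rough integers of size about the square root of `N` -/
structure USl (c : ℝ) (ae N : ℕ) (U : Finset ℕ) (a : ℕ → ℝ) (U0 : ℕ) : Prop where
  mem : ∀ u ∈ U, U0 < u ∧ u ≤ 4 * U0 ∧ u.Coprime N ∧ Rough (pw N c) u
  bnd : ∀ u ∈ U, 0 ≤ a u ∧ a u ≤ Real.log N ^ 2
  big : (U0 : ℝ) ≤ Real.log N ^ ae * ∑ u ∈ U, a u
  low : N < (8 * U0) ^ 2
  upp : (4 * U0) ^ 2 ≤ N

/-- weighted number of the solutions of `q + u l m = 0` modulo `N` -/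
noncomputable def SCl (N : ℕ) (Q U L M : Finset ℕ) (a f : ℕ → ℝ) : ℝ :=
  ∑ q ∈ Q, ∑ u ∈ U, ∑ l ∈ L, ∑ m ∈ M, if N ∣ q + u * l * m then a u * f m else 0

/-- the expected value for the sieve weights, without the number of the `q` -/
noncomputable def EXl (N : ℕ) (D U L : Finset ℕ) (a : ℕ → ℝ) : ℝ :=
  (∑ u ∈ U, a u) * L.card * ZWl N D / N.totient

/-- the sign hypothesis -/
def SHl (c : ℝ) (ae N : ℕ) (c₀ : ℕ → ℝ) (b : ℝ) : Prop :=
  ∀ (U : Finset ℕ) (a : ℕ → ℝ) (U0 : ℕ) (s : ℝ), USl c ae N U a U0 → (∀ u ∈ U, 0 < a u ∧ lam u * c₀ u = s) → s = b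

/-- in every dyadic block up to `N ^ (1/2 - 1/k)` one sign is rare -/
def OneSignl (k : ℕ) (c : ℝ) (a1 N : ℕ) (c₀ : ℕ → ℝ) : Prop :=
  ∀ j : ℕ, (2 : ℝ) ^ (j + 1) ≤ (N : ℝ) ^ ((1 : ℝ) / 2 - 1 / k) →
    ∃ s : ℝ, (s = 1 ∨ s = -1) ∧ ((RJ N (pw N c) c₀ j (-s)).card : ℝ) ≤ 2 ^ j * (Real.log N ^ a1)⁻¹

/-- the sign of the block `j` is `s j`, and the signs are multiplicative -/
structure SGl (k : ℕ) (c : ℝ) (a1 N : ℕ) (c₀ : ℕ → ℝ) (s : ℕ → ℝ) : Prop where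
  pm : ∀ j : ℕ, s j = 1 ∨ s j = -1
  rare : ∀ j : ℕ, (2 : ℝ) ^ (j + 1) ≤ (N : ℝ) ^ ((1 : ℝ) / 2 - 1 / k) →
    ((RJ N (pw N c) c₀ j (-(s j))).card : ℝ) ≤ 2 ^ j * (Real.log N ^ a1)⁻¹
  mul : ∀ i j : ℕ, pw N c ≤ 2 ^ i → pw N c ≤ 2 ^ j →
    (2 : ℝ) ^ (i + j + 2) ≤ (N : ℝ) ^ ((1 : ℝ) / 2 - 1 / k) →
    s (i + j) = s i * s j ∧ s (i + j + 1) = s i * s j

/-- the assumptions on the real character and its value at `1` -/
structure Sitl (B N : ℕ) (β : ℝ) (c₀ : ℕ → ℝ) (L : ℝ) : Prop where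
  rc : RC N c₀
  lv : LV N c₀ L
  low : (Real.log N ^ B)⁻¹ ≤ L
  spv : ∀ y : ℕ, (N : ℝ) ^ (1 / 2 - β) ≤ y → |∑ n ∈ Finset.Icc 1 y, c₀ n| ≤ y * (N : ℝ) ^ (-β)

end Pool.Agent.Lib.PL
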