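import Pool.Agent.Lib.MP_7b7e48_nt.PL.C4v

/-!
# E2bl: the sum over `m` with sieve weights, nonprincipal character

PROOF. Adapt `PQ/E2b.lean`. The `m ∈ (A0l, 2 A0l]` not coprime to `N` contribute `0`; expand `WD D m`, exchange: `∑_{d ∈ D} μ(d) ∑_{d ∣ m} χ m/m`, `C4v` for every `d ∈ D` (`DD.size`), `|μ(d)| ≤ 1`;
`#D ≤ N^(1/(20k))` because `D ⊆ [1, N^(1/(20k))]`.
-/

set_option autoImplicit false

open Finset
open Pool.Agent.Lib.GT (Rough pr V)
open Pool.Agent.Lib.MP_45349e_nt.LS (lam)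
open Pool.Agent.Lib.RG (RC LV rr SS PB sig)

namespace Pool.Agent.Lib.PL

open Pool.Agent.Lib.PQ

theorem E2bl {k : ℕ} {β : ℝ} (hP : Par k β) : ∃ N0 : ℕ, ∀ (N : ℕ) [NeZero N], N0 ≤ N →
    ∀ (c : ℝ) (D : Finset ℕ), DD k c N D → ∀ χ : DirichletCharacter ℂ N, χ ≠ 1 →
    ‖∑ m ∈ MMl N, ((WD D m / m : ℝ) : ℂ) * χ (m : ZMod N)‖ ≤ (N : ℝ) ^ ((1 : ℝ) / (20 * k)) * (4 * (N : ℝ) ^ (-β)) := by
  classical
  obtain ⟨N1, h1⟩ := C4v hP
  refine ⟨max N1 1, fun N _ hN c D hD χ hχ => ?_⟩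
  have hchar := h1 N ((le_max_left _ _).trans hN)
  have hNR : (1 : ℝ) ≤ N := by exact_mod_cast (le_max_right _ _).trans hN
  set Y : ℝ := (N : ℝ) ^ ((1 : ℝ) / (20 * k)) with hYd
  have hY0 : 0 ≤ Y := by positivity
  have hcard : (D.card : ℝ) ≤ Y := by
    have h1 : D ⊆ Finset.Icc 1 ⌊Y⌋₊ := by
      intro d hd
      obtain ⟨h4, h5⟩ := hD.size d hd
      rw [mem_Icc]
      exact ⟨h4, Nat.le_floor h5⟩
    have h4 := card_le_card h1
    rw [Nat.card_Icc, Nat.add_sub_cancel] at h4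
    have h5 : ((⌊Y⌋₊ : ℕ) : ℝ) ≤ Y := Nat.floor_le hY0
    have h6 : (D.card : ℝ) ≤ ((⌊Y⌋₊ : ℕ) : ℝ) := by exact_mod_cast h4
    linarith
  have h1 : ∑ m ∈ MMl N, ((WD D m / m : ℝ) : ℂ) * χ (m : ZMod N) =
      ∑ m ∈ Finset.Ioc (A0l N) (2 * A0l N), ((WD D m / m : ℝ) : ℂ) * χ (m : ZMod N) := by
    unfold MMl
    rw [Finset.sum_filter]
    refine Finset.sum_congr rfl fun m _ => ?_
    split_ifs with h
    · rfl
    · have hu : ¬ IsUnit (m : ZMod N) := fun hu => h ((ZMod.isUnit_iff_coprime m N).1 hu)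
      rw [χ.map_nonunit hu, mul_zero]
  have h2 : ∑ m ∈ Finset.Ioc (A0l N) (2 * A0l N), ((WD D m / m : ℝ) : ℂ) * χ (m : ZMod N) =
      ∑ d ∈ D, (ArithmeticFunction.moebius d : ℂ) *
        ∑ m ∈ (Finset.Ioc (A0l N) (2 * A0l N)).filter (fun m => d ∣ m), χ (m : ZMod N) / (m : ℂ) := by
    have h3 : ∀ m : ℕ, ((WD D m / m : ℝ) : ℂ) * χ (m : ZMod N) =
        ∑ d ∈ D, (if d ∣ m then (ArithmeticFunction.moebius d : ℂ) * (χ (m : ZMod N) / (m : ℂ)) else 0) := by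
      intro m
      unfold WD
      rw [Finset.sum_filter]
      push_cast
      rw [Finset.sum_div, Finset.sum_mul]
      refine Finset.sum_congr rfl fun d _ => ?_
      split_ifs
      · push_cast
        ring
      · push_cast
        ring
    rw [Finset.sum_congr rfl fun m _ => h3 m, Finset.sum_comm]
    refine Finset.sum_congr rfl fun d _ => ?_
    rw [Finset.mul_sum, Finset.sum_filter]
  rw [h1, h2]
  refine (norm_sum_le _ _).trans ?_
  have h4 : ∀ d ∈ D, ‖(ArithmeticFunction.moebius d : ℂ) *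
      ∑ m ∈ (Finset.Ioc (A0l N) (2 * A0l N)).filter (fun m => d ∣ m), χ (m : ZMod N) / (m : ℂ)‖ ≤
        4 * (N : ℝ) ^ (-β) := by
    intro d hd
    rw [norm_mul]
    have h5 : ‖(ArithmeticFunction.moebius d : ℂ)‖ ≤ 1 := by
      rw [Complex.norm_intCast]
      exact_mod_cast ArithmeticFunction.abs_moebius_le_one
    exact (mul_le_of_le_one_left (norm_nonneg _) h5).trans (hchar χ hχ d (hD.size d hd).1 (hD.size d hd).2)
  refine (Finset.sum_le_sum h4).trans ?_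
  rw [Finset.sum_const, nsmul_eq_mul]
  exact mul_le_mul_of_nonneg_right hcard (by positivity)

end Pool.Agent.Lib.PL
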