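import Pool.Agent.Lib.MP_7b7e48_nt.PL.TAU
import Pool.Agent.Lib.MP_7b7e48_nt.PL.N1
import Pool.Agent.Lib.MP_7b7e48_nt.PQ.B2m
import Pool.Agent.Lib.MP_7b7e48_nt.RG.PV
import Pool.Agent.Lib.MP_7b7e48_nt.RG.CHA

/-!
# E2cl: mean square of the product of the sums over `u` and `m`

PROOF. `(∑_u a u χ u)(∑_m f m χ m) = ∑_{n} r(n) χ(n)`, `r(n) = ∑_{u m = n} a u f m`; all `n = u m ≤ 4 U0 * 2 A0l ≤ N` (`upp`, `sz_A0`), coprime to `N`, so `n < N` and different `n` are different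
classes: the left side is `φ(N) ∑_n |r(n)|²` (orthogonality: `∑_χ χ x conj (χ y) = φ(N) 1[x = y]`; dual of `B2m`, compare `PQ/E2c.lean`). The number of pairs `(u,m)` with `u m = n` is at most the number
of `pw N c`-rough divisors of `n`, they divide the rough part `n'` of `n` (product of `p^v_p` over the primes `> pw N c`), `Ω(n') ≤ Jc c` (`sz_om`), so there are at most `2^(Jc c)`. Cauchy-Schwarz:
`∑_n |r(n)|² ≤ 2^Jc ∑_{u,m} a u² f m² ≤ 2^Jc (log N)² (∑ a) ∑_m f m²`, `f m² ≤ 4 τ(m)²/A0l²`, `∑_{m ≤ 2A0l} τ(m)² ≤ 2 A0l (1 + log N)³` (`tau_sq`). So the left side is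
`≤ N 2^Jc (log N)² (∑a) 8 (2 log N)³/A0l`, and `N/A0l ≤ 3 √N ≤ 24 U0 ≤ 24 (log N)^ae ∑ a` (`sz_A0`, `low`, `big`). Total `≤ C (log N)^(ae+5) (∑a)² ≤ (log N)^(ae+8) (∑a)²` for large `N`.
-/

set_option autoImplicit false

open Finset
open Pool.Agent.Lib.GT (Rough pr V)
open Pool.Agent.Lib.MP_45349e_nt.LS (lam)
open Pool.Agent.Lib.RG (RC LV rr SS PB sig)

namespace Pool.Agent.Lib.PL

open Pool.Agent.Lib.PQ

/-- Parseval for a real function on the units -/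
private theorem e2cl_pars (N : ℕ) [NeZero N] (G : ZMod N → ℝ) (h0 : ∀ x, ¬ IsUnit x → G x = 0) :
    ∑ χ : DirichletCharacter ℂ N, ‖∑ x : ZMod N, (G x : ℂ) * χ x‖ ^ 2 =
      (N.totient : ℝ) * ∑ x : ZMod N, (G x) ^ 2 := by
  have h1 := Pool.Agent.Lib.RG.chParsF (N := N) (fun x => (G x : ℂ)) (fun x hx => by rw [h0 x hx]; simp)
  have hphi : (0 : ℝ) < (N.totient : ℝ) := Pool.Agent.Lib.RG.phi_pos (N := N)
  have h2 : ∀ χ : DirichletCharacter ℂ N, ‖∑ x : ZMod N, (G x : ℂ) * χ x‖ ^ 2 =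
      (N.totient : ℝ) ^ 2 * ‖Pool.Agent.Lib.RG.bch (fun x => (G x : ℂ)) χ‖ ^ 2 := by
    intro χ
    unfold Pool.Agent.Lib.RG.bch
    rw [norm_mul, norm_inv, Complex.norm_natCast]
    have h3 : ‖∑ y : ZMod N, (G y : ℂ) * (starRingEnd ℂ) (χ y)‖ = ‖∑ x : ZMod N, (G x : ℂ) * χ x‖ := by
      rw [← Complex.norm_conj (∑ x : ZMod N, (G x : ℂ) * χ x)]
      congr 1
      rw [map_sum]
      refine sum_congr rfl fun y _ => ?_
      rw [map_mul, Complex.conj_ofReal]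
    rw [h3, mul_pow, inv_pow]
    field_simp
  simp_rw [h2]
  rw [← mul_sum]
  have h4 : ∑ x : ZMod N, ‖((G x : ℝ) : ℂ)‖ ^ 2 = ∑ x : ZMod N, (G x) ^ 2 := by
    refine sum_congr rfl fun x _ => ?_
    rw [Complex.norm_real, Real.norm_eq_abs, sq_abs]
  rw [h4] at h1
  rw [h1]
  ring

/-- the number of rough divisors -/
private theorem e2cl_rough (z J n : ℕ) (hn : 1 ≤ n)
    (hJ : ∀ m : ℕ, 1 ≤ m → m ≤ n → Rough z m → ArithmeticFunction.cardFactors m ≤ J)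
    (U : Finset ℕ) (hU : ∀ u ∈ U, Rough z u) : (U.filter (fun u => u ∣ n)).card ≤ 2 ^ J := by
  classical
  set D := U.filter (fun u => u ∣ n) with hD
  set n' := D.lcm id with hn'
  have h1 : n' ∣ n := Finset.lcm_dvd fun u hu => (mem_filter.1 hu).2
  have h2 : 1 ≤ n' := Nat.pos_of_dvd_of_pos h1 hn
  have h3 : n' ≤ n := Nat.le_of_dvd hn h1
  have h4 : Rough z n' := by
    intro p hp hpn
    have h5 : n' ∣ ∏ u ∈ D, u := Finset.lcm_dvd fun u hu => Finset.dvd_prod_of_mem _ hu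
    obtain ⟨u, hu, hpu⟩ := (hp.prime.dvd_finsetProd_iff _).1 (hpn.trans h5)
    exact hU u (mem_filter.1 hu).1 p hp hpu
  have h5 : D ⊆ n'.divisors := by
    intro u hu
    rw [Nat.mem_divisors]
    exact ⟨Finset.dvd_lcm (f := id) hu, by omega⟩
  refine (Finset.card_le_card h5).trans ?_
  have h6 := hJ n' h2 h3 h4
  refine le_trans ?_ (Nat.pow_le_pow_right (by norm_num) h6)
  rw [Nat.card_divisors (by omega), ArithmeticFunction.cardFactors_eq_sum_factorization, Finsupp.sum,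
    Nat.support_factorization, ← Finset.prod_pow_eq_pow_sum]
  refine Finset.prod_le_prod' fun p _ => ?_
  exact Nat.lt_two_pow_self

/-- the mean square over the classes -/
private theorem e2cl_sq (N : ℕ) [NeZero N] (U M : Finset ℕ) (a f : ℕ → ℝ) (R : ℕ)
    (hlt : ∀ u ∈ U, ∀ m ∈ M, u * m < N) (hU1 : ∀ u ∈ U, 1 ≤ u) (hM1 : ∀ m ∈ M, 1 ≤ m)
    (hcard : ∀ n : ℕ, 1 ≤ n → n < N → (U.filter (fun u => u ∣ n)).card ≤ R) :
    ∑ x : ZMod N, (∑ u ∈ U, ∑ m ∈ M, if (u : ZMod N) * (m : ZMod N) = x then a u * f m else 0) ^ 2 ≤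
      R * ∑ u ∈ U, ∑ m ∈ M, (a u * f m) ^ 2 := by
  classical
  set T : ZMod N → Finset (ℕ × ℕ) := fun x => (U ×ˢ M).filter (fun y => (y.1 : ZMod N) * (y.2 : ZMod N) = x) with hT
  have h1 : ∀ x : ZMod N, (∑ u ∈ U, ∑ m ∈ M, if (u : ZMod N) * (m : ZMod N) = x then a u * f m else 0) =
      ∑ y ∈ T x, a y.1 * f y.2 := by
    intro x
    rw [hT]
    simp only
    rw [sum_filter, sum_product]
  have h2 : ∀ x : ZMod N, (T x).card ≤ R := by
    intro x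
    rcases Finset.eq_empty_or_nonempty (T x) with h | h
    · rw [h]
      simp
    obtain ⟨y, hy⟩ := h
    have hmem : ∀ y ∈ T x, y.1 ∈ U ∧ y.2 ∈ M ∧ y.1 * y.2 = x.val := by
      intro y hy
      rw [hT, mem_filter, mem_product] at hy
      refine ⟨hy.1.1, hy.1.2, ?_⟩
      have h3 := hlt _ hy.1.1 _ hy.1.2
      rw [← hy.2, ← Nat.cast_mul, ZMod.val_natCast, Nat.mod_eq_of_lt h3]
    obtain ⟨hy1, hy2, hy3⟩ := hmem y hy
    have h4 : 1 ≤ x.val := by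
      rw [← hy3]
      exact Nat.mul_pos (hU1 _ hy1) (hM1 _ hy2)
    refine le_trans ?_ (hcard x.val h4 (ZMod.val_lt x))
    refine card_le_card_of_injOn (fun y => y.1) ?_ ?_
    · intro w hw
      obtain ⟨hw1, hw2, hw3⟩ := hmem w hw
      rw [mem_coe, mem_filter]
      exact ⟨hw1, ⟨w.2, hw3.symm⟩⟩
    · intro w hw w' hw' hww
      obtain ⟨hw1, hw2, hw3⟩ := hmem w hw
      obtain ⟨hw1', hw2', hw3'⟩ := hmem w' hw'
      simp only at hww
      have h5 : w.1 * w.2 = w.1 * w'.2 := by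
        rw [hw3, hww, hw3']
      have h6 : w.2 = w'.2 := Nat.eq_of_mul_eq_mul_left (hU1 _ hw1) h5
      exact Prod.ext hww h6
  have h3 : ∀ x : ZMod N, (∑ u ∈ U, ∑ m ∈ M, if (u : ZMod N) * (m : ZMod N) = x then a u * f m else 0) ^ 2 ≤
      R * ∑ y ∈ T x, (a y.1 * f y.2) ^ 2 := by
    intro x
    rw [h1 x]
    refine sq_sum_le_card_mul_sum_sq.trans ?_
    refine mul_le_mul_of_nonneg_right ?_ (sum_nonneg fun _ _ => sq_nonneg _)
    exact_mod_cast h2 x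
  refine (sum_le_sum fun x _ => h3 x).trans (le_of_eq ?_)
  rw [← mul_sum]
  congr 1
  rw [hT]
  simp only
  rw [Finset.sum_fiberwise (s := U ×ˢ M) (g := fun y : ℕ × ℕ => (y.1 : ZMod N) * (y.2 : ZMod N))
    (f := fun y => (a y.1 * f y.2) ^ 2), sum_product]

/-- the product of the two sums, abstract -/
private theorem e2cl_core (N : ℕ) [NeZero N] (U M : Finset ℕ) (a f : ℕ → ℝ) (R : ℕ)
    (hU : ∀ u ∈ U, u.Coprime N) (hM : ∀ m ∈ M, m.Coprime N)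
    (hlt : ∀ u ∈ U, ∀ m ∈ M, u * m < N) (hU1 : ∀ u ∈ U, 1 ≤ u) (hM1 : ∀ m ∈ M, 1 ≤ m)
    (hcard : ∀ n : ℕ, 1 ≤ n → n < N → (U.filter (fun u => u ∣ n)).card ≤ R) :
    ∑ χ : DirichletCharacter ℂ N, ‖(∑ u ∈ U, (a u : ℂ) * χ (u : ZMod N)) *
      ∑ m ∈ M, ((f m : ℝ) : ℂ) * χ (m : ZMod N)‖ ^ 2 ≤
      (N.totient : ℝ) * (R * ((∑ u ∈ U, a u ^ 2) * ∑ m ∈ M, f m ^ 2)) := by
  classical
  set G : ZMod N → ℝ := fun x => ∑ u ∈ U, ∑ m ∈ M, (if (u : ZMod N) * (m : ZMod N) = x then a u * f m else 0)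
    with hG
  have h0 : ∀ x, ¬ IsUnit x → G x = 0 := by
    intro x hx
    rw [hG]
    refine sum_eq_zero fun u hu => sum_eq_zero fun m hm => ?_
    rw [if_neg]
    intro h
    apply hx
    rw [← h]
    exact ((ZMod.isUnit_iff_coprime u N).mpr (hU u hu)).mul ((ZMod.isUnit_iff_coprime m N).mpr (hM m hm))
  have h1 : ∀ χ : DirichletCharacter ℂ N, (∑ u ∈ U, (a u : ℂ) * χ (u : ZMod N)) *
      ∑ m ∈ M, ((f m : ℝ) : ℂ) * χ (m : ZMod N) = ∑ x : ZMod N, (G x : ℂ) * χ x := by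
    intro χ
    rw [Finset.sum_mul_sum]
    have h2 : ∀ x : ZMod N, ((G x : ℝ) : ℂ) * χ x = ∑ u ∈ U, ∑ m ∈ M,
        (if (u : ZMod N) * (m : ZMod N) = x then (a u : ℂ) * (f m : ℂ) * χ x else 0) := by
      intro x
      rw [hG]
      push_cast
      rw [sum_mul]
      refine sum_congr rfl fun u _ => ?_
      rw [sum_mul]
      refine sum_congr rfl fun m _ => ?_
      split_ifs
      · push_cast
        ring
      · simp
    simp_rw [h2]
    symm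
    rw [sum_comm]
    refine sum_congr rfl fun u _ => ?_
    rw [sum_comm]
    refine sum_congr rfl fun m _ => ?_
    rw [sum_ite_eq]
    simp only [mem_univ, if_true]
    rw [map_mul]
    ring
  simp_rw [h1]
  rw [e2cl_pars N G h0]
  refine mul_le_mul_of_nonneg_left ?_ (Nat.cast_nonneg _)
  refine (e2cl_sq N U M a f R hlt hU1 hM1 hcard).trans (le_of_eq ?_)
  rw [sum_mul_sum]
  congr 1
  refine sum_congr rfl fun u _ => sum_congr rfl fun m _ => ?_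
  ring

theorem E2cl (c : ℝ) (hc : 0 < c) (ae : ℕ) : ∃ N0 : ℕ, ∀ (N : ℕ) [NeZero N], N0 ≤ N →
    ∀ (U : Finset ℕ) (a f : ℕ → ℝ) (U0 : ℕ), USl c ae N U a U0 →
    (∀ m ∈ MMl N, |f m| ≤ 2 * ((m.divisors.card : ℕ) : ℝ) / m) →
    ∑ χ : DirichletCharacter ℂ N, ‖(∑ u ∈ U, (a u : ℂ) * χ (u : ZMod N)) *
      ∑ m ∈ MMl N, ((f m : ℝ) : ℂ) * χ (m : ZMod N)‖ ^ 2 ≤
      (∑ u ∈ U, a u) ^ 2 * Real.log N ^ (ae + 8) := by
  classical
  obtain ⟨N1, hN1⟩ := sz_A0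
  obtain ⟨N2, hN2⟩ := sz_om c hc
  have hlog : ∀ᶠ N : ℕ in Filter.atTop, max 1 (1536 * (2 : ℝ) ^ (Jc c)) ≤ Real.log N :=
    (Real.tendsto_log_atTop.comp tendsto_natCast_atTop_atTop).eventually_ge_atTop _
  obtain ⟨N3, hN3⟩ := Filter.eventually_atTop.mp hlog
  refine ⟨max (max N1 N2) (max N3 2), ?_⟩
  intro N _ hN U a f U0 hUS hf
  have hNs : N1 ≤ N ∧ N2 ≤ N ∧ N3 ≤ N ∧ 2 ≤ N := by
    simp only [max_le_iff] at hN
    exact ⟨hN.1.1, hN.1.2, hN.2.1, hN.2.2⟩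
  obtain ⟨hn1, hn2, hn3, hn4⟩ := hNs
  obtain ⟨hA1, hA2, hA3, hA4⟩ := hN1 N hn1
  have hK := hN3 N hn3
  set K : ℝ := Real.log N with hKdef
  have hK1 : 1 ≤ K := le_trans (le_max_left _ _) hK
  have hK2 : 1536 * (2 : ℝ) ^ (Jc c) ≤ K := le_trans (le_max_right _ _) hK
  have hK0 : 0 < K := by linarith
  set A := A0l N with hAdef
  have hMM : ∀ m ∈ MMl N, A < m ∧ m ≤ 2 * A ∧ m.Coprime N := by
    intro m hm
    unfold MMl at hm
    rw [mem_filter, mem_Ioc] at hm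
    exact ⟨hm.1.1, hm.1.2, hm.2⟩
  have hUA : 4 * U0 * (2 * A) ≤ N := by
    have h1 : (4 * U0 * (2 * A)) ^ 2 ≤ N ^ 2 := by
      calc (4 * U0 * (2 * A)) ^ 2 = (4 * U0) ^ 2 * (2 * A) ^ 2 := by ring
        _ ≤ N * N := Nat.mul_le_mul hUS.upp hA2
        _ = N ^ 2 := by ring
    exact (Nat.pow_le_pow_iff_left (by norm_num)).1 h1
  have hlt : ∀ u ∈ U, ∀ m ∈ MMl N, u * m < N := by
    intro u hu m hm
    obtain ⟨h1, h2, h3⟩ := hMM m hm
    obtain ⟨h4, h5, h6, h7⟩ := hUS.mem u hu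
    have h8 : u * m ≤ N := (Nat.mul_le_mul h5 h2).trans hUA
    rcases Nat.lt_or_ge (u * m) N with h9 | h9
    · exact h9
    · exfalso
      have h10 : u * m = N := le_antisymm h8 h9
      have h11 : (u * m).Coprime N := Nat.Coprime.mul_left h6 h3
      rw [h10] at h11
      have h12 := (Nat.coprime_self N).1 h11
      omega
  have hcard : ∀ n : ℕ, 1 ≤ n → n < N → (U.filter (fun u => u ∣ n)).card ≤ 2 ^ Jc c := by
    intro n h1 h2
    refine e2cl_rough (pw N c) (Jc c) n h1 ?_ U (fun u hu => (hUS.mem u hu).2.2.2)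
    intro m hm1 hm2 hm3
    exact hN2 N hn2 m hm1 (by omega) hm3
  have hcore := e2cl_core N U (MMl N) a f (2 ^ Jc c) (fun u hu => (hUS.mem u hu).2.2.1)
    (fun m hm => (hMM m hm).2.2) hlt (fun u hu => by have := (hUS.mem u hu).1; omega)
    (fun m hm => by have := (hMM m hm).1; omega) hcard
  refine hcore.trans ?_
  set S : ℝ := ∑ u ∈ U, a u with hS
  have hS0 : 0 ≤ S := sum_nonneg fun u hu => (hUS.bnd u hu).1
  have hsa : ∑ u ∈ U, a u ^ 2 ≤ K ^ 2 * S := by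
    rw [hS, mul_sum]
    refine sum_le_sum fun u hu => ?_
    obtain ⟨h1, h2⟩ := hUS.bnd u hu
    rw [sq]
    exact mul_le_mul_of_nonneg_right h2 h1
  have hA0 : (0 : ℝ) < A := by exact_mod_cast hA1
  have hsf : ∑ m ∈ MMl N, f m ^ 2 ≤ 64 * K ^ 3 / A := by
    have h1 : ∀ m ∈ MMl N, f m ^ 2 ≤ 4 / (A : ℝ) ^ 2 * ((m.divisors.card : ℕ) : ℝ) ^ 2 := by
      intro m hm
      obtain ⟨h2, h3, h4⟩ := hMM m hm
      have h5 := hf m hm
      have hm0 : (A : ℝ) ≤ m := by exact_mod_cast h2.le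
      have h6 : 2 * ((m.divisors.card : ℕ) : ℝ) / m ≤ 2 * ((m.divisors.card : ℕ) : ℝ) / A := by
        apply div_le_div_of_nonneg_left (by positivity) hA0 hm0
      have h7 : |f m| ≤ 2 * ((m.divisors.card : ℕ) : ℝ) / A := h5.trans h6
      calc f m ^ 2 = |f m| ^ 2 := (sq_abs _).symm
        _ ≤ (2 * ((m.divisors.card : ℕ) : ℝ) / A) ^ 2 := pow_le_pow_left₀ (abs_nonneg _) h7 2
        _ = 4 / (A : ℝ) ^ 2 * ((m.divisors.card : ℕ) : ℝ) ^ 2 := by ring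
    refine (sum_le_sum h1).trans ?_
    rw [← mul_sum]
    have h2 : ∑ m ∈ MMl N, ((m.divisors.card : ℕ) : ℝ) ^ 2 ≤
        ((2 * A : ℕ) : ℝ) * (1 + Real.log ((2 * A : ℕ) : ℝ)) ^ 3 := by
      refine le_trans ?_ (tau_sq (2 * A) (by omega))
      refine sum_le_sum_of_subset_of_nonneg ?_ (fun _ _ _ => by positivity)
      intro m hm
      obtain ⟨h2, h3, h4⟩ := hMM m hm
      rw [mem_Icc]
      omega
    have h3 : Real.log ((2 * A : ℕ) : ℝ) ≤ K := by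
      rw [hKdef]
      apply Real.log_le_log
      · exact_mod_cast (by omega : 0 < 2 * A)
      · have h4 : 2 * A ≤ N := by
          have h5 : 2 * A ≤ (2 * A) ^ 2 := Nat.le_self_pow (by norm_num) _
          omega
        exact_mod_cast h4
    have h3' : 0 ≤ Real.log ((2 * A : ℕ) : ℝ) := Real.log_nonneg (by exact_mod_cast (by omega : 1 ≤ 2 * A))
    have h4 : (1 + Real.log ((2 * A : ℕ) : ℝ)) ^ 3 ≤ (2 * K) ^ 3 :=
      pow_le_pow_left₀ (by linarith) (by linarith) 3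
    calc 4 / (A : ℝ) ^ 2 * ∑ m ∈ MMl N, ((m.divisors.card : ℕ) : ℝ) ^ 2
        ≤ 4 / (A : ℝ) ^ 2 * (((2 * A : ℕ) : ℝ) * (2 * K) ^ 3) := by
          refine mul_le_mul_of_nonneg_left (h2.trans ?_) (by positivity)
          exact mul_le_mul_of_nonneg_left h4 (by positivity)
      _ = 64 * K ^ 3 / A := by
          push_cast
          field_simp
          ring
  -- the quotient `N / A`
  have hNA : (N : ℝ) / A ≤ 24 * (K ^ ae * S) := by
    have hNr : (0 : ℝ) ≤ N := by positivity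
    set s : ℝ := (N : ℝ) ^ (1 / 2 : ℝ) with hs
    have hs0 : 0 ≤ s := by positivity
    have hss : s ^ 2 = N := by
      rw [hs, ← Real.rpow_natCast, ← Real.rpow_mul hNr]
      norm_num
    have h1 : s ≤ 8 * U0 := by
      have h2 : s ^ 2 ≤ (8 * (U0 : ℝ)) ^ 2 := by
        rw [hss]
        exact_mod_cast hUS.low.le
      exact (pow_le_pow_iff_left₀ hs0 (by positivity) (by norm_num)).1 h2
    have h2 : (N : ℝ) / A ≤ 3 * s := by
      rw [div_le_iff₀ hA0, ← hss]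
      nlinarith
    have h3 := hUS.big
    rw [← hKdef, ← hS] at h3
    linarith
  have hphi : (N.totient : ℝ) ≤ N := by exact_mod_cast Nat.totient_le N
  have hsf0 : 0 ≤ ∑ m ∈ MMl N, f m ^ 2 := sum_nonneg fun _ _ => sq_nonneg _
  have hfin : ((2 ^ Jc c : ℕ) : ℝ) = (2 : ℝ) ^ Jc c := by push_cast; ring
  rw [hfin]
  calc (N.totient : ℝ) * ((2 : ℝ) ^ Jc c * ((∑ u ∈ U, a u ^ 2) * ∑ m ∈ MMl N, f m ^ 2))
      ≤ (N : ℝ) * ((2 : ℝ) ^ Jc c * ((K ^ 2 * S) * (64 * K ^ 3 / A))) := by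
        refine mul_le_mul hphi ?_ ?_ (by positivity)
        · refine mul_le_mul_of_nonneg_left ?_ (by positivity)
          exact mul_le_mul hsa hsf hsf0 (by positivity)
        · refine mul_nonneg (by positivity) (mul_nonneg (sum_nonneg fun _ _ => sq_nonneg _) hsf0)
    _ = (64 * 2 ^ Jc c) * (K ^ 5 * S) * ((N : ℝ) / A) := by ring
    _ ≤ (64 * 2 ^ Jc c) * (K ^ 5 * S) * (24 * (K ^ ae * S)) :=
        mul_le_mul_of_nonneg_left hNA (by positivity)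
    _ = (1536 * 2 ^ Jc c) * (S ^ 2 * K ^ (ae + 5)) := by ring
    _ ≤ K * (S ^ 2 * K ^ (ae + 5)) := mul_le_mul_of_nonneg_right hK2 (by positivity)
    _ = S ^ 2 * K ^ (ae + 6) := by ring
    _ ≤ S ^ 2 * K ^ (ae + 8) := by
        refine mul_le_mul_of_nonneg_left ?_ (sq_nonneg _)
        exact pow_le_pow_right₀ hK1 (by omega)

end Pool.Agent.Lib.PL
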