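import Pool.Agent.Lib.MP_7b7e48_nt.PL.E2al
import Pool.Agent.Lib.MP_7b7e48_nt.PL.E2cl
import Pool.Agent.Lib.MP_7b7e48_nt.PL.C9l
import Pool.Agent.Lib.MP_7b7e48_nt.PL.C3v
import Pool.Agent.Lib.MP_7b7e48_nt.PQ.B3m

/-!
# E2dl: the contribution of the characters outside `X`

PROOF. `‖∑_l χ l‖ ≤ 2 (log N)^(-T) #L` for `χ ∉ X`. Cauchy-Schwarz: the sum is at most `2 (log N)^(-T) #L (∑_χ ‖∑_q χ⁻¹(-q)‖²)^{1/2} (∑_χ ‖..‖²)^{1/2}`. First factor: `∑_χ ‖∑_q‖² = #Q² ∑ ‖rho Q‖² ≤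
#Q φ(N)(Bl/N + 1) ≤ 2 #QQl φ(N) Bl/N` (`B3m`; trivial if `Q` is empty); second: `(∑a)² (log N)^(ae+8)` (`E2cl`). `Bl ≤ 4 #QQl log N` (`C9l`, `e = 1/2`), `φ(N) ≤ N`. So the sum is
`≤ 2 (log N)^(-T) #L (8 #QQl² log N)^{1/2} (∑a) (log N)^((ae+8)/2)` (as `φ(N)/N ≤ 1`) `≤ #L #QQl (∑a) (log N)^(-T + ae/2 + 5)` for large `N`, and `-T + ae/2 + 5 ≤ -4` as `T ≥ ae + 20`.
-/

set_option autoImplicit false

open Finset
open Pool.Agent.Lib.GT (Rough pr V)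
open Pool.Agent.Lib.MP_45349e_nt.LS (lam)
open Pool.Agent.Lib.RG (RC LV rr SS PB sig)

namespace Pool.Agent.Lib.PL

open Pool.Agent.Lib.PQ

/-- the sum over the primes -/
private theorem e2dl_F (N E : ℕ) [NeZero N] (Q : Finset ℕ) (hQ : Q ⊆ QQl E N) (hB : N ≤ Bl E N)
    (hc : (1 - 1 / 2) * ((Bl E N : ℝ) / Real.log N) ≤ ((QQl E N).card : ℝ)) (hK : 0 < Real.log N) :
    ∑ χ : DirichletCharacter ℂ N, ‖∑ q ∈ Q, χ⁻¹ (-(q : ZMod N))‖ ^ 2 ≤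
      4 * Real.log N * ((QQl E N).card : ℝ) ^ 2 := by
  rcases Q.eq_empty_or_nonempty with h0 | h0
  · rw [h0]
    simp only [sum_empty, norm_zero, ne_eq, OfNat.ofNat_ne_zero, not_false_eq_true, zero_pow, sum_const_zero]
    positivity
  have hNpos : 0 < N := Nat.pos_of_ne_zero (NeZero.ne N)
  have hNr : (0 : ℝ) < N := by exact_mod_cast hNpos
  have hq : ∀ q ∈ Q, q.Coprime N ∧ 1 ≤ q ∧ q ≤ Bl E N := by
    intro q hqQ
    have h1 := hQ hqQ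
    unfold QQl at h1
    rw [mem_filter, mem_Ioc] at h1
    refine ⟨?_, h1.2.one_lt.le, h1.1.2⟩
    rw [Nat.Prime.coprime_iff_not_dvd h1.2]
    intro h2
    have := Nat.le_of_dvd hNpos h2
    omega
  have h1 := B3m N Q (Bl E N) hq h0
  have hQc : (0 : ℝ) < Q.card := by exact_mod_cast h0.card_pos
  have hQQ : (Q.card : ℝ) ≤ (QQl E N).card := by exact_mod_cast card_le_card hQ
  have h2 : ∑ χ : DirichletCharacter ℂ N, ‖∑ q ∈ Q, χ⁻¹ (-(q : ZMod N))‖ ^ 2 =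
      (Q.card : ℝ) ^ 2 * ∑ χ : DirichletCharacter ℂ N, ‖rho Q χ‖ ^ 2 := by
    rw [mul_sum]
    refine sum_congr rfl fun χ _ => ?_
    unfold rho
    rw [norm_div, Complex.norm_natCast]
    field_simp
  rw [h2]
  have hBr : (N : ℝ) ≤ Bl E N := by exact_mod_cast hB
  have h3 : (N.totient : ℝ) * ((Bl E N : ℝ) / N + 1) ≤ 2 * Bl E N := by
    have h4 : (N.totient : ℝ) ≤ N := by exact_mod_cast Nat.totient_le N
    have h5 : 0 ≤ (Bl E N : ℝ) / N + 1 := by positivity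
    calc (N.totient : ℝ) * ((Bl E N : ℝ) / N + 1) ≤ N * ((Bl E N : ℝ) / N + 1) :=
          mul_le_mul_of_nonneg_right h4 h5
      _ = Bl E N + N := by field_simp
      _ ≤ _ := by linarith
  have h6 : (Bl E N : ℝ) ≤ 2 * Real.log N * (QQl E N).card := by
    have h7 : (Bl E N : ℝ) / Real.log N ≤ 2 * (QQl E N).card := by linarith
    rw [div_le_iff₀ hK] at h7
    linarith
  calc (Q.card : ℝ) ^ 2 * ∑ χ : DirichletCharacter ℂ N, ‖rho Q χ‖ ^ 2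
      ≤ (Q.card : ℝ) ^ 2 * (N.totient * ((Bl E N : ℝ) / N + 1) / Q.card) :=
        mul_le_mul_of_nonneg_left h1 (by positivity)
    _ = (Q.card : ℝ) * (N.totient * ((Bl E N : ℝ) / N + 1)) := by
        field_simp
    _ ≤ (QQl E N).card * (2 * Bl E N) := mul_le_mul hQQ h3 (by positivity) (by positivity)
    _ ≤ (QQl E N).card * (2 * (2 * Real.log N * (QQl E N).card)) :=
        mul_le_mul_of_nonneg_left (by linarith) (by positivity)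
    _ = _ := by ring

theorem E2dl (T E ae : ℕ) (hT : ae + 20 ≤ T) (hE : 2 ≤ E) (c : ℝ) (hc : 0 < c) : ∃ N0 : ℕ,
    ∀ (N : ℕ) [NeZero N], N0 ≤ N → ∀ (Q U L : Finset ℕ) (a f : ℕ → ℝ) (U0 : ℕ)
    (X : Finset (DirichletCharacter ℂ N)), Q ⊆ QQl E N → USl c ae N U a U0 →
    (∀ m ∈ MMl N, |f m| ≤ 2 * ((m.divisors.card : ℕ) : ℝ) / m) →
    (∀ χ : DirichletCharacter ℂ N, χ ∉ X → ‖∑ l ∈ L, χ (l : ZMod N)‖ ≤ 2 * (Real.log N ^ T)⁻¹ * L.card) →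
    ‖∑ χ ∈ univ.filter (fun χ : DirichletCharacter ℂ N => χ ∉ X), (∑ q ∈ Q, χ⁻¹ (-(q : ZMod N))) *
      (∑ u ∈ U, (a u : ℂ) * χ (u : ZMod N)) * (∑ l ∈ L, χ (l : ZMod N)) *
      ∑ m ∈ MMl N, ((f m : ℝ) : ℂ) * χ (m : ZMod N)‖ ≤
      (QQl E N).card * (∑ u ∈ U, a u) * L.card * (Real.log N ^ 4)⁻¹ := by
  obtain ⟨N1, h1⟩ := E2cl c hc ae
  obtain ⟨N2, h2⟩ := C9l E hE (1 / 2) (by norm_num)
  obtain ⟨N3, h3⟩ := sz_Bl E
  refine ⟨max (max N1 N2) (max N3 (⌈Real.exp 16⌉₊ + 1)), ?_⟩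
  intro N _ hN Q U L a f U0 X hQ hU hf hX
  have n1 : N1 ≤ N := le_trans (le_trans (le_max_left _ _) (le_max_left _ _)) hN
  have n2 : N2 ≤ N := le_trans (le_trans (le_max_right _ _) (le_max_left _ _)) hN
  have n3 : N3 ≤ N := le_trans (le_trans (le_max_left _ _) (le_max_right _ _)) hN
  have n4 : ⌈Real.exp 16⌉₊ + 1 ≤ N := le_trans (le_trans (le_max_right _ _) (le_max_right _ _)) hN
  have hK16 : 16 ≤ Real.log N := by
    rw [Real.le_log_iff_exp_le (by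
      have : 0 < N := by omega
      exact_mod_cast this)]
    refine (Nat.le_ceil _).trans ?_
    exact_mod_cast (by omega : ⌈Real.exp 16⌉₊ ≤ N)
  have hEG := h1 N n1 U a f U0 hU hf
  have hF := e2dl_F N E Q hQ (h3 N n3).1 (h2 N n2) (by linarith)
  set K := Real.log N with hKdef
  have hK0 : 0 < K := by linarith
  have hK1 : 1 ≤ K := by linarith
  have ha0 : 0 ≤ ∑ u ∈ U, a u := sum_nonneg fun u hu => (hU.bnd u hu).1
  have hq0 : (0 : ℝ) ≤ (QQl E N).card := Nat.cast_nonneg _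
  set F : DirichletCharacter ℂ N → ℂ := fun χ => ∑ q ∈ Q, χ⁻¹ (-(q : ZMod N)) with hFdef
  set G : DirichletCharacter ℂ N → ℂ := fun χ => (∑ u ∈ U, (a u : ℂ) * χ (u : ZMod N)) *
      ∑ m ∈ MMl N, ((f m : ℝ) : ℂ) * χ (m : ZMod N) with hGdef
  set Sg : ℝ := ∑ χ : DirichletCharacter ℂ N, ‖F χ‖ * ‖G χ‖ with hSg
  have hS0 : 0 ≤ Sg := sum_nonneg fun _ _ => by positivity
  have hcs : Sg ^ 2 ≤ (4 * K * ((QQl E N).card : ℝ) ^ 2) * ((∑ u ∈ U, a u) ^ 2 * K ^ (ae + 8)) := by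
    refine (sum_mul_sq_le_sq_mul_sq _ _ _).trans ?_
    refine mul_le_mul hF hEG (sum_nonneg fun _ _ => by positivity) (by positivity)
  have hKp : 16 * K ^ (ae + 9) ≤ (K ^ (T - 4)) ^ 2 := by
    rw [← pow_mul]
    calc 16 * K ^ (ae + 9) ≤ K * K ^ (ae + 9) := mul_le_mul_of_nonneg_right hK16 (by positivity)
      _ = K ^ (ae + 10) := by ring
      _ ≤ _ := pow_le_pow_right₀ hK1 (by omega)
  have hS2 : Sg ≤ (QQl E N).card * (∑ u ∈ U, a u) * K ^ (T - 4) / 2 := by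
    refine le_of_sq_le_sq ?_ (by positivity)
    refine hcs.trans ?_
    have e1 : (4 * K * ((QQl E N).card : ℝ) ^ 2) * ((∑ u ∈ U, a u) ^ 2 * K ^ (ae + 8)) =
        (((QQl E N).card : ℝ) * ∑ u ∈ U, a u) ^ 2 / 4 * (16 * K ^ (ae + 9)) := by ring
    have e2 : (((QQl E N).card : ℝ) * (∑ u ∈ U, a u) * K ^ (T - 4) / 2) ^ 2 =
        (((QQl E N).card : ℝ) * ∑ u ∈ U, a u) ^ 2 / 4 * (K ^ (T - 4)) ^ 2 := by ring
    rw [e1, e2]
    exact mul_le_mul_of_nonneg_left hKp (by positivity)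
  have hterm : ∀ χ ∈ univ.filter (fun χ : DirichletCharacter ℂ N => χ ∉ X),
      ‖(∑ q ∈ Q, χ⁻¹ (-(q : ZMod N))) * (∑ u ∈ U, (a u : ℂ) * χ (u : ZMod N)) *
        (∑ l ∈ L, χ (l : ZMod N)) * ∑ m ∈ MMl N, ((f m : ℝ) : ℂ) * χ (m : ZMod N)‖ ≤
      (2 * (K ^ T)⁻¹ * L.card) * (‖F χ‖ * ‖G χ‖) := by
    intro χ hχ
    have h4 := hX χ (mem_filter.1 hχ).2
    have e1 : ‖(∑ q ∈ Q, χ⁻¹ (-(q : ZMod N))) * (∑ u ∈ U, (a u : ℂ) * χ (u : ZMod N)) *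
        (∑ l ∈ L, χ (l : ZMod N)) * ∑ m ∈ MMl N, ((f m : ℝ) : ℂ) * χ (m : ZMod N)‖ =
        ‖∑ l ∈ L, χ (l : ZMod N)‖ * (‖F χ‖ * ‖G χ‖) := by
      rw [hFdef, hGdef, norm_mul, norm_mul, norm_mul, norm_mul]
      ring
    rw [e1]
    exact mul_le_mul_of_nonneg_right h4 (by positivity)
  refine (norm_sum_le _ _).trans ((sum_le_sum hterm).trans ?_)
  rw [← mul_sum]
  have h5 : ∑ χ ∈ univ.filter (fun χ : DirichletCharacter ℂ N => χ ∉ X), ‖F χ‖ * ‖G χ‖ ≤ Sg :=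
    sum_le_sum_of_subset_of_nonneg (filter_subset _ _) fun _ _ _ => by positivity
  have h6 : (K ^ T)⁻¹ * K ^ (T - 4) = (K ^ 4)⁻¹ := by
    have e3 : K ^ T = K ^ 4 * K ^ (T - 4) := by
      rw [← pow_add]
      congr 1
      omega
    rw [e3]
    field_simp
  calc (2 * (K ^ T)⁻¹ * L.card) * ∑ χ ∈ univ.filter (fun χ : DirichletCharacter ℂ N => χ ∉ X), ‖F χ‖ * ‖G χ‖
      ≤ (2 * (K ^ T)⁻¹ * L.card) * ((QQl E N).card * (∑ u ∈ U, a u) * K ^ (T - 4) / 2) :=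
        mul_le_mul_of_nonneg_left (h5.trans hS2) (by positivity)
    _ = (QQl E N).card * (∑ u ∈ U, a u) * L.card * ((K ^ T)⁻¹ * K ^ (T - 4)) := by ring
    _ = _ := by rw [h6]

end Pool.Agent.Lib.PL
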