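import Pool.Agent.Lib.MP_7b7e48_nt.PL.E2dl
import Pool.Agent.Lib.MP_7b7e48_nt.PL.E2bl

/-!
# E2ml: the count lemma for the sieve weights

PROOF. `E2al` with `f m = WD D m/m` (`|WD D m| ≤ τ(m)`; elements of `QQl` are primes `> N`, coprime to `N`). `χ = 1`: exactly `#Q (∑a) #L ZWl/φ = #Q EXl` (all `u`, `l`, `m` are coprime to `N`).
`χ ∈ X`, `χ ≠ 1`: by `E2bl` together `≤ (1/φ) #Q (∑a) #L #X N^(1/(20k)) 4 N^(-β)`, `#X ≤ N^(1/(5k))`, `1/(4k) ≤ β/160`: `≤ (1/φ) #QQl (∑a) #L N^(-β/2)`. `χ ∉ X`: `E2dl`. Relative to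
`#QQl EXl = #QQl (∑a) #L ZWl/φ`, `ZWl ≥ 1/(4 log N)` (`ZWl_low`): `4 log N (N^(-β/2) + (log N)^(-4)) ≤ 1/log N`.
-/

set_option autoImplicit false

open Finset
open Pool.Agent.Lib.GT (Rough pr V)
open Pool.Agent.Lib.MP_45349e_nt.LS (lam)
open Pool.Agent.Lib.RG (RC LV rr SS PB sig)

namespace Pool.Agent.Lib.PL

open Pool.Agent.Lib.PQ

/-- the factors of the expansion -/
private noncomputable def e2ml_F {N : ℕ} (Q U L M : Finset ℕ) (a f : ℕ → ℝ) (χ : DirichletCharacter ℂ N) : ℂ :=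
  (∑ q ∈ Q, χ⁻¹ (-(q : ZMod N))) * (∑ u ∈ U, (a u : ℂ) * χ (u : ZMod N)) * (∑ l ∈ L, χ (l : ZMod N)) *
    ∑ m ∈ M, ((f m : ℝ) : ℂ) * χ (m : ZMod N)

private theorem e2ml_sum_one {N : ℕ} (S : Finset ℕ) (f : ℕ → ℂ) (hS : ∀ s ∈ S, s.Coprime N) :
    ∑ s ∈ S, f s * (1 : DirichletCharacter ℂ N) (s : ZMod N) = ∑ s ∈ S, f s := by
  refine sum_congr rfl fun s hs => ?_
  rw [MulChar.one_apply ((ZMod.isUnit_iff_coprime s N).mpr (hS s hs)), mul_one]

/-- the principal character and the triangle inequality -/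
private theorem e2ml_split (N : ℕ) [NeZero N] (Q U L M : Finset ℕ) (a f : ℕ → ℝ)
    (hQ : ∀ q ∈ Q, q.Coprime N) (hU : ∀ u ∈ U, u.Coprime N) (hL : ∀ l ∈ L, l.Coprime N)
    (hM : ∀ m ∈ M, m.Coprime N) (X : Finset (DirichletCharacter ℂ N)) (h1 : (1 : DirichletCharacter ℂ N) ∈ X)
    (E1 E2 : ℝ)
    (hE1 : ∑ χ ∈ X.erase 1, ‖e2ml_F Q U L M a f χ‖ ≤ E1)
    (hE2 : ‖∑ χ ∈ univ.filter (fun χ : DirichletCharacter ℂ N => χ ∉ X), e2ml_F Q U L M a f χ‖ ≤ E2) :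
    |SCl N Q U L M a f - Q.card * ((∑ u ∈ U, a u) * L.card * (∑ m ∈ M, f m) / N.totient)| ≤
      (E1 + E2) / N.totient := by
  classical
  have hphi : (0 : ℝ) < (N.totient : ℝ) := by
    exact_mod_cast Nat.totient_pos.mpr (Nat.pos_of_ne_zero (NeZero.ne N))
  set F : DirichletCharacter ℂ N → ℂ := fun χ => e2ml_F Q U L M a f χ with hF
  have hexp : ((SCl N Q U L M a f : ℝ) : ℂ) = (∑ χ : DirichletCharacter ℂ N, F χ) / N.totient :=
    E2al N Q U L M a f hQ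
  have hq1 : (∑ q ∈ Q, (1 : DirichletCharacter ℂ N)⁻¹ (-(q : ZMod N))) = (Q.card : ℂ) := by
    rw [inv_one, card_eq_sum_ones]
    push_cast
    refine sum_congr rfl fun q hq => ?_
    rw [MulChar.one_apply]
    exact ((ZMod.isUnit_iff_coprime q N).mpr (hQ q hq)).neg
  have hu1 : (∑ u ∈ U, (a u : ℂ) * (1 : DirichletCharacter ℂ N) (u : ZMod N)) = ((∑ u ∈ U, a u : ℝ) : ℂ) := by
    rw [e2ml_sum_one U (fun u => (a u : ℂ)) hU]
    push_cast
    rfl
  have hl1 : (∑ l ∈ L, (1 : DirichletCharacter ℂ N) (l : ZMod N)) = (L.card : ℂ) := by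
    rw [card_eq_sum_ones]
    push_cast
    refine sum_congr rfl fun l hl => ?_
    rw [MulChar.one_apply]
    exact (ZMod.isUnit_iff_coprime l N).mpr (hL l hl)
  have hm1 : (∑ m ∈ M, ((f m : ℝ) : ℂ) * (1 : DirichletCharacter ℂ N) (m : ZMod N)) =
      ((∑ m ∈ M, f m : ℝ) : ℂ) := by
    rw [e2ml_sum_one M (fun m => ((f m : ℝ) : ℂ)) hM]
    push_cast
    rfl
  have hF1 : F 1 = ((Q.card * ((∑ u ∈ U, a u) * L.card * (∑ m ∈ M, f m)) : ℝ) : ℂ) := by
    have h2 : F 1 = (∑ q ∈ Q, (1 : DirichletCharacter ℂ N)⁻¹ (-(q : ZMod N))) *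
        (∑ u ∈ U, (a u : ℂ) * (1 : DirichletCharacter ℂ N) (u : ZMod N)) *
        (∑ l ∈ L, (1 : DirichletCharacter ℂ N) (l : ZMod N)) *
        ∑ m ∈ M, ((f m : ℝ) : ℂ) * (1 : DirichletCharacter ℂ N) (m : ZMod N) := rfl
    rw [h2, hq1, hu1, hl1, hm1]
    push_cast
    ring
  have hdiff : ((SCl N Q U L M a f - Q.card * ((∑ u ∈ U, a u) * L.card * (∑ m ∈ M, f m) / N.totient) : ℝ) : ℂ) =
      (∑ χ ∈ Finset.univ.erase (1 : DirichletCharacter ℂ N), F χ) / N.totient := by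
    have h2 : ∑ χ : DirichletCharacter ℂ N, F χ =
        F 1 + ∑ χ ∈ Finset.univ.erase (1 : DirichletCharacter ℂ N), F χ :=
      (add_sum_erase _ _ (mem_univ _)).symm
    rw [Complex.ofReal_sub, hexp, h2, hF1]
    push_cast
    have hphic : ((N.totient : ℕ) : ℂ) ≠ 0 := by exact_mod_cast hphi.ne'
    field_simp
    ring
  rw [← Real.norm_eq_abs, ← Complex.norm_real, hdiff, norm_div, Complex.norm_natCast]
  refine div_le_div_of_nonneg_right ?_ hphi.le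
  have hun : Finset.univ.erase (1 : DirichletCharacter ℂ N) = X.erase 1 ∪
      univ.filter (fun χ : DirichletCharacter ℂ N => χ ∉ X) := by
    ext χ
    simp only [mem_erase, mem_univ, and_true, mem_union, mem_filter, true_and]
    constructor
    · intro h
      by_cases h3 : χ ∈ X
      · exact Or.inl ⟨h, h3⟩
      · exact Or.inr h3
    · rintro (h | h)
      · exact h.1
      · rintro rfl
        exact h h1
  have hdis : Disjoint (X.erase 1) (univ.filter (fun χ : DirichletCharacter ℂ N => χ ∉ X)) := by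
    rw [disjoint_left]
    intro χ h3 h4
    rw [mem_erase] at h3
    rw [mem_filter] at h4
    exact h4.2 h3.2
  rw [hun, sum_union hdis]
  refine (norm_add_le _ _).trans (add_le_add ((norm_sum_le _ _).trans hE1) hE2)

/-- trivial bounds of the factors -/
private theorem e2ml_triv (N : ℕ) [NeZero N] (Q U L : Finset ℕ) (a : ℕ → ℝ) (ha : ∀ u ∈ U, 0 ≤ a u)
    (χ : DirichletCharacter ℂ N) :
    ‖∑ q ∈ Q, χ⁻¹ (-(q : ZMod N))‖ ≤ Q.card ∧ ‖∑ u ∈ U, (a u : ℂ) * χ (u : ZMod N)‖ ≤ ∑ u ∈ U, a u ∧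
      ‖∑ l ∈ L, χ (l : ZMod N)‖ ≤ (L.card : ℝ) := by
  refine ⟨?_, ?_, ?_⟩
  · refine (norm_sum_le _ _).trans ?_
    rw [card_eq_sum_ones]
    push_cast
    exact sum_le_sum fun q _ => DirichletCharacter.norm_le_one _ _
  · refine (norm_sum_le _ _).trans (sum_le_sum fun u hu => ?_)
    rw [norm_mul, Complex.norm_real, Real.norm_eq_abs, abs_of_nonneg (ha u hu)]
    exact mul_le_of_le_one_right (ha u hu) (DirichletCharacter.norm_le_one _ _)
  · refine (norm_sum_le _ _).trans ?_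
    rw [card_eq_sum_ones]
    push_cast
    exact sum_le_sum fun q _ => DirichletCharacter.norm_le_one _ _

private theorem e2ml_WD (D : Finset ℕ) (m : ℕ) (hm : 1 ≤ m) :
    |WD D m / m| ≤ 2 * ((m.divisors.card : ℕ) : ℝ) / m := by
  have hm0 : (0 : ℝ) < m := by exact_mod_cast hm
  rw [abs_div, abs_of_pos hm0]
  refine div_le_div_of_nonneg_right ?_ hm0.le
  have h1 : |WD D m| ≤ ((D.filter (fun d => d ∣ m)).card : ℝ) := by
    unfold WD
    refine (abs_sum_le_sum_abs _ _).trans ?_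
    rw [card_eq_sum_ones]
    push_cast
    refine sum_le_sum fun d _ => ?_
    have h2 : |ArithmeticFunction.moebius d| ≤ 1 := ArithmeticFunction.abs_moebius_le_one
    exact_mod_cast h2
  have h3 : (D.filter (fun d => d ∣ m)).card ≤ m.divisors.card := by
    refine card_le_card fun d hd => ?_
    rw [mem_filter] at hd
    exact Nat.mem_divisors.mpr ⟨hd.2, by omega⟩
  have h4 : ((D.filter (fun d => d ∣ m)).card : ℝ) ≤ (m.divisors.card : ℝ) := by exact_mod_cast h3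
  have h5 : (0 : ℝ) ≤ (m.divisors.card : ℝ) := Nat.cast_nonneg _
  linarith

theorem E2ml {k : ℕ} {β : ℝ} (hP : Par k β) (T S E ae : ℕ) (hT : ae + 20 ≤ T) (hE : 2 ≤ E) (c : ℝ) (hc : 0 < c)
    (hc1 : c ≤ 1 / 4) : ∃ N0 : ℕ, ∀ (N : ℕ) [NeZero N], N0 ≤ N → ∀ (D Q U L : Finset ℕ) (a : ℕ → ℝ) (U0 : ℕ)
    (X : Finset (DirichletCharacter ℂ N)), DD k c N D → Q ⊆ QQl E N → USl c ae N U a U0 → L ⊆ PPl S N →
    (1 : DirichletCharacter ℂ N) ∈ X → X.card ≤ pw N (1 / (5 * k)) →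
    (∀ χ : DirichletCharacter ℂ N, χ ∉ X → ‖∑ l ∈ L, χ (l : ZMod N)‖ ≤ 2 * (Real.log N ^ T)⁻¹ * L.card) →
    |SCl N Q U L (MMl N) a (fun m => WD D m / m) - Q.card * EXl N D U L a| ≤
      (QQl E N).card * EXl N D U L a / Real.log N := by
  classical
  have hkβ := hP.big
  have hβ := hP.pos
  have hk0 : (0 : ℝ) < k := by
    by_contra h
    push Not at h
    nlinarith
  obtain ⟨N1, hN1⟩ := E2bl hP
  obtain ⟨N2, hN2⟩ := E2dl T E ae hT hE c hc
  obtain ⟨N3, hN3⟩ := ZWl_low k c hc hc1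
  obtain ⟨N4, hN4⟩ := sz_log 4 4 (β / 2) (by linarith)
  obtain ⟨N5, hN5⟩ := sz_logpow 0 4
  refine ⟨N1 + N2 + N3 + N4 + N5 + 2, ?_⟩
  intro N _ hN D Q U L a U0 X hD hQ hUS hL h1X hXcard hXl
  have hNr : (1 : ℝ) ≤ N := by exact_mod_cast (by omega : 1 ≤ N)
  have hNpos : (0 : ℝ) < N := by linarith
  have hlog1 : 4 ≤ Real.log N := by
    have := hN5 N (by omega)
    simpa using this
  have hphi : (0 : ℝ) < (N.totient : ℝ) := by
    exact_mod_cast Nat.totient_pos.mpr (Nat.pos_of_ne_zero (NeZero.ne N))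
  obtain ⟨hZW, -⟩ := hN3 N (by omega) D hD
  have hlarge := hN4 N (by omega)
  set lg : ℝ := Real.log N with hlg
  have hlg0 : 0 < lg := by linarith
  set A : ℝ := ∑ u ∈ U, a u with hAdef
  have hA : 0 ≤ A := sum_nonneg fun u hu => (hUS.bnd u hu).1
  set P : ℝ := (L.card : ℝ) with hPdef
  have hP0 : 0 ≤ P := Nat.cast_nonneg _
  set q : ℝ := ((QQl E N).card : ℝ) with hqdef
  have hq0 : 0 ≤ q := Nat.cast_nonneg _
  have hQq : (Q.card : ℝ) ≤ q := by
    rw [hqdef]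
    exact_mod_cast card_le_card hQ
  have hQc : (0 : ℝ) ≤ Q.card := Nat.cast_nonneg _
  have hQcop : ∀ x ∈ Q, x.Coprime N := by
    intro x hx
    have h2 := hQ hx
    unfold QQl at h2
    rw [mem_filter, mem_Ioc] at h2
    rw [Nat.Prime.coprime_iff_not_dvd h2.2]
    intro h3
    exact absurd (Nat.le_of_dvd (by omega) h3) (by omega)
  have hLcop : ∀ l ∈ L, l.Coprime N := by
    intro l hl
    have h2 := hL hl
    unfold PPl at h2
    rw [mem_filter] at h2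
    exact (Nat.Prime.coprime_iff_not_dvd h2.2.1).mpr h2.2.2
  have hMcop : ∀ m ∈ MMl N, m.Coprime N := by
    intro m hm
    unfold MMl at hm
    exact (mem_filter.mp hm).2
  -- the characters in X
  have hXc : ((X.erase 1).card : ℝ) ≤ (N : ℝ) ^ ((1 : ℝ) / (5 * k)) := by
    have h3 : (X.erase 1).card ≤ pw N (1 / (5 * k)) := card_erase_le.trans hXcard
    have h4 : ((X.erase 1).card : ℝ) ≤ ((pw N (1 / (5 * k)) : ℕ) : ℝ) := by exact_mod_cast h3
    refine h4.trans ?_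
    unfold pw
    exact Nat.floor_le (by positivity)
  have hpow : (N : ℝ) ^ ((1 : ℝ) / (5 * k)) * ((N : ℝ) ^ ((1 : ℝ) / (20 * k)) * (4 * (N : ℝ) ^ (-β))) ≤
      (lg ^ 4)⁻¹ := by
    have h2 : (N : ℝ) ^ ((1 : ℝ) / (5 * k)) * ((N : ℝ) ^ ((1 : ℝ) / (20 * k)) * (4 * (N : ℝ) ^ (-β))) =
        4 * (N : ℝ) ^ ((1 : ℝ) / (5 * k) + 1 / (20 * k) + -β) := by
      rw [Real.rpow_add hNpos, Real.rpow_add hNpos]
      ring
    rw [h2]
    have h3 : (N : ℝ) ^ ((1 : ℝ) / (5 * k) + 1 / (20 * k) + -β) ≤ (N : ℝ) ^ (-(β / 2)) := by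
      refine Real.rpow_le_rpow_of_exponent_le hNr ?_
      have h4 : (1 : ℝ) / (5 * k) + 1 / (20 * k) = 1 / (4 * k) := by
        field_simp
        norm_num
      have h5 : 1 / (4 * (k : ℝ)) ≤ β / 2 := by
        rw [div_le_iff₀ (by positivity)]
        nlinarith
      linarith
    have h6 : (N : ℝ) ^ (-(β / 2)) ≤ (4 * lg ^ 4)⁻¹ := by
      rw [Real.rpow_neg hNpos.le]
      exact inv_anti₀ (by positivity) hlarge
    calc 4 * (N : ℝ) ^ ((1 : ℝ) / (5 * k) + 1 / (20 * k) + -β) ≤ 4 * (4 * lg ^ 4)⁻¹ := by linarith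
      _ = (lg ^ 4)⁻¹ := by
          rw [mul_inv]
          ring
  have hE1 : ∑ χ ∈ X.erase 1, ‖e2ml_F Q U L (MMl N) a (fun m => WD D m / m) χ‖ ≤
      q * A * P * (lg ^ 4)⁻¹ := by
    have h2 : ∀ χ ∈ X.erase 1, ‖e2ml_F Q U L (MMl N) a (fun m => WD D m / m) χ‖ ≤
        q * A * P * ((N : ℝ) ^ ((1 : ℝ) / (20 * k)) * (4 * (N : ℝ) ^ (-β))) := by
      intro χ hχ
      rw [mem_erase] at hχ
      obtain ⟨h3, h4, h5⟩ := e2ml_triv N Q U L a (fun u hu => (hUS.bnd u hu).1) χ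
      have h6 := hN1 N (by omega) c D hD χ hχ.1
      unfold e2ml_F
      rw [norm_mul, norm_mul, norm_mul]
      have h3' := h3.trans hQq
      exact mul_le_mul (mul_le_mul (mul_le_mul h3' h4 (norm_nonneg _) hq0) h5 (norm_nonneg _)
        (by positivity)) h6 (norm_nonneg _) (by positivity)
    refine (sum_le_card_nsmul _ _ _ h2).trans ?_
    rw [nsmul_eq_mul]
    calc ((X.erase 1).card : ℝ) * (q * A * P * ((N : ℝ) ^ ((1 : ℝ) / (20 * k)) * (4 * (N : ℝ) ^ (-β)))) =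
          (q * A * P) * (((X.erase 1).card : ℝ) * ((N : ℝ) ^ ((1 : ℝ) / (20 * k)) * (4 * (N : ℝ) ^ (-β)))) := by ring
      _ ≤ (q * A * P) * ((N : ℝ) ^ ((1 : ℝ) / (5 * k)) *
          ((N : ℝ) ^ ((1 : ℝ) / (20 * k)) * (4 * (N : ℝ) ^ (-β)))) := by
          refine mul_le_mul_of_nonneg_left ?_ (by positivity)
          exact mul_le_mul_of_nonneg_right hXc (by positivity)
      _ ≤ q * A * P * (lg ^ 4)⁻¹ := mul_le_mul_of_nonneg_left hpow (by positivity)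
  -- the other characters
  have hE2 : ‖∑ χ ∈ univ.filter (fun χ : DirichletCharacter ℂ N => χ ∉ X),
      e2ml_F Q U L (MMl N) a (fun m => WD D m / m) χ‖ ≤ q * A * P * (lg ^ 4)⁻¹ := by
    refine hN2 N (by omega) Q U L a (fun m => WD D m / m) U0 X hQ hUS ?_ hXl
    intro m hm
    unfold MMl at hm
    rw [mem_filter, mem_Ioc] at hm
    exact e2ml_WD D m (by omega)
  have hspl := e2ml_split N Q U L (MMl N) a (fun m => WD D m / m) hQcop (fun u hu => (hUS.mem u hu).2.2.1)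
    hLcop hMcop X h1X _ _ hE1 hE2
  have hEX : EXl N D U L a = A * P * (∑ m ∈ MMl N, WD D m / m) / N.totient := rfl
  rw [hEX]
  refine hspl.trans ?_
  have hZ : (∑ m ∈ MMl N, WD D m / m) = ZWl N D := rfl
  rw [hZ]
  have h9 : 2 * (lg ^ 4)⁻¹ ≤ ZWl N D / lg := by
    refine le_trans ?_ (div_le_div_of_nonneg_right hZW hlg0.le)
    rw [div_div, ← one_div, mul_one_div, div_le_div_iff₀ (by positivity) (by positivity)]
    have h10 : 8 ≤ lg ^ 2 := by nlinarith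
    nlinarith [mul_le_mul_of_nonneg_right h10 (sq_nonneg lg)]
  calc (q * A * P * (lg ^ 4)⁻¹ + q * A * P * (lg ^ 4)⁻¹) / N.totient =
        q * A * P * (2 * (lg ^ 4)⁻¹) / N.totient := by ring
    _ ≤ q * A * P * (ZWl N D / lg) / N.totient := by
        refine div_le_div_of_nonneg_right ?_ hphi.le
        exact mul_le_mul_of_nonneg_left h9 (by positivity)
    _ = q * (A * P * ZWl N D / N.totient) / lg := by
        field_simp

end Pool.Agent.Lib.PL
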