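import Pool.Agent.Lib.MP_7b7e48_nt.PL.E2dl
import Pool.Agent.Lib.MP_7b7e48_nt.PL.C8l

/-!
# E2ul: upper bound for the count with general weights

PROOF. `E2al`. `χ = 1`: `(1/φ) #Q (∑a) #L ∑ f`. `χ ∈ X`, `χ ≠ 1`: `‖∑_u a u χ u‖ ≤ ∑ a`, `‖∑_l χ l‖ ≤ #L`; Cauchy-Schwarz over `χ`: `≤ (1/φ) (∑a) #L (∑_X ‖∑_q χ⁻¹(-q)‖²)^{1/2} (∑_{X \ 1} ‖F_χ‖²)^{1/2}`, and the first sum is
`≤ 5 #QQl #Q ≤ 5 #QQl²` (`C8l`, second part). `χ ∉ X`: `E2dl`. (`√5 ≤ 3`.)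
-/

set_option autoImplicit false

open Finset
open Pool.Agent.Lib.GT (Rough pr V)
open Pool.Agent.Lib.MP_45349e_nt.LS (lam)
open Pool.Agent.Lib.RG (RC LV rr SS PB sig)

namespace Pool.Agent.Lib.PL

open Pool.Agent.Lib.PQ

theorem E2ul {k : ℕ} {β : ℝ} (hP : Par k β) (T S E ae : ℕ) (hT : ae + 20 ≤ T) (hE : 2 ≤ E) (c : ℝ) (hc : 0 < c) :
    ∃ N0 : ℕ, ∀ (N : ℕ) [NeZero N], N0 ≤ N → ∀ (Q U L : Finset ℕ) (a f : ℕ → ℝ) (U0 : ℕ)
    (X : Finset (DirichletCharacter ℂ N)), Q ⊆ QQl E N → USl c ae N U a U0 → L ⊆ PPl S N →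
    (1 : DirichletCharacter ℂ N) ∈ X → X.card ≤ pw N (1 / (5 * k)) →
    (∀ χ : DirichletCharacter ℂ N, χ ∉ X → ‖∑ l ∈ L, χ (l : ZMod N)‖ ≤ 2 * (Real.log N ^ T)⁻¹ * L.card) →
    (∀ m ∈ MMl N, |f m| ≤ 2 * ((m.divisors.card : ℕ) : ℝ) / m) → ∀ G : ℝ, 0 ≤ G →
    ∑ χ ∈ X.filter (fun χ : DirichletCharacter ℂ N => χ ≠ 1),
      ‖∑ m ∈ MMl N, ((f m : ℝ) : ℂ) * χ (m : ZMod N)‖ ^ 2 ≤ G ^ 2 →
    SCl N Q U L (MMl N) a f ≤ (QQl E N).card * (∑ u ∈ U, a u) * L.card / N.totient *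
      (|∑ m ∈ MMl N, f m| + 3 * G + (Real.log N ^ 4)⁻¹) := by
  classical
  obtain ⟨N1, hN1⟩ := E2dl T E ae hT hE c hc
  obtain ⟨N2, hN2⟩ := C8l hP E hE
  refine ⟨max N1 N2, ?_⟩
  intro N _ hN Q U L a f U0 X hQ hUS hL h1X hXc hXl hf G hG hFG
  have hn1 : N1 ≤ N := le_trans (le_max_left _ _) hN
  have hn2 : N2 ≤ N := le_trans (le_max_right _ _) hN
  have hout := hN1 N hn1 Q U L a f U0 X hQ hUS hf hXl
  have hC8 := (hN2 N hn2 X hXc).2 Q hQ
  have hNpos : 0 < N := Nat.pos_of_ne_zero (NeZero.ne N)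
  have hcop : ∀ q ∈ Q, q.Coprime N := by
    intro q hq
    have h1 := hQ hq
    unfold QQl at h1
    rw [mem_filter, mem_Ioc] at h1
    rw [h1.2.coprime_iff_not_dvd]
    intro h2
    have := Nat.le_of_dvd hNpos h2
    omega
  have hexp := E2al N Q U L (MMl N) a f hcop
  set S : ℝ := ∑ u ∈ U, a u with hS
  have hS0 : 0 ≤ S := sum_nonneg fun u hu => (hUS.bnd u hu).1
  set PQ : DirichletCharacter ℂ N → ℂ := fun χ => ∑ q ∈ Q, χ⁻¹ (-(q : ZMod N)) with hPQ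
  set AU : DirichletCharacter ℂ N → ℂ := fun χ => ∑ u ∈ U, (a u : ℂ) * χ (u : ZMod N) with hAU
  set LL : DirichletCharacter ℂ N → ℂ := fun χ => ∑ l ∈ L, χ (l : ZMod N) with hLL
  set FF : DirichletCharacter ℂ N → ℂ := fun χ => ∑ m ∈ MMl N, ((f m : ℝ) : ℂ) * χ (m : ZMod N) with hFF
  have hAb : ∀ χ, ‖AU χ‖ ≤ S := by
    intro χ
    rw [hAU, hS]
    refine (norm_sum_le _ _).trans (sum_le_sum fun u hu => ?_)
    rw [norm_mul, Complex.norm_real, Real.norm_eq_abs, abs_of_nonneg (hUS.bnd u hu).1]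
    exact mul_le_of_le_one_right (hUS.bnd u hu).1 (DirichletCharacter.norm_le_one χ _)
  have hLb : ∀ χ, ‖LL χ‖ ≤ L.card := by
    intro χ
    rw [hLL]
    refine (norm_sum_le _ _).trans ?_
    refine (sum_le_sum fun l _ => DirichletCharacter.norm_le_one χ _).trans (le_of_eq ?_)
    rw [sum_const, nsmul_eq_mul, mul_one]
  have hQb : ∀ χ, ‖PQ χ‖ ≤ Q.card := by
    intro χ
    rw [hPQ]
    refine (norm_sum_le _ _).trans ?_
    refine (sum_le_sum fun q _ => DirichletCharacter.norm_le_one χ⁻¹ _).trans (le_of_eq ?_)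
    rw [sum_const, nsmul_eq_mul, mul_one]
  have hQQ : (Q.card : ℝ) ≤ (QQl E N).card := by exact_mod_cast Finset.card_le_card hQ
  have hF1 : ‖FF 1‖ = |∑ m ∈ MMl N, f m| := by
    have h1 : FF 1 = ((∑ m ∈ MMl N, f m : ℝ) : ℂ) := by
      rw [hFF]
      push_cast
      refine sum_congr rfl fun m hm => ?_
      unfold MMl at hm
      rw [mem_filter] at hm
      rw [MulChar.one_apply ((ZMod.isUnit_iff_coprime m N).mpr hm.2), mul_one]
    rw [h1, Complex.norm_real, Real.norm_eq_abs]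
  -- the three parts
  have hsplit : ∑ χ : DirichletCharacter ℂ N, PQ χ * AU χ * LL χ * FF χ =
      PQ 1 * AU 1 * LL 1 * FF 1 +
      ∑ χ ∈ X.filter (fun χ : DirichletCharacter ℂ N => χ ≠ 1), PQ χ * AU χ * LL χ * FF χ +
      ∑ χ ∈ univ.filter (fun χ : DirichletCharacter ℂ N => χ ∉ X), PQ χ * AU χ * LL χ * FF χ := by
    rw [← Finset.sum_filter_add_sum_filter_not univ (fun χ : DirichletCharacter ℂ N => χ ∈ X)]
    congr 1
    have h1 : univ.filter (fun χ : DirichletCharacter ℂ N => χ ∈ X) = X := by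
      ext χ
      simp
    rw [h1, ← Finset.sum_filter_add_sum_filter_not X (fun χ : DirichletCharacter ℂ N => χ ≠ 1), add_comm]
    congr 1
    have h2 : X.filter (fun χ : DirichletCharacter ℂ N => ¬ χ ≠ 1) = {1} := by
      ext χ
      rw [mem_filter, mem_singleton, not_not]
      constructor
      · exact fun h => h.2
      · intro h
        rw [h]
        exact ⟨h1X, rfl⟩
    rw [h2, sum_singleton]
  have hp1 : ‖PQ 1 * AU 1 * LL 1 * FF 1‖ ≤ (QQl E N).card * S * L.card * |∑ m ∈ MMl N, f m| := by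
    rw [norm_mul, norm_mul, norm_mul, hF1]
    refine mul_le_mul_of_nonneg_right ?_ (abs_nonneg _)
    refine mul_le_mul ?_ (hLb 1) (norm_nonneg _) (by positivity)
    exact mul_le_mul ((hQb 1).trans hQQ) (hAb 1) (norm_nonneg _) (by positivity)
  have hp2 : ‖∑ χ ∈ X.filter (fun χ : DirichletCharacter ℂ N => χ ≠ 1), PQ χ * AU χ * LL χ * FF χ‖ ≤
      (QQl E N).card * S * L.card * (3 * G) := by
    set X' := X.filter (fun χ : DirichletCharacter ℂ N => χ ≠ 1) with hX'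
    have h1 : ‖∑ χ ∈ X', PQ χ * AU χ * LL χ * FF χ‖ ≤ S * L.card * ∑ χ ∈ X', ‖PQ χ‖ * ‖FF χ‖ := by
      rw [mul_sum]
      refine (norm_sum_le _ _).trans (sum_le_sum fun χ _ => ?_)
      rw [norm_mul, norm_mul, norm_mul]
      calc ‖PQ χ‖ * ‖AU χ‖ * ‖LL χ‖ * ‖FF χ‖ = (‖AU χ‖ * ‖LL χ‖) * (‖PQ χ‖ * ‖FF χ‖) := by ring
        _ ≤ (S * L.card) * (‖PQ χ‖ * ‖FF χ‖) := by
            refine mul_le_mul_of_nonneg_right ?_ (by positivity)
            exact mul_le_mul (hAb χ) (hLb χ) (norm_nonneg _) hS0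
    have h2 : ∑ χ ∈ X', ‖PQ χ‖ * ‖FF χ‖ ≤ 3 * (QQl E N).card * G := by
      have h3 := Finset.sum_mul_sq_le_sq_mul_sq X' (fun χ => ‖PQ χ‖) (fun χ => ‖FF χ‖)
      have h4 : ∑ χ ∈ X', ‖PQ χ‖ ^ 2 ≤ (3 * ((QQl E N).card : ℝ)) ^ 2 := by
        have h5 : ∑ χ ∈ X', ‖PQ χ‖ ^ 2 ≤ ∑ χ ∈ X, ‖PQ χ‖ ^ 2 :=
          Finset.sum_le_sum_of_subset_of_nonneg (Finset.filter_subset _ _) (fun _ _ _ => by positivity)
        refine (h5.trans hC8).trans ?_
        have h6 : (0 : ℝ) ≤ (QQl E N).card := by positivity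
        nlinarith [mul_le_mul_of_nonneg_left hQQ h6]
      have h7 : (∑ χ ∈ X', ‖PQ χ‖ * ‖FF χ‖) ^ 2 ≤ (3 * (QQl E N).card * G) ^ 2 := by
        refine h3.trans ?_
        rw [mul_pow]
        exact mul_le_mul h4 hFG (sum_nonneg fun _ _ => by positivity) (by positivity)
      exact abs_le_of_sq_le_sq' h7 (by positivity) |>.2
    calc _ ≤ S * L.card * ∑ χ ∈ X', ‖PQ χ‖ * ‖FF χ‖ := h1
      _ ≤ S * L.card * (3 * (QQl E N).card * G) := mul_le_mul_of_nonneg_left h2 (by positivity)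
      _ = (QQl E N).card * S * L.card * (3 * G) := by ring
  have hphi : (0 : ℝ) < (N.totient : ℝ) := by exact_mod_cast Nat.totient_pos.mpr hNpos
  have hnorm : SCl N Q U L (MMl N) a f ≤
      ‖∑ χ : DirichletCharacter ℂ N, PQ χ * AU χ * LL χ * FF χ‖ / N.totient := by
    calc SCl N Q U L (MMl N) a f ≤ |SCl N Q U L (MMl N) a f| := le_abs_self _
      _ = ‖((SCl N Q U L (MMl N) a f : ℝ) : ℂ)‖ := by rw [Complex.norm_real, Real.norm_eq_abs]
      _ = _ := by rw [hexp, norm_div, Complex.norm_natCast]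
  refine hnorm.trans ?_
  rw [hsplit]
  have htot : ‖PQ 1 * AU 1 * LL 1 * FF 1 +
      ∑ χ ∈ X.filter (fun χ : DirichletCharacter ℂ N => χ ≠ 1), PQ χ * AU χ * LL χ * FF χ +
      ∑ χ ∈ univ.filter (fun χ : DirichletCharacter ℂ N => χ ∉ X), PQ χ * AU χ * LL χ * FF χ‖ ≤
      (QQl E N).card * S * L.card * (|∑ m ∈ MMl N, f m| + 3 * G + (Real.log N ^ 4)⁻¹) := by
    refine (norm_add_le _ _).trans ?_
    have h1 := norm_add_le (PQ 1 * AU 1 * LL 1 * FF 1)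
      (∑ χ ∈ X.filter (fun χ : DirichletCharacter ℂ N => χ ≠ 1), PQ χ * AU χ * LL χ * FF χ)
    calc _ ≤ (QQl E N).card * S * L.card * |∑ m ∈ MMl N, f m| + (QQl E N).card * S * L.card * (3 * G) +
          (QQl E N).card * S * L.card * (Real.log N ^ 4)⁻¹ := by
          refine add_le_add (h1.trans (add_le_add hp1 hp2)) hout
      _ = _ := by ring
  calc _ ≤ ((QQl E N).card * S * L.card * (|∑ m ∈ MMl N, f m| + 3 * G + (Real.log N ^ 4)⁻¹)) / N.totient :=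
        div_le_div_of_nonneg_right htot hphi.le
    _ = _ := by ring

end Pool.Agent.Lib.PL
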