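import Pool.Agent.Lib.MP_7b7e48_nt.PL.Defs
import Pool.Agent.Lib.MP_7b7e48_nt.PQ.E3a

/-!
# E3al: typical `q` and typical `l`

PROOF. Adapt `PQ/E3s.lean` (`E3s_q`) and `PQ/E3a.lean` (`E3a_l`). `χ₀² = 1`, so `χ₀ x = ±1` for units. `rho P χ₀ = 1 - 2 #{χ₀(-q) = -1}/#P`; compare with `t = ±1`. The same for `PPl`.
`E3al_c`: `L = {l ∈ PPl : χ₀ l = -1}`: `∑_{l∈L} χ l = (1/2) ∑_{PPl} χ l (1 - χ₀ l) = (#PPl/2)(av χ - av (χ χ₀))`; if `χ ∉ X` and `χ χ₀ ∉ X`, `X = XXl`, both averages are `≤ (log N)^(-T)`, so the norm is `≤ (log N)^(-T) #PPl ≤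
2 (log N)^(-T) #L` because `#L ≥ (1 - 5h²) #PPl ≥ #PPl/2`. (`χ ∉ XXl ∪ image (· * χ₀) XXl` gives `χ χ₀ ∉ XXl` since `χ₀² = 1`.)
-/

set_option autoImplicit false

open Finset
open Pool.Agent.Lib.GT (Rough pr V)
open Pool.Agent.Lib.MP_45349e_nt.LS (lam)
open Pool.Agent.Lib.RG (RC LV rr SS PB sig)

namespace Pool.Agent.Lib.PL

open Pool.Agent.Lib.PQ

private theorem E3al_pm {N : ℕ} (χ₀ : DirichletCharacter ℂ N) (h2 : χ₀ ^ 2 = 1) {x : ZMod N}
    (hx : IsUnit x) : χ₀ x = 1 ∨ χ₀ x = -1 := by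
  have h : (χ₀ ^ 2) x = 1 := by rw [h2, MulChar.one_apply hx]
  rw [MulChar.pow_apply' _ (by norm_num)] at h
  have h3 : (χ₀ x - 1) * (χ₀ x + 1) = 0 := by linear_combination h
  rcases mul_eq_zero.1 h3 with h4 | h4
  · exact Or.inl (by linear_combination h4)
  · exact Or.inr (by linear_combination h4)

open Classical in
private theorem E3al_gen (S : Finset ℕ) (h0 : S.Nonempty) (f : ℕ → ℂ) (hf : ∀ n ∈ S, f n = 1 ∨ f n = -1)
    (t : ℝ) (ht : t = 1 ∨ t = -1) :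
    ‖(∑ n ∈ S, f n) / (S.card : ℂ) - t‖ = 2 * ((S.filter (fun n => f n ≠ (t : ℂ))).card : ℝ) / S.card := by
  have hS : (0 : ℝ) < S.card := by exact_mod_cast card_pos.2 h0
  have hSc : (S.card : ℂ) ≠ 0 := by
    have : S.card ≠ 0 := (card_pos.2 h0).ne'
    exact_mod_cast this
  have h1 : ∀ n ∈ S, f n - t = if f n ≠ (t : ℂ) then -2 * (t : ℂ) else 0 := by
    intro n hn
    split_ifs with h
    · rcases ht with rfl | rfl
      · rcases hf n hn with h3 | h3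
        · exact absurd (by rw [h3]; norm_num) h
        · rw [h3]; push_cast; ring
      · rcases hf n hn with h3 | h3
        · rw [h3]; push_cast; ring
        · exact absurd (by rw [h3]; norm_num) h
    · rw [not_not.1 h, sub_self]
  have h2 : (∑ n ∈ S, f n) / (S.card : ℂ) - t = (∑ n ∈ S, (f n - t)) / (S.card : ℂ) := by
    rw [sum_sub_distrib, sum_const, nsmul_eq_mul, sub_div, mul_div_cancel_left₀ _ hSc]
  rw [h2, sum_congr rfl h1, ← sum_filter, sum_const, nsmul_eq_mul, norm_div, norm_mul, norm_mul,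
    Complex.norm_natCast, Complex.norm_natCast, Complex.norm_real]
  have h3 : ‖t‖ = 1 := by rcases ht with rfl | rfl <;> norm_num
  rw [h3, norm_neg, Complex.norm_ofNat]
  ring

theorem E3al_q {k E N : ℕ} [NeZero N] {P : Finset ℕ} (hPS : PSl k E N P) (χ₀ : DirichletCharacter ℂ N) (h2 : χ₀ ^ 2 = 1)
    (t h : ℝ) (ht : t = 1 ∨ t = -1) (h0 : P.Nonempty) (hr : ‖rho P χ₀ - t‖ ≤ 20 * h ^ 2) :
    ((P.filter (fun q : ℕ => χ₀ (-(q : ZMod N)) ≠ (t : ℂ))).card : ℝ) ≤ 10 * h ^ 2 * P.card := by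
  classical
  have hinv : χ₀⁻¹ = χ₀ := by
    rw [inv_eq_iff_mul_eq_one, ← sq, h2]
  have hS : (0 : ℝ) < P.card := by exact_mod_cast card_pos.2 h0
  have hqu : ∀ q ∈ P, q.Coprime N := by
    intro q hq
    have h1 := hPS.sub hq
    unfold QQl at h1
    rw [mem_filter, mem_Ioc] at h1
    obtain ⟨⟨h3, -⟩, hp⟩ := h1
    rw [Nat.Prime.coprime_iff_not_dvd hp]
    intro h
    have := Nat.le_of_dvd (Nat.pos_of_ne_zero (NeZero.ne N)) h
    omega
  have hg := E3al_gen P h0 (fun q => χ₀ (-(q : ZMod N))) (fun q hq => by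
    refine E3al_pm χ₀ h2 ?_
    exact ((ZMod.isUnit_iff_coprime q N).2 (hqu q hq)).neg) t ht
  unfold rho at hr
  rw [hinv, hg, div_le_iff₀ hS] at hr
  have hr' : 2 * ((P.filter (fun q : ℕ => χ₀ (-(q : ZMod N)) ≠ (t : ℂ))).card : ℝ) ≤
      20 * h ^ 2 * P.card := by
    convert hr using 3
  linarith

theorem E3al_l {S N : ℕ} [NeZero N] (χ₀ : DirichletCharacter ℂ N) (h2 : χ₀ ^ 2 = 1) (h : ℝ)
    (h0 : (PPl S N).Nonempty) (hr : ‖1 + av (PPl S N) (fun l => l) χ₀‖ ≤ 10 * h ^ 2) :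
    (((PPl S N).filter (fun l : ℕ => χ₀ (l : ZMod N) ≠ -1)).card : ℝ) ≤ 5 * h ^ 2 * (PPl S N).card := by
  classical
  have hS : (0 : ℝ) < (PPl S N).card := by exact_mod_cast card_pos.2 h0
  have hg := E3al_gen (PPl S N) h0 (fun l => χ₀ (l : ZMod N)) (fun l hl => by
    refine E3al_pm χ₀ h2 ((ZMod.isUnit_iff_coprime l N).2 ?_)
    unfold PPl at hl
    rw [mem_filter] at hl
    exact (Nat.Prime.coprime_iff_not_dvd hl.2.1).2 hl.2.2) (-1) (Or.inr rfl)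
  have e : (1 : ℂ) + av (PPl S N) (fun l => l) χ₀ =
      (∑ n ∈ PPl S N, χ₀ (n : ZMod N)) / ((PPl S N).card : ℂ) - ((-1 : ℝ) : ℂ) := by
    unfold av
    push_cast
    ring
  rw [e, hg, div_le_iff₀ hS] at hr
  push_cast at hr
  have hr' : 2 * (((PPl S N).filter (fun l : ℕ => χ₀ (l : ZMod N) ≠ -1)).card : ℝ) ≤
      10 * h ^ 2 * (PPl S N).card := by
    convert hr using 3
  linarith

open Classical in
theorem E3al_c {T S N : ℕ} [NeZero N] (hN : 3 ≤ N) (χ₀ : DirichletCharacter ℂ N) (h2 : χ₀ ^ 2 = 1) (h : ℝ) (hh : h ^ 2 ≤ 1 / 10)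
    (h0 : (PPl S N).Nonempty) (hr : ‖1 + av (PPl S N) (fun l => l) χ₀‖ ≤ 10 * h ^ 2) :
    ∀ χ : DirichletCharacter ℂ N, χ ∉ XXl T S N ∪ (XXl T S N).image (fun ψ => ψ * χ₀) →
      ‖∑ l ∈ (PPl S N).filter (fun l : ℕ => χ₀ (l : ZMod N) = -1), χ (l : ZMod N)‖ ≤ 2 * (Real.log N ^ T)⁻¹ *
        ((PPl S N).filter (fun l : ℕ => χ₀ (l : ZMod N) = -1)).card := by
  intro χ hχ
  rw [mem_union, not_or] at hχ
  obtain ⟨hx1, hx2⟩ := hχ
  have hS : (0 : ℝ) < (PPl S N).card := by exact_mod_cast card_pos.2 h0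
  have hNR : (3 : ℝ) ≤ N := by exact_mod_cast hN
  have hlog : 0 < Real.log N := Real.log_pos (by linarith)
  set δ : ℝ := (Real.log N ^ T)⁻¹ with hδ
  have hδ0 : 0 < δ := by positivity
  have hsq : χ * χ₀ * χ₀ = χ := by
    rw [mul_assoc, ← sq, h2, mul_one]
  have hx3 : χ * χ₀ ∉ XXl T S N := by
    intro h3
    exact hx2 (mem_image.2 ⟨χ * χ₀, h3, hsq⟩)
  have key : ∀ ψ : DirichletCharacter ℂ N, ψ ∉ XXl T S N →
      ‖∑ l ∈ PPl S N, ψ (l : ZMod N)‖ ≤ δ * (PPl S N).card := by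
    intro ψ hψ
    have h3 : ‖av (PPl S N) (fun l => l) ψ‖ < δ := by
      by_contra hcon
      refine hψ ?_
      unfold XXl
      rw [mem_filter]
      exact ⟨mem_univ _, not_lt.1 hcon⟩
    unfold av at h3
    rw [norm_div, Complex.norm_natCast, div_lt_iff₀ hS] at h3
    exact h3.le
  have hpm : ∀ l ∈ PPl S N, χ₀ (l : ZMod N) = 1 ∨ χ₀ (l : ZMod N) = -1 := by
    intro l hl
    refine E3al_pm χ₀ h2 ((ZMod.isUnit_iff_coprime l N).2 ?_)
    unfold PPl at hl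
    rw [mem_filter] at hl
    exact (Nat.Prime.coprime_iff_not_dvd hl.2.1).2 hl.2.2
  have hsum : ∑ l ∈ (PPl S N).filter (fun l : ℕ => χ₀ (l : ZMod N) = -1), χ (l : ZMod N) =
      (1 / 2 : ℂ) * (∑ l ∈ PPl S N, χ (l : ZMod N) - ∑ l ∈ PPl S N, (χ * χ₀) (l : ZMod N)) := by
    rw [sum_filter, ← sum_sub_distrib, mul_sum]
    refine sum_congr rfl fun l hl => ?_
    rw [MulChar.mul_apply]
    rcases hpm l hl with h3 | h3
    · rw [h3, if_neg (by norm_num)]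
      ring
    · rw [h3, if_pos rfl]
      ring
  have hcard := E3al_l χ₀ h2 h h0 hr
  have htot : (((PPl S N).filter (fun l : ℕ => χ₀ (l : ZMod N) = -1)).card : ℝ) +
      (((PPl S N).filter (fun l : ℕ => χ₀ (l : ZMod N) ≠ -1)).card : ℝ) = (PPl S N).card := by
    exact_mod_cast Finset.card_filter_add_card_filter_not (s := PPl S N)
      (fun l : ℕ => χ₀ (l : ZMod N) = -1)
  have hhalf : ((PPl S N).card : ℝ) ≤
      2 * (((PPl S N).filter (fun l : ℕ => χ₀ (l : ZMod N) = -1)).card : ℝ) := by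
    have h3 : 5 * h ^ 2 * ((PPl S N).card : ℝ) ≤ 1 / 2 * (PPl S N).card :=
      mul_le_mul_of_nonneg_right (by linarith) hS.le
    linarith
  rw [hsum, norm_mul]
  have h12 : ‖(1 / 2 : ℂ)‖ = 1 / 2 := by norm_num
  rw [h12]
  have h4 := norm_sub_le (∑ l ∈ PPl S N, χ (l : ZMod N)) (∑ l ∈ PPl S N, (χ * χ₀) (l : ZMod N))
  have h5 := key χ hx1
  have h6 := key (χ * χ₀) hx3
  calc 1 / 2 * ‖∑ l ∈ PPl S N, χ (l : ZMod N) - ∑ l ∈ PPl S N, (χ * χ₀) (l : ZMod N)‖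
      ≤ δ * (PPl S N).card := by linarith
    _ ≤ δ * (2 * (((PPl S N).filter (fun l : ℕ => χ₀ (l : ZMod N) = -1)).card : ℝ)) :=
        mul_le_mul_of_nonneg_left hhalf hδ0.le
    _ = _ := by ring

end Pool.Agent.Lib.PL
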