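import Pool.Agent.Lib.MP_7b7e48_nt.PL.N1

/-!
# E3bl: exactness

PROOF. Adapt `PQ/E3s.lean` (`E3s_b`). `b = u l m`: `N < b`: `u > U0`, `8 U0 > √N` (`low`), `m > A0l ≥ √N/3`, `l > pl N S/2 - 1 ≥ 100` (`sz_pl`): `u l m > (N/24) * 100`; `b ≤ 4 U0 * pl N S * 2 A0l ≤ N * (log N)^S ≤ Bl` (`upp`, `sz_A0`,
`E ≥ S + 1`); the prime factors are `> pl N S/2` (`u`, `m` are `pw N c`-rough, `pw N c > pl N S`; `l > pl N S/2`); `Ω(b) ≤ 1 + 2 Jc c` (`sz_om`, `u, m ≤ N`). So `lam b = t` (`HPl`), and `χ₀ b = χ₀ (-q) = t`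
(`N ∣ q + b`), so `1 = (lam u c₀ u)(lam l c₀ l)(lam m c₀ m) = s * ((-1)(-1)) * b₀`, `c₀ n = Re χ₀ n = χ₀ n`; as `s, b₀ = ±1`: `s = b₀`.
-/

set_option autoImplicit false

open Finset
open Pool.Agent.Lib.GT (Rough pr V)
open Pool.Agent.Lib.MP_45349e_nt.LS (lam)
open Pool.Agent.Lib.RG (RC LV rr SS PB sig)

namespace Pool.Agent.Lib.PL

open Pool.Agent.Lib.PQ

private theorem E3bl_lmul (m n : ℕ) (hm : m ≠ 0) (hn : n ≠ 0) : lam (m * n) = lam m * lam n := by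
  unfold lam
  rw [ArithmeticFunction.cardFactors_mul hm hn, pow_add]

private theorem E3bl_lprime (p : ℕ) (hp : p.Prime) : lam p = -1 := by
  unfold lam
  rw [ArithmeticFunction.cardFactors_apply_prime hp, pow_one]

private theorem E3bl_pm {N : ℕ} (χ₀ : DirichletCharacter ℂ N) (h2 : χ₀ ^ 2 = 1) {x : ZMod N}
    (hx : IsUnit x) : χ₀ x = 1 ∨ χ₀ x = -1 := by
  have h : (χ₀ ^ 2) x = 1 := by rw [h2, MulChar.one_apply hx]
  rw [MulChar.pow_apply' _ (by norm_num)] at h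
  have h3 : (χ₀ x - 1) * (χ₀ x + 1) = 0 := by linear_combination h
  rcases mul_eq_zero.1 h3 with h4 | h4
  · exact Or.inl (by linear_combination h4)
  · exact Or.inr (by linear_combination h4)

theorem E3bl (S E ae : ℕ) (hS : 1 ≤ S) (hE : S + 1 ≤ E) (c : ℝ) (hc : 0 < c) : ∃ N0 : ℕ, ∀ (N : ℕ) [NeZero N],
    N0 ≤ N → ∀ (t : ℝ), (t = 1 ∨ t = -1) → ∀ P : Finset ℕ, HPl N (Bl E N) (pl N S / 2) (2 * Jc c + 2) P t →
    ∀ χ₀ : DirichletCharacter ℂ N, χ₀ ^ 2 = 1 → ∀ (U : Finset ℕ) (a : ℕ → ℝ) (U0 : ℕ), USl c ae N U a U0 →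
    ∀ (q u l m : ℕ) (s b₀ : ℝ), q ∈ P → χ₀ (-(q : ZMod N)) = (t : ℂ) → u ∈ U →
    lam u * (χ₀ (u : ZMod N)).re = s → l ∈ PPl S N → χ₀ (l : ZMod N) = -1 →
    m ∈ R0l c N → lam m * (χ₀ (m : ZMod N)).re = b₀ → (b₀ = 1 ∨ b₀ = -1) →
    N ∣ q + u * l * m → s = b₀ := by
  classical
  obtain ⟨N1, h1⟩ := sz_pl S hS 100 c hc
  obtain ⟨N2, h2⟩ := sz_A0
  obtain ⟨N3, h3⟩ := sz_om c hc
  refine ⟨N1 + N2 + N3 + 1, ?_⟩
  intro N _ hN t ht P hH χ₀ hχ2 U a U0 hU q u l m s b₀ hq hq' hu hus hlP hl' hm hm' hb hd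
  obtain ⟨p1, p2, -, p4, p5⟩ := h1 N (by omega)
  obtain ⟨a1, a2, a3, -⟩ := h2 N (by omega)
  have hom := h3 N (by omega)
  obtain ⟨u1, u2, u3, ur⟩ := hU.mem u hu
  have hlP' := hlP
  unfold PPl at hlP'
  rw [mem_filter, mem_Ioc] at hlP'
  obtain ⟨⟨l1, l2⟩, lp, lN⟩ := hlP'
  have hm0 := hm
  unfold R0l RS at hm0
  rw [mem_filter, mem_Ioc] at hm0
  obtain ⟨⟨m1, m2⟩, mr, mc⟩ := hm0
  have hl0 : 0 < l := lp.pos
  have hu0 : 0 < u := by omega
  have hm00 : 0 < m := by omega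
  have hl50 : 50 < l := by omega
  have hlow := hU.low
  have hupp := hU.upp
  -- size
  have hsq : (u * m) ^ 2 ≤ N ^ 2 := by
    calc (u * m) ^ 2 = u ^ 2 * m ^ 2 := by ring
      _ ≤ (4 * U0) ^ 2 * (2 * A0l N) ^ 2 := Nat.mul_le_mul (Nat.pow_le_pow_left u2 2) (Nat.pow_le_pow_left m2 2)
      _ ≤ N * N := Nat.mul_le_mul hupp a2
      _ = N ^ 2 := by ring
  have hum : u * m ≤ N := (Nat.pow_le_pow_iff_left two_ne_zero).1 hsq
  have huN : u ≤ N := le_trans (Nat.le_mul_of_pos_right u hm00) hum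
  have hmN : m ≤ N := le_trans (Nat.le_mul_of_pos_left m hu0) hum
  have s1 : N < u * l * m := by
    have h4 : N * N < (8 * U0) ^ 2 * (5 * A0l N ^ 2) := by
      have hN0 : 0 < N := by omega
      calc N * N < (8 * U0) ^ 2 * N := Nat.mul_lt_mul_of_pos_right hlow hN0
        _ ≤ (8 * U0) ^ 2 * (5 * A0l N ^ 2) := Nat.mul_le_mul_left _ a3
    have h5 : (8 * U0) ^ 2 * (5 * A0l N ^ 2) ≤ (u * l * m) ^ 2 := by
      calc (8 * U0) ^ 2 * (5 * A0l N ^ 2) = 320 * (U0 ^ 2 * A0l N ^ 2) := by ring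
        _ ≤ l ^ 2 * (u ^ 2 * m ^ 2) := by
            refine Nat.mul_le_mul ?_ (Nat.mul_le_mul (Nat.pow_le_pow_left u1.le 2) (Nat.pow_le_pow_left m1.le 2))
            nlinarith
        _ = (u * l * m) ^ 2 := by ring
    have h6 : N ^ 2 < (u * l * m) ^ 2 := by
      rw [sq N]
      exact lt_of_lt_of_le h4 h5
    exact (Nat.pow_lt_pow_iff_left two_ne_zero).1 h6
  have s2 : u * l * m ≤ Bl E N := by
    refine Nat.le_floor ?_
    have h4 : ((u * l * m : ℕ) : ℝ) = ((u * m : ℕ) : ℝ) * l := by push_cast; ring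
    rw [h4]
    have h5 : (l : ℝ) ≤ Real.log N ^ E := by
      calc (l : ℝ) ≤ pl N S := by exact_mod_cast l2
        _ ≤ Real.log N ^ S := p2
        _ ≤ Real.log N ^ E := pow_le_pow_right₀ p5 (by omega)
    exact mul_le_mul (by exact_mod_cast hum) h5 (Nat.cast_nonneg _) (Nat.cast_nonneg _)
  have hw : pl N S / 2 < pw N c := by omega
  have s3 : Rough (pl N S / 2) (u * l * m) := by
    intro p hp hpd
    rcases (Nat.Prime.dvd_mul hp).1 hpd with h3 | h3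
    · rcases (Nat.Prime.dvd_mul hp).1 h3 with h4 | h4
      · exact hw.trans (ur p hp h4)
      · rw [(Nat.prime_dvd_prime_iff_eq hp lp).1 h4]
        exact l1
    · exact hw.trans (mr p hp h3)
  have s4 : ArithmeticFunction.cardFactors (u * l * m) ≤ 2 * Jc c + 2 := by
    rw [ArithmeticFunction.cardFactors_mul (Nat.mul_pos hu0 hl0).ne' hm00.ne',
      ArithmeticFunction.cardFactors_mul hu0.ne' hl0.ne', ArithmeticFunction.cardFactors_apply_prime lp]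
    have h5 := hom u hu0 huN ur
    have h6 := hom m hm00 hmN mr
    omega
  have hlam := hH q hq (u * l * m) s1 s2 s3 s4 hd
  rw [E3bl_lmul _ _ (Nat.mul_pos hu0 hl0).ne' hm00.ne', E3bl_lmul _ _ hu0.ne' hl0.ne', E3bl_lprime l lp] at hlam
  -- characters
  have hz : ((q + u * l * m : ℕ) : ZMod N) = 0 := (ZMod.natCast_eq_zero_iff _ _).2 hd
  have hz2 : -(q : ZMod N) = (u : ZMod N) * (l : ZMod N) * (m : ZMod N) := by
    push_cast at hz
    linear_combination -hz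
  rw [hz2, map_mul, map_mul, hl'] at hq'
  have cu := E3bl_pm χ₀ hχ2 ((ZMod.isUnit_iff_coprime u N).2 u3)
  have cm := E3bl_pm χ₀ hχ2 ((ZMod.isUnit_iff_coprime m N).2 mc)
  have ru : χ₀ (u : ZMod N) = ((χ₀ (u : ZMod N)).re : ℂ) := by
    rcases cu with h | h <;> rw [h] <;> simp
  have rm : χ₀ (m : ZMod N) = ((χ₀ (m : ZMod N)).re : ℂ) := by
    rcases cm with h | h <;> rw [h] <;> simp
  rw [ru, rm] at hq'
  have hq2 : -((χ₀ (u : ZMod N)).re * (χ₀ (m : ZMod N)).re) = t := by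
    have : ((-((χ₀ (u : ZMod N)).re * (χ₀ (m : ZMod N)).re) : ℝ) : ℂ) = (t : ℂ) := by
      rw [← hq']
      push_cast
      ring
    exact_mod_cast this
  have htt : t * t = 1 := by rcases ht with rfl | rfl <;> norm_num
  have hsb : s * b₀ = 1 := by
    rw [← hus, ← hm']
    calc lam u * (χ₀ (u : ZMod N)).re * (lam m * (χ₀ (m : ZMod N)).re)
        = (lam u * -1 * lam m) * (-((χ₀ (u : ZMod N)).re * (χ₀ (m : ZMod N)).re)) := by ring
      _ = 1 := by rw [hlam, hq2, htt]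
  rcases hb with rfl | rfl
  · linarith
  · linarith

end Pool.Agent.Lib.PL
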