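import Pool.Agent.Lib.MP_7b7e48_nt.PL.E2ml
import Pool.Agent.Lib.MP_7b7e48_nt.PL.E2ul
import Pool.Agent.Lib.MP_7b7e48_nt.PL.E3al
import Pool.Agent.Lib.MP_7b7e48_nt.PL.E3bl
import Pool.Agent.Lib.MP_7b7e48_nt.PL.C4l
import Pool.Agent.Lib.MP_7b7e48_nt.PL.B7l
import Pool.Agent.Lib.MP_7b7e48_nt.PQ.A2

/-!
# E3l: the sign lemma

PROOF. `K` = sum of the constants of `C3v`, `C4l` and `100`. Let `(U, a, U0, s)` be as in `SHl` and suppose `s ≠ b₀`. Let `D` be from `C3v`, `c₀ n = Re χ₀ n`. `L = {l ∈ PPl : χ₀ l = -1}`,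
`X' = XXl ∪ XXl χ₀` (`#X' ≤ 2 #XXl`, `#X' + 2 ≤ pw N (1/(5k))`, `B7l`; contains `1`), `E3al_c`. `Q = {q ∈ P : χ₀(-q) = t}`, `#Q ≥ (1 - 10h²)(1 - 1/k) #QQl` (`E3al_q`). All quantities below in units of `G = (∑a) #L #QQl/φ(N)`; `ms = ms R0l ≤ ZWl`,
`1/(4 log N) ≤ ms` (`ZWl_low`, `D6l`).
LOWER (`E2ml`): `SCl(Q; WD/m) ≥ (1 - 10h² - 1/k - 1/log N) ZWl ≥ 0.99 ZWl`.
UPPER. `WD/m = f₂ + 1_{R0l}/m` on `MMl`, `f₂ = (WD - 1_rough)/m ≥ 0`. In `SCl(Q; 1_{R0l}/m)` a nonzero term has `m ∈ R0l`, and if `lam m c₀ m = b₀` then `E3bl` gives `s = b₀`, excluded (`a u > 0`); so (signs are `±1`) it is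
`SCl(Q; f₁)`, `f₁ = 1[m ∈ R0l, lam m c₀ m = -b₀]/m`. `E2ul` for `f₁`: `∑ f₁ = Bd ≤ 4h² ms`; `∑_{X'} ‖F_χ‖² ≤ ms (1+e) ∑ f₁ ≤ (2.1 h ms)²` (`A1` with the function `1_bad`, `F_χ = ms ∑ w₀ 1_bad χ`, `Bes` from `C4l` with `e = K' (1/2)^b ≤ h^6`).
`E2ul` for `f₂`: `∑ f₂ ≤ h^6 ms` (`C3v`), `F_χ = ∑ (WD/m) χ - ms sv χ`, first part `≤ N^(-β/2)` (`E2bl`), `∑_{X' \ 1} ‖sv χ‖² ≤ e ≤ h^6` (`A2`): `∑_{X' \ 1} ‖F_χ‖² ≤ 2 ms² h^6 + 2 #X' N^(-β) ≤ (2 h³ ms)²` (`#X' N^(-β) ≤ N^(-β/2)` is tiny compared with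
`h^6 ms² ≥ h^6/(16 log² N)`). Total UPPER `≤ (4h² + 6.3 h + h^6 + 6 h³) ms + 2 (log N)^(-4) ≤ 7 h ms + ms/100 ≤ 0.1 ms`. As `ms ≤ ZWl`: contradiction.
(`f₁`, `f₂` satisfy `|f m| ≤ 2 τ(m)/m`.)
-/

set_option autoImplicit false

open Finset
open Pool.Agent.Lib.GT (Rough pr V)
open Pool.Agent.Lib.MP_45349e_nt.LS (lam)
open Pool.Agent.Lib.RG (RC LV rr SS PB sig)

namespace Pool.Agent.Lib.PL

open Pool.Agent.Lib.PQ

private theorem e3l_pm {N : ℕ} (χ₀ : DirichletCharacter ℂ N) (h2 : χ₀ ^ 2 = 1) {m : ℕ}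
    (hm : m.Coprime N) : (χ₀ (m : ZMod N)).re = 1 ∨ (χ₀ (m : ZMod N)).re = -1 := by
  have h3 : IsUnit (m : ZMod N) := by rwa [ZMod.isUnit_iff_coprime]
  have h4 : χ₀ (m : ZMod N) ^ 2 = 1 := by
    rw [← MulChar.pow_apply' χ₀ two_ne_zero, h2, MulChar.one_apply h3]
  rcases sq_eq_sq_iff_eq_or_eq_neg.mp (h4.trans (one_pow 2).symm) with h | h
  · left; rw [h]; simp
  · right; rw [h]; simp

private theorem e3l_lam (m : ℕ) : lam m = 1 ∨ lam m = -1 := by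
  unfold lam
  exact neg_one_pow_eq_or ℝ _

private theorem e3l_split {N : ℕ} (Q U L M : Finset ℕ) (a f g h : ℕ → ℝ)
    (H : ∀ q ∈ Q, ∀ u ∈ U, ∀ l ∈ L, ∀ m ∈ M, N ∣ q + u * l * m → f m = g m + h m) :
    SCl N Q U L M a f = SCl N Q U L M a g + SCl N Q U L M a h := by
  unfold SCl
  simp only [← sum_add_distrib]
  refine sum_congr rfl fun q hq => sum_congr rfl fun u hu => sum_congr rfl fun l hl =>
    sum_congr rfl fun m hm => ?_
  split_ifs with hd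
  · rw [H q hq u hu l hl m hm hd]
    ring
  · rw [add_zero]

private theorem e3l_WD (D : Finset ℕ) {m : ℕ} (hm : 1 ≤ m) :
    |WD D m| ≤ ((m.divisors.card : ℕ) : ℝ) := by
  unfold WD
  refine (abs_sum_le_sum_abs _ _).trans ?_
  have h1 : ∀ d ∈ D.filter (fun d => d ∣ m), |((ArithmeticFunction.moebius d : ℤ) : ℝ)| ≤ 1 := by
    intro d _
    exact_mod_cast ArithmeticFunction.abs_moebius_le_one
  refine (sum_le_sum h1).trans ?_
  rw [sum_const, nsmul_eq_mul, mul_one]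
  exact_mod_cast card_le_card fun d hd => by
    rw [mem_filter] at hd
    exact Nat.mem_divisors.mpr ⟨hd.2, by omega⟩

private theorem e3l_div {m : ℕ} (hm : 1 ≤ m) : (1 : ℝ) ≤ ((m.divisors.card : ℕ) : ℝ) := by
  have h1 : 0 < m.divisors.card := card_pos.mpr ⟨1, Nat.one_mem_divisors.mpr (by omega)⟩
  exact_mod_cast h1

private theorem e3l_MM {N m : ℕ} (hm : m ∈ MMl N) : 1 ≤ m ∧ m.Coprime N := by
  unfold MMl at hm
  rw [mem_filter, mem_Ioc] at hm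
  exact ⟨by omega, hm.2⟩

private theorem e3l_R0 {c : ℝ} {N m : ℕ} : m ∈ R0l c N ↔ m ∈ MMl N ∧ Rough (pw N c) m := by
  unfold R0l RS MMl
  simp only [mem_filter]
  tauto

open Classical in
/-- the logarithmic weight of the rough numbers with the property `p` -/
private noncomputable def e3lF (c : ℝ) (N : ℕ) (p : ℕ → Prop) (m : ℕ) : ℝ :=
  if Rough (pw N c) m ∧ p m then 1 / (m : ℝ) else 0

private theorem e3lF_nonneg (c : ℝ) (N : ℕ) (p : ℕ → Prop) (m : ℕ) : 0 ≤ e3lF c N p m := by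
  unfold e3lF
  split_ifs
  · positivity
  · exact le_rfl

private theorem e3lF_le (c : ℝ) (N : ℕ) (p : ℕ → Prop) (m : ℕ) : e3lF c N p m ≤ 1 / (m : ℝ) := by
  unfold e3lF
  split_ifs
  · exact le_rfl
  · positivity

open Classical in
private theorem e3l_sum {c : ℝ} {N : ℕ} {M : Type} [AddCommMonoid M] (g : ℕ → M) :
    ∑ m ∈ R0l c N, g m = ∑ m ∈ MMl N, if Rough (pw N c) m then g m else 0 := by
  rw [← sum_filter]
  refine sum_congr ?_ fun _ _ => rfl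
  ext m
  rw [e3l_R0, mem_filter]

open Classical in
private theorem e3l_F {c : ℝ} {N : ℕ} (hms : ms (R0l c N) ≠ 0) (p : ℕ → Prop)
    (χ : DirichletCharacter ℂ N) :
    ∑ m ∈ MMl N, ((e3lF c N p m : ℝ) : ℂ) * χ (m : ZMod N) =
      (ms (R0l c N) : ℂ) * ∑ m ∈ R0l c N,
        (w0l c N m : ℂ) * ((if p m then (1 : ℂ) else 0) * χ (m : ZMod N)) := by
  rw [mul_sum, e3l_sum]
  refine sum_congr rfl fun m hm => ?_
  have hm0 : (m : ℂ) ≠ 0 := by
    have := (e3l_MM hm).1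
    exact_mod_cast (by omega : m ≠ 0)
  have hms' : (ms (R0l c N) : ℂ) ≠ 0 := by exact_mod_cast hms
  unfold e3lF w0l wt
  by_cases h1 : Rough (pw N c) m
  · by_cases h2 : p m
    · rw [if_pos (And.intro h1 h2), if_pos h1, if_pos h2]
      push_cast
      field_simp
    · rw [if_neg (fun h : Rough (pw N c) m ∧ p m => h2 h.2), if_pos h1, if_neg h2]
      push_cast
      ring
  · rw [if_neg (fun h : Rough (pw N c) m ∧ p m => h1 h.1), if_neg h1]
    push_cast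
    ring

open Classical in
private theorem e3l_mass {c : ℝ} {N : ℕ} (hms : ms (R0l c N) ≠ 0) (p : ℕ → Prop) :
    ms (R0l c N) * ∑ m ∈ R0l c N, w0l c N m * ‖(if p m then (1 : ℂ) else 0)‖ ^ 2 =
      ∑ m ∈ MMl N, e3lF c N p m := by
  rw [mul_sum, e3l_sum]
  refine sum_congr rfl fun m hm => ?_
  have hm0 : (m : ℝ) ≠ 0 := by
    have := (e3l_MM hm).1
    exact_mod_cast (by omega : m ≠ 0)
  unfold e3lF w0l wt
  by_cases h1 : Rough (pw N c) m
  · by_cases h2 : p m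
    · rw [if_pos (And.intro h1 h2), if_pos h1, if_pos h2, norm_one]
      field_simp
    · rw [if_neg (fun h : Rough (pw N c) m ∧ p m => h2 h.2), if_pos h1, if_neg h2, norm_zero]
      ring
  · rw [if_neg (fun h : Rough (pw N c) m ∧ p m => h1 h.1), if_neg h1]

/-- characters against the bad numbers -/
private theorem e3l_G1 {c : ℝ} {N : ℕ} [NeZero N] (hms : 0 < ms (R0l c N)) {e : ℝ} (he : 0 ≤ e) {m : ℕ}
    (hw : Wt N (R0l c N) (w0l c N)) (hB : Bes N (R0l c N) (w0l c N) e m)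
    (X : Finset (DirichletCharacter ℂ N)) (hX : X.card ≤ m) (p : ℕ → Prop) :
    ∑ χ ∈ X, ‖∑ m ∈ MMl N, ((e3lF c N p m : ℝ) : ℂ) * χ (m : ZMod N)‖ ^ 2 ≤
      (1 + e) * (ms (R0l c N) * ∑ m ∈ MMl N, e3lF c N p m) := by
  classical
  have h1 := A1 hw he hB X hX (fun m => if p m then (1 : ℂ) else 0)
  have h2 : ∀ χ : DirichletCharacter ℂ N,
      ‖∑ m ∈ MMl N, ((e3lF c N p m : ℝ) : ℂ) * χ (m : ZMod N)‖ ^ 2 =
        ms (R0l c N) ^ 2 * ‖∑ m ∈ R0l c N,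
          (w0l c N m : ℂ) * ((if p m then (1 : ℂ) else 0) * χ (m : ZMod N))‖ ^ 2 := by
    intro χ
    rw [e3l_F hms.ne' p χ, norm_mul, mul_pow, Complex.norm_real, Real.norm_eq_abs, sq_abs]
  simp only [h2]
  rw [← mul_sum, ← e3l_mass hms.ne' p]
  have h3 : 0 ≤ ms (R0l c N) ^ 2 := by positivity
  refine (mul_le_mul_of_nonneg_left h1 h3).trans (le_of_eq ?_)
  ring

/-- characters against the excess of the sieve weights -/
private theorem e3l_G2 {c : ℝ} {N : ℕ} [NeZero N] (hms : 0 < ms (R0l c N)) {e : ℝ} (he : 0 ≤ e) {m : ℕ}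
    (hw : Wt N (R0l c N) (w0l c N)) (hB : Bes N (R0l c N) (w0l c N) e m) (D : Finset ℕ)
    (Y : Finset (DirichletCharacter ℂ N)) (h1 : (1 : DirichletCharacter ℂ N) ∉ Y) (hY : Y.card + 1 ≤ m)
    {η : ℝ} (hη : ∀ χ ∈ Y, ‖∑ m ∈ MMl N, ((WD D m / m : ℝ) : ℂ) * χ (m : ZMod N)‖ ≤ η) :
    ∑ χ ∈ Y, ‖∑ m ∈ MMl N, ((WD D m / m - e3lF c N (fun _ => True) m : ℝ) : ℂ) * χ (m : ZMod N)‖ ^ 2 ≤
      2 * (Y.card * η ^ 2) + 2 * (ms (R0l c N) ^ 2 * e) := by
  classical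
  have h2 := A2 hw he hB Y h1 hY
  have h3 : ∀ χ ∈ Y, ‖∑ m ∈ MMl N, ((WD D m / m - e3lF c N (fun _ => True) m : ℝ) : ℂ) *
      χ (m : ZMod N)‖ ^ 2 ≤ 2 * η ^ 2 + 2 * (ms (R0l c N) ^ 2 * ‖sv (R0l c N) (w0l c N) χ‖ ^ 2) := by
    intro χ hχ
    have e1 : ∑ m ∈ MMl N, ((WD D m / m - e3lF c N (fun _ => True) m : ℝ) : ℂ) * χ (m : ZMod N) =
        ∑ m ∈ MMl N, ((WD D m / m : ℝ) : ℂ) * χ (m : ZMod N) -
          (ms (R0l c N) : ℂ) * sv (R0l c N) (w0l c N) χ := by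
      have e2 := e3l_F hms.ne' (fun _ => True) χ
      simp only [if_true, one_mul] at e2
      unfold sv
      rw [← e2, ← sum_sub_distrib]
      refine sum_congr rfl fun m _ => ?_
      push_cast
      ring
    rw [e1]
    have e3 := norm_sub_le (∑ m ∈ MMl N, ((WD D m / m : ℝ) : ℂ) * χ (m : ZMod N))
      ((ms (R0l c N) : ℂ) * sv (R0l c N) (w0l c N) χ)
    rw [norm_mul, Complex.norm_real, Real.norm_of_nonneg hms.le] at e3
    have e4 := hη χ hχ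
    have e5 := norm_nonneg (∑ m ∈ MMl N, ((WD D m / m : ℝ) : ℂ) * χ (m : ZMod N) -
      (ms (R0l c N) : ℂ) * sv (R0l c N) (w0l c N) χ)
    have e6 : ‖∑ m ∈ MMl N, ((WD D m / m : ℝ) : ℂ) * χ (m : ZMod N) -
        (ms (R0l c N) : ℂ) * sv (R0l c N) (w0l c N) χ‖ ^ 2 ≤
        (η + ms (R0l c N) * ‖sv (R0l c N) (w0l c N) χ‖) ^ 2 :=
      pow_le_pow_left₀ e5 (by linarith) 2
    refine e6.trans ?_
    nlinarith [sq_nonneg (η - ms (R0l c N) * ‖sv (R0l c N) (w0l c N) χ‖)]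
  refine (sum_le_sum h3).trans ?_
  rw [sum_add_distrib, sum_const, nsmul_eq_mul, ← mul_sum, ← mul_sum]
  have h4 := mul_le_mul_of_nonneg_left h2 (by positivity : 0 ≤ ms (R0l c N) ^ 2)
  linarith

private theorem e3l_num1 {Y q Q E K : ℝ} (hlow : |Y - q * E| ≤ Q * E / K) (hK : 1000 ≤ K) (hE : 0 < E)
    (hQ : 0 < Q) (hq : 998 / 1000 * Q ≤ q) : 99 / 100 * (Q * E) ≤ Y := by
  have h1 := (abs_le.mp hlow).1
  have h2 : Q * E / K ≤ 1 / 1000 * (Q * E) := by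
    rw [div_le_iff₀ (by linarith)]
    have h3 : 0 < Q * E := by positivity
    nlinarith
  have h4 := mul_le_mul_of_nonneg_right hq hE.le
  have h5 : 0 < Q * E := by positivity
  linarith

private theorem e3l_num2 {k h Q P q : ℝ} (hk : 1 / k ≤ 1 / 40000) (hh : h ^ 2 ≤ 1 / 10000) (hQ : 0 < Q)
    (hP : 0 < P) (h1 : (1 - 1 / k) * Q ≤ P) (h2 : (1 - 10 * h ^ 2) * P ≤ q) : 998 / 1000 * Q ≤ q := by
  have e5 : (1 - 1 / 40000) * Q ≤ (1 - 1 / k) * Q := by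
    refine mul_le_mul_of_nonneg_right ?_ hQ.le
    linarith
  have e6 : (1 - 10 * (1 / 10000)) * P ≤ (1 - 10 * h ^ 2) * P := by
    refine mul_le_mul_of_nonneg_right ?_ hP.le
    linarith
  linarith

private theorem e3l_num3 {K m : ℝ} (hK : 1000 ≤ K) (h1 : 1 / (4 * K) ≤ m) :
    (K ^ 4)⁻¹ ≤ 1 / 1000 * m := by
  refine le_trans ?_ (mul_le_mul_of_nonneg_left h1 (by norm_num))
  have hK0 : 0 < K := by linarith
  rw [inv_eq_one_div, mul_one_div, div_le_div_iff₀ (by positivity) (by positivity)]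
  have e2 : (1000 : ℝ) ^ 3 ≤ K ^ 3 := pow_le_pow_left₀ (by norm_num) hK 3
  have e3 : 1 / 1000 * K ^ 4 = 1 / 1000 * K ^ 3 * K := by ring
  rw [e3]
  nlinarith

private theorem e3l_num4 {h m G L A B Y Z : ℝ} (h0 : 0 < h) (h1 : h ≤ 1 / 100) (hm : 0 < m)
    (hG : 0 < G) (hZ : m ≤ Z) (hL : L ≤ 1 / 1000 * m)
    (hA : A ≤ G * (4 * h ^ 2 * m + 3 * (21 / 10 * h * m) + L))
    (hB : B ≤ G * (h ^ 6 * m + 3 * (2 * h ^ 3 * m) + L)) (hY : Y = A + B)
    (hlow : 99 / 100 * (G * Z) ≤ Y) : False := by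
  have hh2 : h ^ 2 ≤ 1 / 10000 := by
    calc h ^ 2 ≤ (1 / 100) ^ 2 := pow_le_pow_left₀ h0.le h1 2
      _ = 1 / 10000 := by norm_num
  have hh6 : h ^ 6 ≤ h ^ 2 := pow_le_pow_of_le_one h0.le (by linarith) (by norm_num)
  have hh3 : h ^ 3 ≤ h ^ 2 := pow_le_pow_of_le_one h0.le (by linarith) (by norm_num)
  have e1 : (4 * h ^ 2 * m + 3 * (21 / 10 * h * m) + L) +
      (h ^ 6 * m + 3 * (2 * h ^ 3 * m) + L) ≤ 1 / 10 * m := by
    have g2 : (4 * h ^ 2 + 3 * (21 / 10 * h) + h ^ 6 + 3 * (2 * h ^ 3)) * m ≤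
        98 / 1000 * m := by
      refine mul_le_mul_of_nonneg_right ?_ hm.le
      linarith
    linarith
  have e2 := mul_le_mul_of_nonneg_left e1 hG.le
  have e3 : G * (1 / 10 * m) ≤ 1 / 10 * (G * Z) := by
    calc G * (1 / 10 * m) = 1 / 10 * (G * m) := by ring
      _ ≤ 1 / 10 * (G * Z) := by gcongr
  have e4 : 0 < G * Z := mul_pos hG (by linarith)
  rw [mul_add] at e2
  linarith

private theorem e3l_num5 {h m B e : ℝ} (hm : 0 < m) (hB0 : 0 ≤ B) (hB : B ≤ 4 * h ^ 2 * m)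
    (he : 1 + e ≤ 11 / 10) : (1 + e) * (m * B) ≤ (21 / 10 * h * m) ^ 2 := by
  calc (1 + e) * (m * B) ≤ 11 / 10 * (m * (4 * h ^ 2 * m)) := by gcongr
    _ ≤ (21 / 10 * h * m) ^ 2 := by
        have e5 : 0 ≤ h ^ 2 * m ^ 2 := by positivity
        nlinarith

/-- the error terms with powers of `N` -/
private theorem e3l_num6 {N β K h m e Y : ℝ} {k : ℝ} (hN : 1 ≤ N) (hk : 0 < k)
    (hβk : 40 ≤ β * k) (hK : 0 < K) (h0 : 0 < h) (hpl : 256 / h ^ 6 * K ^ 2 ≤ N ^ β)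
    (hm : 1 / (4 * K) ≤ m) (he : e ≤ h ^ 6) (hY : Y ≤ N ^ (1 / (10 * k))) :
    2 * (Y * (N ^ (1 / (20 * k)) * (4 * N ^ (-β))) ^ 2) + 2 * (m ^ 2 * e) ≤ (2 * h ^ 3 * m) ^ 2 := by
  have hNpos : 0 < N := by linarith
  have f2 : (N ^ (1 / (20 * k)) * (4 * N ^ (-β))) ^ 2 =
      16 * (N ^ (1 / (10 * k)) * N ^ (-(2 * β))) := by
    have g1 : (N ^ (1 / (20 * k))) ^ 2 = N ^ (1 / (10 * k)) := by
      rw [← Real.rpow_natCast, ← Real.rpow_mul hNpos.le]
      congr 1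
      push_cast
      field_simp
      norm_num
    have g2 : (N ^ (-β)) ^ 2 = N ^ (-(2 * β)) := by
      rw [← Real.rpow_natCast, ← Real.rpow_mul hNpos.le]
      congr 1
      push_cast
      ring
    rw [mul_pow, mul_pow, g1, g2]
    ring
  have f3 : N ^ (1 / (10 * k)) * (N ^ (1 / (10 * k)) * N ^ (-(2 * β))) ≤ N ^ (-β) := by
    rw [← Real.rpow_add hNpos, ← Real.rpow_add hNpos]
    refine Real.rpow_le_rpow_of_exponent_le hN ?_
    have g1 : 1 / (10 * k) + 1 / (10 * k) ≤ β := by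
      have g2 : 1 / (10 * k) + 1 / (10 * k) = 1 / (5 * k) := by
        field_simp
        norm_num
      rw [g2, div_le_iff₀ (by positivity)]
      linarith
    linarith
  have f4 : N ^ (-β) ≤ h ^ 6 / (256 * K ^ 2) := by
    rw [Real.rpow_neg hNpos.le, inv_eq_one_div, div_le_div_iff₀ (by positivity) (by positivity)]
    have g1 : 256 / h ^ 6 * K ^ 2 * h ^ 6 = 256 * K ^ 2 := by
      field_simp
    have g2 := mul_le_mul_of_nonneg_right hpl (by positivity : 0 ≤ h ^ 6)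
    linarith
  have f5 : h ^ 6 / (16 * K ^ 2) ≤ h ^ 6 * m ^ 2 := by
    have g1 : (1 / (4 * K)) ^ 2 ≤ m ^ 2 := pow_le_pow_left₀ (by positivity) hm 2
    have g2 : h ^ 6 / (16 * K ^ 2) = h ^ 6 * (1 / (4 * K)) ^ 2 := by
      field_simp
      norm_num
    rw [g2]
    gcongr
  rw [f2]
  have f6 : Y * (16 * (N ^ (1 / (10 * k)) * N ^ (-(2 * β)))) ≤ 16 * (h ^ 6 / (256 * K ^ 2)) := by
    calc Y * (16 * (N ^ (1 / (10 * k)) * N ^ (-(2 * β))))
        ≤ N ^ (1 / (10 * k)) * (16 * (N ^ (1 / (10 * k)) * N ^ (-(2 * β)))) := by gcongr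
      _ = 16 * (N ^ (1 / (10 * k)) * (N ^ (1 / (10 * k)) * N ^ (-(2 * β)))) := by ring
      _ ≤ 16 * (h ^ 6 / (256 * K ^ 2)) := by
          have := f3.trans f4
          linarith
  have f7 : 16 * (h ^ 6 / (256 * K ^ 2)) = h ^ 6 / (16 * K ^ 2) := by
    field_simp
    norm_num
  have f8 : m ^ 2 * e ≤ m ^ 2 * h ^ 6 := by gcongr
  have f9 : (2 * h ^ 3 * m) ^ 2 = 4 * (h ^ 6 * m ^ 2) := by ring
  rw [f9]
  linarith

theorem E3l : ∃ K : ℕ, 1 ≤ K ∧ ∀ (k b T S E ae : ℕ) (β : ℝ), Par k β → ae + 20 ≤ T → 10 * k * (2 * T + 4) ≤ S →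
    2 * S + 1 ≤ E → 1 ≤ b → ∀ c h : ℝ, 0 < c → c ≤ 1 / 4 → c * (20 * k * K * b) ≤ 1 → 0 < h → h ≤ 1 / 100 →
    (K : ℝ) * (1 / 2) ^ b ≤ h ^ 6 →
    ∃ N0 : ℕ, ∀ (N : ℕ) [NeZero N], N0 ≤ N → ∀ P : Finset ℕ, PSl k E N P → ∀ t : ℝ, (t = 1 ∨ t = -1) →
    HPl N (Bl E N) (pl N S / 2) (2 * Jc c + 2) P t →
    ∀ χ₀ : DirichletCharacter ℂ N, χ₀ ≠ 1 → χ₀ ^ 2 = 1 → ‖1 + av (PPl S N) (fun l => l) χ₀‖ ≤ 10 * h ^ 2 →
    ‖rho P χ₀ - t‖ ≤ 20 * h ^ 2 → ∀ b₀ : ℝ, (b₀ = 1 ∨ b₀ = -1) →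
    Bd N (pw N c) (fun n => (χ₀ (n : ZMod N)).re) b₀ (A0l N) (2 * A0l N) ≤ 4 * h ^ 2 * ms (R0l c N) →
    SHl c ae N (fun n => (χ₀ (n : ZMod N)).re) b₀ := by
  classical
  obtain ⟨K1, hK1, h3v⟩ := C3v
  obtain ⟨K2, hK2, h4l⟩ := C4l
  refine ⟨K1 + K2 + 100, by omega, ?_⟩
  intro k b T S E ae β hP hT hS hE hb c h hc hc4 hcK h0 h1 hKh
  have hβ0 := hP.pos
  have hk : (40000 : ℝ) ≤ k := by
    have e1 := hP.big
    have e2 := hP.le
    by_contra hcon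
    push Not at hcon
    have e3 : (0 : ℝ) ≤ k := Nat.cast_nonneg _
    have e4 : β * k ≤ 1 / 1000 * k := mul_le_mul_of_nonneg_right e2 e3
    linarith
  have hkn : 40000 ≤ k := by exact_mod_cast hk
  have hk0 : (0 : ℝ) < k := by linarith
  have hb1 : (1 : ℝ) ≤ b := by exact_mod_cast hb
  have hS1 : 1 ≤ S := by
    have e1 : 0 < 10 * k * (2 * T + 4) := by positivity
    omega
  have hE2 : 2 ≤ E := by omega
  have hE1 : S + 1 ≤ E := by omega
  have hcK1 : c * (20 * k * K1 * b) ≤ 1 := by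
    refine le_trans ?_ hcK
    have e : (K1 : ℝ) ≤ ((K1 + K2 + 100 : ℕ) : ℝ) := by exact_mod_cast (by omega)
    gcongr
  have hcK2 : c * (20 * k * K2 * b) ≤ 1 := by
    refine le_trans ?_ hcK
    have e : (K2 : ℝ) ≤ ((K1 + K2 + 100 : ℕ) : ℝ) := by exact_mod_cast (by omega)
    gcongr
  have hh2 : h ^ 2 ≤ 1 / 10000 := by
    calc h ^ 2 ≤ (1 / 100) ^ 2 := pow_le_pow_left₀ h0.le h1 2
      _ = 1 / 10000 := by norm_num
  have hh6 : h ^ 6 ≤ h ^ 2 := pow_le_pow_of_le_one h0.le (by linarith) (by norm_num)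
  have hKC1 : (K1 : ℝ) * (1 / 2) ^ b ≤ h ^ 6 := by
    refine le_trans ?_ hKh
    have e : (K1 : ℝ) ≤ ((K1 + K2 + 100 : ℕ) : ℝ) := by exact_mod_cast (by omega)
    gcongr
  have hKC2 : (K2 : ℝ) * (1 / 2) ^ b ≤ h ^ 6 := by
    refine le_trans ?_ hKh
    have e : (K2 : ℝ) ≤ ((K1 + K2 + 100 : ℕ) : ℝ) := by exact_mod_cast (by omega)
    gcongr
  obtain ⟨N1, hN1⟩ := h3v k b (by omega) hb c hc hc4 hcK1 (by linarith)
  obtain ⟨N2, hN2⟩ := h4l k b β hP hb c hc hc4 hcK2 (by linarith)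
  obtain ⟨N3, hN3⟩ := B7l k T S (by omega) hS
  obtain ⟨N4, hN4⟩ := E2ml hP T S E ae hT hE2 c hc hc4
  obtain ⟨N5, hN5⟩ := E2ul hP T S E ae hT hE2 c hc
  obtain ⟨N6, hN6⟩ := E3bl S E ae hS1 hE1 c hc
  obtain ⟨N7, hN7⟩ := ZWl_low k c hc hc4
  obtain ⟨N8, hN8⟩ := D6l c hc hc4
  obtain ⟨N9, hN9⟩ := E2bl hP
  obtain ⟨N10, hN10⟩ := C9l E hE2 (1 / 2) (by norm_num)
  obtain ⟨N11, hN11⟩ := sz_logpow 0 1000
  obtain ⟨N12, hN12⟩ := sz_log 2 (256 / h ^ 6) β hβ0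
  obtain ⟨N13, hN13⟩ := sz_Bl E
  refine ⟨N1 + N2 + N3 + N4 + N5 + N6 + N7 + N8 + N9 + N10 + N11 + N12 + N13 + 3, ?_⟩
  intro N _ hN P hPS t ht hH χ₀ hχ1 hχ2 hav hrho b₀ hb₀ hBd U a U0 s hU hs
  by_contra hsb
  obtain ⟨D, hD, hEx⟩ := hN1 N (by omega)
  obtain ⟨hw, hB⟩ := hN2 N (by omega)
  obtain ⟨hPne, hXc, hX1, -⟩ := hN3 N (by omega)
  obtain ⟨hZ1, hZ2⟩ := hN7 N (by omega) D hD
  have hms1 := hN8 N (by omega)
  have hEb := hN9 N (by omega) c D hD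
  have hQlow := hN10 N (by omega)
  have hlog := hN11 N (by omega)
  have hpowlog := hN12 N (by omega)
  obtain ⟨hBl, -, -⟩ := hN13 N (by omega)
  rw [pow_zero, mul_one, zero_add, pow_one] at hlog
  have hN3' : 3 ≤ N := by omega
  have hNR : (3 : ℝ) ≤ N := by exact_mod_cast hN3'
  have hNpos : (0 : ℝ) < N := by linarith
  have hlog0 : 0 < Real.log N := by linarith
  have hφ : (0 : ℝ) < N.totient := by exact_mod_cast Nat.totient_pos.mpr (by omega)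
  set msr := ms (R0l c N) with hmsr
  have hms : 0 < msr := lt_of_lt_of_le (by positivity) hms1
  have hZ0 : 0 < ZWl N D := lt_of_lt_of_le (by positivity) hZ1
  have hQQ0 : (0 : ℝ) < (QQl E N).card := by
    refine lt_of_lt_of_le ?_ hQlow
    have e1 : (N : ℝ) ≤ Bl E N := by exact_mod_cast hBl
    have e2 : (0 : ℝ) < Bl E N := by linarith
    positivity
  have h1k : 1 / (k : ℝ) ≤ 1 / 40000 := one_div_le_one_div_of_le (by norm_num) hk
  have hPc0 : (0 : ℝ) < P.card := by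
    refine lt_of_lt_of_le ?_ hPS.big
    have e1 : 0 < 1 - 1 / (k : ℝ) := by linarith
    positivity
  have hPne' : P.Nonempty := by
    rw [← card_pos]
    exact_mod_cast hPc0
  have hPP0 : (0 : ℝ) < (PPl S N).card := by exact_mod_cast card_pos.mpr hPne
  have hA0 : 0 < ∑ u ∈ U, a u := by
    have e1 : 0 < U0 := by
      rcases Nat.eq_zero_or_pos U0 with e1 | e1
      · have e2 := hU.low
        rw [e1] at e2
        omega
      · exact e1
    have e2 : (0 : ℝ) < U0 := by exact_mod_cast e1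
    have e3 := hU.big
    have e4 : 0 < Real.log N ^ ae * ∑ u ∈ U, a u := by linarith
    exact (mul_pos_iff_of_pos_left (by positivity)).mp e4
  -- the sets
  set L := (PPl S N).filter (fun l : ℕ => χ₀ (l : ZMod N) = -1) with hL
  set Q := P.filter (fun q : ℕ => χ₀ (-(q : ZMod N)) = (t : ℂ)) with hQ
  set X := XXl T S N ∪ (XXl T S N).image (fun ψ => ψ * χ₀) with hX
  have hLsub : L ⊆ PPl S N := filter_subset _ _
  have hQsub : Q ⊆ QQl E N := (filter_subset _ _).trans hPS.sub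
  have hLc : (0 : ℝ) < L.card := by
    have e1 := E3al_l χ₀ hχ2 h hPne hav
    have e2 : (L.card : ℝ) +
        (((PPl S N).filter (fun l : ℕ => χ₀ (l : ZMod N) ≠ -1)).card : ℝ) = (PPl S N).card := by
      rw [hL, ← Nat.cast_add]
      congr 1
      exact Finset.card_filter_add_card_filter_not _
    have e3 : 5 * h ^ 2 * ((PPl S N).card : ℝ) ≤ 1 / 2 * (PPl S N).card := by
      refine mul_le_mul_of_nonneg_right ?_ hPP0.le
      linarith
    linarith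
  have hQc : (1 - 10 * h ^ 2) * (P.card : ℝ) ≤ Q.card := by
    have e1 := E3al_q hPS χ₀ hχ2 t h ht hPne' hrho
    have e2 : (Q.card : ℝ) +
        ((P.filter (fun q : ℕ => χ₀ (-(q : ZMod N)) ≠ (t : ℂ))).card : ℝ) = P.card := by
      rw [hQ, ← Nat.cast_add]
      congr 1
      exact Finset.card_filter_add_card_filter_not _
    linarith
  have hX1' : (1 : DirichletCharacter ℂ N) ∈ X := mem_union_left _ hX1
  have hXc1 : X.card ≤ 2 * (XXl T S N).card := by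
    refine (card_union_le _ _).trans ?_
    have := card_image_le (s := XXl T S N) (f := fun ψ => ψ * χ₀)
    omega
  have hpw : pw N (1 / (10 * k)) ≤ pw N (1 / (5 * k)) := by
    unfold pw
    refine Nat.floor_le_floor (Real.rpow_le_rpow_of_exponent_le (by linarith) ?_)
    apply one_div_le_one_div_of_le (by positivity)
    linarith
  have hXc2 : X.card ≤ pw N (1 / (5 * k)) := by omega
  have hXc3 : X.card + 1 ≤ pw N (1 / (5 * k)) := by omega
  have hXr : (X.card : ℝ) ≤ (N : ℝ) ^ ((1 : ℝ) / (10 * k)) := by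
    have e1 : X.card ≤ pw N (1 / (10 * k)) := by omega
    refine le_trans (by exact_mod_cast e1) (Nat.floor_le (by positivity))
  have hXL := E3al_c (T := T) hN3' χ₀ hχ2 h (by linarith) hPne hav
  -- the lower bound
  have hlow := hN4 N (by omega) D Q U L a U0 X hD hQsub hU hLsub hX1' hXc2 hXL
  set G := (QQl E N).card * (∑ u ∈ U, a u) * L.card / N.totient with hG
  have hG0 : 0 < G := by positivity
  have hEX : (QQl E N).card * EXl N D U L a = G * ZWl N D := by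
    rw [hG]
    unfold EXl
    ring
  have hEX0 : 0 < EXl N D U L a := by
    unfold EXl
    positivity
  have hlow2 : 99 / 100 * (G * ZWl N D) ≤ SCl N Q U L (MMl N) a (fun m => WD D m / m) := by
    rw [← hEX]
    exact e3l_num1 hlow hlog hEX0 hQQ0 (e3l_num2 h1k hh2 hQQ0 hPc0 hPS.big hQc)
  -- the splitting
  set p : ℕ → Prop := fun m => lam m * (χ₀ (m : ZMod N)).re = -b₀ with hp
  have hsplit : SCl N Q U L (MMl N) a (fun m => WD D m / m) =
      SCl N Q U L (MMl N) a (e3lF c N p) +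
        SCl N Q U L (MMl N) a (fun m => WD D m / m - e3lF c N (fun _ => True) m) := by
    refine e3l_split Q U L (MMl N) a _ _ _ fun q hq u hu l hl m hm hd => ?_
    have e0 : e3lF c N (fun _ => True) m = e3lF c N p m := by
      unfold e3lF
      by_cases hr : Rough (pw N c) m
      · have hpm : p m := by
          by_contra hne
          have hpos : lam m * (χ₀ (m : ZMod N)).re = b₀ := by
            have hXX : lam m * (χ₀ (m : ZMod N)).re = 1 ∨ lam m * (χ₀ (m : ZMod N)).re = -1 := by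
              rcases e3l_pm χ₀ hχ2 (e3l_MM hm).2 with e1 | e1 <;>
                rcases e3l_lam m with e2 | e2 <;> rw [e1, e2] <;> norm_num
            have hne' : ¬ lam m * (χ₀ (m : ZMod N)).re = -b₀ := hne
            rcases hXX with e1 | e1 <;> rcases hb₀ with e3 | e3
            · rw [e1, e3]
            · exact absurd (by rw [e1, e3]; norm_num) hne'
            · exact absurd (by rw [e1, e3]) hne'
            · rw [e1, e3]
          rw [hQ, mem_filter] at hq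
          rw [hL, mem_filter] at hl
          exact hsb (hN6 N (by omega) t ht P hH χ₀ hχ2 U a U0 hU q u l m s b₀ hq.1 hq.2 hu
            (hs u hu).2 hl.1 hl.2 (e3l_R0.mpr ⟨hm, hr⟩) hpos hb₀ hd)
        rw [if_pos (And.intro hr trivial), if_pos (And.intro hr hpm)]
      · rw [if_neg (fun h : Rough (pw N c) m ∧ True => hr h.1),
          if_neg (fun h : Rough (pw N c) m ∧ p m => hr h.1)]
    rw [e0]
    ring
  -- the sums of the two functions
  have hBdsum : ∑ m ∈ MMl N, e3lF c N p m =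
      Bd N (pw N c) (fun n => (χ₀ (n : ZMod N)).re) b₀ (A0l N) (2 * A0l N) := by
    unfold Bd e3lF
    rw [← sum_filter]
    refine sum_congr ?_ fun _ _ => rfl
    ext m
    unfold MMl RS
    simp only [mem_filter, hp]
    tauto
  have hexsum : ∑ m ∈ MMl N, (WD D m / m - e3lF c N (fun _ => True) m) =
      ∑ m ∈ MMl N, (WD D m - (if Rough (pw N c) m then (1 : ℝ) else 0)) / m := by
    refine sum_congr rfl fun m _ => ?_
    unfold e3lF
    by_cases hr : Rough (pw N c) m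
    · rw [if_pos (And.intro hr trivial), if_pos hr, sub_div]
    · rw [if_neg (fun h : Rough (pw N c) m ∧ True => hr h.1), if_neg hr, sub_zero, sub_zero]
  have hex0 : 0 ≤ ∑ m ∈ MMl N, (WD D m - (if Rough (pw N c) m then (1 : ℝ) else 0)) / m :=
    sum_nonneg fun m hm => div_nonneg (sub_nonneg.mpr (hD.upper m (e3l_MM hm).1)) (Nat.cast_nonneg _)
  have hBd0 : 0 ≤ ∑ m ∈ MMl N, e3lF c N p m := sum_nonneg fun m _ => e3lF_nonneg c N p m
  -- first function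
  have hup1 : SCl N Q U L (MMl N) a (e3lF c N p) ≤
      G * (4 * h ^ 2 * msr + 3 * (21 / 10 * h * msr) + (Real.log N ^ 4)⁻¹) := by
    have e1 : ∀ m ∈ MMl N, |e3lF c N p m| ≤ 2 * ((m.divisors.card : ℕ) : ℝ) / m := by
      intro m hm
      rw [abs_of_nonneg (e3lF_nonneg c N p m)]
      refine (e3lF_le c N p m).trans ?_
      have e2 := e3l_div (e3l_MM hm).1
      gcongr
      linarith
    have e2 := e3l_G1 hms (by positivity) hw hB X hXc2 p
    have e3 : ∑ χ ∈ X.filter (fun χ : DirichletCharacter ℂ N => χ ≠ 1),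
        ‖∑ m ∈ MMl N, ((e3lF c N p m : ℝ) : ℂ) * χ (m : ZMod N)‖ ^ 2 ≤ (21 / 10 * h * msr) ^ 2 := by
      refine (sum_le_sum_of_subset_of_nonneg (filter_subset _ _) fun _ _ _ => by positivity).trans ?_
      refine e2.trans ?_
      rw [hBdsum] at hBd0 ⊢
      exact e3l_num5 hms hBd0 hBd (by linarith)
    have e4 := hN5 N (by omega) Q U L a (e3lF c N p) U0 X hQsub hU hLsub hX1' hXc2 hXL e1
      (21 / 10 * h * msr) (by positivity) e3
    refine e4.trans ?_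
    rw [← hG, abs_of_nonneg hBd0, hBdsum]
    gcongr
  -- second function
  have hup2 : SCl N Q U L (MMl N) a (fun m => WD D m / m - e3lF c N (fun _ => True) m) ≤
      G * (h ^ 6 * msr + 3 * (2 * h ^ 3 * msr) + (Real.log N ^ 4)⁻¹) := by
    have e1 : ∀ m ∈ MMl N, |WD D m / m - e3lF c N (fun _ => True) m| ≤
        2 * ((m.divisors.card : ℕ) : ℝ) / m := by
      intro m hm
      have e2 := e3l_div (e3l_MM hm).1
      have e3 := e3l_WD D (e3l_MM hm).1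
      have hm0 : (0 : ℝ) < m := by
        have := (e3l_MM hm).1
        exact_mod_cast (by omega : 0 < m)
      refine (abs_sub _ _).trans ?_
      rw [abs_of_nonneg (e3lF_nonneg c N (fun _ => True) m), abs_div, abs_of_pos hm0]
      have e4 := e3lF_le c N (fun _ => True) m
      have e5 : |WD D m| / (m : ℝ) ≤ ((m.divisors.card : ℕ) : ℝ) / m := by gcongr
      have e6 : 1 / (m : ℝ) ≤ ((m.divisors.card : ℕ) : ℝ) / m := by gcongr
      have e7 : 2 * ((m.divisors.card : ℕ) : ℝ) / m =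
          ((m.divisors.card : ℕ) : ℝ) / m + ((m.divisors.card : ℕ) : ℝ) / m := by ring
      linarith
    have e2 := e3l_G2 hms (by positivity) hw hB D (X.filter (fun χ : DirichletCharacter ℂ N => χ ≠ 1))
      (fun h => (mem_filter.mp h).2 rfl)
      (le_trans (Nat.add_le_add_right (card_le_card (filter_subset _ _)) 1) hXc3)
      (fun χ hχ => hEb χ (mem_filter.mp hχ).2)
    have e3 : ∑ χ ∈ X.filter (fun χ : DirichletCharacter ℂ N => χ ≠ 1),
        ‖∑ m ∈ MMl N, ((WD D m / m - e3lF c N (fun _ => True) m : ℝ) : ℂ) * χ (m : ZMod N)‖ ^ 2 ≤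
        (2 * h ^ 3 * msr) ^ 2 := by
      refine e2.trans ?_
      have f1 : ((X.filter (fun χ : DirichletCharacter ℂ N => χ ≠ 1)).card : ℝ) ≤
          (N : ℝ) ^ ((1 : ℝ) / (10 * k)) :=
        le_trans (by exact_mod_cast card_le_card (filter_subset _ _)) hXr
      exact e3l_num6 (by linarith) hk0 hP.big hlog0 h0 hpowlog hms1 hKC2 f1
    have e4 := hN5 N (by omega) Q U L a (fun m => WD D m / m - e3lF c N (fun _ => True) m) U0 X
      hQsub hU hLsub hX1' hXc2 hXL e1 (2 * h ^ 3 * msr) (by positivity) e3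
    refine e4.trans ?_
    rw [← hG, hexsum, abs_of_nonneg hex0]
    have e5 : ∑ m ∈ MMl N, (WD D m - (if Rough (pw N c) m then (1 : ℝ) else 0)) / m ≤ h ^ 6 * msr := by
      refine hEx.trans ?_
      gcongr
    gcongr
  exact e3l_num4 h0 h1 hms hG0 hZ2 (e3l_num3 hlog hms1) hup1 hup2 hsplit hlow2

end Pool.Agent.Lib.PL
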