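import Pool.Agent.Lib.MP_7b7e48_nt.PL.N1
import Pool.Agent.Lib.MP_7b7e48_nt.PQ.E4p

/-!
# E4l: in every dyadic block one sign is rare

PROOF. Adapt `PQ/E4x.lean` (only CASE 2 occurs). Suppose that for some `j`, `2^(j+1) ≤ N^(1/2 - 1/k)`, both `#RJ(j, s) > 2^j (log N)^(-a1)`, `s = ±1`. Choose `i` with `(2^(i+j+2))² ≤ N < (2^(i+j+3))²`, so
`2^i > √N/(8 * 2^j) ≥ N^(1/k)/4 > pw N c`. By `E4p` there are `≥ 2^i/(8 log N)` primes in `(2^i, 2^(i+1)]` not dividing `N`, so for one sign `s'` the set `VV` of those with `lam v * c₀ v = s'` has `≥ 2^i/(16 log N)` elements. For each `s` apply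
`SHl` with `U` = the set of products `w v` (`w ∈ RJ(j, s)`, `v ∈ VV`), `a u` = number of such pairs (at most the number of primes `v ∣ u`, `≤ 2 log N ≤ (log N)²`, and `≥ 1`), `U0 = 2^(i+j)`: `U ⊆ (U0, 4U0]`,
`∑ a u = #RJ * #VV ≥ U0 (log N)^(-a1-1)/16 ≥ U0 (log N)^(-ae)` (`ae ≥ a1 + 3`). The sign of `u` is `s s'` (complete multiplicativity of `lam` and `c₀`), so `s s' = b₀` for both `s`: contradiction.
-/

set_option autoImplicit false

open Finset
open Pool.Agent.Lib.GT (Rough pr V)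
open Pool.Agent.Lib.MP_45349e_nt.LS (lam)
open Pool.Agent.Lib.RG (RC LV rr SS PB sig)

namespace Pool.Agent.Lib.PL

open Pool.Agent.Lib.PQ

private lemma E4l_up (a b : ℝ) (ha : 0 < a) : ∃ N0 : ℕ, ∀ N : ℕ, N0 ≤ N → b ≤ (N : ℝ) ^ a := by
  have h := (tendsto_rpow_atTop ha).comp (tendsto_natCast_atTop_atTop (R := ℝ))
  obtain ⟨N0, h3⟩ := Filter.eventually_atTop.mp (h.eventually_ge_atTop b)
  exact ⟨N0, fun N hN => h3 N hN⟩

private lemma E4l_logup (b : ℝ) : ∃ N0 : ℕ, ∀ N : ℕ, N0 ≤ N → b ≤ Real.log N := by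
  have h := Real.tendsto_log_atTop.comp (tendsto_natCast_atTop_atTop (R := ℝ))
  obtain ⟨N0, h3⟩ := Filter.eventually_atTop.mp (h.eventually_ge_atTop b)
  exact ⟨N0, fun N hN => h3 N hN⟩

private lemma E4l_pw_le (N : ℕ) (x : ℝ) : (pw N x : ℝ) ≤ (N : ℝ) ^ x :=
  Nat.floor_le (Real.rpow_nonneg (Nat.cast_nonneg N) x)

private lemma E4l_lam_mul {a b : ℕ} (ha : a ≠ 0) (hb : b ≠ 0) : lam (a * b) = lam a * lam b := by
  unfold lam
  rw [ArithmeticFunction.cardFactors_mul ha hb, pow_add]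

private lemma E4l_lam_prime {p : ℕ} (hp : p.Prime) : lam p = -1 := by
  unfold lam
  rw [ArithmeticFunction.cardFactors_apply_prime hp, pow_one]

/-- the number of the prime factors -/
private lemma E4l_pf {u N : ℕ} (hu : u ≠ 0) (huN : u ≤ 4 * N) :
    (u.primeFactors.card : ℝ) ≤ 4 * (1 + Real.log N) := by
  have h1 : 2 ^ u.primeFactors.card ≤ u := by
    calc 2 ^ u.primeFactors.card ≤ ∏ p ∈ u.primeFactors, p :=
          Finset.pow_card_le_prod _ _ _ fun p hp => (Nat.prime_of_mem_primeFactors hp).two_le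
      _ ≤ u := Nat.le_of_dvd (Nat.pos_of_ne_zero hu) (Nat.prod_primeFactors_dvd u)
  have hN : 0 < N := by omega
  have hN0 : (0 : ℝ) < N := by exact_mod_cast hN
  have h2 : (2 : ℝ) ^ u.primeFactors.card ≤ 4 * N := by exact_mod_cast h1.trans huN
  have h3 := Real.log_le_log (by positivity) h2
  rw [Real.log_pow, Real.log_mul (by norm_num) hN0.ne'] at h3
  have h4 : Real.log 4 = 2 * Real.log 2 := by
    have : (4 : ℝ) = 2 ^ 2 := by norm_num
    rw [this, Real.log_pow]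
    norm_num
  have h5 := Real.log_two_gt_d9
  have h6 := Real.log_two_lt_d9
  have hN1 : 0 ≤ Real.log N := Real.log_nonneg (by exact_mod_cast hN)
  have h7 : (0 : ℝ) ≤ u.primeFactors.card := Nat.cast_nonneg _
  rw [h4] at h3
  nlinarith

theorem E4l (k : ℕ) (hk : 160 ≤ k) (c : ℝ) (hc : 0 < c) (hc1 : c ≤ 1 / (1000 * k)) (a1 ae : ℕ) (hae : a1 + 3 ≤ ae) :
    ∃ N0 : ℕ, ∀ N : ℕ, N0 ≤ N → ∀ c₀ : ℕ → ℝ, RC N c₀ → ∀ b₀ : ℝ, SHl c ae N c₀ b₀ → OneSignl k c a1 N c₀ := by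
  classical
  have hk0 : (0 : ℝ) < k := by
    have : 0 < k := by omega
    exact_mod_cast this
  have hk160 : (160 : ℝ) ≤ k := by exact_mod_cast hk
  obtain ⟨N2, hE⟩ := E4p c hc
  obtain ⟨N3, h3⟩ := E4l_logup 6
  obtain ⟨N5, h5⟩ := E4l_up (1 / (2 * k)) 4 (by positivity)
  refine ⟨N2 + N3 + N5 + 3, fun N hN c₀ hRC b₀ hSH j hj => ?_⟩
  have hN1 : (1 : ℝ) ≤ N := by
    have : 1 ≤ N := by omega
    exact_mod_cast this
  have hN0 : (0 : ℝ) < N := by linarith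
  have e3 := h3 N (by omega)
  have e5 := h5 N (by omega)
  set L : ℝ := Real.log N with hL
  have hL0 : 0 < L := by linarith
  by_contra hcon
  push Not at hcon
  have hbig : ∀ s : ℝ, (s = 1 ∨ s = -1) →
      2 ^ j * (L ^ a1)⁻¹ < ((RJ N (pw N c) c₀ j s).card : ℝ) := by
    rintro s (rfl | rfl)
    · have := hcon (-1) (Or.inr rfl)
      rwa [neg_neg] at this
    · exact hcon 1 (Or.inl rfl)
  -- the exponent
  have h2j : (0 : ℝ) < 2 ^ j := by positivity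
  obtain ⟨n, hn1, hn2⟩ : ∃ n : ℕ, (4 : ℝ) ^ n ≤ N ∧ (N : ℝ) < 4 ^ (n + 1) :=
    exists_nat_pow_near hN1 (show (1 : ℝ) < 4 by norm_num)
  have hsq : (N : ℝ) ^ ((1 : ℝ) / 2) * (N : ℝ) ^ ((1 : ℝ) / 2) = N := by
    rw [← Real.rpow_add hN0]
    norm_num
  have hsp : 0 < (N : ℝ) ^ ((1 : ℝ) / 2) := Real.rpow_pos_of_pos hN0 _
  have h4n : (4 : ℝ) ^ (n + 1) = 2 ^ (n + 1) * 2 ^ (n + 1) := by
    rw [← mul_pow]
    norm_num
  have hn3 : (N : ℝ) ^ ((1 : ℝ) / 2) < 2 ^ (n + 1) := by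
    by_contra hc2
    push Not at hc2
    have h7 : (2 : ℝ) ^ (n + 1) * 2 ^ (n + 1) ≤ (N : ℝ) ^ ((1 : ℝ) / 2) * (N : ℝ) ^ ((1 : ℝ) / 2) :=
      mul_le_mul hc2 hc2 (by positivity) hsp.le
    rw [hsq, ← h4n] at h7
    linarith
  have e6 : (N : ℝ) ^ ((1 : ℝ) / (2 * k)) * (N : ℝ) ^ ((1 : ℝ) / (2 * k)) = (N : ℝ) ^ ((1 : ℝ) / k) := by
    rw [← Real.rpow_add hN0]
    congr 1
    field_simp
    norm_num
  have hjn : (2 : ℝ) ^ (j + 1) * (N : ℝ) ^ ((1 : ℝ) / k) < 2 ^ (n + 1) := by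
    refine lt_of_le_of_lt ?_ hn3
    calc (2 : ℝ) ^ (j + 1) * (N : ℝ) ^ ((1 : ℝ) / k) ≤
          (N : ℝ) ^ ((1 : ℝ) / 2 - 1 / k) * (N : ℝ) ^ ((1 : ℝ) / k) :=
          mul_le_mul_of_nonneg_right hj (by positivity)
      _ = (N : ℝ) ^ ((1 : ℝ) / 2) := by
          rw [← Real.rpow_add hN0]
          congr 1
          ring
  have e7 : (16 : ℝ) ≤ (N : ℝ) ^ ((1 : ℝ) / k) := by nlinarith
  have hjn2 : j + 5 < n + 1 := by
    have h7 : (2 : ℝ) ^ (j + 5) < 2 ^ (n + 1) := by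
      refine lt_of_le_of_lt ?_ hjn
      calc (2 : ℝ) ^ (j + 5) = 2 ^ (j + 1) * 16 := by rw [pow_add, pow_add]; ring
        _ ≤ 2 ^ (j + 1) * (N : ℝ) ^ ((1 : ℝ) / k) := mul_le_mul_of_nonneg_left e7 (by positivity)
    exact (pow_lt_pow_iff_right₀ (by norm_num : (1 : ℝ) < 2)).mp h7
  obtain ⟨i, hi⟩ : ∃ i : ℕ, n = i + j + 2 := ⟨n - j - 2, by omega⟩
  have hUlow : N < (8 * 2 ^ (i + j)) ^ 2 := by
    have h7 : (N : ℝ) < (8 * 2 ^ (i + j)) ^ 2 := by
      refine lt_of_lt_of_eq hn2 ?_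
      rw [h4n, hi]
      ring
    exact_mod_cast h7
  have hUupp : (4 * 2 ^ (i + j)) ^ 2 ≤ N := by
    have h7 : ((4 : ℝ) * 2 ^ (i + j)) ^ 2 ≤ N := by
      refine le_of_eq_of_le ?_ hn1
      rw [hi]
      have h8 : (4 : ℝ) ^ (i + j + 2) = 2 ^ (i + j + 2) * 2 ^ (i + j + 2) := by
        rw [← mul_pow]
        norm_num
      rw [h8]
      ring
    exact_mod_cast h7
  -- primes
  have hz2 : pw N c ≤ 2 ^ i := by
    have h7 : (pw N c : ℝ) ≤ 2 ^ i := by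
      have h8 : (N : ℝ) ^ ((1 : ℝ) / k) < 4 * 2 ^ i := by
        rw [hi] at hjn
        have h9 : (2 : ℝ) ^ (i + j + 2 + 1) = 2 ^ (j + 1) * (4 * 2 ^ i) := by ring
        rw [h9] at hjn
        exact lt_of_mul_lt_mul_left hjn (by positivity)
      calc (pw N c : ℝ) ≤ (N : ℝ) ^ c := E4l_pw_le N c
        _ ≤ (N : ℝ) ^ ((1 : ℝ) / (2 * k)) := by
            refine Real.rpow_le_rpow_of_exponent_le hN1 (hc1.trans ?_)
            exact one_div_le_one_div_of_le (by positivity) (by linarith)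
        _ ≤ (N : ℝ) ^ ((1 : ℝ) / k) / 4 := by
            have h9 : 0 ≤ (N : ℝ) ^ ((1 : ℝ) / (2 * k)) := by positivity
            nlinarith
        _ ≤ 2 ^ i := by linarith
    exact_mod_cast h7
  have h2N : 2 ^ (i + j) ≤ N := by
    have h8 : 1 ≤ 2 ^ (i + j) := Nat.one_le_two_pow
    nlinarith
  have hiN : 2 ^ (i + 1) ≤ N := by
    have h8 : 2 ^ i ≤ 2 ^ (i + j) := Nat.pow_le_pow_right (by norm_num) (by omega)
    have h9 : 1 ≤ 2 ^ (i + j) := Nat.one_le_two_pow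
    have h10 : 2 ^ (i + 1) = 2 * 2 ^ i := by ring
    nlinarith
  have hVall := (hE N (by omega) i hz2 hiN).1
  set VA := (Finset.Ioc (2 ^ i) (2 ^ (i + 1))).filter (fun p => p.Prime ∧ ¬ p ∣ N ∧
    5 * p ≤ 7 * 2 ^ i) with hVA
  have hVA' : ∀ v ∈ VA, v.Prime ∧ v.Coprime N ∧ 2 ^ i < v ∧ v ≤ 2 ^ (i + 1) := by
    intro v hv
    obtain ⟨h7, h8, h9, -⟩ := Finset.mem_filter.mp hv
    obtain ⟨h10, h11⟩ := Finset.mem_Ioc.mp h7
    exact ⟨h8, (Nat.Prime.coprime_iff_not_dvd h8).mpr h9, h10, h11⟩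
  obtain ⟨s', hs', hV⟩ : ∃ s' : ℝ, (s' = 1 ∨ s' = -1) ∧ (2 : ℝ) ^ i / (16 * L) ≤
      ((VA.filter (fun v => lam v * c₀ v = s')).card : ℝ) := by
    have hcard : VA.card ≤ (VA.filter (fun v => lam v * c₀ v = 1)).card +
        (VA.filter (fun v => lam v * c₀ v = -1)).card := by
      rw [← Finset.card_filter_add_card_filter_not (s := VA) (fun v => lam v * c₀ v = 1)]
      refine Nat.add_le_add_left (Finset.card_le_card ?_) _
      intro v hv
      obtain ⟨h7, h8⟩ := Finset.mem_filter.mp hv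
      refine Finset.mem_filter.mpr ⟨h7, ?_⟩
      obtain ⟨h9, h10, -⟩ := hVA' v h7
      rw [E4l_lam_prime h9] at h8 ⊢
      rcases hRC.val v h10 with h11 | h11
      · rw [h11]
        norm_num
      · exfalso
        apply h8
        rw [h11]
        norm_num
    have hcard' : (VA.card : ℝ) ≤ ((VA.filter (fun v => lam v * c₀ v = 1)).card : ℝ) +
        ((VA.filter (fun v => lam v * c₀ v = -1)).card : ℝ) := by exact_mod_cast hcard
    have h7 : (2 : ℝ) ^ i / (8 * L) = 2 * ((2 : ℝ) ^ i / (16 * L)) := by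
      field_simp
      norm_num
    by_cases h8 : (2 : ℝ) ^ i / (16 * L) ≤
        ((VA.filter (fun v => lam v * c₀ v = 1)).card : ℝ)
    · exact ⟨1, Or.inl rfl, h8⟩
    · refine ⟨-1, Or.inr rfl, ?_⟩
      push Not at h8
      linarith
  set VV := VA.filter (fun v => lam v * c₀ v = s') with hVV
  have hVV' : ∀ v ∈ VV, v.Prime ∧ v.Coprime N ∧ 2 ^ i < v ∧ v ≤ 2 ^ (i + 1) ∧
      lam v * c₀ v = s' := by
    intro v hv
    obtain ⟨h7, h8⟩ := Finset.mem_filter.mp hv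
    obtain ⟨h9, h10, h11, h12⟩ := hVA' v h7
    exact ⟨h9, h10, h11, h12, h8⟩
  have hs : ∀ s : ℝ, (s = 1 ∨ s = -1) → s * s' = b₀ := by
    intro s hs
    set W := RJ N (pw N c) c₀ j s with hW
    have hW' : ∀ w ∈ W, 2 ^ j < w ∧ w ≤ 2 ^ (j + 1) ∧ Rough (pw N c) w ∧ w.Coprime N ∧
        lam w * c₀ w = s := by
      intro w hw
      obtain ⟨h7, h8, h9, h10⟩ := Finset.mem_filter.mp hw
      obtain ⟨h11, h12⟩ := Finset.mem_Ioc.mp h7
      exact ⟨h11, h12, h8, h9, h10⟩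
    set U := (W ×ˢ VV).image (fun y : ℕ × ℕ => y.1 * y.2) with hU
    have hUmem : ∀ u ∈ U, ∃ w ∈ W, ∃ v ∈ VV, w * v = u := by
      intro u hu
      obtain ⟨⟨w, v⟩, hy, rfl⟩ := Finset.mem_image.mp hu
      exact ⟨w, (Finset.mem_product.mp hy).1, v, (Finset.mem_product.mp hy).2, rfl⟩
    have hUsz : ∀ u ∈ U, 2 ^ (i + j) < u ∧ u ≤ 4 * 2 ^ (i + j) ∧ u.Coprime N ∧ Rough (pw N c) u := by
      intro u hu
      obtain ⟨w, hw, v, hv, rfl⟩ := hUmem u hu
      obtain ⟨h7, h8, h8', h9, -⟩ := hW' w hw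
      obtain ⟨h10', h10, h11, h12, -⟩ := hVV' v hv
      refine ⟨?_, ?_, Nat.Coprime.mul_left h9 h10, ?_⟩
      · rw [pow_add, mul_comm]
        exact Nat.mul_lt_mul_of_lt_of_le h7 h11.le (by omega)
      · calc w * v ≤ 2 ^ (j + 1) * 2 ^ (i + 1) := Nat.mul_le_mul h8 h12
          _ = 4 * 2 ^ (i + j) := by ring
      · intro p hp hpd
        rcases (Nat.Prime.dvd_mul hp).mp hpd with h | h
        · exact h8' p hp h
        · rw [(Nat.prime_dvd_prime_iff_eq hp h10').mp h]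
          exact lt_of_le_of_lt hz2 h11
    refine hSH U (fun u => (((W ×ˢ VV).filter (fun y : ℕ × ℕ => y.1 * y.2 = u)).card : ℝ))
      (2 ^ (i + j)) (s * s') ⟨hUsz, ?_, ?_, hUlow, hUupp⟩ ?_
    · intro u hu
      refine ⟨Nat.cast_nonneg _, ?_⟩
      obtain ⟨h7, h8, -⟩ := hUsz u hu
      have hu0 : u ≠ 0 := by omega
      have h9 : ((W ×ˢ VV).filter (fun y : ℕ × ℕ => y.1 * y.2 = u)).card ≤
          u.primeFactors.card := by
        refine Finset.card_le_card_of_injOn (fun y => y.2) ?_ ?_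
        · intro y hy
          obtain ⟨h10, h11⟩ := Finset.mem_filter.mp hy
          obtain ⟨h12, -⟩ := hVV' y.2 (Finset.mem_product.mp h10).2
          exact Nat.mem_primeFactors.mpr ⟨h12, ⟨y.1, by rw [← h11, mul_comm]⟩, hu0⟩
        · intro y hy y' hy' hyy
          obtain ⟨h10, h11⟩ := Finset.mem_filter.mp hy
          obtain ⟨-, h13⟩ := Finset.mem_filter.mp hy'
          obtain ⟨h12, -⟩ := hVV' y.2 (Finset.mem_product.mp h10).2
          have hyy' : y.2 = y'.2 := hyy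
          refine Prod.ext ?_ hyy'
          have h14 : y.1 * y.2 = y'.1 * y.2 := by rw [h11, hyy', h13]
          exact Nat.eq_of_mul_eq_mul_right h12.pos h14
      have h10 := E4l_pf (N := N) hu0 (h8.trans (Nat.mul_le_mul_left 4 h2N))
      have h11 : (((W ×ˢ VV).filter (fun y : ℕ × ℕ => y.1 * y.2 = u)).card : ℝ) ≤
          (u.primeFactors.card : ℝ) := by exact_mod_cast h9
      have h12 : 4 * (1 + L) ≤ L ^ 2 := by nlinarith
      linarith
    · have h7 : ∑ u ∈ U, (((W ×ˢ VV).filter (fun y : ℕ × ℕ => y.1 * y.2 = u)).card : ℝ) =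
          (W.card : ℝ) * VV.card := by
        rw [← Nat.cast_sum, ← Finset.card_eq_sum_card_image, Finset.card_product, Nat.cast_mul]
      rw [h7]
      have h8 := (hbig s hs).le
      have h9 : (2 : ℝ) ^ j * (L ^ a1)⁻¹ * ((2 : ℝ) ^ i / (16 * L)) ≤
          (W.card : ℝ) * VV.card := mul_le_mul h8 hV (by positivity) (Nat.cast_nonneg _)
      refine le_trans ?_ (mul_le_mul_of_nonneg_left h9 (by positivity))
      push_cast
      have h10 : L ^ (a1 + 3) ≤ L ^ ae := pow_le_pow_right₀ (by linarith) hae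
      have h11 : (2 : ℝ) ^ (i + j) ≤ L ^ (a1 + 3) * (2 ^ j * (L ^ a1)⁻¹ * ((2 : ℝ) ^ i / (16 * L))) := by
        have h12 : L ^ (a1 + 3) * (2 ^ j * (L ^ a1)⁻¹ * ((2 : ℝ) ^ i / (16 * L))) =
            2 ^ (i + j) * (L ^ 2 / 16) := by
          rw [pow_add, pow_add]
          field_simp
        rw [h12]
        have h13 : 1 ≤ L ^ 2 / 16 := by
          rw [le_div_iff₀ (by norm_num)]
          nlinarith
        exact le_mul_of_one_le_right (by positivity) h13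
      refine h11.trans (mul_le_mul_of_nonneg_right h10 (by positivity))
    · intro u hu
      have hu' := hu
      obtain ⟨w, hw, v, hv, rfl⟩ := hUmem u hu
      obtain ⟨h7, h8, h9, h10, h11⟩ := hW' w hw
      obtain ⟨h12, h13, h14, h15, h16⟩ := hVV' v hv
      refine ⟨?_, ?_⟩
      · have h17 : 0 < ((W ×ˢ VV).filter (fun y : ℕ × ℕ => y.1 * y.2 = w * v)).card :=
          Finset.card_pos.mpr ⟨(w, v), Finset.mem_filter.mpr ⟨Finset.mem_product.mpr ⟨hw, hv⟩, rfl⟩⟩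
        exact_mod_cast h17
      · rw [E4l_lam_mul (by omega) h12.ne_zero, hRC.mul, ← h11, ← h16]
        ring
  have h7 := (hs 1 (Or.inl rfl)).trans (hs (-1) (Or.inr rfl)).symm
  rcases hs' with rfl | rfl
  · norm_num at h7
  · norm_num at h7

end Pool.Agent.Lib.PL
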