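import Pool.Agent.Lib.MP_7b7e48_nt.PL.N1
import Pool.Agent.Lib.MP_45349e_nt.LS.LamB

/-!
# E5bl: all signs are `+`, and the primes with `c₀ q = 1` are rare

PROOF. Copy `PQ/E5b.lean` with `N^(-τ/8)` replaced by `(log N)^(-a1)`, the range `N^(1/2+1/k)` by `N^(1/2-1/k)`. `j₀` minimal with `pw N c ≤ 2^j₀` (`2^j₀ ≤ 2 N^c`), `J` maximal with `2^(J+1) ≤ N^(1/2-1/k)`. `SGl.mul`: `s (i+j) = s (i+j+1)` for
`i, j ≥ j₀`, `i+j+1 ≤ J`; so `s` is constant on `[2j₀, J]`, equal to `σ`; `4 j₀ + 1 ≤ J` for large `N`, so `σ = s (4 j₀) = s (2 j₀)² = 1`. For `j₀ ≤ j < 2j₀`: `s j * s (2 j₀) = s (j + 2 j₀)`, so `s j = 1`. Hence for `j₀ ≤ j ≤ J` the primes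
`q ∈ (2^j, 2^(j+1)]` with `c₀ q = 1` have sign `-1 = -s j` and are in `RJ(j, -s j)`: at most `2^j (log N)^(-a1)`, sum of `1/q` `≤ (log N)^(-a1)`. The primes `q ∈ (pw N (2c), pw N (1/2 - 2/k)]` are in the blocks `j₀ ≤ j ≤ J`
(`2^(J+2) > N^(1/2-1/k) > 2 N^(1/2 - 2/k)`), at most `2 log N` blocks; `2 log N (log N)^(-a1) ≤ (log N)^(-(a1-2))`.
-/

set_option autoImplicit false

open Finset
open Pool.Agent.Lib.GT (Rough pr V)
open Pool.Agent.Lib.MP_45349e_nt.LS (lam)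
open Pool.Agent.Lib.RG (RC LV rr SS PB sig)

namespace Pool.Agent.Lib.PL

open Pool.Agent.Lib.PQ

/-- all signs are `+` -/
private theorem E5bl_plus {z : ℕ} {S : ℝ} {s : ℕ → ℝ} (hpm : ∀ j : ℕ, s j = 1 ∨ s j = -1)
    (hmul : ∀ i j : ℕ, z ≤ 2 ^ i → z ≤ 2 ^ j → (2 : ℝ) ^ (i + j + 2) ≤ S →
      s (i + j) = s i * s j ∧ s (i + j + 1) = s i * s j) {j0 : ℕ} (hj0 : z ≤ 2 ^ j0)
    (hmin : ∀ j : ℕ, z ≤ 2 ^ j → j0 ≤ j) (h4 : (2 : ℝ) ^ (4 * j0 + 2) ≤ S) :
    ∀ j : ℕ, z ≤ 2 ^ j → (2 : ℝ) ^ (j + 1) ≤ S → s j = 1 := by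
  have hz : ∀ j : ℕ, j0 ≤ j → z ≤ 2 ^ j := fun j hj => hj0.trans (Nat.pow_le_pow_right (by norm_num) hj)
  have hb : ∀ d : ℕ, (2 : ℝ) ^ (2 * j0 + d + 1) ≤ S → s (2 * j0 + d) = s (2 * j0) := by
    intro d
    induction d with
    | zero => intro _; rfl
    | succ d ih =>
      intro h
      have h1 := hmul j0 (j0 + d) hj0 (hz _ (by omega)) (by
        refine le_trans (le_of_eq ?_) h
        congr 1
        omega)
      have e1 : j0 + (j0 + d) = 2 * j0 + d := by ring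
      rw [e1] at h1
      rw [← ih ((pow_le_pow_right₀ (by norm_num) (by omega)).trans h)]
      rw [← add_assoc, h1.1, h1.2]
  have hc : s (2 * j0) = 1 := by
    have h1 := (hmul (2 * j0) (2 * j0) (hz _ (by omega)) (hz _ (by omega)) (by
      refine le_trans (le_of_eq ?_) h4
      congr 1
      omega)).1
    have h2 := hb (2 * j0) ((pow_le_pow_right₀ (by norm_num) (by omega)).trans h4)
    rw [h2] at h1
    rcases hpm (2 * j0) with h | h
    · exact h
    · rw [h] at h1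
      norm_num at h1
  intro j hj hjS
  have hjj := hmin j hj
  rcases le_total (2 * j0) j with h | h
  · obtain ⟨d, rfl⟩ := Nat.exists_eq_add_of_le h
    rw [hb d hjS, hc]
  · have h1 := (hmul j (2 * j0) hj (hz _ (by omega)) ((pow_le_pow_right₀ (by norm_num) (by omega)).trans h4)).1
    have h2 := hb j ((pow_le_pow_right₀ (by norm_num) (by omega)).trans h4)
    rw [add_comm j (2 * j0), h2, hc] at h1
    rw [mul_one] at h1
    exact h1.symm

private theorem E5bl_lam {q : ℕ} (hq : q.Prime) : lam q = -1 := Pool.Agent.Lib.MP_45349e_nt.LS.lam_prime q hq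

theorem E5bl (k : ℕ) (hk : 160 ≤ k) (c : ℝ) (hc : 0 < c) (hc1 : c ≤ 1 / (1000 * k)) (a1 : ℕ) (ha : 4 ≤ a1) :
    ∃ N0 : ℕ, ∀ N : ℕ, N0 ≤ N → ∀ c₀ : ℕ → ℝ, RC N c₀ → ∀ s : ℕ → ℝ, SGl k c a1 N c₀ s →
    sig c₀ (pw N (2 * c)) (pw N (1 / 2 - 2 / k)) ≤ (Real.log N ^ (a1 - 2))⁻¹ := by
  have hkR : (160 : ℝ) ≤ k := by exact_mod_cast hk
  have hk0 : (0 : ℝ) < k := by linarith
  have hk1 : (1 : ℝ) / k ≤ 1 / 160 := one_div_le_one_div_of_le (by norm_num) hkR
  have hk2 : (0 : ℝ) < 1 / k := by positivity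
  have hk3 : (2 : ℝ) / k = 2 * (1 / k) := by ring
  have hc4 : c ≤ 1 / 160000 := by
    refine hc1.trans ?_
    rw [div_le_div_iff₀ (by positivity) (by norm_num)]
    linarith
  have ht : ∀ e : ℝ, 0 < e → Filter.Tendsto (fun N : ℕ => (N : ℝ) ^ e) Filter.atTop Filter.atTop :=
    fun e he => (tendsto_rpow_atTop he).comp tendsto_natCast_atTop_atTop
  obtain ⟨N1, h1⟩ := ((ht c hc).eventually_ge_atTop 4).exists_forall_of_atTop
  obtain ⟨N2, h2⟩ := ((ht (1 / k) (by positivity)).eventually_ge_atTop 2).exists_forall_of_atTop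
  obtain ⟨N3, h3⟩ := ((ht (1 / 4) (by norm_num)).eventually_ge_atTop 64).exists_forall_of_atTop
  -- the number of blocks
  have hlog : ∃ N4 : ℕ, ∀ N : ℕ, N4 ≤ N → ((Nat.log 2 N + 1 : ℕ) : ℝ) ≤ Real.log N ^ 2 ∧ 1 ≤ Real.log N := by
    obtain ⟨N4, h4⟩ := ((Real.tendsto_log_atTop.comp
      tendsto_natCast_atTop_atTop).eventually_ge_atTop 4).exists_forall_of_atTop
    refine ⟨max N4 3, fun N hN => ?_⟩
    have hN3 : 3 ≤ N := (le_max_right _ _).trans hN
    have hN0 : (0 : ℝ) < N := by exact_mod_cast (by omega : 0 < N)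
    have h5 := h4 N ((le_max_left _ _).trans hN)
    simp only [Function.comp] at h5
    have h6 : (Nat.log 2 N : ℝ) * Real.log 2 ≤ Real.log N := by
      have h7 : (2 : ℝ) ^ (Nat.log 2 N) ≤ N := by exact_mod_cast Nat.pow_log_le_self 2 (by omega)
      rw [← Real.log_pow]
      exact Real.log_le_log (by positivity) h7
    have h7 := Real.log_two_gt_d9
    have h9 : (0 : ℝ) ≤ Nat.log 2 N := Nat.cast_nonneg _
    refine ⟨?_, by linarith⟩
    push_cast
    nlinarith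
  obtain ⟨N4, h4⟩ := hlog
  refine ⟨max (max N1 N2) (max N3 (max N4 2)), ?_⟩
  intro N hN c₀ hRC s hSG
  have n1 := h1 N ((le_max_left _ _).trans ((le_max_left _ _).trans hN))
  have n2 := h2 N ((le_max_right _ _).trans ((le_max_left _ _).trans hN))
  have n3 := h3 N ((le_max_left _ _).trans ((le_max_right _ _).trans hN))
  have n4 := h4 N ((le_max_left _ _).trans ((le_max_right _ _).trans ((le_max_right _ _).trans hN)))
  have n5 : 2 ≤ N := (le_max_right _ _).trans ((le_max_right _ _).trans ((le_max_right _ _).trans hN))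
  have hN0 : (0 : ℝ) < N := by exact_mod_cast (by omega : 0 < N)
  have hN1 : (1 : ℝ) ≤ N := by exact_mod_cast (by omega : 1 ≤ N)
  obtain ⟨z, hz⟩ : ∃ z : ℕ, z = pw N c := ⟨_, rfl⟩
  have hzu : (z : ℝ) ≤ (N : ℝ) ^ c := by rw [hz]; exact Nat.floor_le (by positivity)
  have hz4 : 4 ≤ z := by
    rw [hz]
    apply Nat.le_floor
    exact_mod_cast n1
  obtain ⟨S, hS⟩ : ∃ S : ℝ, S = (N : ℝ) ^ ((1 : ℝ) / 2 - 1 / k) := ⟨_, rfl⟩
  obtain ⟨j0, hj0⟩ : ∃ j0 : ℕ, j0 = Nat.clog 2 z := ⟨_, rfl⟩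
  have hj0z : z ≤ 2 ^ j0 := by rw [hj0]; exact Nat.le_pow_clog (by norm_num) z
  have hj0m : ∀ j : ℕ, z ≤ 2 ^ j → j0 ≤ j := by
    intro j hj
    rw [hj0]
    exact Nat.clog_le_of_le_pow hj
  have hj0u : 2 ^ j0 ≤ 2 * z := by
    have h5 : 2 ^ (j0.pred) < z := by
      rw [hj0]
      exact Nat.pow_pred_clog_lt_self (by norm_num) (by omega)
    have h6 : j0 ≠ 0 := by
      intro h
      rw [h] at hj0z
      omega
    obtain ⟨m, hm⟩ := Nat.exists_eq_succ_of_ne_zero h6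
    rw [hm, Nat.pred_succ] at h5
    rw [hm, pow_succ]
    omega
  have h4S : (2 : ℝ) ^ (4 * j0 + 2) ≤ S := by
    have h5 : (2 : ℝ) ^ j0 ≤ 2 * z := by exact_mod_cast hj0u
    have h6 : (2 : ℝ) ^ (4 * j0 + 2) = 4 * ((2 : ℝ) ^ j0) ^ 4 := by
      rw [pow_add, ← pow_mul, mul_comm 4 j0]
      ring
    rw [h6]
    calc 4 * ((2 : ℝ) ^ j0) ^ 4 ≤ 4 * (2 * (N : ℝ) ^ c) ^ 4 :=
          mul_le_mul_of_nonneg_left (pow_le_pow_left₀ (by positivity) (h5.trans (by linarith)) 4) (by norm_num)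
      _ = 64 * (N : ℝ) ^ (c * 4) := by
          rw [mul_pow, ← Real.rpow_natCast ((N : ℝ) ^ c), ← Real.rpow_mul hN0.le]
          norm_num
          ring
      _ ≤ (N : ℝ) ^ ((1 : ℝ) / 4) * (N : ℝ) ^ ((1 : ℝ) / 8) := by
          refine mul_le_mul n3 ?_ (by positivity) (by positivity)
          exact Real.rpow_le_rpow_of_exponent_le hN1 (by linarith)
      _ = (N : ℝ) ^ ((3 : ℝ) / 8) := by
          rw [← Real.rpow_add hN0]
          norm_num
      _ ≤ S := by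
          rw [hS]
          exact Real.rpow_le_rpow_of_exponent_le hN1 (by linarith)
  have hplus := E5bl_plus hSG.pm (fun i j hi hj h => hSG.mul i j (by rw [← hz]; exact hi) (by rw [← hz]; exact hj)
    (by rw [← hS]; exact h)) hj0z hj0m h4S
  -- the sum
  unfold sig
  obtain ⟨T, hT⟩ : ∃ T : Finset ℕ, T = (Finset.range (pw N (1 / 2 - 2 / k) + 1)).filter
    (fun q => q.Prime ∧ pw N (2 * c) < q ∧ c₀ q = 1) := ⟨_, rfl⟩
  rw [← hT]
  have hkey : ∀ q ∈ T, Nat.log 2 (q - 1) < Nat.log 2 N + 1 ∧ q ∈ RJ N (pw N c) c₀ (Nat.log 2 (q - 1)) (-(s (Nat.log 2 (q - 1)))) ∧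
      (2 : ℝ) ^ (Nat.log 2 (q - 1) + 1) ≤ (N : ℝ) ^ ((1 : ℝ) / 2 - 1 / k) := by
    intro q hq
    rw [hT, mem_filter, mem_range] at hq
    obtain ⟨hqu, hqp, hql, hqc⟩ := hq
    have q2 := hqp.two_le
    have hqu' : (q : ℝ) ≤ (N : ℝ) ^ (1 / 2 - 2 / k : ℝ) := by
      have h5 : q ≤ pw N (1 / 2 - 2 / k) := by omega
      exact (Nat.cast_le.mpr h5).trans (Nat.floor_le (by positivity))
    have hql' : (N : ℝ) ^ (2 * c) < q := (Nat.floor_lt (by positivity)).mp hql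
    have hNc : 4 * (N : ℝ) ^ c ≤ (N : ℝ) ^ (2 * c) := by
      have h5 : (N : ℝ) ^ (2 * c) = (N : ℝ) ^ c * (N : ℝ) ^ c := by
        rw [← Real.rpow_add hN0]
        congr 1
        ring
      rw [h5]
      exact mul_le_mul_of_nonneg_right n1 (by positivity)
    have hzq : 4 * (z : ℝ) < q := by linarith
    have hzqn : 4 * z < q := by exact_mod_cast hzq
    obtain ⟨j, hj⟩ : ∃ j : ℕ, j = Nat.log 2 (q - 1) := ⟨_, rfl⟩
    rw [← hj]
    have hj1 : 2 ^ j ≤ q - 1 := by rw [hj]; exact Nat.pow_log_le_self 2 (by omega)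
    have hj2 : q - 1 < 2 ^ (j + 1) := by rw [hj]; exact Nat.lt_pow_succ_log_self (by norm_num) _
    have hjz : z ≤ 2 ^ j := by
      rw [pow_succ] at hj2
      omega
    have hjS : (2 : ℝ) ^ (j + 1) ≤ (N : ℝ) ^ ((1 : ℝ) / 2 - 1 / k) := by
      have h5 : (2 : ℝ) ^ j ≤ q := by
        have h6 : 2 ^ j ≤ q := by omega
        exact_mod_cast h6
      rw [pow_succ]
      calc (2 : ℝ) ^ j * 2 ≤ (N : ℝ) ^ (1 / 2 - 2 / k : ℝ) * (N : ℝ) ^ (1 / k : ℝ) :=
            mul_le_mul (h5.trans hqu') n2 (by norm_num) (by positivity)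
        _ = _ := by
            rw [← Real.rpow_add hN0]
            congr 1
            rw [hk3]
            ring
    have hqN : (q : ℝ) ≤ N := by
      refine hqu'.trans ?_
      calc (N : ℝ) ^ (1 / 2 - 2 / k : ℝ) ≤ (N : ℝ) ^ (1 : ℝ) := by
            refine Real.rpow_le_rpow_of_exponent_le hN1 ?_
            rw [hk3]
            linarith
        _ = N := Real.rpow_one _
    have hqNn : q ≤ N := by exact_mod_cast hqN
    refine ⟨?_, ?_, hjS⟩
    · have h5 : j ≤ Nat.log 2 N := by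
        rw [hj]
        exact Nat.log_mono_right (by omega)
      omega
    · have hs := hplus j hjz (by rw [hS]; exact hjS)
      unfold RJ
      rw [mem_filter, mem_Ioc, hs, hqc, E5bl_lam hqp]
      refine ⟨⟨by omega, by omega⟩, ?_, ?_, by norm_num⟩
      · intro p hp hpq
        rw [(Nat.prime_dvd_prime_iff_eq hp hqp).mp hpq, ← hz]
        omega
      · by_contra hcop
        rw [hRC.zero q hcop] at hqc
        norm_num at hqc
  have hmaps : ∀ q ∈ T, Nat.log 2 (q - 1) ∈ range (Nat.log 2 N + 1) := fun q hq => mem_range.mpr (hkey q hq).1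
  rw [← sum_fiberwise_of_maps_to hmaps]
  have hfib : ∀ j ∈ range (Nat.log 2 N + 1), ∑ q ∈ T.filter (fun q => Nat.log 2 (q - 1) = j), 1 / (q : ℝ) ≤
      (Real.log N ^ a1)⁻¹ := by
    intro j _
    rcases (T.filter (fun q => Nat.log 2 (q - 1) = j)).eq_empty_or_nonempty with h5 | ⟨q0, hq0⟩
    · rw [h5, sum_empty]
      have h6 : 0 < Real.log N := lt_of_lt_of_le one_pos n4.2
      positivity
    · rw [mem_filter] at hq0
      have hjS := (hkey q0 hq0.1).2.2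
      rw [hq0.2] at hjS
      have h6 := hSG.rare j hjS
      have h7 : T.filter (fun q => Nat.log 2 (q - 1) = j) ⊆ RJ N (pw N c) c₀ j (-(s j)) := by
        intro q hq
        rw [mem_filter] at hq
        have := (hkey q hq.1).2.1
        rwa [hq.2] at this
      have hj0' : (0 : ℝ) < 2 ^ j := by positivity
      calc ∑ q ∈ T.filter (fun q => Nat.log 2 (q - 1) = j), 1 / (q : ℝ) ≤
            ∑ q ∈ RJ N (pw N c) c₀ j (-(s j)), 1 / (q : ℝ) :=
            sum_le_sum_of_subset_of_nonneg h7 fun _ _ _ => by positivity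
        _ ≤ ∑ _q ∈ RJ N (pw N c) c₀ j (-(s j)), 1 / (2 : ℝ) ^ j := by
            refine sum_le_sum fun q hq => ?_
            unfold RJ at hq
            rw [mem_filter, mem_Ioc] at hq
            refine one_div_le_one_div_of_le hj0' ?_
            exact_mod_cast hq.1.1.le
        _ = ((RJ N (pw N c) c₀ j (-(s j))).card : ℝ) * (1 / (2 : ℝ) ^ j) := by rw [sum_const, nsmul_eq_mul]
        _ ≤ (2 ^ j * (Real.log N ^ a1)⁻¹) * (1 / (2 : ℝ) ^ j) :=
            mul_le_mul_of_nonneg_right h6 (by positivity)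
        _ = _ := by field_simp
  calc ∑ j ∈ range (Nat.log 2 N + 1), ∑ q ∈ T.filter (fun q => Nat.log 2 (q - 1) = j), 1 / (q : ℝ) ≤
        ∑ _j ∈ range (Nat.log 2 N + 1), (Real.log N ^ a1)⁻¹ := sum_le_sum hfib
    _ = ((Nat.log 2 N + 1 : ℕ) : ℝ) * (Real.log N ^ a1)⁻¹ := by rw [sum_const, card_range, nsmul_eq_mul]
    _ ≤ Real.log N ^ 2 * (Real.log N ^ a1)⁻¹ := mul_le_mul_of_nonneg_right n4.1 (by positivity)
    _ = (Real.log N ^ (a1 - 2))⁻¹ := by
        have h5 : Real.log N ^ a1 = Real.log N ^ 2 * Real.log N ^ (a1 - 2) := by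
          rw [← pow_add]
          congr 1
          omega
        have h6 : 0 < Real.log N := lt_of_lt_of_le one_pos n4.2
        rw [h5]
        field_simp

end Pool.Agent.Lib.PL
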