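import Pool.Agent.Lib.MP_7b7e48_nt.PL.G1l
import Pool.Agent.Lib.MP_7b7e48_nt.PL.D1l
import Pool.Agent.Lib.MP_7b7e48_nt.PL.E3l
import Pool.Agent.Lib.MP_7b7e48_nt.PL.E4l
import Pool.Agent.Lib.MP_7b7e48_nt.PL.E5al
import Pool.Agent.Lib.MP_7b7e48_nt.PL.E5bl
import Pool.Agent.Lib.MP_7b7e48_nt.PL.E6l
import Pool.Agent.Lib.MP_7b7e48_nt.RG.A2

/-!
# F3l: the core theorem

PROOF. `k = ⌈40/β⌉ + 160` (`Par k β`), `a1 = B + 7`, `ae = a1 + 3`, `T = ae + 20`, `S = 10 k (2T+4) + A + 1`, `E = 2S + 1`, `K` = sum of the constants of `G1l`, `C4l`, `E3l` and `50`. Choose `h ≤ 1/100` with `30 h² < β`, then `b` with `K (1/2)^b ≤ h^6` (and `≤ 1/4`), then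
`c = 1/(20 k K b)` divided by `1000` (so `c ≤ 1/(1000 k)`). `J = 2 Jc c + 2`. Let `N` be large and suppose `HPl`. `G1l`: `χ₀`; `D1l` (`Wt` from `C4l`): `b₀`; `E3l`: `SHl`; `E4l`: `OneSignl`; `E5al`, `E5bl`: `sig ≤ (log N)^(-(a1-2)) = (log N)^(-(B+5))`.
`RG.LV_char` (any exponent) gives `L` with `LV`. If `L < (log N)^(-B)` we are done. Otherwise `Sitl` (`RG.RC_char`; `spv` from `SPVB` and `Re χ₀ = χ₀`), and `E6l` gives `(log N)^(-(B+4)) < sig`: contradiction.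
-/

set_option autoImplicit false

open Finset
open Pool.Agent.Lib.GT (Rough pr V)
open Pool.Agent.Lib.MP_45349e_nt.LS (lam)
open Pool.Agent.Lib.RG (RC LV rr SS PB sig)

namespace Pool.Agent.Lib.PL

open Pool.Agent.Lib.PQ

theorem F3l (β : ℝ) (hβ : 0 < β) (hβ1 : β ≤ 1 / 1000) (hs : SPVB β) (A B : ℕ) : ∃ k S E J : ℕ, 160 ≤ k ∧ A ≤ S ∧
    2 * S + 1 ≤ E ∧ ∃ N0 : ℕ, ∀ (N : ℕ) [NeZero N], N0 ≤ N → ∀ P : Finset ℕ, PSl k E N P → ∀ t : ℝ, (t = 1 ∨ t = -1) →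
    HPl N (Bl E N) (pl N S / 2) J P t →
    ∃ χ : DirichletCharacter ℂ N, χ ≠ 1 ∧ χ ^ 2 = 1 ∧ ∃ L : ℝ, LV N (fun n => (χ (n : ZMod N)).re) L ∧
      L < (Real.log N ^ B)⁻¹ := by
  classical
  obtain ⟨K1, hK1, H1⟩ := G1l
  obtain ⟨K4, hK4, H4⟩ := C4l
  obtain ⟨K3, hK3, H3⟩ := E3l
  obtain ⟨K, hKdef⟩ : ∃ K, K = K1 + K4 + K3 + 50 := ⟨_, rfl⟩
  have hKr : (50 : ℝ) ≤ K := by exact_mod_cast (by omega : 50 ≤ K)
  -- the parameter k
  obtain ⟨k, hkdef⟩ : ∃ k : ℕ, k = ⌈40 / β⌉₊ + 160 := ⟨_, rfl⟩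
  have hk : 160 ≤ k := by omega
  have hkr : (160 : ℝ) ≤ k := by exact_mod_cast hk
  have hkβ : 40 ≤ β * k := by
    have h1 : 40 / β ≤ (⌈40 / β⌉₊ : ℝ) := Nat.le_ceil _
    have h2 : (k : ℝ) = (⌈40 / β⌉₊ : ℝ) + 160 := by rw [hkdef]; push_cast; ring
    have h3 : 40 / β ≤ k := by rw [h2]; linarith
    calc (40 : ℝ) = β * (40 / β) := by field_simp
      _ ≤ β * k := mul_le_mul_of_nonneg_left h3 hβ.le
  have hPar : Par k β := ⟨hβ, hβ1, hkβ, hs⟩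
  -- the parameter h
  obtain ⟨h, hh⟩ : ∃ h : ℝ, h = β := ⟨_, rfl⟩
  have h0 : 0 < h := by rw [hh]; exact hβ
  have hh100 : h ≤ 1 / 100 := by rw [hh]; linarith
  have hst : 30 * h ^ 2 < β := by rw [hh]; nlinarith
  have hh6 : h ^ 6 ≤ 1 / 4 := by
    calc h ^ 6 ≤ (1 / 100) ^ 6 := pow_le_pow_left₀ h0.le hh100 6
      _ ≤ 1 / 4 := by norm_num
  -- the parameter b
  obtain ⟨b, hb1, hKb⟩ : ∃ b : ℕ, 1 ≤ b ∧ (K : ℝ) * (1 / 2) ^ b ≤ h ^ 6 := by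
    have hK0 : (0 : ℝ) < K := by linarith
    obtain ⟨n, hn⟩ := exists_pow_lt_of_lt_one (show (0 : ℝ) < h ^ 6 / K by positivity)
      (show (1 / 2 : ℝ) < 1 by norm_num)
    refine ⟨n + 1, by omega, ?_⟩
    rw [lt_div_iff₀ hK0] at hn
    have h1 : (1 / 2 : ℝ) ^ (n + 1) ≤ (1 / 2) ^ n :=
      pow_le_pow_of_le_one (by norm_num) (by norm_num) (by omega)
    nlinarith [mul_le_mul_of_nonneg_left h1 hK0.le]
  have hbr : (1 : ℝ) ≤ b := by exact_mod_cast hb1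
  -- the parameter c
  have hpos : (0 : ℝ) < 20 * k * K * b := by positivity
  obtain ⟨c, hcdef⟩ : ∃ c : ℝ, c = 1 / (20 * k * K * b) := ⟨_, rfl⟩
  have hc : 0 < c := by rw [hcdef]; positivity
  have hcK : c * (20 * k * K * b) = 1 := by
    rw [hcdef]
    exact one_div_mul_cancel hpos.ne'
  have hmono : ∀ K' : ℕ, K' ≤ K → c * (20 * k * K' * b) ≤ 1 ∧ (K' : ℝ) * (1 / 2) ^ b ≤ h ^ 6 := by
    intro K' hK'
    have hr : (K' : ℝ) ≤ K := by exact_mod_cast hK'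
    constructor
    · rw [← hcK]
      refine mul_le_mul_of_nonneg_left ?_ hc.le
      refine mul_le_mul_of_nonneg_right ?_ (by positivity)
      exact mul_le_mul_of_nonneg_left hr (by positivity)
    · exact (mul_le_mul_of_nonneg_right hr (by positivity)).trans hKb
  have hc1000 : c ≤ 1 / (1000 * k) := by
    rw [le_div_iff₀ (by positivity)]
    rw [← hcK]
    have : (50 : ℝ) ≤ K * b := by nlinarith
    calc c * (1000 * k) = c * (20 * k) * 50 := by ring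
      _ ≤ c * (20 * k) * (K * b) := mul_le_mul_of_nonneg_left this (by positivity)
      _ = _ := by ring
  have hc4 : c ≤ 1 / 4 := hc1000.trans (by
    apply one_div_le_one_div_of_le (by norm_num)
    nlinarith)
  -- the exponents
  obtain ⟨T, hT⟩ : ∃ T : ℕ, T = B + 30 := ⟨_, rfl⟩
  obtain ⟨S, hS⟩ : ∃ S : ℕ, S = 10 * k * (2 * T + 4) + A + 1 := ⟨_, rfl⟩
  obtain ⟨E, hE⟩ : ∃ E : ℕ, E = 2 * S + 1 := ⟨_, rfl⟩
  have hS1 : 10 * k * (2 * T + 4) ≤ S := by omega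
  have hE1 : 2 * S + 1 ≤ E := by omega
  obtain ⟨n1, h1⟩ := H1 k b T S E β hPar (by omega) hS1 hE1 hb1 c h hc hc4 (hmono K1 (by omega)).1 h0 hh100
    (hmono K1 (by omega)).2 hst
  obtain ⟨n2, h2⟩ := H4 k b β hPar hb1 c hc hc4 (hmono K4 (by omega)).1
    ((hmono K4 (by omega)).2.trans hh6)
  obtain ⟨n3, h3⟩ := H3 k b T S E (B + 10) β hPar (by omega) hS1 hE1 hb1 c h hc hc4
    (hmono K3 (by omega)).1 h0 hh100 (hmono K3 (by omega)).2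
  obtain ⟨n4, h4⟩ := E4l k hk c hc hc1000 (B + 7) (B + 10) (by omega)
  obtain ⟨n5, h5⟩ := E5al k hk c hc hc1000 (B + 7) (by omega)
  obtain ⟨n6, h6⟩ := E5bl k hk c hc hc1000 (B + 7) (by omega)
  obtain ⟨n7, h7⟩ := E6l hPar B c hc hc1000
  obtain ⟨κ, hκ, hLV⟩ := Pool.Agent.Lib.RG.LV_char 1 one_pos
  obtain ⟨Q0, hQ0, hspv⟩ := hs
  refine ⟨k, S, E, 2 * Jc c + 2, hk, by omega, hE1, n1 + n2 + n3 + n4 + n5 + n6 + n7 + Q0 + 3, ?_⟩
  intro N _ hN P hPS t ht hH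
  obtain ⟨χ, hne, hχ2, him, hl, hA, hr⟩ := h1 N (by omega) P hPS t ht hH
  obtain ⟨hWt, -⟩ := h2 N (by omega)
  obtain ⟨b₀, hb₀, hBd⟩ := D1l (by omega : 2 ≤ N) hWt χ hne hχ2 h him hl
  have hSH := h3 N (by omega) P hPS t ht hH χ hne hχ2 hA hr b₀ hb₀ hBd
  have hRC := Pool.Agent.Lib.RG.RC_char N (by omega) χ hχ2 hne
  have hOS := h4 N (by omega) _ hRC b₀ hSH
  obtain ⟨s, hss⟩ := h5 N (by omega) _ hRC hOS
  have hsig := h6 N (by omega) _ hRC s hss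
  obtain ⟨L, hL, -⟩ := hLV N (by omega) χ hχ2 hne
  refine ⟨χ, hne, hχ2, L, hL, ?_⟩
  by_contra hlow
  rw [not_lt] at hlow
  have hSit : Sitl B N β (fun n => (χ (n : ZMod N)).re) L := by
    refine ⟨hRC, hL, hlow, ?_⟩
    intro y hy
    have h8 := hspv N (by omega) inferInstance χ hne y hy
    refine le_trans ?_ h8
    have h9 : ∑ n ∈ Finset.Icc 1 y, (χ (n : ZMod N)).re = (∑ n ∈ Finset.Icc 1 y, χ (n : ZMod N)).re := by
      rw [Complex.re_sum]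
    show |∑ n ∈ Finset.Icc 1 y, (χ (n : ZMod N)).re| ≤ _
    rw [h9]
    exact Complex.abs_re_le_norm _
  have h10 := h7 N (by omega) _ L hSit
  have hlog : 1 ≤ Real.log N := by
    have h11 : (3 : ℝ) ≤ N := by exact_mod_cast (by omega : 3 ≤ N)
    rw [Real.le_log_iff_exp_le (by linarith)]
    linarith [Real.exp_one_lt_d9]
  have h12 : (Real.log N ^ (B + 7 - 2))⁻¹ ≤ (Real.log N ^ (B + 4))⁻¹ :=
    inv_anti₀ (pow_pos (by linarith) _) (pow_le_pow_right₀ hlog (by omega))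
  linarith

end Pool.Agent.Lib.PL
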