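import Pool.Agent.Lib.MP_7b7e48_nt.PL.G2l
import Pool.Agent.Lib.MP_7b7e48_nt.PL.C9l

/-!
# FINl: the theorem

PROOF. Compare `PQ/FINs.lean`. `m` from `G2l`; `G2l` with `A' = A + 2` in place of `A`: `k, S, E, J`. `r = A + 4`, `C = E + r + J + 2`. Let `X` be large, `N ∈ [X, X²]`, `m = m X ∤ N`, `t = -(-1)^i`.
CLAIM: for every natural `R` with `(log N)^2 ≤ R ≤ (log N)^C`, all primes `r' ∈ (R, 2R]` except at most `2 log N` satisfy `m ∤ r' N`: if `m ∣ r' N` and `r' ∤ m` then `m ∣ N` by coprimality; so `r' ∣ m`. If there is such an `r'`, then `m ≤ r' N ≤ N²`, and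
`m` has at most `log (N²)/log 3 ≤ 2 log N` prime factors `> R ≥ 3`. For an `r'` with `m ∤ r' N` put `N' = r' N ∈ [X, X³]`: the primes of `QQl E N'` which are GOOD for `N'` (there is `b ∈ (N', Bl E N']`, `pl N' S/2`-rough, `Ω(b) ≤ J`, `N' ∣ p + b`, `lam b ≠ t`)
are at least `#(QQl E N')/k` in number (else `P` = the complement in `QQl E N'` satisfies `PSl` and `HPl`). For a good `p`: `p + b = k' N' = (k' r') N`, `k' ≤ 2 (log N')^E`, `p, b > N' > N`, `lam b = (-1)^i`, the prime factors of `b` are `> pl N' S/2 ≥ (log N)^A`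
(`S ≥ A + 2`). `#(QQl E N') ≥ (1/2) Bl E N'/log N'` (`C9l`).
PART 1: `R = ⌊(log N)^r⌋`. For each `r'` with `m ∤ r' N` some `k' ≤ 2 (log N')^E` belongs to `≥ #QQl/(k (2 (log N')^E + 1)) ≥ N'/(20 k log N') ≥ N` good primes. `K = k' r' ≤ (log N)^C`. Every `K ≤ (log N)^C` comes from at most `log K/log R ≤ C` primes `r' > R`. The number of `K` is
`≥ (R/(2 log R) - 2 log N)/C ≥ (log N)^A`.
PART 2: `R = ⌊(log N)^(C-E)/16⌋`, one `r'` with `m ∤ r' N`: `log N' ≤ (1 + small) log N`, `(log N')^E ≤ 2 (log N)^E`, so `p, b ≤ Bl E N' ≤ 2R N * 2 (log N)^E ≤ N (log N)^C/4`, `K = k' r' ≤ (log N)^C`; the number of good primes is `≥ #QQl/k ≥ Bl/(2k log N') ≥ c N (log N)^C/log N` with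
`c = 1/(512 k)`.
-/

set_option autoImplicit false

open Finset
open Pool.Agent.Lib.GT (Rough pr V)
open Pool.Agent.Lib.MP_45349e_nt.LS (lam)
open Pool.Agent.Lib.RG (RC LV rr SS PB sig)

namespace Pool.Agent.Lib.PL

open Pool.Agent.Lib.PQ

/-- `p` is the prime of a representation `K N = p + b` with an almost prime `b` of the parity `i` -/
def GoodL (A C N i K p : ℕ) : Prop := p.Prime ∧ N < p ∧ ∃ b : ℕ, N < b ∧ p + b = K * N ∧
  ArithmeticFunction.cardFactors b ≤ C ∧ ArithmeticFunction.cardFactors b % 2 = i % 2 ∧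
  ∀ q : ℕ, q.Prime → q ∣ b → Real.log N ^ A < q

/-- the good primes for the modulus `M` -/
private theorem FINl_core {k S E J A M : ℕ} (hM : 2 ≤ M) (hA : A + 2 ≤ S) (hlog : 2 ≤ Real.log M) (i : ℕ)
    (hF : ∀ P : Finset ℕ, PSl k E M P → ¬ HPl M (Bl E M) (pl M S / 2) J P (-(-1) ^ i)) :
    ∃ G : Finset ℕ, G ⊆ QQl E M ∧ ((QQl E M).card : ℝ) / k ≤ G.card ∧
      ∀ p ∈ G, ∃ b r : ℕ, M < b ∧ p + b = r * M ∧ 1 ≤ r ∧ (r : ℝ) ≤ 2 * Real.log M ^ E ∧
        ArithmeticFunction.cardFactors b ≤ J ∧ ArithmeticFunction.cardFactors b % 2 = i % 2 ∧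
        ∀ q : ℕ, q.Prime → q ∣ b → Real.log M ^ A < q := by
  classical
  have hM0 : (0 : ℝ) < M := by exact_mod_cast (by omega : 0 < M)
  set G : Finset ℕ := (QQl E M).filter fun p => ∃ b : ℕ, M < b ∧ b ≤ Bl E M ∧ Rough (pl M S / 2) b ∧
    ArithmeticFunction.cardFactors b ≤ J ∧ M ∣ p + b ∧ lam b ≠ -(-1) ^ i with hG
  have hGs : G ⊆ QQl E M := filter_subset _ _
  refine ⟨G, hGs, ?_, ?_⟩
  · by_contra hcon
    push Not at hcon
    refine hF (QQl E M \ G) ⟨sdiff_subset, ?_⟩ ?_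
    · rw [card_sdiff_of_subset hGs, Nat.cast_sub (card_le_card hGs)]
      have : (1 - 1 / (k : ℝ)) * (QQl E M).card = (QQl E M).card - (QQl E M).card / k := by ring
      rw [this]
      linarith
    · intro p hp b hb1 hb2 hr hO hd
      by_contra hl
      rw [mem_sdiff] at hp
      exact hp.2 (mem_filter.mpr ⟨hp.1, b, hb1, hb2, hr, hO, hd, hl⟩)
  · intro p hp
    rw [hG, mem_filter] at hp
    obtain ⟨hp1, b, hb1, hb2, hr, hO, hd, hl⟩ := hp
    unfold QQl at hp1
    rw [mem_filter, mem_Ioc] at hp1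
    obtain ⟨r, hr'⟩ := hd
    have hB : ((Bl E M : ℕ) : ℝ) ≤ (M : ℝ) * Real.log M ^ E := Nat.floor_le (by positivity)
    have hr1 : 1 ≤ r := by
      rcases Nat.eq_zero_or_pos r with h0 | h0
      · rw [h0, mul_zero] at hr'; omega
      · exact h0
    refine ⟨b, r, hb1, by rw [hr', mul_comm], hr1, ?_, hO, ?_, ?_⟩
    · have e1 : (r : ℝ) * M ≤ (2 * Real.log M ^ E) * M := by
        have : ((p + b : ℕ) : ℝ) = (M : ℝ) * r := by rw [hr']; push_cast; ring
        push_cast at this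
        have h1 : (p : ℝ) ≤ Bl E M := by exact_mod_cast hp1.1.2
        have h2 : (b : ℝ) ≤ Bl E M := by exact_mod_cast hb2
        nlinarith
      exact le_of_mul_le_mul_right e1 hM0
    · have e1 : lam b = (-1) ^ (ArithmeticFunction.cardFactors b) := rfl
      rw [e1] at hl
      rcases Nat.even_or_odd (ArithmeticFunction.cardFactors b) with h1 | h1 <;>
        rcases Nat.even_or_odd i with h2 | h2
      · rw [Nat.even_iff] at h1 h2; omega
      · rw [h1.neg_one_pow, h2.neg_one_pow] at hl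
        norm_num at hl
      · rw [h1.neg_one_pow, h2.neg_one_pow] at hl
        norm_num at hl
      · rw [Nat.odd_iff] at h1 h2; omega
    · intro q hq1 hq2
      have h1 := hr q hq1 hq2
      have h2 : Real.log M ^ S < pl M S + 1 := Nat.lt_floor_add_one _
      have h3 : pl M S + 1 ≤ 2 * q := by omega
      have h4 : ((pl M S : ℕ) : ℝ) + 1 ≤ 2 * q := by exact_mod_cast h3
      have h5 : Real.log M ^ (A + 2) ≤ Real.log M ^ S := pow_le_pow_right₀ (by linarith) hA
      have h6 : Real.log M ^ (A + 2) = Real.log M ^ A * Real.log M ^ 2 := pow_add _ _ _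
      have h7 : (4 : ℝ) ≤ Real.log M ^ 2 := by nlinarith
      have h8 : 0 < Real.log M ^ A := by positivity
      nlinarith

/-- one of two consecutive multiples is not divisible by `m` -/
private theorem FINl_two {m N : ℕ} (h : ¬ m ∣ N) (u : ℕ) : ∃ r, (r = u ∨ r = u + 1) ∧ ¬ m ∣ r * N := by
  by_cases h1 : m ∣ u * N
  · refine ⟨u + 1, Or.inr rfl, fun h2 => h ?_⟩
    have h3 := (Nat.dvd_sub h2 h1)
    have h4 : (u + 1) * N - u * N = N := by
      rw [add_mul, one_mul, Nat.add_sub_cancel_left]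
    rwa [h4] at h3
  · exact ⟨u, Or.inl rfl, h1⟩

/-- one value of `r` has many good primes -/
private theorem FINl_pigeon {G : Finset ℕ} {R : ℕ} (f : ℕ → ℕ) (hf : ∀ p ∈ G, f p ∈ Finset.Icc 1 R)
    (hR : 1 ≤ R) :
    ∃ r ∈ Finset.Icc 1 R, G.card ≤ R * (G.filter fun p => f p = r).card := by
  classical
  by_contra hcon
  push Not at hcon
  have hR : (Finset.Icc 1 R).Nonempty := ⟨1, mem_Icc.mpr ⟨le_rfl, hR⟩⟩
  have h1 : G.card = ∑ r ∈ Finset.Icc 1 R, (G.filter fun p => f p = r).card :=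
    Finset.card_eq_sum_card_fiberwise hf
  have h2 : R * G.card = ∑ r ∈ Finset.Icc 1 R, R * (G.filter fun p => f p = r).card := by
    rw [← mul_sum, ← h1]
  have h3 : ∑ r ∈ Finset.Icc 1 R, R * (G.filter fun p => f p = r).card < ∑ _r ∈ Finset.Icc 1 R, G.card :=
    sum_lt_sum_of_nonempty hR fun r hr => hcon r hr
  rw [sum_const, Nat.card_Icc, smul_eq_mul, Nat.add_sub_cancel, ← h2] at h3
  exact lt_irrefl _ h3

private theorem FINl_log (T : ℝ) : ∃ n : ℕ, ∀ N : ℕ, n ≤ N → T ≤ Real.log N :=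
  Filter.eventually_atTop.mp ((Real.tendsto_log_atTop.comp tendsto_natCast_atTop_atTop).eventually_ge_atTop T)

private theorem FINl_pow (C : ℕ) : ∃ n : ℕ, ∀ N : ℕ, n ≤ N → 3 * (2 * Real.log N) ^ C ≤ N := by
  have h1 := (Real.isLittleO_pow_log_id_atTop (n := C)).def (c := 1 / (3 * 2 ^ C)) (by positivity)
  have h3 := (tendsto_natCast_atTop_atTop (R := ℝ)).eventually h1
  obtain ⟨N0, h4⟩ := Filter.eventually_atTop.mp h3
  refine ⟨N0, fun N hN => ?_⟩
  have h5 := h4 N hN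
  have h6 := Real.log_natCast_nonneg N
  rw [Real.norm_of_nonneg (pow_nonneg h6 _), id, Real.norm_of_nonneg (Nat.cast_nonneg N)] at h5
  rw [one_div, inv_mul_eq_div, le_div_iff₀ (by positivity)] at h5
  calc 3 * (2 * Real.log N) ^ C = Real.log N ^ C * (3 * 2 ^ C) := by rw [mul_pow]; ring
    _ ≤ N := h5

/-- the good primes for `N` if `M = r N` -/
private theorem FINl_good {A J C N r K p b i : ℕ} (hN : 3 ≤ N) (hr : 1 ≤ r) (hJ : J ≤ C) (hp : p.Prime)
    (hp1 : r * N < p) (hb1 : r * N < b) (hs : p + b = K * (r * N)) (hO1 : ArithmeticFunction.cardFactors b ≤ J)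
    (hO2 : ArithmeticFunction.cardFactors b % 2 = i % 2)
    (hq : ∀ q : ℕ, q.Prime → q ∣ b → Real.log (r * N : ℕ) ^ A < q) : GoodL A C N i (K * r) p := by
  have h1 : N ≤ r * N := Nat.le_mul_of_pos_left N hr
  refine ⟨hp, by omega, b, by omega, by rw [hs, mul_assoc], hO1.trans hJ, hO2, fun q hq1 hq2 => ?_⟩
  refine lt_of_le_of_lt (pow_le_pow_left₀ (Real.log_natCast_nonneg N) ?_ A) (hq q hq1 hq2)
  exact Real.log_le_log (by exact_mod_cast (by omega : 0 < N)) (by exact_mod_cast h1)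

open Classical in
theorem FINl : ∃ m : ℕ → ℕ, (∀ B : ℕ, ∃ X0 : ℕ, ∀ X : ℕ, X0 ≤ X → Real.log X ^ B < m X) ∧
    ∀ A : ℕ, ∃ (C : ℕ) (c : ℝ), 0 < c ∧ ∃ X0 : ℕ, ∀ X : ℕ, X0 ≤ X →
    ∀ N : ℕ, X ≤ N → N ≤ X ^ 2 → ¬ m X ∣ N → ∀ i : ℕ,
    Real.log N ^ A ≤ (((Finset.Icc 1 ⌊Real.log N ^ C⌋₊).filter fun K =>
      N ≤ ((Finset.range (K * N)).filter (GoodL A C N i K)).card).card : ℝ) ∧
    c * (N * Real.log N ^ C / Real.log N) ≤ (((Finset.Icc 1 ⌊N * Real.log N ^ C⌋₊).filter fun p =>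
      ∃ K : ℕ, 1 ≤ K ∧ (K : ℝ) ≤ Real.log N ^ C ∧ GoodL A C N i K p).card : ℝ) := by
  obtain ⟨m, hm, hG⟩ := G2l
  refine ⟨m, hm, fun A => ?_⟩
  obtain ⟨k, S, E, J, hk, hS, hE, n0, hF⟩ := hG (A + 2)
  obtain ⟨r, hr⟩ : ∃ r : ℕ, r = A + E + 2 := ⟨_, rfl⟩
  obtain ⟨C, hC⟩ : ∃ C : ℕ, C = E + r + 1 + J := ⟨_, rfl⟩
  obtain ⟨n1, h1⟩ := C9l E (by omega) (1 / 2) (by norm_num)
  obtain ⟨n2, h2⟩ := FINl_log (16 * k * 2 ^ E)
  obtain ⟨n3, h3⟩ := FINl_pow C
  have hkr : (160 : ℝ) ≤ k := by exact_mod_cast hk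
  have h2E : (1 : ℝ) ≤ 2 ^ E := one_le_pow₀ (by norm_num)
  refine ⟨C, 1 / (32 * k * 2 ^ E), by positivity, n0 + n1 + n2 + n3 + 3, ?_⟩
  intro X hX N hXN hNX hmN i
  have hneg : (-(-1 : ℝ) ^ i = 1 ∨ -(-1 : ℝ) ^ i = -1) := by
    rcases Nat.even_or_odd i with h3 | h3
    · right; rw [h3.neg_one_pow]
    · left; rw [h3.neg_one_pow]; norm_num
  have hX0 : (0 : ℝ) < X := by exact_mod_cast (by omega : 0 < X)
  have hN0 : (0 : ℝ) < N := by exact_mod_cast (by omega : 0 < N)
  have hN1 : (1 : ℝ) ≤ N := by exact_mod_cast (by omega : 1 ≤ N)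
  obtain ⟨l, hl⟩ : ∃ l : ℝ, l = Real.log N := ⟨_, rfl⟩
  have hlX : Real.log X ≤ l := by rw [hl]; exact Real.log_le_log hX0 (by exact_mod_cast hXN)
  have hlX2 : l ≤ 2 * Real.log X := by
    rw [hl, ← Real.log_rpow hX0]
    refine Real.log_le_log hN0 ?_
    have : (N : ℝ) ≤ (X : ℝ) ^ 2 := by exact_mod_cast hNX
    calc (N : ℝ) ≤ (X : ℝ) ^ 2 := this
      _ = (X : ℝ) ^ (2 : ℝ) := by norm_cast
  have hlT : 16 * k * 2 ^ E ≤ l := (h2 X (by omega)).trans hlX
  have hl16 : (2560 : ℝ) ≤ l := by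
    have : (160 : ℝ) * 1 ≤ k * 2 ^ E := mul_le_mul hkr h2E (by norm_num) (by linarith)
    nlinarith
  have hl16k : 16 * k ≤ l := by
    have : (16 * k : ℝ) * 1 ≤ 16 * k * 2 ^ E := mul_le_mul_of_nonneg_left h2E (by positivity)
    linarith
  have hl2E : 2560 * 2 ^ E ≤ l := by
    have : (2560 : ℝ) * 2 ^ E ≤ 16 * k * 2 ^ E := mul_le_mul_of_nonneg_right (by linarith) (by positivity)
    linarith
  have hl0 : 0 < l := by linarith
  have hl1 : 1 ≤ l := by linarith
  -- general facts for a multiplier `u`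
  have gen : ∀ u : ℕ, 1 ≤ u → (u : ℝ) ≤ 3 * l ^ C → ¬ m X ∣ u * N →
      Real.log (u * N : ℕ) ≤ 2 * l ∧ l ≤ Real.log (u * N : ℕ) ∧
      (u * N : ℝ) * l ^ E / (8 * k * l) ≤ ((QQl E (u * N)).card : ℝ) / k ∧
      (u * N : ℝ) * Real.log (u * N : ℕ) ^ E / (4 * k * Real.log (u * N : ℕ)) ≤ ((QQl E (u * N)).card : ℝ) / k ∧
      ∀ P : Finset ℕ, PSl k E (u * N) P → ¬ HPl (u * N) (Bl E (u * N)) (pl (u * N) S / 2) J P (-(-1) ^ i) := by
    intro u hu1 hu2 hmu
    have huX : (u : ℝ) ≤ X := by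
      refine hu2.trans (le_trans ?_ (h3 X (by omega)))
      exact mul_le_mul_of_nonneg_left (pow_le_pow_left₀ hl0.le hlX2 C) (by norm_num)
    have huX' : u ≤ X := by exact_mod_cast huX
    have hNu : N ≤ u * N := Nat.le_mul_of_pos_left N hu1
    have huN3 : u * N ≤ X ^ 3 := by
      calc u * N ≤ X * X ^ 2 := Nat.mul_le_mul huX' hNX
        _ = X ^ 3 := by ring
    have hu0 : (0 : ℝ) < u := by exact_mod_cast (by omega : 0 < u)
    have huN0 : (0 : ℝ) < ((u * N : ℕ) : ℝ) := by push_cast; positivity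
    have e1 : Real.log (u * N : ℕ) ≤ 2 * l := by
      push_cast
      rw [Real.log_mul hu0.ne' hN0.ne', ← hl]
      have : Real.log u ≤ l := by
        rw [hl]
        exact Real.log_le_log hu0 (huX.trans (by exact_mod_cast hXN))
      linarith
    have e2 : l ≤ Real.log (u * N : ℕ) := by
      rw [hl]
      exact Real.log_le_log hN0 (by exact_mod_cast hNu)
    have e3 := h1 (u * N) (by omega)
    obtain ⟨l', hl'⟩ : ∃ l' : ℝ, l' = Real.log (u * N : ℕ) := ⟨_, rfl⟩
    rw [← hl'] at e1 e2 e3 ⊢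
    have hl'0 : 0 < l' := by linarith
    have hl'1 : 1 ≤ l' := by linarith
    have e4 : (u * N : ℝ) * l' ^ E / 2 ≤ Bl E (u * N) := by
      have h4 : ((u * N : ℕ) : ℝ) * Real.log (u * N : ℕ) ^ E < Bl E (u * N) + 1 := Nat.lt_floor_add_one _
      rw [← hl'] at h4
      push_cast at h4
      have h5 : (2 : ℝ) ≤ (u * N : ℝ) * l' ^ E := by
        have h6 : (2 : ℝ) ≤ (u * N : ℝ) := by exact_mod_cast (by omega : 2 ≤ u * N)
        have h7 : (1 : ℝ) ≤ l' ^ E := one_le_pow₀ hl'1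
        nlinarith
      linarith
    have e5 : (u * N : ℝ) * l' ^ E / (4 * k * l') ≤ ((QQl E (u * N)).card : ℝ) / k := by
      have h6 : (u * N : ℝ) * l' ^ E / (4 * k * l') = (1 - 1 / 2) * ((u * N : ℝ) * l' ^ E / 2 / l') / k := by
        field_simp
        norm_num
      rw [h6]
      refine div_le_div_of_nonneg_right (le_trans ?_ e3) (by positivity)
      exact mul_le_mul_of_nonneg_left (div_le_div_of_nonneg_right e4 hl'0.le) (by norm_num)
    refine ⟨e1, e2, ?_, e5, ?_⟩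
    · refine le_trans ?_ e5
      have h6 : l ^ E ≤ l' ^ E := pow_le_pow_left₀ hl0.le e2 E
      refine div_le_div₀ (by positivity) (mul_le_mul_of_nonneg_left h6 (by positivity)) (by positivity) ?_
      have : 4 * k * l' ≤ 4 * k * (2 * l) := mul_le_mul_of_nonneg_left e1 (by positivity)
      linarith
    · intro P hP
      exact hF X (by omega) (u * N) (hXN.trans hNu) huN3 hmu P hP _ hneg
  have hCe : (l : ℝ) ^ (E + r + 1) ≤ l ^ C := pow_le_pow_right₀ hl1 (by omega)
  constructor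
  · -- first part
    obtain ⟨R, hR⟩ : ∃ R : ℕ, R = ⌊l ^ r⌋₊ := ⟨_, rfl⟩
    have hR1 : (R : ℝ) ≤ l ^ r := by rw [hR]; exact Nat.floor_le (by positivity)
    have hR2 : l ^ r < R + 1 := by rw [hR]; exact Nat.lt_floor_add_one _
    have hlr2 : l ^ 2 ≤ l ^ r := pow_le_pow_right₀ hl1 (by omega)
    obtain ⟨V, hV⟩ : ∃ V : ℕ, V = ⌊2 * (2 * l) ^ E⌋₊ := ⟨_, rfl⟩
    have hV1 : (V : ℝ) ≤ 2 * (2 * l) ^ E := by rw [hV]; exact Nat.floor_le (by positivity)
    choose f hf1 hf2 using fun j : ℕ => FINl_two hmN (R + 2 * j + 1)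
    have hf3 : ∀ j, R + 2 * j + 1 ≤ f j ∧ f j ≤ R + 2 * j + 2 := by
      intro j
      rcases hf1 j with h | h <;> omega
    have key : ∀ j ∈ Finset.range R, ∃ K : ℕ, 1 ≤ K ∧ K ≤ V ∧
        N ≤ ((Finset.range (K * f j * N)).filter (GoodL A C N i (K * f j))).card := by
      intro j hj
      rw [mem_range] at hj
      have hfj := hf3 j
      have hu1 : 1 ≤ f j := by omega
      have hu3R : (f j : ℝ) ≤ 3 * l ^ r := by
        have h4 : f j ≤ 3 * R := by omega
        have h5 : (f j : ℝ) ≤ 3 * R := by exact_mod_cast h4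
        linarith
      have hrC : l ^ r ≤ l ^ C := pow_le_pow_right₀ hl1 (by omega)
      obtain ⟨e1, e2, -, e4, e5⟩ := gen (f j) hu1 (by linarith) (hf2 j)
      obtain ⟨G, hG1, hG2, hG3⟩ := FINl_core (A := A) (i := i) (M := f j * N) (by nlinarith) (by omega)
        (by linarith) e5
      obtain ⟨l', hl'⟩ : ∃ l' : ℝ, l' = Real.log (f j * N : ℕ) := ⟨_, rfl⟩
      rw [← hl'] at e1 e2 e4
      have hl'0 : 0 < l' := by linarith
      have hl'1 : 1 ≤ l' := by linarith
      choose! b K hb1 hs hK1 hK2 hO1 hO2 hq using hG3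
      rw [← hl'] at hK2
      obtain ⟨W, hW⟩ : ∃ W : ℕ, W = ⌊2 * l' ^ E⌋₊ := ⟨_, rfl⟩
      have hW1 : (W : ℝ) ≤ 2 * l' ^ E := by rw [hW]; exact Nat.floor_le (by positivity)
      have hW2 : 1 ≤ W := by
        rw [hW]
        refine Nat.le_floor ?_
        have : (1 : ℝ) ≤ l' ^ E := one_le_pow₀ hl'1
        push_cast
        linarith
      obtain ⟨K0, hK0, hcard⟩ := FINl_pigeon (R := W) K
        (fun p hp => mem_Icc.mpr ⟨hK1 p hp, by rw [hW]; exact Nat.le_floor (hK2 p hp)⟩) hW2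
      rw [mem_Icc] at hK0
      refine ⟨K0, hK0.1, ?_, ?_⟩
      · rw [hV]
        refine Nat.le_floor ?_
        have h4 : (K0 : ℝ) ≤ W := by exact_mod_cast hK0.2
        have h5 : l' ^ E ≤ (2 * l) ^ E := pow_le_pow_left₀ hl'0.le e1 E
        linarith
      · have hsub : (G.filter fun p => K p = K0) ⊆
            (Finset.range (K0 * f j * N)).filter (GoodL A C N i (K0 * f j)) := by
          intro p hp
          rw [mem_filter] at hp
          obtain ⟨hp1, hp2⟩ := hp
          have h4 := hG1 hp1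
          unfold QQl at h4
          rw [mem_filter, mem_Ioc] at h4
          have h5 := hs p hp1
          have h6 := hb1 p hp1
          rw [hp2] at h5
          have h7 : K0 * (f j * N) = K0 * f j * N := by ring
          rw [mem_filter, mem_range]
          refine ⟨by omega, ?_⟩
          exact FINl_good (J := J) (by omega) hu1 (by omega) h4.2 h4.1.1 h6 h5 (hO1 p hp1) (hO2 p hp1) (hq p hp1)
        refine le_trans ?_ (card_le_card hsub)
        have h4 : (G.card : ℝ) ≤ (2 * l' ^ E) * ((G.filter fun p => K p = K0).card : ℝ) := by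
          calc (G.card : ℝ) ≤ ((W * (G.filter fun p => K p = K0).card : ℕ) : ℝ) := by exact_mod_cast hcard
            _ = (W : ℝ) * ((G.filter fun p => K p = K0).card : ℝ) := by push_cast; rfl
            _ ≤ _ := mul_le_mul_of_nonneg_right hW1 (Nat.cast_nonneg _)
        have h5 : (2 * l' ^ E) * (N : ℝ) ≤ (2 * l' ^ E) * ((G.filter fun p => K p = K0).card : ℝ) := by
          refine le_trans (le_trans ?_ (e4.trans hG2)) h4
          have hfl : 16 * k * l ≤ f j := by
            have h6 : (R : ℝ) + 1 ≤ f j := by exact_mod_cast (by omega : R + 1 ≤ f j)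
            have h7 : 16 * k * l ≤ l ^ 2 := by nlinarith
            linarith
          have hfl' : 8 * k * l' ≤ f j := by
            have : 8 * k * l' ≤ 8 * k * (2 * l) := mul_le_mul_of_nonneg_left e1 (by positivity)
            linarith
          rw [le_div_iff₀ (by positivity)]
          have h8 : 2 * l' ^ E * (N : ℝ) * (4 * k * l') = (8 * k * l') * (N * l' ^ E) := by ring
          rw [h8]
          calc (8 * k * l') * (N * l' ^ E) ≤ (f j : ℝ) * (N * l' ^ E) :=
                mul_le_mul_of_nonneg_right hfl' (by positivity)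
            _ = _ := by ring
        have h6 := le_of_mul_le_mul_left h5 (by positivity)
        exact_mod_cast h6
    choose! K hK1 hK2 hK3 using key
    set g : ℕ → ℕ := fun j => K j * f j with hg
    set Sf : Finset ℕ := (Finset.Icc 1 ⌊l ^ C⌋₊).filter fun K =>
      N ≤ ((Finset.range (K * N)).filter (GoodL A C N i K)).card with hSf
    have himg : (Finset.range R).image g ⊆ Sf := by
      intro x hx
      obtain ⟨j, hj, hjx⟩ := mem_image.mp hx
      rw [← hjx, hSf, mem_filter, mem_Icc]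
      have hfj := hf3 j
      have hj' := mem_range.mp hj
      refine ⟨⟨?_, ?_⟩, hK3 j hj⟩
      · have := hK1 j hj
        exact Nat.mul_pos (by omega) (by omega)
      · refine Nat.le_floor ?_
        have h4 : (K j : ℝ) ≤ V := by exact_mod_cast hK2 j hj
        have h5 : (f j : ℝ) ≤ 3 * R := by exact_mod_cast (by omega : f j ≤ 3 * R)
        have h6 : ((g j : ℕ) : ℝ) = (K j : ℝ) * f j := by rw [hg]; push_cast; rfl
        rw [h6]
        have h7 : (K j : ℝ) * f j ≤ (2 * (2 * l) ^ E) * (3 * l ^ r) :=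
          mul_le_mul (h4.trans hV1) (h5.trans (by linarith)) (Nat.cast_nonneg _) (by positivity)
        refine h7.trans (le_trans ?_ hCe)
        have h8 : (2 * (2 * l) ^ E) * (3 * l ^ r) = (6 * 2 ^ E) * l ^ (E + r) := by
          rw [mul_pow, pow_add]; ring
        rw [h8, pow_succ, mul_comm]
        refine mul_le_mul_of_nonneg_left ?_ (by positivity)
        linarith
    have hfib : (Finset.range R).card ≤ V * ((Finset.range R).image g).card := by
      refine card_le_mul_card_image _ _ fun x hx => ?_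
      have h4 : (((Finset.range R).filter fun j => g j = x).image K) ⊆ Finset.Icc 1 V := by
        intro y hy
        obtain ⟨j, hj, hjy⟩ := mem_image.mp hy
        rw [mem_filter] at hj
        rw [← hjy, mem_Icc]
        exact ⟨hK1 j hj.1, hK2 j hj.1⟩
      have h5 : Set.InjOn K (((Finset.range R).filter fun j => g j = x : Finset ℕ) : Set ℕ) := by
        intro j1 hj1 j2 hj2 h6
        have a1 := mem_filter.mp (mem_coe.mp hj1)
        have a2 := mem_filter.mp (mem_coe.mp hj2)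
        have h7 : K j1 * f j1 = K j1 * f j2 := by
          have b1 : K j1 * f j1 = x := a1.2
          have b2 : K j2 * f j2 = x := a2.2
          rw [b1, h6, b2]
        have h8 := Nat.eq_of_mul_eq_mul_left (hK1 j1 a1.1) h7
        have h9 := hf3 j1
        have h10 := hf3 j2
        omega
      have h6 := card_le_card h4
      rw [card_image_of_injOn h5, Nat.card_Icc, Nat.add_sub_cancel] at h6
      exact h6
    rw [card_range] at hfib
    have h4 : (R : ℝ) ≤ (2 * (2 * l) ^ E) * (Sf.card : ℝ) := by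
      calc (R : ℝ) ≤ ((V * ((Finset.range R).image g).card : ℕ) : ℝ) := by exact_mod_cast hfib
        _ = (V : ℝ) * (((Finset.range R).image g).card : ℝ) := by push_cast; rfl
        _ ≤ (2 * (2 * l) ^ E) * (Sf.card : ℝ) := by
            refine mul_le_mul hV1 ?_ (Nat.cast_nonneg _) (by positivity)
            exact_mod_cast card_le_card himg
    have h5 : (2 * (2 * l) ^ E) * l ^ A ≤ (2 * (2 * l) ^ E) * (Sf.card : ℝ) := by
      refine le_trans ?_ h4
      have h6 : l ^ r = l ^ A * l ^ E * l ^ 2 := by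
        rw [hr, pow_add, pow_add]
      have h7 : (2 * (2 * l) ^ E) * l ^ A = (2 * 2 ^ E) * (l ^ A * l ^ E) := by
        rw [mul_pow]; ring
      rw [h7]
      have h8 : (1 : ℝ) ≤ l ^ A * l ^ E := by
        have a1 : (1 : ℝ) ≤ l ^ A := one_le_pow₀ hl1
        have a2 : (1 : ℝ) ≤ l ^ E := one_le_pow₀ hl1
        nlinarith
      have h9 : 2 * 2 ^ E + 1 ≤ l ^ 2 := by nlinarith
      nlinarith
    have h6 := le_of_mul_le_mul_left h5 (by positivity)
    rw [← hl]
    exact h6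
  · -- second part
    obtain ⟨D, hD⟩ : ∃ D : ℕ, D = C - E := ⟨_, rfl⟩
    have hDC : C = D + E := by omega
    obtain ⟨y, hy⟩ : ∃ y : ℝ, y = l ^ D / 2 ^ (E + 1) := ⟨_, rfl⟩
    have hDl : l ≤ l ^ D := by
      calc l = l ^ 1 := (pow_one l).symm
        _ ≤ l ^ D := pow_le_pow_right₀ hl1 (by omega)
    have hy4 : 4 ≤ y := by
      rw [hy, le_div_iff₀ (by positivity), pow_succ]
      nlinarith
    have hyl : y ≤ l ^ D := by
      rw [hy]
      refine div_le_self (by positivity) (one_le_pow₀ (by norm_num))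
    obtain ⟨w, hw⟩ : ∃ w : ℕ, w = ⌊y⌋₊ := ⟨_, rfl⟩
    have hw1 : (w : ℝ) ≤ y := by rw [hw]; exact Nat.floor_le (by linarith)
    have hw2 : y < w + 1 := by rw [hw]; exact Nat.lt_floor_add_one _
    have hw4 : 4 ≤ w := by rw [hw]; exact Nat.le_floor (by exact_mod_cast hy4)
    obtain ⟨u, hu, hmu⟩ := FINl_two hmN (w - 1)
    have hu' : w - 1 ≤ u ∧ u ≤ w := by
      rcases hu with h | h <;> omega
    have huy : (u : ℝ) ≤ y := le_trans (by exact_mod_cast hu'.2) hw1
    have huy2 : y / 2 ≤ u := by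
      have h4 : (w : ℝ) ≤ u + 1 := by exact_mod_cast (by omega : w ≤ u + 1)
      linarith
    have hu1 : 1 ≤ u := by omega
    have hDCl : l ^ D ≤ l ^ C := pow_le_pow_right₀ hl1 (by omega)
    have hlC0 : 0 < l ^ C := by positivity
    obtain ⟨e1, e2, e3, -, e5⟩ := gen u hu1 (by linarith) hmu
    obtain ⟨G, hG1, hG2, hG3⟩ := FINl_core (A := A) (i := i) (M := u * N) (by nlinarith) (by omega)
      (by linarith) e5
    have hGs : G ⊆ (Finset.Icc 1 ⌊(N : ℝ) * Real.log N ^ C⌋₊).filter fun p =>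
        ∃ K : ℕ, 1 ≤ K ∧ (K : ℝ) ≤ Real.log N ^ C ∧ GoodL A C N i K p := by
      intro p hp
      have h4 := hG1 hp
      unfold QQl at h4
      rw [mem_filter, mem_Ioc] at h4
      obtain ⟨b, K, hb1, hs, hK1, hK2, hO1, hO2, hq⟩ := hG3 p hp
      obtain ⟨l', hl'⟩ : ∃ l' : ℝ, l' = Real.log (u * N : ℕ) := ⟨_, rfl⟩
      have hBl : ((Bl E (u * N) : ℕ) : ℝ) ≤ ((u * N : ℕ) : ℝ) * Real.log (u * N : ℕ) ^ E :=
        Nat.floor_le (mul_nonneg (Nat.cast_nonneg _) (pow_nonneg (Real.log_natCast_nonneg _) _))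
      rw [← hl'] at e1 e2 hK2 hBl
      have h5 : l' ^ E ≤ 2 ^ E * l ^ E := by
        rw [← mul_pow]
        exact pow_le_pow_left₀ (by linarith) e1 E
      have h6 : l ^ C = l ^ D * l ^ E := by rw [hDC, pow_add]
      have h7 : y * (2 ^ E * l ^ E) = l ^ C / 2 := by
        rw [hy, h6, pow_succ]
        field_simp
      have h8 : (u : ℝ) * l' ^ E ≤ l ^ C / 2 := by
        rw [← h7]
        exact mul_le_mul huy h5 (pow_nonneg (by linarith) E) (by linarith)
      rw [← hl, mem_filter, mem_Icc]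
      refine ⟨⟨h4.2.one_lt.le, Nat.le_floor ?_⟩, K * u, Nat.mul_pos hK1 hu1, ?_, ?_⟩
      · have h9 : (p : ℝ) ≤ Bl E (u * N) := by exact_mod_cast h4.1.2
        refine (h9.trans hBl).trans ?_
        push_cast
        calc (u : ℝ) * N * l' ^ E = N * (u * l' ^ E) := by ring
          _ ≤ N * (l ^ C / 2) := mul_le_mul_of_nonneg_left h8 hN0.le
          _ ≤ N * l ^ C := mul_le_mul_of_nonneg_left (by linarith) hN0.le
      · push_cast
        calc (K : ℝ) * u ≤ (2 * l' ^ E) * u := mul_le_mul_of_nonneg_right hK2 (Nat.cast_nonneg _)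
          _ = 2 * (u * l' ^ E) := by ring
          _ ≤ 2 * (l ^ C / 2) := mul_le_mul_of_nonneg_left h8 (by norm_num)
          _ = l ^ C := by ring
      · exact FINl_good (J := J) (by omega) hu1 (by omega) h4.2 h4.1.1 hb1 hs hO1 hO2 hq
    have h4 : (G.card : ℝ) ≤ _ := Nat.cast_le.mpr (card_le_card hGs)
    refine le_trans (le_trans ?_ (e3.trans hG2)) h4
    rw [← hl]
    have h6 : l ^ C = l ^ D * l ^ E := by rw [hDC, pow_add]
    have h7 : 1 / (32 * k * 2 ^ E) * (N * l ^ C / l) = (y / 2 * N) * l ^ E / (8 * k * l) := by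
      rw [hy, h6, pow_succ]
      field_simp
      norm_num
    rw [h7]
    refine div_le_div_of_nonneg_right ?_ (by positivity)
    refine mul_le_mul_of_nonneg_right ?_ (by positivity)
    exact mul_le_mul_of_nonneg_right huy2 hN0.le

end Pool.Agent.Lib.PL
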