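import Pool.Agent.Lib.MP_7b7e48_nt.PL.B7l
import Pool.Agent.Lib.MP_7b7e48_nt.PL.C9l
import Pool.Agent.Lib.MP_45349e_nt.LS.LamB

/-!
# P0l: the two concrete families of multipliers satisfy the conditions

`PPl` with `m l = l` (`s = -1`) and `PPl ×ˢ PPl` with `m (l, l') = l l'` (`s = 1`), both with `Q = P`, `X = XXl T S N`.
PROOF. Adapt `PQ/P0m.lean`, `PQ/P0s.lean`. `qp`: definition of `QQl`. `qc`: `#P ≥ (1 - 1/k) #QQl ≥ #QQl/2 ≥ Bl/(8 log N)` (`C9l` with `e = 1/2`). `j0`: `B7l`. `jc`: primes not dividing `N`.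
`xj`: definition of `XXl` (outside: `‖av‖ < (log N)^(-T)`); for the pairs `av_prod` (`‖av‖² ≤ ‖av‖`). `rough`: `l > pl N S/2`. `om`: `1`, `2`. `lam`: `-1`, `1`.
`low`: `l ≥ pl N S/2 > 5` and `N ≤ 5 A0l²` (`sz_pl`, `sz_A0`). `upp`: `l l' N ≤ (log N)^(2S) N ≤ Bl` since `E ≥ 2S + 1`.
-/

set_option autoImplicit false

open Finset
open Pool.Agent.Lib.GT (Rough pr V)
open Pool.Agent.Lib.MP_45349e_nt.LS (lam)
open Pool.Agent.Lib.RG (RC LV rr SS PB sig)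

namespace Pool.Agent.Lib.PL

open Pool.Agent.Lib.PQ

theorem P0l (k T S E : ℕ) (hk : 2 ≤ k) (hS : 10 * k * (2 * T + 4) ≤ S) (hE : 2 * S + 1 ≤ E) :
    ∃ N0 : ℕ, ∀ (N : ℕ) [NeZero N], N0 ≤ N → ∀ P : Finset ℕ, PSl k E N P →
    QJl N E T P (PPl S N) (fun l => l) (XXl T S N) ∧ MJl N S E (PPl S N) (fun l => l) (-1) ∧
    QJl N E T P (PPl S N ×ˢ PPl S N) (fun y : ℕ × ℕ => y.1 * y.2) (XXl T S N) ∧
    MJl N S E (PPl S N ×ˢ PPl S N) (fun y : ℕ × ℕ => y.1 * y.2) 1 := by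
  classical
  have hkr : (2 : ℝ) ≤ k := by exact_mod_cast hk
  have hS2 : 1 ≤ S := by
    have h1 : 10 * 2 * 4 ≤ 10 * k * (2 * T + 4) := Nat.mul_le_mul (by omega) (by omega)
    omega
  obtain ⟨N1, h1⟩ := sz_A0
  obtain ⟨N2, h2⟩ := sz_pl S hS2 12 1 one_pos
  obtain ⟨N3, h3⟩ := C9l E (by omega) (1 / 2) (by norm_num)
  obtain ⟨N4, h4⟩ := B7l k T S (by omega) hS
  refine ⟨N1 + N2 + N3 + N4, fun N _ hN P hP => ?_⟩
  obtain ⟨hA1, hA2, hA3, -⟩ := h1 N (by omega)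
  obtain ⟨hp12, hpl, -, -, hL⟩ := h2 N (by omega)
  have hc := h3 N (by omega)
  obtain ⟨hne, -, -, -⟩ := h4 N (by omega)
  have hNr : (1 : ℝ) ≤ N := by
    have : 0 < N := Nat.pos_of_ne_zero (NeZero.ne N)
    exact_mod_cast this
  have hN0 : (0 : ℝ) < N := by linarith
  have hPl : ∀ l ∈ PPl S N, pl N S / 2 < l ∧ l ≤ pl N S ∧ l.Prime ∧ ¬ l ∣ N := by
    intro l hl
    unfold PPl at hl
    rw [Finset.mem_filter, Finset.mem_Ioc] at hl
    exact ⟨hl.1.1, hl.1.2, hl.2.1, hl.2.2⟩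
  have hPlr : ∀ l ∈ PPl S N, (l : ℝ) ≤ Real.log N ^ S := by
    intro l hl
    have h5 : (l : ℝ) ≤ (pl N S : ℕ) := by exact_mod_cast (hPl l hl).2.1
    exact h5.trans hpl
  have hcop : ∀ l ∈ PPl S N, l.Coprime N := fun l hl =>
    (Nat.Prime.coprime_iff_not_dvd (hPl l hl).2.2.1).2 (hPl l hl).2.2.2
  have hrough : ∀ l ∈ PPl S N, Rough (pl N S / 2) l := by
    intro l hl p hp hpl'
    rw [(Nat.prime_dvd_prime_iff_eq hp (hPl l hl).2.2.1).1 hpl']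
    exact (hPl l hl).1
  have hQ1 : ∀ q ∈ P, q.Prime ∧ N < q ∧ q ≤ Bl E N := by
    intro q hq
    have h5 := hP.sub hq
    unfold QQl at h5
    rw [Finset.mem_filter, Finset.mem_Ioc] at h5
    exact ⟨h5.2, h5.1.1, h5.1.2⟩
  have hQ2 : (Bl E N : ℝ) / (8 * Real.log N) ≤ P.card := by
    refine le_trans ?_ hP.big
    have h5 : 1 / (k : ℝ) ≤ 1 / 2 := one_div_le_one_div_of_le (by norm_num) hkr
    have h6 : (0 : ℝ) ≤ (QQl E N).card := Nat.cast_nonneg _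
    have h7 : (1 / 2 : ℝ) * (QQl E N).card ≤ (1 - 1 / (k : ℝ)) * (QQl E N).card :=
      mul_le_mul_of_nonneg_right (by linarith) h6
    have h8 : (Bl E N : ℝ) / (8 * Real.log N) = (1 / 8) * ((Bl E N : ℝ) / Real.log N) := by
      field_simp
    have h9 : (0 : ℝ) ≤ (Bl E N : ℝ) / Real.log N := div_nonneg (Nat.cast_nonneg _) (by linarith)
    rw [h8]
    linarith
  have hX : ∀ χ : DirichletCharacter ℂ N, χ ∉ XXl T S N →
      ‖av (PPl S N) (fun l => l) χ‖ ≤ (Real.log N ^ T)⁻¹ := by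
    intro χ hχ
    unfold XXl at hχ
    rw [Finset.mem_filter, not_and, not_le] at hχ
    exact (hχ (Finset.mem_univ χ)).le
  have hLT : (0 : ℝ) ≤ (Real.log N ^ T)⁻¹ := by positivity
  have hl6 : ∀ l ∈ PPl S N, 7 ≤ l := by
    intro l hl
    have := (hPl l hl).1
    omega
  have key : ∀ (n j : ℕ), (n : ℝ) ≤ Real.log N ^ j → j ≤ E → n * N ≤ Bl E N := by
    intro n j h5 h6
    unfold Bl
    apply Nat.le_floor
    push_cast
    rw [mul_comm]
    exact mul_le_mul_of_nonneg_left (h5.trans (pow_le_pow_right₀ hL h6)) hN0.le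
  have hAA : 1 ≤ A0l N ^ 2 := Nat.one_le_pow _ _ hA1
  refine ⟨⟨hQ1, hQ2, hne, hcop, fun χ hχ => by linarith [hX χ hχ]⟩, ⟨hrough, ?_, ?_, ?_, ?_⟩,
    ⟨hQ1, hQ2, hne.product hne, ?_, ?_⟩, ⟨?_, ?_, ?_, ?_, ?_⟩⟩
  · intro l hl
    rw [ArithmeticFunction.cardFactors_apply_prime (hPl l hl).2.2.1]
    norm_num
  · exact fun l hl => MP_45349e_nt.LS.lam_prime l (hPl l hl).2.2.1
  · intro l hl
    have h5 : 7 * A0l N ^ 2 ≤ l * A0l N ^ 2 := Nat.mul_le_mul_right _ (hl6 l hl)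
    omega
  · intro l hl
    exact key l S (hPlr l hl) (by omega)
  · intro y hy
    rw [Finset.mem_product] at hy
    exact Nat.Coprime.mul_left (hcop _ hy.1) (hcop _ hy.2)
  · intro χ hχ
    have h0 : av (PPl S N ×ˢ PPl S N) (fun y : ℕ × ℕ => y.1 * y.2) χ =
        av (PPl S N) (fun l => l) χ ^ 2 := av_prod (PPl S N) (fun l => l) χ
    rw [h0, norm_pow, pow_two]
    have h1 := hX χ hχ
    have h2 := av_le (PPl S N) (fun l => l) χ
    have h3 := norm_nonneg (av (PPl S N) (fun l => l) χ)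
    nlinarith
  · intro y hy p hp hpl'
    rw [Finset.mem_product] at hy
    rcases (Nat.Prime.dvd_mul hp).1 hpl' with h | h
    · exact hrough _ hy.1 p hp h
    · exact hrough _ hy.2 p hp h
  · intro y hy
    rw [Finset.mem_product] at hy
    show ArithmeticFunction.cardFactors (y.1 * y.2) ≤ 2
    rw [ArithmeticFunction.cardFactors_mul (hPl _ hy.1).2.2.1.ne_zero (hPl _ hy.2).2.2.1.ne_zero,
      ArithmeticFunction.cardFactors_apply_prime (hPl _ hy.1).2.2.1,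
      ArithmeticFunction.cardFactors_apply_prime (hPl _ hy.2).2.2.1]
  · intro y hy
    rw [Finset.mem_product] at hy
    show lam (y.1 * y.2) = 1
    rw [MP_45349e_nt.LS.lam_mul _ _ (hPl _ hy.1).2.2.1.ne_zero (hPl _ hy.2).2.2.1.ne_zero,
      MP_45349e_nt.LS.lam_prime _ (hPl _ hy.1).2.2.1, MP_45349e_nt.LS.lam_prime _ (hPl _ hy.2).2.2.1]
    norm_num
  · intro y hy
    rw [Finset.mem_product] at hy
    show N < y.1 * y.2 * A0l N ^ 2
    have h5 : 7 * 7 ≤ y.1 * y.2 := Nat.mul_le_mul (hl6 _ hy.1) (hl6 _ hy.2)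
    have h6 : 7 * 7 * A0l N ^ 2 ≤ y.1 * y.2 * A0l N ^ 2 := Nat.mul_le_mul_right _ h5
    omega
  · intro y hy
    rw [Finset.mem_product] at hy
    refine key (y.1 * y.2) (S + S) ?_ (by omega)
    push_cast
    rw [pow_add]
    exact mul_le_mul (hPlr _ hy.1) (hPlr _ hy.2) (Nat.cast_nonneg _) (by positivity)

end Pool.Agent.Lib.PL
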