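import Pool.Agent.Lib.MP_7b7e48_nt.PL.B5l
import Pool.Agent.Lib.MP_7b7e48_nt.PL.C3l
import Pool.Agent.Lib.MP_7b7e48_nt.PQ.B1m
import Pool.Agent.Lib.MP_7b7e48_nt.PQ.B3m

/-!
# T1l: the tail of the Fourier expansion

PROOF. Adapt `PQ/T1m.lean`. For `n, n' ∈ R0l` the product is a unit; by `B1m` `Pf (n n') - ∑_X = ∑_{χ ∉ X} rho χ * av χ * χ n * χ n'`; `B5l` with `Y = univ \ X`, `A = A0l N`,
`J = ⌈2/c⌉ + 1`-like (`(2A)² ≤ N < z^(J+1)`) bounds the left side by `ms⁻² 2^J (N/A²) ∑_{χ ∉ X} ‖rho χ‖² ‖av χ‖²`; `ms⁻¹ ≤ 4 log N` (`D6l`), `N ≤ 5A²` (`sz_A0`),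
`‖av χ‖² ≤ 16 (log N)^(-2T)`, `∑_χ ‖rho χ‖² ≤ φ(N)(Bl/N + 1)/#Q ≤ 2 Bl/#Q ≤ 16 log N` (`B3m`, `qc`, `N ≤ Bl`). Total `≤ C(c) (log N)^(3 - 2T) ≤ (log N)^(-T)` for large `N`
(`T ≥ 5`).
-/

set_option autoImplicit false

open Finset
open Pool.Agent.Lib.GT (Rough pr V)
open Pool.Agent.Lib.MP_45349e_nt.LS (lam)
open Pool.Agent.Lib.RG (RC LV rr SS PB sig)

namespace Pool.Agent.Lib.PL

open Pool.Agent.Lib.PQ

private lemma T1l_up (a b : ℝ) (ha : 0 < a) : ∃ N0 : ℕ, ∀ N : ℕ, N0 ≤ N → b ≤ (N : ℝ) ^ a := by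
  have h := (tendsto_rpow_atTop ha).comp (tendsto_natCast_atTop_atTop (R := ℝ))
  obtain ⟨N0, h3⟩ := Filter.eventually_atTop.mp (h.eventually_ge_atTop b)
  exact ⟨N0, fun N hN => h3 N hN⟩

private lemma T1l_pw_ge (N : ℕ) (x : ℝ) (h : 1 ≤ (N : ℝ) ^ x) : (N : ℝ) ^ x / 2 ≤ pw N x := by
  unfold pw
  have h1 := Nat.lt_floor_add_one ((N : ℝ) ^ x)
  have h2 : 1 ≤ ⌊(N : ℝ) ^ x⌋₊ := Nat.le_floor (by exact_mod_cast h)
  have h3 : (1 : ℝ) ≤ (⌊(N : ℝ) ^ x⌋₊ : ℝ) := by exact_mod_cast h2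
  linarith

/-- the mean square of `rho` -/
private lemma T1l_rho {N E T : ℕ} [NeZero N] (hN : 1 ≤ N) (hBN : N ≤ Bl E N) (hlog : 1 ≤ Real.log N)
    {ι : Type} {J : Finset ι}
    {m : ι → ℕ} {Q : Finset ℕ} {X : Finset (DirichletCharacter ℂ N)} (h : QJl N E T Q J m X) :
    ∑ χ : DirichletCharacter ℂ N, ‖rho Q χ‖ ^ 2 ≤ 16 * Real.log N := by
  have hN0 : (0 : ℝ) < N := by exact_mod_cast hN
  have hB' : (N : ℝ) ≤ Bl E N := by exact_mod_cast hBN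
  have hB0 : (0 : ℝ) < Bl E N := lt_of_lt_of_le hN0 hB'
  have hcop : ∀ q ∈ Q, q.Coprime N ∧ 1 ≤ q ∧ q ≤ Bl E N := by
    intro q hq
    obtain ⟨h1, h2, h3⟩ := h.qp q hq
    refine ⟨?_, h1.one_le, h3⟩
    rw [Nat.Prime.coprime_iff_not_dvd h1]
    intro hd
    exact absurd (Nat.le_of_dvd hN hd) (by omega)
  have hc0 : (0 : ℝ) < Q.card := lt_of_lt_of_le (div_pos hB0 (by linarith)) h.qc
  have hne : Q.Nonempty := Finset.card_pos.mp (by exact_mod_cast hc0)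
  refine (B3m N Q (Bl E N) hcop hne).trans ?_
  rw [div_le_iff₀ hc0]
  have h1 : (N.totient : ℝ) * ((Bl E N : ℝ) / N + 1) ≤ 2 * Bl E N := by
    have h2 : (N.totient : ℝ) ≤ N := by exact_mod_cast Nat.totient_le N
    calc (N.totient : ℝ) * ((Bl E N : ℝ) / N + 1) ≤ N * ((Bl E N : ℝ) / N + 1) :=
          mul_le_mul_of_nonneg_right h2 (by positivity)
      _ = Bl E N + N := by field_simp
      _ ≤ 2 * Bl E N := by linarith
  refine h1.trans ?_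
  have h3 := h.qc
  rw [div_le_iff₀ (by linarith)] at h3
  linarith

theorem T1l (T E : ℕ) (hT : 5 ≤ T) (c : ℝ) (hc : 0 < c) (hc1 : c ≤ 1 / 4) :
    ∃ N0 : ℕ, ∀ (N : ℕ) [NeZero N], N0 ≤ N → ∀ {ι : Type} (Q : Finset ℕ) (J : Finset ι) (m : ι → ℕ)
    (X : Finset (DirichletCharacter ℂ N)), QJl N E T Q J m X →
    ∑ n ∈ R0l c N, ∑ n' ∈ R0l c N, w0l c N n * (w0l c N n' *
      ‖((Pf N Q J m ((n : ZMod N) * (n' : ZMod N)) : ℝ) : ℂ) -
        ∑ χ ∈ X, rho Q χ * av J m χ * (χ (n : ZMod N) * χ (n' : ZMod N))‖ ^ 2) ≤ (Real.log N ^ T)⁻¹ := by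
  classical
  obtain ⟨N1, hA0⟩ := sz_A0
  obtain ⟨N2, hD⟩ := D6l c hc hc1
  obtain ⟨N3, hlg⟩ := sz_logpow 3 (16 * 5 * 16 * 16 * (2 : ℝ) ^ ⌈4 / c⌉₊)
  obtain ⟨N4, hup1⟩ := T1l_up c 4 hc
  obtain ⟨N5, hup3⟩ := T1l_up 2 ((2 : ℝ) ^ (4 / c) + 1) (by norm_num)
  obtain ⟨N6, hBl⟩ := sz_Bl E
  obtain ⟨N7, hpl⟩ := sz_pl 1 le_rfl 0 c hc
  refine ⟨N1 + N2 + N3 + N4 + N5 + N6 + N7 + 2, fun N _ hN ι Q J m X hQJ => ?_⟩
  obtain ⟨hA1, hAN, hA5, -⟩ := hA0 N (by omega)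
  have hms := hD N (by omega)
  have hl := hlg N (by omega)
  have hBN := (hBl N (by omega)).1
  have hlog : 1 ≤ Real.log N := (hpl N (by omega)).2.2.2.2
  have e1 := hup1 N (by omega)
  have e3 := hup3 N (by omega)
  have hN1 : 1 ≤ N := by omega
  have hN1' : (1 : ℝ) ≤ N := by exact_mod_cast hN1
  have hN0 : (0 : ℝ) < N := by linarith
  have hz := T1l_pw_ge N c (by linarith)
  have hz2 : 2 ≤ pw N c := by
    have : (2 : ℝ) ≤ pw N c := by linarith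
    exact_mod_cast this
  have hBz : (2 * A0l N) ^ 2 < pw N c ^ (⌈4 / c⌉₊ + 1) := by
    refine lt_of_le_of_lt hAN ?_
    have h4 : (N : ℝ) < (pw N c : ℝ) ^ (⌈4 / c⌉₊ + 1) := by
      have hz1 : (1 : ℝ) ≤ (N : ℝ) ^ c / 2 := by linarith
      have h6 : ((N : ℝ) ^ c / 2) ^ (4 / c) ≤ (pw N c : ℝ) ^ (⌈4 / c⌉₊ + 1) := by
        calc ((N : ℝ) ^ c / 2) ^ (4 / c) ≤ ((N : ℝ) ^ c / 2) ^ (((⌈4 / c⌉₊ + 1 : ℕ)) : ℝ) := by
              refine Real.rpow_le_rpow_of_exponent_le hz1 ?_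
              have := Nat.le_ceil (4 / c)
              push_cast
              linarith
          _ = ((N : ℝ) ^ c / 2) ^ (⌈4 / c⌉₊ + 1) := Real.rpow_natCast _ _
          _ ≤ (pw N c : ℝ) ^ (⌈4 / c⌉₊ + 1) := pow_le_pow_left₀ (by positivity) hz _
      refine lt_of_lt_of_le ?_ h6
      have h8 : ((N : ℝ) ^ c / 2) ^ (4 / c) = (N : ℝ) ^ 4 / (2 : ℝ) ^ (4 / c) := by
        rw [Real.div_rpow (by positivity) (by norm_num), ← Real.rpow_mul hN0.le,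
          mul_div_cancel₀ _ hc.ne', ← Real.rpow_natCast N 4]
        norm_num
      rw [h8, lt_div_iff₀ (by positivity)]
      have h9 : (2 : ℝ) ^ (4 / c) < (N : ℝ) ^ 2 := by
        have : (N : ℝ) ^ (2 : ℝ) = (N : ℝ) ^ 2 := by
          rw [← Real.rpow_natCast N 2]
          norm_num
        rw [← this]
        linarith
      calc (N : ℝ) * (2 : ℝ) ^ (4 / c) < N * (N : ℝ) ^ 2 :=
            mul_lt_mul_of_pos_left h9 (by positivity)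
        _ = (N : ℝ) ^ 3 := by ring
        _ ≤ (N : ℝ) ^ 4 := pow_le_pow_right₀ hN1' (by norm_num)
    exact_mod_cast h4
  set M := ms (R0l c N) with hM
  have hM0 : 0 < M := lt_of_lt_of_le (by positivity) hms
  have hcop : ∀ q ∈ Q, q.Coprime N := by
    intro q hq
    obtain ⟨h1, h2, h3⟩ := hQJ.qp q hq
    rw [Nat.Prime.coprime_iff_not_dvd h1]
    intro hd
    exact absurd (Nat.le_of_dvd hN1 hd) (by omega)
  have hR : ∀ n ∈ R0l c N, IsUnit (n : ZMod N) := fun n hn =>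
    (ZMod.isUnit_iff_coprime n N).mpr (Finset.mem_filter.mp hn).2.2
  have hkey : ∀ n ∈ R0l c N, ∀ n' ∈ R0l c N, w0l c N n * (w0l c N n' *
      ‖((Pf N Q J m ((n : ZMod N) * (n' : ZMod N)) : ℝ) : ℂ) -
        ∑ χ ∈ X, rho Q χ * av J m χ * (χ (n : ZMod N) * χ (n' : ZMod N))‖ ^ 2) =
      (1 / M ^ 2) * (1 / ((n : ℝ) * n') * ‖∑ χ ∈ Xᶜ, (fun χ : DirichletCharacter ℂ N =>
        rho Q χ * av J m χ) χ * (χ (n : ZMod N) * χ (n' : ZMod N))‖ ^ 2) := by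
    intro n hn n' hn'
    have h1 : ((Pf N Q J m ((n : ZMod N) * (n' : ZMod N)) : ℝ) : ℂ) -
        ∑ χ ∈ X, rho Q χ * av J m χ * (χ (n : ZMod N) * χ (n' : ZMod N)) =
        ∑ χ ∈ Xᶜ, rho Q χ * av J m χ * (χ (n : ZMod N) * χ (n' : ZMod N)) := by
      rw [B1m N Q hcop J m _ ((hR n hn).mul (hR n' hn')), sub_eq_iff_eq_add,
        add_comm, Finset.sum_add_sum_compl]
      refine Finset.sum_congr rfl fun χ _ => ?_
      rw [map_mul]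
    rw [h1]
    change wt (R0l c N) n * (wt (R0l c N) n' * _) = _
    unfold wt
    rw [← hM]
    ring
  rw [Finset.sum_congr rfl fun n hn => Finset.sum_congr rfl fun n' hn' => hkey n hn n' hn']
  simp only [← Finset.mul_sum]
  have h5 := B5l N (pw N c) (A0l N) ⌈4 / c⌉₊ (by omega) hz2 hA1 hAN hBz Xᶜ
    (fun χ => rho Q χ * av J m χ)
  have hY : ∑ χ ∈ Xᶜ, ‖rho Q χ * av J m χ‖ ^ 2 ≤
      16 * ((Real.log N ^ T)⁻¹) ^ 2 * (16 * Real.log N) := by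
    have h1 : ∀ χ ∈ Xᶜ, ‖rho Q χ * av J m χ‖ ^ 2 ≤
        16 * ((Real.log N ^ T)⁻¹) ^ 2 * ‖rho Q χ‖ ^ 2 := by
      intro χ hχ
      have h2 := hQJ.xj χ (Finset.mem_compl.mp hχ)
      have h3 : ‖av J m χ‖ ^ 2 ≤ 16 * ((Real.log N ^ T)⁻¹) ^ 2 := by
        calc ‖av J m χ‖ ^ 2 ≤ (4 * (Real.log N ^ T)⁻¹) ^ 2 :=
              pow_le_pow_left₀ (norm_nonneg _) h2 2
          _ = 16 * ((Real.log N ^ T)⁻¹) ^ 2 := by
              rw [mul_pow]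
              norm_num
      rw [norm_mul, mul_pow, mul_comm]
      exact mul_le_mul_of_nonneg_right h3 (by positivity)
    refine (Finset.sum_le_sum h1).trans ?_
    rw [← Finset.mul_sum]
    refine mul_le_mul_of_nonneg_left ?_ (by positivity)
    exact (Finset.sum_le_univ_sum_of_nonneg fun χ => by positivity).trans (T1l_rho hN1 hBN hlog hQJ)
  have hMk : 1 / M ^ 2 ≤ 16 * Real.log N ^ 2 := by
    rw [div_le_iff₀ (by positivity)]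
    have h1 : (1 / (4 * Real.log N)) ^ 2 ≤ M ^ 2 := pow_le_pow_left₀ (by positivity) hms 2
    calc (1 : ℝ) = 16 * Real.log N ^ 2 * (1 / (4 * Real.log N)) ^ 2 := by
          field_simp
          norm_num
      _ ≤ 16 * Real.log N ^ 2 * M ^ 2 := mul_le_mul_of_nonneg_left h1 (by positivity)
  have hA0' : (0 : ℝ) < A0l N := by exact_mod_cast hA1
  have hφ : (N.totient / (A0l N : ℝ) ^ 2 : ℝ) ≤ 5 := by
    rw [div_le_iff₀ (by positivity)]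
    have h2 : (N.totient : ℝ) ≤ N := by exact_mod_cast Nat.totient_le N
    have h3 : (N : ℝ) ≤ 5 * (A0l N : ℝ) ^ 2 := by exact_mod_cast hA5
    linarith
  have hlT : 0 < Real.log N ^ T := by positivity
  calc 1 / M ^ 2 * ∑ n ∈ R0l c N, ∑ n' ∈ R0l c N, 1 / ((n : ℝ) * n') *
        ‖∑ χ ∈ Xᶜ, rho Q χ * av J m χ * (χ (n : ZMod N) * χ (n' : ZMod N))‖ ^ 2
      ≤ (16 * Real.log N ^ 2) * (2 ^ ⌈4 / c⌉₊ * (N.totient / (A0l N : ℝ) ^ 2) *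
          ∑ χ ∈ Xᶜ, ‖rho Q χ * av J m χ‖ ^ 2) := by
        refine mul_le_mul hMk h5 ?_ (by positivity)
        exact Finset.sum_nonneg fun n _ => Finset.sum_nonneg fun n' _ => by positivity
    _ ≤ (16 * Real.log N ^ 2) * (2 ^ ⌈4 / c⌉₊ * 5 *
          (16 * ((Real.log N ^ T)⁻¹) ^ 2 * (16 * Real.log N))) := by
        refine mul_le_mul_of_nonneg_left ?_ (by positivity)
        refine mul_le_mul ?_ hY (Finset.sum_nonneg fun χ _ => by positivity) (by positivity)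
        exact mul_le_mul_of_nonneg_left hφ (by positivity)
    _ = (16 * 5 * 16 * 16 * (2 : ℝ) ^ ⌈4 / c⌉₊ * Real.log N ^ 3) * (Real.log N ^ T)⁻¹ *
          (Real.log N ^ T)⁻¹ := by ring
    _ ≤ (Real.log N ^ T) * (Real.log N ^ T)⁻¹ * (Real.log N ^ T)⁻¹ := by
        refine mul_le_mul_of_nonneg_right ?_ (by positivity)
        refine mul_le_mul_of_nonneg_right ?_ (by positivity)
        exact hl.trans (pow_le_pow_right₀ hlog (by omega))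
    _ = (Real.log N ^ T)⁻¹ := by
        rw [mul_inv_cancel₀ hlT.ne', one_mul]

end Pool.Agent.Lib.PL
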