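import Pool.Agent.Lib.MP_7b7e48_nt.PL.N1
import Pool.Agent.Lib.MP_45349e_nt.LS.LamB

/-!
# T2l: the sieve hypothesis determines the sign

PROOF. Adapt `PQ/T2s.lean`. If `Pf ≠ 0` there are `q ∈ Q`, `j ∈ J` with `q + m j * n * n' = 0` modulo `N`. Put `b = m j * n * n'`: `N < m j * A0l² ≤ b` (`low`), `b ≤ m j * (2 A0l)² ≤ m j * N ≤ Bl`
(`sz_A0`, `upp`); all prime factors of `b` are `> pl N S/2`: those of `m j` by `rough`, those of `n, n'` are `> pw N c > pl N S` (`sz_pl`); `Ω(b) ≤ 2 + Jc c + Jc c` (`om`, `sz_om`);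
`N ∣ q + b`. So `lam b = t` by `HPl`, and `lam b = s * lam n * lam n'` (complete multiplicativity).
-/

set_option autoImplicit false

open Finset
open Pool.Agent.Lib.GT (Rough pr V)
open Pool.Agent.Lib.MP_45349e_nt.LS (lam)
open Pool.Agent.Lib.RG (RC LV rr SS PB sig)

namespace Pool.Agent.Lib.PL

open Pool.Agent.Lib.PQ

private lemma T2l_mul {z a b : ℕ} (ha : Rough z a) (hb : Rough z b) : Rough z (a * b) := by
  intro p hp hd
  rcases hp.dvd_mul.1 hd with h | h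
  · exact ha p hp h
  · exact hb p hp h

private lemma T2l_ex {ι : Type} {N : ℕ} {Q : Finset ℕ} {J : Finset ι} {m : ι → ℕ} {y : ℕ}
    (hP : Pf N Q J m (y : ZMod N) ≠ 0) : ∃ q ∈ Q, ∃ j ∈ J, N ∣ q + m j * y := by
  classical
  by_contra hcon
  push Not at hcon
  apply hP
  unfold Pf
  have h0 : ((Q ×ˢ J).filter fun z => (z.1 : ZMod N) + (m z.2 : ZMod N) * (y : ZMod N) = 0) = ∅ := by
    rw [Finset.filter_eq_empty_iff]
    intro z hz hz0
    rw [Finset.mem_product] at hz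
    apply hcon z.1 hz.1 z.2 hz.2
    rw [← ZMod.natCast_eq_zero_iff]
    push_cast
    exact hz0
  rw [h0]
  simp

theorem T2l (S E : ℕ) (hS : 1 ≤ S) (c : ℝ) (hc : 0 < c) : ∃ N0 : ℕ, ∀ (N : ℕ) [NeZero N], N0 ≤ N →
    ∀ {ι : Type} (Q : Finset ℕ) (J : Finset ι) (m : ι → ℕ) (s t : ℝ), (s = 1 ∨ s = -1) →
    HPl N (Bl E N) (pl N S / 2) (2 * Jc c + 2) Q t → MJl N S E J m s → ∀ n n' : ℕ, n ∈ R0l c N → n' ∈ R0l c N →
    Pf N Q J m ((n : ZMod N) * (n' : ZMod N)) ≠ 0 → lam n * lam n' = s * t := by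
  obtain ⟨N1, h1⟩ := sz_A0
  obtain ⟨N2, h2⟩ := sz_pl S hS 1 c hc
  obtain ⟨N3, h3⟩ := sz_om c hc
  refine ⟨N1 + N2 + N3, fun N _ hN => ?_⟩
  obtain ⟨hA1, hA2, -, -⟩ := h1 N (by omega)
  obtain ⟨-, -, -, hpl, -⟩ := h2 N (by omega)
  have hom := h3 N (by omega)
  intro ι Q J m s t hs hH hM n n' hn hn' hP
  rw [← Nat.cast_mul] at hP
  obtain ⟨q, hq, j, hj, hd⟩ := T2l_ex hP
  unfold R0l RS at hn hn'
  rw [Finset.mem_filter, Finset.mem_Ioc] at hn hn'
  obtain ⟨⟨a1, a2⟩, a3, a4⟩ := hn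
  obtain ⟨⟨b1, b2⟩, b3, b4⟩ := hn'
  have hnn : A0l N ^ 2 ≤ n * n' := by
    rw [pow_two]
    exact Nat.mul_le_mul a1.le b1.le
  have hnn2 : n * n' ≤ N := by
    refine le_trans ?_ hA2
    rw [pow_two]
    exact Nat.mul_le_mul a2 b2
  have h2N : 2 * A0l N ≤ N := by
    refine le_trans ?_ hA2
    rw [pow_two]
    exact Nat.le_mul_self _
  have hlow : N < m j * (n * n') := lt_of_lt_of_le (hM.low j hj) (Nat.mul_le_mul_left _ hnn)
  have hup : m j * (n * n') ≤ Bl E N := (Nat.mul_le_mul_left _ hnn2).trans (hM.upp j hj)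
  have hz : ∀ a : ℕ, Rough (pw N c) a → Rough (pl N S / 2) a := by
    intro a ha p hp hpa
    have h4 := ha p hp hpa
    omega
  have hr : Rough (pl N S / 2) (m j * (n * n')) := T2l_mul (hM.rough j hj) (T2l_mul (hz n a3) (hz n' b3))
  have hmj : m j ≠ 0 := by
    intro h
    rw [h] at hlow
    omega
  have hn0 : n ≠ 0 := by omega
  have hn0' : n' ≠ 0 := by omega
  have ho : ArithmeticFunction.cardFactors (m j * (n * n')) ≤ 2 * Jc c + 2 := by
    rw [ArithmeticFunction.cardFactors_mul hmj (mul_ne_zero hn0 hn0'), ArithmeticFunction.cardFactors_mul hn0 hn0']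
    have e1 := hM.om j hj
    have e2 := hom n (by omega) (by omega) a3
    have e3 := hom n' (by omega) (by omega) b3
    omega
  have hl := hH q hq (m j * (n * n')) hlow hup hr ho hd
  rw [Pool.Agent.Lib.MP_45349e_nt.LS.lam_mul _ _ hmj (mul_ne_zero hn0 hn0'),
    Pool.Agent.Lib.MP_45349e_nt.LS.lam_mul _ _ hn0 hn0', hM.lam j hj] at hl
  rw [← hl, ← mul_assoc]
  rcases hs with rfl | rfl <;> ring

end Pool.Agent.Lib.PL
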