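import Pool.Agent.Lib.MP_7b7e48_nt.PL.P1a
import Pool.Agent.Lib.MP_7b7e48_nt.PL.P0l
import Pool.Agent.Lib.MP_7b7e48_nt.PL.T1l
import Pool.Agent.Lib.MP_7b7e48_nt.PL.T2l

/-!
# P1l: the signed sum

PROOF. `P1a` with `R = R0l`, `w = w0l`, `X = XXl T S N`, `c χ = rho P χ * av PPl id χ`, `d χ = rho P χ * av PPl id χ ^ 2` (`av_prod`), `P₁ n n' = Pf N P PPl id (n n')`,
`P₂ = Pf N P (PPl × PPl) prod (n n')`. `h0`: if both were nonzero `T2l` would give `lam n lam n' = -t` and `= t`. `h1`, `h2`: `T1l`, `(log N)^(-T) ≤ (e/6)²` for large `N`.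
`∑ ‖c‖² ≤ ∑ ‖rho‖² ≤ 4` (`av_le`). `c χ * conj (d χ) = ‖rho * av‖² * conj (av)`; take real parts. (`P0l` for the conditions.)
-/

set_option autoImplicit false

open Finset
open Pool.Agent.Lib.GT (Rough pr V)
open Pool.Agent.Lib.MP_45349e_nt.LS (lam)
open Pool.Agent.Lib.RG (RC LV rr SS PB sig)

namespace Pool.Agent.Lib.PL

open Pool.Agent.Lib.PQ

private lemma P1l_term (r a : ℂ) : (r * a * (starRingEnd ℂ) (r * a ^ 2)).re =
    ‖r * a‖ ^ 2 * a.re := by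
  have h1 : r * a * (starRingEnd ℂ) (r * a ^ 2) =
      (r * a * (starRingEnd ℂ) (r * a)) * (starRingEnd ℂ) a := by
    rw [map_mul, map_mul, map_pow]
    ring
  rw [h1, Complex.mul_conj, Complex.re_ofReal_mul, Complex.conj_re, Complex.normSq_eq_norm_sq]

theorem P1l (k T S E : ℕ) (hk : 2 ≤ k) (hT : 5 ≤ T) (hS : 10 * k * (2 * T + 4) ≤ S) (hE : 2 * S + 1 ≤ E) (c : ℝ)
    (hc : 0 < c) (hc1 : c ≤ 1 / 4) (e : ℝ) (he : 0 < e) (he1 : e ≤ 1 / 100) :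
    ∃ N0 : ℕ, ∀ (N : ℕ) [NeZero N], N0 ≤ N → ∀ P : Finset ℕ, PSl k E N P → ∀ t : ℝ, (t = 1 ∨ t = -1) →
    HPl N (Bl E N) (pl N S / 2) (2 * Jc c + 2) P t → ∀ M : ℕ, (XXl T S N).card + 1 ≤ M →
    Wt N (R0l c N) (w0l c N) → Bes N (R0l c N) (w0l c N) e M →
    ∑ χ ∈ XXl T S N, ‖rho P χ‖ ^ 2 ≤ 4 →
    |∑ χ ∈ XXl T S N, ‖rho P χ * av (PPl S N) (fun l => l) χ‖ ^ 2 *
      (av (PPl S N) (fun l => l) χ).re| ≤ 5 * e := by
  have hS1 : 1 ≤ S := by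
    have : 1 ≤ 10 * k * (2 * T + 4) := Nat.mul_pos (by omega) (by omega)
    omega
  obtain ⟨N1, hP0⟩ := P0l k T S E hk hS hE
  obtain ⟨N2, hT1⟩ := T1l T E hT c hc hc1
  obtain ⟨N3, hT2⟩ := T2l S E hS1 c hc
  obtain ⟨N4, hpl⟩ := sz_pl 1 le_rfl 0 c hc
  have ev1 : ∀ᶠ N : ℕ in Filter.atTop, ((6 / e) ^ 2 : ℝ) ≤ Real.log N :=
    (Real.tendsto_log_atTop.comp tendsto_natCast_atTop_atTop).eventually_ge_atTop _
  obtain ⟨N5, hN5⟩ := Filter.eventually_atTop.1 ev1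
  refine ⟨N1 + N2 + N3 + N4 + N5 + 2, fun N _ hN P hPS t ht hH M hM hw hB hrho => ?_⟩
  obtain ⟨hQ1, hM1, hQ2, hM2⟩ := hP0 N (by omega) P hPS
  have hlog : 1 ≤ Real.log N := (hpl N (by omega)).2.2.2.2
  have hl5 := hN5 N (by omega)
  have e1 : (Real.log N ^ T)⁻¹ ≤ (e / 6) ^ 2 := by
    have h1 : (6 / e) ^ 2 ≤ Real.log N ^ T := by
      calc (6 / e) ^ 2 ≤ Real.log N := hl5
        _ = Real.log N ^ 1 := (pow_one _).symm
        _ ≤ Real.log N ^ T := pow_le_pow_right₀ hlog (by omega)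
    have h2 : (Real.log N ^ T)⁻¹ ≤ ((6 / e) ^ 2)⁻¹ := inv_anti₀ (by positivity) h1
    have h3 : ((6 / e) ^ 2)⁻¹ = (e / 6) ^ 2 := by rw [← inv_pow, inv_div]
    rwa [h3] at h2
  have hc4 : ∀ χ : DirichletCharacter ℂ N, ‖rho P χ * av (PPl S N) (fun l => l) χ‖ ^ 2 ≤ ‖rho P χ‖ ^ 2 := by
    intro χ
    refine pow_le_pow_left₀ (norm_nonneg _) ?_ 2
    rw [norm_mul]
    calc ‖rho P χ‖ * ‖av (PPl S N) (fun l => l) χ‖ ≤ ‖rho P χ‖ * 1 :=
          mul_le_mul_of_nonneg_left (av_le _ _ χ) (norm_nonneg _)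
      _ = _ := mul_one _
  have hd4 : ∀ χ : DirichletCharacter ℂ N, ‖rho P χ * av (PPl S N) (fun l => l) χ ^ 2‖ ^ 2 ≤ ‖rho P χ‖ ^ 2 := by
    intro χ
    refine pow_le_pow_left₀ (norm_nonneg _) ?_ 2
    rw [norm_mul, norm_pow]
    calc ‖rho P χ‖ * ‖av (PPl S N) (fun l => l) χ‖ ^ 2 ≤ ‖rho P χ‖ * 1 :=
          mul_le_mul_of_nonneg_left (pow_le_one₀ (norm_nonneg _) (av_le _ _ χ)) (norm_nonneg _)
      _ = _ := mul_one _
  have hmain := P1a hw he he1 hB (XXl T S N) hM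
    (fun χ => rho P χ * av (PPl S N) (fun l => l) χ)
    (fun χ => rho P χ * av (PPl S N) (fun l => l) χ ^ 2)
    ((Finset.sum_le_sum fun χ _ => hc4 χ).trans hrho)
    ((Finset.sum_le_sum fun χ _ => hd4 χ).trans hrho)
    (fun n n' => Pf N P (PPl S N) (fun l => l) ((n : ZMod N) * (n' : ZMod N)))
    (fun n n' => Pf N P (PPl S N ×ˢ PPl S N) (fun y : ℕ × ℕ => y.1 * y.2) ((n : ZMod N) * (n' : ZMod N)))
    (by
      intro n hn n' hn'
      by_contra hne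
      obtain ⟨hne1, hne2⟩ := mul_ne_zero_iff.mp hne
      have f1 := hT2 N (by omega) P (PPl S N) (fun l => l) (-1) t (Or.inr rfl) hH hM1 n n' hn hn' hne1
      have f2 := hT2 N (by omega) P (PPl S N ×ˢ PPl S N) (fun y : ℕ × ℕ => y.1 * y.2) 1 t (Or.inl rfl) hH hM2
        n n' hn hn' hne2
      rw [f1] at f2
      rcases ht with rfl | rfl <;> norm_num at f2)
    ((hT1 N (by omega) P (PPl S N) (fun l => l) (XXl T S N) hQ1).trans e1)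
    (by
      have h3 := (hT1 N (by omega) P (PPl S N ×ˢ PPl S N) (fun y : ℕ × ℕ => y.1 * y.2) (XXl T S N) hQ2).trans e1
      have h4 : ∀ χ : DirichletCharacter ℂ N, av (PPl S N ×ˢ PPl S N) (fun y : ℕ × ℕ => y.1 * y.2) χ =
          av (PPl S N) (fun l => l) χ ^ 2 := fun χ => av_prod (PPl S N) (fun l => l) χ
      simp only [h4] at h3
      exact h3)
  have hre : (∑ χ ∈ XXl T S N, rho P χ * av (PPl S N) (fun l => l) χ *
      (starRingEnd ℂ) (rho P χ * av (PPl S N) (fun l => l) χ ^ 2)).re =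
      ∑ χ ∈ XXl T S N, ‖rho P χ * av (PPl S N) (fun l => l) χ‖ ^ 2 *
      (av (PPl S N) (fun l => l) χ).re := by
    rw [Complex.re_sum]
    exact Finset.sum_congr rfl fun χ _ => P1l_term _ _
  rw [← hre]
  exact (Complex.abs_re_le_norm _).trans hmain

end Pool.Agent.Lib.PL
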