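import Pool.Agent.Lib.MP_7b7e48_nt.PL.T1l
import Pool.Agent.Lib.MP_7b7e48_nt.PL.T2l
import Pool.Agent.Lib.MP_7b7e48_nt.PQ.A3a
import Pool.Agent.Lib.MP_7b7e48_nt.PQ.A3b

/-!
# T3l: the additive input of the L2 argument

PROOF. Adapt `PQ/T3s.lean`. By `T2l`, `(lam n * lam n' - s t) * Pf (n n') = 0`, so `(lam n * lam n' - s t) * ∑_X = -(lam n * lam n' - s t) * (Pf - ∑_X)`,
norm `≤ 2 ‖Pf - ∑_X‖`; by `T1l` the double sum is `≤ 4 (log N)^(-T) ≤ e / 4` for large `N`. Then `A3a` and `A3b` with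
`c χ = rho Q χ * av J m χ` (`c 1 = 1`: `rho_one`, `av_one`; `‖c χ‖ ≤ 1`: `rho_le`, `av_le`; `Q` is nonempty by `qc`, its elements are coprime to `N` as primes `> N`), `t := s t`.
-/

set_option autoImplicit false

open Finset
open Pool.Agent.Lib.GT (Rough pr V)
open Pool.Agent.Lib.MP_45349e_nt.LS (lam)
open Pool.Agent.Lib.RG (RC LV rr SS PB sig)

namespace Pool.Agent.Lib.PL

open Pool.Agent.Lib.PQ

private theorem T3l_lam (n : ℕ) : lam n = 1 ∨ lam n = -1 := by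
  unfold lam
  exact neg_one_pow_eq_or ℝ _

theorem T3l (T S E : ℕ) (hT : 5 ≤ T) (hS : 1 ≤ S) (c : ℝ) (hc : 0 < c) (hc1 : c ≤ 1 / 4) (e : ℝ) (he : 0 < e)
    (he1 : e ≤ 1 / 100) :
    ∃ N0 : ℕ, ∀ (N : ℕ) [NeZero N], N0 ≤ N → ∀ {ι : Type} (Q : Finset ℕ) (J : Finset ι) (m : ι → ℕ)
    (X : Finset (DirichletCharacter ℂ N)) (s t : ℝ) (M : ℕ), QJl N E T Q J m X → MJl N S E J m s →
    (s = 1 ∨ s = -1) → (t = 1 ∨ t = -1) → HPl N (Bl E N) (pl N S / 2) (2 * Jc c + 2) Q t →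
    (1 : DirichletCharacter ℂ N) ∈ X →
    X.card + 1 ≤ M → Wt N (R0l c N) (w0l c N) → Bes N (R0l c N) (w0l c N) e M →
    (∀ χ ∈ X, ‖rho Q χ * av J m χ * lv (R0l c N) (w0l c N) χ -
      ((s * t : ℝ) : ℂ) * (starRingEnd ℂ) (lv (R0l c N) (w0l c N) χ)‖ ≤ 4 * Real.sqrt e) ∧
      1 - 4 * Real.sqrt e ≤ ∑ χ ∈ X, ‖rho Q χ * av J m χ * lv (R0l c N) (w0l c N) χ‖ ^ 2 := by
  obtain ⟨N1, hN1⟩ := T1l T E hT c hc hc1
  obtain ⟨N2, hN2⟩ := T2l S E hS c hc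
  obtain ⟨N3, hBl⟩ := sz_Bl E
  obtain ⟨N4, hpl⟩ := sz_pl 1 le_rfl 0 c hc
  have ev1 : ∀ᶠ N : ℕ in Filter.atTop, (16 / e : ℝ) ≤ Real.log N :=
    (Real.tendsto_log_atTop.comp tendsto_natCast_atTop_atTop).eventually_ge_atTop _
  obtain ⟨N5, hN5⟩ := Filter.eventually_atTop.1 ev1
  refine ⟨N1 + N2 + N3 + N4 + N5 + 2, ?_⟩
  intro N _ hN ι Q J m X s t M hQJ hMJ hs ht hH h1X hX hw hB
  have hlog : 1 ≤ Real.log N := (hpl N (by omega)).2.2.2.2
  have hl5 := hN5 N (by omega)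
  have hBN := (hBl N (by omega)).1
  have e1 : (Real.log N ^ T)⁻¹ ≤ e / 16 := by
    have h1 : 16 / e ≤ Real.log N ^ T := by
      calc 16 / e ≤ Real.log N := hl5
        _ = Real.log N ^ 1 := (pow_one _).symm
        _ ≤ Real.log N ^ T := pow_le_pow_right₀ hlog (by omega)
    have h2 : (Real.log N ^ T)⁻¹ ≤ (16 / e)⁻¹ := inv_anti₀ (by positivity) h1
    rwa [inv_div] at h2
  have hNR : (1 : ℝ) ≤ N := by
    have : 1 ≤ N := by omega
    exact_mod_cast this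
  have hst : s * t = 1 ∨ s * t = -1 := by
    rcases hs with rfl | rfl <;> rcases ht with rfl | rfl <;> norm_num
  have hcop : ∀ q ∈ Q, q.Coprime N := by
    intro q hq
    obtain ⟨q1, q2, _⟩ := hQJ.qp q hq
    rw [Nat.Prime.coprime_iff_not_dvd q1]
    intro hd
    have := Nat.le_of_dvd (by omega) hd
    omega
  have hQne : Q.Nonempty := by
    rw [← Finset.card_pos]
    have h2 := hQJ.qc
    have hB0 : (0 : ℝ) < Bl E N := by
      have : 0 < Bl E N := by omega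
      exact_mod_cast this
    have h5 : (0 : ℝ) < (Q.card : ℝ) := lt_of_lt_of_le (by positivity) h2
    exact_mod_cast h5
  obtain ⟨C, hC⟩ : ∃ C : DirichletCharacter ℂ N → ℂ, C = fun χ => rho Q χ * av J m χ := ⟨_, rfl⟩
  have hC1 : C 1 = 1 := by
    rw [hC]
    simp only
    rw [rho_one Q hcop hQne, av_one J m hQJ.jc hQJ.j0, mul_one]
  have hCle : ∀ χ, ‖C χ‖ ≤ 1 := by
    intro χ
    rw [hC]
    simp only
    rw [norm_mul]
    exact mul_le_one₀ (rho_le Q χ) (norm_nonneg _) (av_le J m χ)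
  have hyp : ∑ n ∈ R0l c N, ∑ n' ∈ R0l c N, w0l c N n * (w0l c N n' *
      ‖((lam n * lam n' - s * t : ℝ) : ℂ) *
        ∑ χ ∈ X, C χ * (χ (n : ZMod N) * χ (n' : ZMod N))‖ ^ 2) ≤ e / 4 := by
    have h2 := hN1 N (by omega) Q J m X hQJ
    have h3 : ∑ n ∈ R0l c N, ∑ n' ∈ R0l c N, w0l c N n * (w0l c N n' *
        ‖((lam n * lam n' - s * t : ℝ) : ℂ) *
          ∑ χ ∈ X, C χ * (χ (n : ZMod N) * χ (n' : ZMod N))‖ ^ 2) ≤
        4 * ∑ n ∈ R0l c N, ∑ n' ∈ R0l c N, w0l c N n * (w0l c N n' *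
      ‖((Pf N Q J m ((n : ZMod N) * (n' : ZMod N)) : ℝ) : ℂ) -
        ∑ χ ∈ X, rho Q χ * av J m χ * (χ (n : ZMod N) * χ (n' : ZMod N))‖ ^ 2) := by
      rw [Finset.mul_sum]
      refine Finset.sum_le_sum fun n hn => ?_
      rw [Finset.mul_sum]
      refine Finset.sum_le_sum fun n' hn' => ?_
      have w1 := hw.nonneg n hn
      have w2 := hw.nonneg n' hn'
      obtain ⟨P, hP⟩ : ∃ P : ℝ, P = Pf N Q J m ((n : ZMod N) * (n' : ZMod N)) := ⟨_, rfl⟩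
      obtain ⟨Z, hZ⟩ : ∃ Z : ℂ, Z = ∑ χ ∈ X, rho Q χ * av J m χ *
          (χ (n : ZMod N) * χ (n' : ZMod N)) := ⟨_, rfl⟩
      have hZ' : ∑ χ ∈ X, C χ * (χ (n : ZMod N) * χ (n' : ZMod N)) = Z := by
        rw [hZ, hC]
      rw [hZ', ← hZ, ← hP]
      obtain ⟨d, hd⟩ : ∃ d : ℝ, d = lam n * lam n' - s * t := ⟨_, rfl⟩
      rw [← hd]
      have hdP : (d : ℂ) * (P : ℂ) = 0 := by
        by_cases hP0 : P = 0
        · rw [hP0]
          simp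
        · have h4 := hN2 N (by omega) Q J m s t hs hH hMJ n n' hn hn' (by rw [← hP]; exact hP0)
          rw [hd, h4, sub_self]
          simp
      have hd2 : |d| ≤ 2 := by
        rw [hd]
        rcases T3l_lam n with h5 | h5 <;> rcases T3l_lam n' with h6 | h6 <;>
          rcases hst with h7 | h7 <;> rw [h5, h6, h7] <;> norm_num
      have h8 : ‖(d : ℂ) * Z‖ ^ 2 ≤ 4 * ‖(P : ℂ) - Z‖ ^ 2 := by
        have h9 : (d : ℂ) * Z = -((d : ℂ) * ((P : ℂ) - Z)) := by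
          rw [mul_sub, hdP]
          ring
        rw [h9, norm_neg, norm_mul, mul_pow, Complex.norm_real, Real.norm_eq_abs]
        have h10 : |d| ^ 2 ≤ 4 := by
          have h11 := abs_nonneg d
          nlinarith
        exact mul_le_mul_of_nonneg_right h10 (sq_nonneg _)
      calc w0l c N n * (w0l c N n' * ‖(d : ℂ) * Z‖ ^ 2)
          ≤ w0l c N n * (w0l c N n' * (4 * ‖(P : ℂ) - Z‖ ^ 2)) := by gcongr
        _ = 4 * (w0l c N n * (w0l c N n' * ‖(P : ℂ) - Z‖ ^ 2)) := by ring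
    refine h3.trans ?_
    calc 4 * ∑ n ∈ R0l c N, ∑ n' ∈ R0l c N, w0l c N n * (w0l c N n' *
      ‖((Pf N Q J m ((n : ZMod N) * (n' : ZMod N)) : ℝ) : ℂ) -
        ∑ χ ∈ X, rho Q χ * av J m χ * (χ (n : ZMod N) * χ (n' : ZMod N))‖ ^ 2)
        ≤ 4 * (Real.log N ^ T)⁻¹ := by gcongr
      _ ≤ 4 * (e / 16) := by gcongr
      _ = e / 4 := by ring
  have h12 := A3a hw he he1 hB X h1X hX C hC1 hCle (s * t) hst hyp
  have h13 := A3b hw he he1 hB X hX C hCle (s * t) hst h12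
  rw [hC] at h13
  exact h13

end Pool.Agent.Lib.PL
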