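import Pool.Agent.Lib.MP_7b7e48_nt.PL.C4l
import Pool.Agent.Lib.MP_7b7e48_nt.PL.C8l
import Pool.Agent.Lib.MP_7b7e48_nt.PL.P1l
import Pool.Agent.Lib.MP_7b7e48_nt.PL.T3l
import Pool.Agent.Lib.MP_7b7e48_nt.PQ.A4

/-!
# G1l: the real character

PROOF. As `PQ/G1s.lean`. `A4` with `X = XXl T S N`, `o = 1`, `A = av PPl`, `r = rho P`, `l = lv R0l w0l`, `iv χ = χ⁻¹` (`B7l`, `lv_inv`), `d = β ≤ 1/20`.
`i1`, `i3`: `T3l` for `(PPl, id)`, `s = -1`, with `e = h^6` (`√e = h³`; `Bes` for `K (1/2)^b ≤ h^6` implies `Bes` for `h^6`; `C4l`;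
`#XXl + 1 ≤ pw N (1/(10k)) ≤ pw N (1/(5k))`); `i2`: `T3l` for the pairs, `s = 1`, `av_prod`; `i4`: `P1l` with `e = h^6`, `5 h^6 ≤ h^3` (`h ≤ 1/100`);
`i5`: `C8l`, first part. `hAo`, `hro`: `av_one`, `rho_one`; `hlo`: `lv_inv` for `χ = 1`. `iv χ = χ` gives `χ ^ 2 = 1`. `K` is the constant of `C4l`.
-/

set_option autoImplicit false

open Finset
open Pool.Agent.Lib.GT (Rough pr V)
open Pool.Agent.Lib.MP_45349e_nt.LS (lam)
open Pool.Agent.Lib.RG (RC LV rr SS PB sig)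

namespace Pool.Agent.Lib.PL

open Pool.Agent.Lib.PQ

private theorem G1l_mono {N : ℕ} {R : Finset ℕ} {w : ℕ → ℝ} {e e' : ℝ} {m m' : ℕ} (h : Bes N R w e m)
    (he : e ≤ e') (hm : m' ≤ m) : Bes N R w e' m' := by
  intro X hX a
  refine (h X (hX.trans hm) a).trans ?_
  exact mul_le_mul_of_nonneg_right (by linarith) (sum_nonneg fun _ _ => by positivity)

theorem G1l : ∃ K : ℕ, 1 ≤ K ∧ ∀ (k b T S E : ℕ) (β : ℝ), Par k β → 5 ≤ T → 10 * k * (2 * T + 4) ≤ S → 2 * S + 1 ≤ E →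
    1 ≤ b → ∀ c h : ℝ, 0 < c → c ≤ 1 / 4 → c * (20 * k * K * b) ≤ 1 →
    0 < h → h ≤ 1 / 100 → (K : ℝ) * (1 / 2) ^ b ≤ h ^ 6 → 30 * h ^ 2 < β →
    ∃ N0 : ℕ, ∀ (N : ℕ) [NeZero N], N0 ≤ N → ∀ P : Finset ℕ, PSl k E N P → ∀ t : ℝ, (t = 1 ∨ t = -1) →
    HPl N (Bl E N) (pl N S / 2) (2 * Jc c + 2) P t →
    ∃ χ : DirichletCharacter ℂ N, χ ≠ 1 ∧ χ ^ 2 = 1 ∧ (lv (R0l c N) (w0l c N) χ).im = 0 ∧
      1 - 8 * h ^ 2 ≤ ‖lv (R0l c N) (w0l c N) χ‖ ^ 2 ∧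
      ‖1 + av (PPl S N) (fun l => l) χ‖ ≤ 10 * h ^ 2 ∧ ‖rho P χ - t‖ ≤ 20 * h ^ 2 := by
  classical
  obtain ⟨K4, hK4, H4⟩ := C4l
  refine ⟨K4, hK4, ?_⟩
  intro k b T S E β hPar hT hS hE hb c h hc hc4 hcK h0 hh1 hKh h30
  have hβ0 := hPar.pos
  have hβ1 := hPar.le
  have hβk := hPar.big
  have hkr : (40000 : ℝ) ≤ k := by
    have h1 : β * k ≤ 1 / 1000 * k := mul_le_mul_of_nonneg_right hβ1 (Nat.cast_nonneg _)
    linarith
  have hkn : 40000 ≤ k := by exact_mod_cast hkr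
  have hS1 : 1 ≤ S := by
    refine le_trans ?_ hS
    have h1 : 1 ≤ k * (2 * T + 4) := Nat.one_le_iff_ne_zero.2 (by
      apply Nat.mul_ne_zero <;> omega)
    nlinarith
  have hE2 : 2 ≤ E := by omega
  have hh3 : h ^ 3 ≤ (1 / 100) ^ 3 := pow_le_pow_left₀ h0.le hh1 3
  have hh6 : h ^ 6 ≤ (1 / 100) ^ 6 := pow_le_pow_left₀ h0.le hh1 6
  have hh6' : h ^ 6 ≤ 1 / 100 := hh6.trans (by norm_num)
  obtain ⟨n1, h1⟩ := H4 k b β hPar hb c hc hc4 hcK (hKh.trans (hh6'.trans (by norm_num)))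
  obtain ⟨n2, h2⟩ := P1l k T S E (by omega) hT hS hE c hc hc4 (h ^ 6) (by positivity) hh6'
  obtain ⟨n3, h3⟩ := T3l T S E hT hS1 c hc hc4 (h ^ 6) (by positivity) hh6'
  obtain ⟨n4, h4⟩ := B7l k T S (by omega) hS
  obtain ⟨n5, h5⟩ := P0l k T S E (by omega) hS hE
  obtain ⟨n6, h6⟩ := C8l hPar E hE2
  obtain ⟨n7, h7⟩ := sz_Bl E
  refine ⟨n1 + n2 + n3 + n4 + n5 + n6 + n7 + 2, ?_⟩
  intro N _ hN P hPS t ht hH
  obtain ⟨hWt, hBes⟩ := h1 N (by omega)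
  obtain ⟨hPP, hcard, hone, hinv⟩ := h4 N (by omega)
  obtain ⟨q1, m1, q2, m2⟩ := h5 N (by omega) P hPS
  obtain ⟨hBl, -, -⟩ := h7 N (by omega)
  have hpw : pw N (1 / (10 * k)) ≤ pw N (1 / (5 * k)) := by
    unfold pw
    refine Nat.floor_le_floor ?_
    refine Real.rpow_le_rpow_of_exponent_le (by exact_mod_cast (by omega : 1 ≤ N)) ?_
    exact div_le_div_of_nonneg_left (by norm_num) (by positivity) (by nlinarith)
  have hB := G1l_mono hBes hKh (le_refl (pw N (1 / (5 * k))))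
  have hsq : Real.sqrt (h ^ 6) = h ^ 3 := by
    rw [show h ^ 6 = (h ^ 3) ^ 2 by ring]
    exact Real.sqrt_sq (by positivity)
  have hc1 : (XXl T S N).card + 1 ≤ pw N (1 / (5 * k)) := by omega
  have t1 := h3 N (by omega) P (PPl S N) (fun l => l) (XXl T S N) (-1) t _ q1 m1 (Or.inr rfl) ht hH hone
    hc1 hWt hB
  have t2 := h3 N (by omega) P (PPl S N ×ˢ PPl S N) (fun y : ℕ × ℕ => y.1 * y.2) (XXl T S N) 1 t _ q2 m2
    (Or.inl rfl) ht hH hone hc1 hWt hB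
  rw [hsq] at t1 t2
  have hQc : ∀ q ∈ P, q.Coprime N := by
    intro q hq
    obtain ⟨p1, p2, p3⟩ := q1.qp q hq
    refine (Nat.Prime.coprime_iff_not_dvd p1).mpr ?_
    intro hd
    exact absurd (Nat.le_of_dvd (by omega) hd) (by omega)
  have hQ0 : P.Nonempty := by
    rw [← card_pos]
    have hqc := q1.qc
    by_contra hn
    have hz : P.card = 0 := by omega
    rw [hz, Nat.cast_zero] at hqc
    have hB1 : 0 < Bl E N := by omega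
    have hlog : 0 < Real.log N := Real.log_pos (by exact_mod_cast (by omega : 1 < N))
    have : (0 : ℝ) < (Bl E N : ℝ) / (8 * Real.log N) :=
      div_pos (by exact_mod_cast hB1) (by positivity)
    linarith
  have hC8 : ∑ χ ∈ XXl T S N, ‖rho P χ‖ ^ 2 ≤ 4 - 2 * β :=
    (h6 N (by omega) (XXl T S N) (by omega)).1 P hPS
  have h4' := h2 N (by omega) P hPS t ht hH _ hc1 hWt hB (hC8.trans (by linarith))
  have h56 : 5 * h ^ 6 ≤ h ^ 3 := by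
    have e1 : 5 * h ^ 6 = (5 * h ^ 3) * h ^ 3 := by ring
    rw [e1]
    refine mul_le_of_le_one_left (by positivity) ?_
    linarith [hh3.trans (show ((1 : ℝ) / 100) ^ 3 ≤ 1 / 5 by norm_num)]
  obtain ⟨χ, -, hne, hiv, him, hl, hA, hr⟩ := A4 (XXl T S N) 1 hone (fun χ => av (PPl S N) (fun l => l) χ)
    (fun χ => rho P χ) (fun χ => lv (R0l c N) (w0l c N) χ) (fun χ => χ⁻¹)
    (fun χ hχ => ⟨hinv χ hχ, lv_inv _ _ χ⟩) (fun χ => av_le _ _ χ) (fun χ => rho_le _ χ)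
    (fun χ => lv_le hWt χ) (av_one _ _ q1.jc hPP) (rho_one _ hQc hQ0)
    (by rw [← lv_inv, inv_one]) t ht h β h0 (by linarith) h30
    (fun χ hχ => by
      have := t1.1 χ hχ
      simpa using this)
    (fun χ hχ => by
      have := t2.1 χ hχ
      rw [av_prod (PPl S N) (fun l => l) χ] at this
      simpa using this)
    t1.2 (h4'.trans h56) hC8
  refine ⟨χ, hne, ?_, him, hl, hA, hr⟩
  have h7 : χ⁻¹ = χ := hiv
  calc χ ^ 2 = χ * χ := sq χ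
    _ = χ * χ⁻¹ := by rw [h7]
    _ = 1 := mul_inv_cancel χ

end Pool.Agent.Lib.PL
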