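import Pool.Agent.Lib.MP_7b7e48_nt.PL.Defs
import Pool.Agent.Lib.MP_7b7e48_nt.PQ.C6m
import Pool.Agent.Lib.MP_7b7e48_nt.PQ.C7m
import Pool.Agent.Lib.MP_7b7e48_nt.PQ.C9m
import Pool.Agent.Lib.MP_7b7e48_nt.PQ.S2m
import Pool.Agent.Lib.MP_7b7e48_nt.RG.A2

/-!
# X1: two real characters with very small `L(1, ·)` coincide

PROOF. `M = N₁ N₂`, `X² ≤ M ≤ X^6`; `ψ₁, ψ₂` = `changeLevel` of `χ₁, χ₂` to `M` (real, `≠ 1`). Suppose `ψ₁ ≠ ψ₂` (if they are equal, the values at `x` coprime to `M` agree). `Y = {1, ψ₁, ψ₂}`, three characters. `B = X^40`, `Z = X^18`, `Q` = primes of `(Z, B]`. `C6m` for `M`: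
constant `B/log Z + Z² (1 + 3 PB M) ≤ (1+e) B/log Z` (`Z² PB M ≤ X^(36 + 3.1)`; `RG.PB_le`), `#Q ≥ (1 - e) B/log B` (`SW.pnt 1`), `C7m`: `∑_Y ‖rho Q ψ‖² ≤ (1+3e) log B/log Z = (1+3e) 40/18 < 2.5`. On the other hand `rho Q 1 = 1` (the primes `> Z > M` are coprime to `M`) and for `i = 1, 2`
`‖rho Q ψ_i‖ ≥ 1 - 2 #{q ≤ B : ψ_i q = 1}/#Q`, and `2 #{q ≤ B : χ_i q = 1} ≤ SS(B) ≤ L_i B + C √B N_i^(1/4+e') ≤ 2 B/(log X)²` (`rr q = 1 + c q`, `rr ≥ 0`; `S2m` with `e' = 1/4`; `L_i < (log N_i)^(-2) ≤ (log X)^(-2)`), while `#Q ≥ B/(100 log X)`: the quotient tends to `0`.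
So `∑ ≥ 2.9`: contradiction.
-/

set_option autoImplicit false

open Finset
open Pool.Agent.Lib.GT (Rough pr V)
open Pool.Agent.Lib.MP_45349e_nt.LS (lam)
open Pool.Agent.Lib.RG (RC LV rr SS PB sig)

namespace Pool.Agent.Lib.PL

open Pool.Agent.Lib.PQ

private theorem X1_cl {n m : ℕ} (h : n ∣ m) (χ : DirichletCharacter ℂ n) (x : ℤ)
    (hx : IsCoprime x (m : ℤ)) : DirichletCharacter.changeLevel h χ (x : ZMod m) = χ (x : ZMod n) := by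
  have hu : IsUnit (x : ZMod m) := (ZMod.coe_int_isUnit_iff_isCoprime x m).mpr hx.symm
  obtain ⟨u, hu'⟩ := hu
  rw [← hu', DirichletCharacter.changeLevel_eq_cast_of_dvd, hu', ZMod.cast_intCast h]

private theorem X1_norm {N : ℕ} [NeZero N] (Q : Finset ℕ) (χ : DirichletCharacter ℂ N) :
    ‖∑ q ∈ Q, χ⁻¹ (-(q : ZMod N))‖ = ‖∑ q ∈ Q, χ (q : ZMod N)‖ := by
  have h1 : ∑ q ∈ Q, χ⁻¹ (-(q : ZMod N)) = χ⁻¹ (-1) * (starRingEnd ℂ) (∑ q ∈ Q, χ (q : ZMod N)) := by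
    rw [map_sum, Finset.mul_sum]
    refine Finset.sum_congr rfl fun q _ => ?_
    rw [← neg_one_mul, map_mul, ← MulChar.star_apply' χ (q : ZMod N)]
    rfl
  have h2 : ‖χ⁻¹ (-1 : ZMod N)‖ = 1 := by
    have h3 := (χ⁻¹).unit_norm_eq_one (-1 : (ZMod N)ˣ)
    simpa using h3
  rw [h1, norm_mul, h2, one_mul, RCLike.norm_conj]

private theorem X1_one {N : ℕ} {c : ℕ → ℝ} (hc : RC N c) : c 1 = 1 := by
  have h1 := hc.mul 1 1
  rw [mul_one] at h1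
  rcases hc.val 1 (Nat.coprime_one_left N) with h | h
  · exact h
  · rw [h] at h1
    norm_num at h1

/-- for a prime `q` -/
private theorem X1_rr {N : ℕ} {c : ℕ → ℝ} (hc : RC N c) {q : ℕ} (hq : q.Prime) : rr c q = 1 + c q := by
  unfold rr
  rw [hq.divisors, sum_pair hq.one_lt.ne, X1_one hc]

/-- the average of a real character with small `L(1)` over a set of primes -/
private theorem X1_low {M N : ℕ} [NeZero M] [NeZero N] (hN : 2 ≤ N) (hd : N ∣ M) (χ : DirichletCharacter ℂ N)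
    (h1 : χ ≠ 1) (h2 : χ ^ 2 = 1) (Q : Finset ℕ) (B : ℕ) (hQ : ∀ q ∈ Q, q.Prime ∧ q ≤ B ∧ q.Coprime M) :
    (Q.card : ℝ) - SS (fun n => (χ (n : ZMod N)).re) B ≤
      ‖∑ q ∈ Q, (DirichletCharacter.changeLevel hd χ) (q : ZMod M)‖ := by
  set c : ℕ → ℝ := fun n => (χ (n : ZMod N)).re with hc
  have hRC : RC N c := Pool.Agent.Lib.RG.RC_char N hN χ h2 h1
  have e1 : ∀ q ∈ Q, ((DirichletCharacter.changeLevel hd χ) (q : ZMod M)).re = c q := by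
    intro q hq
    have h3 := X1_cl hd χ (q : ℤ) ((Nat.isCoprime_iff_coprime).mpr (hQ q hq).2.2)
    rw [Int.cast_natCast, Int.cast_natCast] at h3
    rw [h3]
  have e2 : -(∑ q ∈ Q, c q) ≤ ‖∑ q ∈ Q, (DirichletCharacter.changeLevel hd χ) (q : ZMod M)‖ := by
    have h3 : (∑ q ∈ Q, (DirichletCharacter.changeLevel hd χ) (q : ZMod M)).re = ∑ q ∈ Q, c q := by
      rw [Complex.re_sum]
      exact sum_congr rfl e1
    rw [← h3]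
    exact (neg_le_abs _).trans (Complex.abs_re_le_norm _)
  refine le_trans ?_ e2
  have e3 : ∑ q ∈ Q, rr c q ≤ SS c B := by
    unfold SS
    refine sum_le_sum_of_subset_of_nonneg ?_ fun n _ _ => Pool.Agent.Lib.RG.rr_nonneg N c hRC n
    intro q hq
    obtain ⟨h3, h4, -⟩ := hQ q hq
    exact mem_Icc.mpr ⟨h3.one_lt.le, h4⟩
  have e4 : ∑ q ∈ Q, rr c q = (Q.card : ℝ) + ∑ q ∈ Q, c q := by
    have h3 : ∑ q ∈ Q, rr c q = ∑ q ∈ Q, (1 + c q) := sum_congr rfl fun q hq => X1_rr hRC (hQ q hq).1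
    rw [h3, sum_add_distrib, sum_const, nsmul_eq_mul, mul_one]
  linarith

theorem X1 : ∃ X0 : ℕ, ∀ X : ℕ, X0 ≤ X → ∀ (N₁ N₂ : ℕ) [NeZero N₁] [NeZero N₂], X ≤ N₁ → X ≤ N₂ → N₁ ≤ X ^ 3 → N₂ ≤ X ^ 3 →
    ∀ (χ₁ : DirichletCharacter ℂ N₁) (χ₂ : DirichletCharacter ℂ N₂) (L₁ L₂ : ℝ), χ₁ ≠ 1 → χ₁ ^ 2 = 1 → χ₂ ≠ 1 → χ₂ ^ 2 = 1 →
    LV N₁ (fun n => (χ₁ (n : ZMod N₁)).re) L₁ → LV N₂ (fun n => (χ₂ (n : ZMod N₂)).re) L₂ →
    L₁ < (Real.log N₁ ^ 2)⁻¹ → L₂ < (Real.log N₂ ^ 2)⁻¹ →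
    ∀ x : ℤ, IsCoprime x ((N₁ * N₂ : ℕ) : ℤ) → χ₁ (x : ZMod N₁) = χ₂ (x : ZMod N₂) := by
  obtain ⟨n1, h1⟩ := C9m 160 le_rfl (1 / 100) (by norm_num)
  obtain ⟨C1, hC1, h2⟩ := Pool.Agent.Lib.RG.PB_le (1 / 6) (by norm_num)
  obtain ⟨C2, hC2, h3⟩ := S2m (1 / 4) (by norm_num)
  obtain ⟨n4, h4⟩ := exists_nat_ge (1000 * C2)
  obtain ⟨n5, h5⟩ := exists_nat_ge (200 * (1 + 3 * C1))
  obtain ⟨n6, h6⟩ : ∃ n : ℕ, ∀ N : ℕ, n ≤ N → 1000 ≤ Real.log N :=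
    Filter.eventually_atTop.mp
      ((Real.tendsto_log_atTop.comp tendsto_natCast_atTop_atTop).eventually_ge_atTop 1000)
  refine ⟨n1 + n4 + n5 + n6 + 2, ?_⟩
  intro X hX N₁ N₂ _ _ hXN₁ hXN₂ hN₁ hN₂ χ₁ χ₂ L₁ L₂ g1 g1' g2 g2' hL₁ hL₂ hs₁ hs₂ x hx
  have hX2 : 2 ≤ X := by omega
  have hX0 : (0 : ℝ) < X := by exact_mod_cast (by omega : 0 < X)
  have hX1 : (1 : ℝ) ≤ X := by exact_mod_cast (by omega : 1 ≤ X)
  obtain ⟨l, hl⟩ : ∃ l : ℝ, l = Real.log X := ⟨_, rfl⟩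
  have hl1 : 1000 ≤ l := by rw [hl]; exact h6 X (by omega)
  have hl0 : 0 < l := by linarith
  have hlX : l ≤ X := by rw [hl]; exact Real.log_le_self hX0.le
  have hX4 : 1000 * C2 ≤ X := h4.trans (by exact_mod_cast (by omega : n4 ≤ X))
  have hX5 : 200 * (1 + 3 * C1) ≤ X := h5.trans (by exact_mod_cast (by omega : n5 ≤ X))
  -- the set of primes
  have hB : B1 160 (X ^ 40) = X ^ 42 := by
    unfold B1 pw
    have e1 : (((X ^ 40 : ℕ) : ℝ)) ^ ((1 : ℝ) + 8 / (160 : ℕ)) = ((X ^ 42 : ℕ) : ℝ) := by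
      push_cast
      rw [← Real.rpow_natCast (X : ℝ) 40, ← Real.rpow_mul hX0.le, ← Real.rpow_natCast (X : ℝ) 42]
      norm_num
    rw [e1, Nat.floor_natCast]
  obtain ⟨Q, hQd⟩ : ∃ Q : Finset ℕ, Q = QQ 160 (X ^ 40) := ⟨_, rfl⟩
  have hQ : ∀ q ∈ Q, q.Prime ∧ X ^ 40 < q ∧ q ≤ X ^ 42 := by
    intro q hq
    rw [hQd] at hq
    unfold QQ at hq
    rw [mem_filter, mem_Ioc, hB] at hq
    exact ⟨hq.2, hq.1.1, hq.1.2⟩
  have hQc : 99 / 100 * ((X : ℝ) ^ 42 / (42 * l)) ≤ Q.card := by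
    have e1 := h1 (X ^ 40) (le_trans (by omega : n1 ≤ X) (Nat.le_self_pow (by norm_num) X))
    rw [← hQd, hB] at e1
    push_cast at e1
    rw [Real.log_pow, ← hl] at e1
    push_cast at e1
    linarith
  have hX42 : (0 : ℝ) < (X : ℝ) ^ 42 := by positivity
  have hQ0 : (0 : ℝ) < Q.card := lt_of_lt_of_le (by positivity) hQc
  have hQne : Q.Nonempty := by
    rw [← card_pos]
    exact_mod_cast hQ0
  have hM6 : N₁ * N₂ ≤ X ^ 6 := by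
    calc N₁ * N₂ ≤ X ^ 3 * X ^ 3 := Nat.mul_le_mul hN₁ hN₂
      _ = X ^ 6 := by ring
  have hM2 : 2 ≤ N₁ * N₂ := by nlinarith
  have hcop : ∀ q ∈ Q, q.Coprime (N₁ * N₂) := by
    intro q hq
    obtain ⟨e1, e2, -⟩ := hQ q hq
    rw [Nat.Prime.coprime_iff_not_dvd e1]
    intro e3
    have e4 := Nat.le_of_dvd (by omega) e3
    have e5 : X ^ 6 ≤ X ^ 40 := Nat.pow_le_pow_right (by omega) (by norm_num)
    omega
  -- the average of one character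
  have one : ∀ (N : ℕ) [NeZero N] (χ : DirichletCharacter ℂ N) (L : ℝ) (hd : N ∣ N₁ * N₂), X ≤ N → N ≤ X ^ 3 →
      χ ≠ 1 → χ ^ 2 = 1 → LV N (fun n => (χ (n : ZMod N)).re) L → L < (Real.log N ^ 2)⁻¹ →
      9 / 10 ≤ ‖rho Q (DirichletCharacter.changeLevel hd χ)‖ := by
    intro N _ χ L hd e1 e2 e3 e4 e5 e6
    have e7 := X1_low (by omega) hd χ e3 e4 Q (X ^ 42) fun q hq => ⟨(hQ q hq).1, (hQ q hq).2.2, hcop q hq⟩
    have e8 := (h3 N (by omega) _ L (Pool.Agent.Lib.RG.RC_char N (by omega) χ e4 e3) e5).2 (X ^ 42)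
    have hN0 : (0 : ℝ) < N := by exact_mod_cast (by omega : 0 < N)
    have hlN : l ≤ Real.log N := by rw [hl]; exact Real.log_le_log hX0 (by exact_mod_cast e1)
    have e9 : L ≤ 1 / l ^ 2 := by
      refine e6.le.trans ?_
      rw [one_div]
      exact inv_anti₀ (by positivity) (pow_le_pow_left₀ hl0.le hlN 2)
    have e10 : Real.sqrt ((X ^ 42 : ℕ) : ℝ) = (X : ℝ) ^ 21 := by
      push_cast
      rw [show (X : ℝ) ^ 42 = ((X : ℝ) ^ 21) ^ 2 by ring, Real.sqrt_sq (by positivity)]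
    have e11 : (N : ℝ) ^ ((1 : ℝ) / 4 + 1 / 4) ≤ (X : ℝ) ^ 2 := by
      have f1 : (N : ℝ) ≤ (X : ℝ) ^ 3 := by exact_mod_cast e2
      have f2 : (N : ℝ) ≤ (X : ℝ) ^ 4 := f1.trans (pow_le_pow_right₀ hX1 (by norm_num))
      calc (N : ℝ) ^ ((1 : ℝ) / 4 + 1 / 4) ≤ ((X : ℝ) ^ 4) ^ ((1 : ℝ) / 4 + 1 / 4) :=
            Real.rpow_le_rpow hN0.le f2 (by norm_num)
        _ = (X : ℝ) ^ 2 := by
            rw [← Real.rpow_natCast (X : ℝ) 4, ← Real.rpow_mul hX0.le, ← Real.rpow_natCast (X : ℝ) 2]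
            norm_num
    have e12 : SS (fun n => (χ (n : ZMod N)).re) (X ^ 42) ≤ (X : ℝ) ^ 42 / l ^ 2 + C2 * (X : ℝ) ^ 23 := by
      have f1 := (abs_le.mp e8).2
      have f2 : C2 * Real.sqrt ((X ^ 42 : ℕ) : ℝ) * (N : ℝ) ^ ((1 : ℝ) / 4 + 1 / 4) ≤ C2 * (X : ℝ) ^ 23 := by
        rw [e10]
        calc C2 * (X : ℝ) ^ 21 * (N : ℝ) ^ ((1 : ℝ) / 4 + 1 / 4) ≤ C2 * (X : ℝ) ^ 21 * (X : ℝ) ^ 2 :=
              mul_le_mul_of_nonneg_left e11 (by positivity)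
          _ = C2 * (X : ℝ) ^ 23 := by ring
      have f3 : L * ((X ^ 42 : ℕ) : ℝ) ≤ (X : ℝ) ^ 42 / l ^ 2 := by
        push_cast
        calc L * (X : ℝ) ^ 42 ≤ 1 / l ^ 2 * (X : ℝ) ^ 42 := mul_le_mul_of_nonneg_right e9 hX42.le
          _ = (X : ℝ) ^ 42 / l ^ 2 := by ring
      linarith
    have e13 : (X : ℝ) ^ 42 / l ^ 2 ≤ (X : ℝ) ^ 42 / (1000 * l) := by
      refine div_le_div_of_nonneg_left hX42.le (by positivity) ?_
      nlinarith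
    have e14 : C2 * (X : ℝ) ^ 23 ≤ (X : ℝ) ^ 42 / (1000 * l) := by
      rw [le_div_iff₀ (by positivity)]
      have f1 : l ≤ (X : ℝ) ^ 18 := hlX.trans (by
        calc (X : ℝ) = (X : ℝ) ^ 1 := (pow_one _).symm
          _ ≤ (X : ℝ) ^ 18 := pow_le_pow_right₀ hX1 (by norm_num))
      calc C2 * (X : ℝ) ^ 23 * (1000 * l) = (1000 * C2) * ((X : ℝ) ^ 23 * l) := by ring
        _ ≤ X * ((X : ℝ) ^ 23 * (X : ℝ) ^ 18) := by
            refine mul_le_mul hX4 (mul_le_mul_of_nonneg_left f1 (by positivity)) (by positivity) hX0.le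
        _ = (X : ℝ) ^ 42 := by ring
    have e15 : SS (fun n => (χ (n : ZMod N)).re) (X ^ 42) ≤ 1 / 10 * Q.card := by
      have f1 : (X : ℝ) ^ 42 / (1000 * l) + (X : ℝ) ^ 42 / (1000 * l) ≤
          1 / 10 * (99 / 100 * ((X : ℝ) ^ 42 / (42 * l))) := by
        have f2 : (X : ℝ) ^ 42 / (1000 * l) = 1 / 1000 * ((X : ℝ) ^ 42 / l) := by
          field_simp
        have f3 : (X : ℝ) ^ 42 / (42 * l) = 1 / 42 * ((X : ℝ) ^ 42 / l) := by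
          field_simp
        rw [f2, f3]
        have f4 : 0 < (X : ℝ) ^ 42 / l := by positivity
        linarith
      linarith
    unfold rho
    rw [norm_div, X1_norm, Complex.norm_natCast, le_div_iff₀ hQ0]
    linarith
  by_contra hne
  have hd₁ : N₁ ∣ N₁ * N₂ := dvd_mul_right _ _
  have hd₂ : N₂ ∣ N₁ * N₂ := dvd_mul_left _ _
  obtain ⟨ψ₁, hψ₁⟩ : ∃ ψ : DirichletCharacter ℂ (N₁ * N₂), ψ = DirichletCharacter.changeLevel hd₁ χ₁ := ⟨_, rfl⟩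
  obtain ⟨ψ₂, hψ₂⟩ : ∃ ψ : DirichletCharacter ℂ (N₁ * N₂), ψ = DirichletCharacter.changeLevel hd₂ χ₂ := ⟨_, rfl⟩
  have k1 : 9 / 10 ≤ ‖rho Q ψ₁‖ := by rw [hψ₁]; exact one N₁ χ₁ L₁ hd₁ hXN₁ hN₁ g1 g1' hL₁ hs₁
  have k2 : 9 / 10 ≤ ‖rho Q ψ₂‖ := by rw [hψ₂]; exact one N₂ χ₂ L₂ hd₂ hXN₂ hN₂ g2 g2' hL₂ hs₂
  have k0 : ‖rho Q (1 : DirichletCharacter ℂ (N₁ * N₂))‖ = 1 := by
    unfold rho
    rw [norm_div, X1_norm, Complex.norm_natCast]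
    have e1 : ∑ q ∈ Q, (1 : DirichletCharacter ℂ (N₁ * N₂)) (q : ZMod (N₁ * N₂)) = (Q.card : ℂ) := by
      have e2 : ∀ q ∈ Q, (1 : DirichletCharacter ℂ (N₁ * N₂)) (q : ZMod (N₁ * N₂)) = 1 := by
        intro q hq
        exact MulChar.one_apply ((ZMod.isUnit_iff_coprime q _).mpr (hcop q hq))
      rw [sum_congr rfl e2, sum_const, nsmul_eq_mul, mul_one]
    rw [e1, Complex.norm_natCast, div_self hQ0.ne']
  have n1' : ψ₁ ≠ 1 := by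
    rw [hψ₁]
    intro h
    apply g1
    have : DirichletCharacter.changeLevel hd₁ χ₁ = DirichletCharacter.changeLevel hd₁ 1 := by
      rw [h, map_one]
    exact DirichletCharacter.changeLevel_injective hd₁ this
  have n2' : ψ₂ ≠ 1 := by
    rw [hψ₂]
    intro h
    apply g2
    have : DirichletCharacter.changeLevel hd₂ χ₂ = DirichletCharacter.changeLevel hd₂ 1 := by
      rw [h, map_one]
    exact DirichletCharacter.changeLevel_injective hd₂ this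
  have n3' : ψ₁ ≠ ψ₂ := by
    intro h
    apply hne
    have e1 := X1_cl hd₁ χ₁ x hx
    have e2 := X1_cl hd₂ χ₂ x hx
    rw [← hψ₁] at e1
    rw [← hψ₂] at e2
    rw [← e1, ← e2, h]
  classical
  obtain ⟨Y, hY⟩ : ∃ Y : Finset (DirichletCharacter ℂ (N₁ * N₂)), Y = {1, ψ₁, ψ₂} := ⟨_, rfl⟩
  have hYc : Y.card = 3 := by
    rw [hY]
    exact card_eq_three.mpr ⟨1, ψ₁, ψ₂, n1'.symm, n2'.symm, n3', rfl⟩
  have hYs : ∑ ψ ∈ Y, ‖rho Q ψ‖ ^ 2 = 1 + (‖rho Q ψ₁‖ ^ 2 + ‖rho Q ψ₂‖ ^ 2) := by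
    rw [hY, sum_insert, sum_pair n3', k0, one_pow]
    simp only [mem_insert, mem_singleton, not_or]
    exact ⟨n1'.symm, n2'.symm⟩
  have hup : ∑ ψ ∈ Y, ‖rho Q ψ‖ ^ 2 ≤ 26 / 10 := by
    refine C7m Q hQne Y (26 / 10) (by norm_num) fun a => ?_
    have e1 := C6m (N₁ * N₂) hM2 (X ^ 18) (X ^ 42) (le_trans hX2 (Nat.le_self_pow (by norm_num) X)) Y a
    have e2 : ∑ q ∈ Q, ‖∑ χ ∈ Y, a χ * χ (q : ZMod (N₁ * N₂))‖ ^ 2 ≤
        ∑ q ∈ (Finset.Ioc (X ^ 18) (X ^ 42)).filter Nat.Prime, ‖∑ χ ∈ Y, a χ * χ (q : ZMod (N₁ * N₂))‖ ^ 2 := by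
      refine sum_le_sum_of_subset_of_nonneg ?_ fun _ _ _ => by positivity
      intro q hq
      obtain ⟨f1, f2, f3⟩ := hQ q hq
      have f4 : X ^ 18 ≤ X ^ 40 := Nat.pow_le_pow_right (by omega) (by norm_num)
      exact mem_filter.mpr ⟨mem_Ioc.mpr ⟨by omega, f3⟩, f1⟩
    refine (e2.trans e1).trans ?_
    refine mul_le_mul_of_nonneg_right ?_ (sum_nonneg fun _ _ => by positivity)
    rw [hYc]
    push_cast
    rw [Real.log_pow, ← hl]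
    have hPB : PB (N₁ * N₂) ≤ C1 * (X : ℝ) ^ 4 := by
      refine (h2 (N₁ * N₂) hM2).1.trans ?_
      refine mul_le_mul_of_nonneg_left ?_ hC1.le
      have f1 : ((N₁ * N₂ : ℕ) : ℝ) ≤ (X : ℝ) ^ 6 := by exact_mod_cast hM6
      calc ((N₁ * N₂ : ℕ) : ℝ) ^ ((1 : ℝ) / 2 + 1 / 6) ≤ ((X : ℝ) ^ 6) ^ ((1 : ℝ) / 2 + 1 / 6) :=
            Real.rpow_le_rpow (Nat.cast_nonneg _) f1 (by norm_num)
        _ = (X : ℝ) ^ 4 := by
            rw [← Real.rpow_natCast (X : ℝ) 6, ← Real.rpow_mul hX0.le, ← Real.rpow_natCast (X : ℝ) 4]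
            norm_num
    have e3 : ((X : ℝ) ^ 18) ^ 2 * (1 + 3 * PB (N₁ * N₂)) ≤ 1 / 200 * ((X : ℝ) ^ 42 / l) := by
      have f1 : 1 + 3 * PB (N₁ * N₂) ≤ (1 + 3 * C1) * (X : ℝ) ^ 4 := by
        have : (1 : ℝ) ≤ (X : ℝ) ^ 4 := one_le_pow₀ hX1
        nlinarith
      have f2 : ((X : ℝ) ^ 18) ^ 2 * (1 + 3 * PB (N₁ * N₂)) ≤ ((X : ℝ) ^ 18) ^ 2 * ((1 + 3 * C1) * (X : ℝ) ^ 4) :=
        mul_le_mul_of_nonneg_left f1 (by positivity)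
      refine f2.trans ?_
      rw [mul_div_assoc', le_div_iff₀ hl0]
      have f3 : (1 + 3 * C1) * l ≤ 1 / 200 * (X : ℝ) ^ 2 := by
        have : (1 + 3 * C1) * l ≤ (X / 200) * X := mul_le_mul (by linarith) hlX hl0.le (by positivity)
        nlinarith
      calc ((X : ℝ) ^ 18) ^ 2 * ((1 + 3 * C1) * (X : ℝ) ^ 4) * l = (X : ℝ) ^ 40 * ((1 + 3 * C1) * l) := by ring
        _ ≤ (X : ℝ) ^ 40 * (1 / 200 * (X : ℝ) ^ 2) := mul_le_mul_of_nonneg_left f3 (by positivity)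
        _ = _ := by ring
    have e4 : (X : ℝ) ^ 42 / ((18 : ℕ) * l) = 1 / 18 * ((X : ℝ) ^ 42 / l) := by
      push_cast
      field_simp
    have e5 : (X : ℝ) ^ 42 / (42 * l) = 1 / 42 * ((X : ℝ) ^ 42 / l) := by
      field_simp
    rw [e4]
    rw [e5] at hQc
    have e6 : 0 < (X : ℝ) ^ 42 / l := by positivity
    linarith
  rw [hYs] at hup
  nlinarith

end Pool.Agent.Lib.PL
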