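import Pool.Agent.Lib.MP_7b7e48_nt.PL.Defs
import Pool.Agent.Lib.MP_7b7e48_nt.SPV.D2

/-!
# X2: the modulus of the primitive character is determined

PROOF. Suppose `q₁ ≠ q₂`, `g = gcd(q₁,q₂)`; then `g < q₁` or `g < q₂`, say `g < q₁` (the other case is symmetric). `Prim χ₁'` with `d = g`: there is an integer `x` with `g ∣ x - 1`, coprime to `q₁`, `χ₁' x ≠ 1`. There is an integer `y` with `y = x mod q₁`, `y = 1 mod q₂` (generalised Chinese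
remainder theorem: `x = 1 mod g`), hence `y` is coprime to `lcm(q₁,q₂)`; adding a multiple of `lcm(q₁,q₂)` we may take `y` coprime to `N₁N₂` (every unit class mod `lcm` contains an integer coprime to `N₁ N₂`: e.g. `ZMod.unitsMap_surjective`, `lcm(q₁,q₂) ∣ N₁ N₂`). Then
`χ₁(y) = χ₁'(y) = χ₁'(x) ≠ 1`, `χ₂(y) = χ₂'(y) = 1`, against `hc`.
-/

set_option autoImplicit false

open Finset
open Pool.Agent.Lib.GT (Rough pr V)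
open Pool.Agent.Lib.MP_45349e_nt.LS (lam)
open Pool.Agent.Lib.RG (RC LV rr SS PB sig)

namespace Pool.Agent.Lib.PL

open Pool.Agent.Lib.PQ

private theorem X2_lift {l M : ℕ} [NeZero M] (hl : l ∣ M) (y0 : ℤ) (h : IsCoprime y0 (l : ℤ)) :
    ∃ y : ℤ, IsCoprime y (M : ℤ) ∧ (l : ℤ) ∣ y - y0 := by
  obtain ⟨u, hu⟩ := ZMod.unitsMap_surjective hl (ZMod.unitOfIsCoprime y0 h)
  refine ⟨((u : ZMod M).val : ℤ), Nat.isCoprime_iff_coprime.2 (ZMod.val_coe_unit_coprime u), ?_⟩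
  have h3 : ((ZMod.unitsMap hl u : (ZMod l)ˣ) : ZMod l) = (y0 : ZMod l) := by
    rw [hu, ZMod.coe_unitOfIsCoprime]
  rw [ZMod.unitsMap_val] at h3
  rw [← ZMod.intCast_zmod_eq_zero_iff_dvd]
  push_cast
  rw [ZMod.natCast_val, h3, sub_self]

private theorem X2_dvd {N₁ N₂ q₁ q₂ : ℕ} [NeZero N₁] [NeZero N₂] (h₁ : q₁ ∣ N₁) (h₂ : q₂ ∣ N₂) (χ₁ : DirichletCharacter ℂ N₁)
    (χ₂ : DirichletCharacter ℂ N₂) (ψ₁ : DirichletCharacter ℂ q₁) (ψ₂ : DirichletCharacter ℂ q₂)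
    (p₁ : SPV.Prim ψ₁)
    (e₁ : ∀ x : ℤ, χ₁ (x : ZMod N₁) = if IsCoprime x (N₁ : ℤ) then ψ₁ (x : ZMod q₁) else 0)
    (e₂ : ∀ x : ℤ, χ₂ (x : ZMod N₂) = if IsCoprime x (N₂ : ℤ) then ψ₂ (x : ZMod q₂) else 0)
    (hc : ∀ x : ℤ, IsCoprime x ((N₁ * N₂ : ℕ) : ℤ) → χ₁ (x : ZMod N₁) = χ₂ (x : ZMod N₂)) : q₁ ∣ q₂ := by
  by_contra hcon
  have hN₁ : 0 < N₁ := Nat.pos_of_ne_zero (NeZero.ne N₁)
  have hN₂ : 0 < N₂ := Nat.pos_of_ne_zero (NeZero.ne N₂)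
  have hq₁ : 0 < q₁ := Nat.pos_of_dvd_of_pos h₁ hN₁
  have hg : Nat.gcd q₁ q₂ < q₁ := by
    refine lt_of_le_of_ne (Nat.le_of_dvd hq₁ (Nat.gcd_dvd_left _ _)) fun h => hcon ?_
    rw [← h]
    exact Nat.gcd_dvd_right _ _
  obtain ⟨x, hx1, hx2, hx3⟩ := p₁ (Nat.gcd q₁ q₂) (Nat.gcd_dvd_left _ _) hg
  obtain ⟨k, hk⟩ := hx1
  have hb : ((Nat.gcd q₁ q₂ : ℕ) : ℤ) = q₁ * Nat.gcdA q₁ q₂ + q₂ * Nat.gcdB q₁ q₂ := Nat.gcd_eq_gcd_ab q₁ q₂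
  set y0 : ℤ := 1 + q₂ * (Nat.gcdB q₁ q₂ * k) with hy0
  have hy1 : y0 = x + q₁ * (-(Nat.gcdA q₁ q₂ * k)) := by
    rw [hy0]
    rw [hb] at hk
    linear_combination -hk
  have c1 : IsCoprime y0 (q₁ : ℤ) := by
    rw [hy1]
    exact IsCoprime.add_mul_left_left hx2 _
  have c2 : IsCoprime y0 (q₂ : ℤ) := by
    rw [hy0]
    exact IsCoprime.add_mul_left_left isCoprime_one_left _
  have hl : Nat.lcm q₁ q₂ ∣ N₁ * N₂ := Nat.lcm_dvd (h₁.mul_right _) (h₂.mul_left _)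
  have c3 : IsCoprime y0 ((Nat.lcm q₁ q₂ : ℕ) : ℤ) := by
    have h3 : IsCoprime y0 ((q₁ : ℤ) * q₂) := c1.mul_right c2
    refine IsCoprime.of_isCoprime_of_dvd_right h3 ?_
    have h4 : Nat.lcm q₁ q₂ ∣ q₁ * q₂ := Nat.lcm_dvd (dvd_mul_right _ _) (dvd_mul_left _ _)
    exact_mod_cast h4
  have : NeZero (N₁ * N₂) := ⟨(Nat.mul_pos hN₁ hN₂).ne'⟩
  obtain ⟨y, hyc, hyl⟩ := X2_lift hl y0 c3
  have hy₁ : (q₁ : ℤ) ∣ y - y0 := by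
    refine dvd_trans ?_ hyl
    exact_mod_cast Nat.dvd_lcm_left q₁ q₂
  have hy₂ : (q₂ : ℤ) ∣ y - y0 := by
    refine dvd_trans ?_ hyl
    exact_mod_cast Nat.dvd_lcm_right q₁ q₂
  have f₁ : (y : ZMod q₁) = (x : ZMod q₁) := by
    rw [ZMod.intCast_eq_intCast_iff_dvd_sub]
    have h5 : x - y = -(y - y0) + q₁ * (Nat.gcdA q₁ q₂ * k) := by
      rw [hy1]
      ring
    rw [h5]
    exact dvd_add ((dvd_neg).2 hy₁) (dvd_mul_right _ _)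
  have f₂ : (y : ZMod q₂) = 1 := by
    have h6 : (y : ZMod q₂) = ((1 : ℤ) : ZMod q₂) := by
      rw [ZMod.intCast_eq_intCast_iff_dvd_sub]
      have h5 : 1 - y = -(y - y0) - q₂ * (Nat.gcdB q₁ q₂ * k) := by
        rw [hy0]
        ring
      rw [h5]
      exact dvd_sub ((dvd_neg).2 hy₂) (dvd_mul_right _ _)
    rw [h6, Int.cast_one]
  have hyN₁ : IsCoprime y (N₁ : ℤ) := by
    refine IsCoprime.of_isCoprime_of_dvd_right hyc ?_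
    exact_mod_cast dvd_mul_right N₁ N₂
  have hyN₂ : IsCoprime y (N₂ : ℤ) := by
    refine IsCoprime.of_isCoprime_of_dvd_right hyc ?_
    exact_mod_cast dvd_mul_left N₂ N₁
  have h7 := hc y hyc
  rw [e₁ y, e₂ y, if_pos hyN₁, if_pos hyN₂, f₁, f₂, map_one] at h7
  exact hx3 h7

theorem X2 {N₁ N₂ q₁ q₂ : ℕ} [NeZero N₁] [NeZero N₂] (h₁ : q₁ ∣ N₁) (h₂ : q₂ ∣ N₂) (χ₁ : DirichletCharacter ℂ N₁)
    (χ₂ : DirichletCharacter ℂ N₂) (ψ₁ : DirichletCharacter ℂ q₁) (ψ₂ : DirichletCharacter ℂ q₂)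
    (p₁ : SPV.Prim ψ₁) (p₂ : SPV.Prim ψ₂)
    (e₁ : ∀ x : ℤ, χ₁ (x : ZMod N₁) = if IsCoprime x (N₁ : ℤ) then ψ₁ (x : ZMod q₁) else 0)
    (e₂ : ∀ x : ℤ, χ₂ (x : ZMod N₂) = if IsCoprime x (N₂ : ℤ) then ψ₂ (x : ZMod q₂) else 0)
    (hc : ∀ x : ℤ, IsCoprime x ((N₁ * N₂ : ℕ) : ℤ) → χ₁ (x : ZMod N₁) = χ₂ (x : ZMod N₂)) : q₁ = q₂ := by
  refine Nat.dvd_antisymm (X2_dvd h₁ h₂ χ₁ χ₂ ψ₁ ψ₂ p₁ e₁ e₂ hc) (X2_dvd h₂ h₁ χ₂ χ₁ ψ₂ ψ₁ p₂ e₂ e₁ fun x hx => ?_)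
  rw [Nat.mul_comm] at hx
  exact (hc x hx).symm

end Pool.Agent.Lib.PL
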