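import Pool.Agent.Lib.MP_7b7e48_nt.PL.Defs
import Pool.Agent.Lib.MP_7b7e48_nt.SPV.D2
import Pool.Agent.Lib.MP_7b7e48_nt.RG.A2
import Pool.Agent.Lib.MP_7b7e48_nt.RG.E0

/-!
# X3: Siegel's theorem for the inducing modulus

PROOF. `χ'` is real (`χ'² = 1`) and `≠ 1`. `L(1, χ) = L(1, χ') ∏_{p ∣ N} (1 - χ'(p)/p)` (Mathlib: `DirichletCharacter.LFunction_changeLevel`, `χ = changeLevel χ'` from the formula for the values; `L = L(1,χ)` by `LV`: both are limits of the partial sums, see the proof of `RG.LV_char`),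
the product is `≥ ∏_{p ∣ N} (1 - 1/p) = φ(N)/N ≥ 1/(1 + 2 log N)`-like (e.g. `N/φ(N) ≤ ∏_{p∣N} (1 + 1/(p-1)) ≤ ∏_{2 ≤ m ≤ ω(N)+1} m/(m-1) = ω(N) + 1 ≤ 2 log N + 1`). Siegel (`SW.siegel δ`, used in `RG/A2.lean`, or `RG.LV_char δ` for `χ'` mod `q'`; if `q' < 2` impossible as `χ' ≠ 1`)
with `δ = 1/(2B+2)`: `L(1,χ') ≥ κ q'^(-δ)`. So `(log N)^(-3) > L ≥ κ q'^(-δ)/(3 log N)`, `q'^δ ≥ κ (log N)²/3 ≥ log N`, `q' ≥ (log N)^(2B+2) > (log N)^B`.
-/

set_option autoImplicit false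

open Finset
open Pool.Agent.Lib.GT (Rough pr V)
open Pool.Agent.Lib.MP_45349e_nt.LS (lam)
open Pool.Agent.Lib.RG (RC LV rr SS PB sig)

namespace Pool.Agent.Lib.PL

open Pool.Agent.Lib.PQ

private theorem X3_prod (S : Finset ℕ) : (∀ p ∈ S, 2 ≤ p) →
    1 / ((S.card : ℝ) + 1) ≤ ∏ p ∈ S, (1 - 1 / (p : ℝ)) := by
  induction S using Finset.induction_on_max with
  | empty => intro _; simp
  | insert a S ha ih =>
    intro h
    have haS : a ∉ S := fun h1 => lt_irrefl _ (ha a h1)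
    rw [Finset.prod_insert haS, Finset.card_insert_of_notMem haS]
    have h1 := ih fun p hp => h p (Finset.mem_insert_of_mem hp)
    have h2 : S.card + 2 ≤ a := by
      have h3 : S ⊆ Finset.Ico 2 a := by
        intro p hp
        rw [Finset.mem_Ico]
        exact ⟨h p (Finset.mem_insert_of_mem hp), ha p hp⟩
      have h4 := Finset.card_le_card h3
      rw [Nat.card_Ico] at h4
      have h5 := h a (Finset.mem_insert_self a S)
      omega
    have h3 : ((S.card : ℝ) + 2) ≤ a := by exact_mod_cast h2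
    have hc : (0 : ℝ) ≤ S.card := Nat.cast_nonneg _
    have h4 : ((S.card : ℝ) + 1) / (S.card + 2) ≤ 1 - 1 / (a : ℝ) := by
      have h5 : 1 / (a : ℝ) ≤ 1 / ((S.card : ℝ) + 2) := one_div_le_one_div_of_le (by linarith) h3
      have h6 : ((S.card : ℝ) + 1) / (S.card + 2) = 1 - 1 / ((S.card : ℝ) + 2) := by
        field_simp
        ring
      rw [h6]
      linarith
    have h7 : 1 / (((S.card + 1 : ℕ) : ℝ) + 1) =
        ((S.card : ℝ) + 1) / (S.card + 2) * (1 / ((S.card : ℝ) + 1)) := by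
      push_cast
      field_simp
      ring
    rw [h7]
    exact mul_le_mul h4 h1 (by positivity) (le_trans (by positivity) h4)

private theorem X3_norm (N : ℕ) (hN : 1 ≤ N) {q' : ℕ} (χ' : DirichletCharacter ℂ q') :
    1 / (2 * Real.log N + 1) ≤ ‖∏ p ∈ N.primeFactors, (1 - χ' (p : ZMod q') * (p : ℂ) ^ (-(1 : ℂ)))‖ := by
  have h1 := X3_prod N.primeFactors fun p hp => (Nat.prime_of_mem_primeFactors hp).two_le
  have h2 := Pool.Agent.Lib.RG.omega_le_log N hN
  have h3 : 1 / (2 * Real.log N + 1) ≤ 1 / ((N.primeFactors.card : ℝ) + 1) :=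
    one_div_le_one_div_of_le (by positivity) (by linarith)
  refine h3.trans (h1.trans ?_)
  rw [norm_prod]
  refine Finset.prod_le_prod (fun p hp => ?_) fun p hp => ?_
  · have h4 := (Nat.prime_of_mem_primeFactors hp).one_lt
    have h5 : (1 : ℝ) < p := by exact_mod_cast h4
    have h6 : 1 / (p : ℝ) ≤ 1 := by
      rw [div_le_one (by linarith)]
      exact h5.le
    linarith
  · have h4 : ‖χ' (p : ZMod q') * (p : ℂ) ^ (-(1 : ℂ))‖ ≤ 1 / (p : ℝ) := by
      rw [norm_mul, Complex.cpow_neg_one, norm_inv, Complex.norm_natCast, one_div]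
      have h5 := DirichletCharacter.norm_le_one χ' (p : ZMod q')
      have h6 : (0 : ℝ) ≤ ((p : ℝ))⁻¹ := by positivity
      calc ‖χ' (p : ZMod q')‖ * ((p : ℝ))⁻¹ ≤ 1 * ((p : ℝ))⁻¹ := mul_le_mul_of_nonneg_right h5 h6
        _ = _ := one_mul _
    have h5 := norm_sub_norm_le (1 : ℂ) (χ' (p : ZMod q') * (p : ℂ) ^ (-(1 : ℂ)))
    rw [norm_one] at h5
    linarith

private theorem X3_re (N : ℕ) [NeZero N] (χ : DirichletCharacter ℂ N) (h1 : χ ^ 2 = 1)
    (n : ℕ) : χ (n : ZMod N) = (((χ (n : ZMod N)).re : ℝ) : ℂ) := by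
  apply Complex.ext
  · simp
  · simpa using SW.rc_real h1 (n : ZMod N)

private theorem X3_L (N : ℕ) [NeZero N] (χ : DirichletCharacter ℂ N) (h1 : χ ≠ 1) (h2 : χ ^ 2 = 1) (L : ℝ)
    (hL : LV N (fun n => (χ (n : ZMod N)).re) L) : ‖DirichletCharacter.LFunction χ 1‖ ≤ L := by
  have hpos : 0 < (DirichletCharacter.LFunction χ 1).re := by
    have := SW.LFunction_pos h1 h2 1 le_rfl
    simpa using this
  have him : (DirichletCharacter.LFunction χ 1).im = 0 := by
    have := SW.LFunction_im h1 h2 1 one_pos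
    simpa using this
  have e : ‖DirichletCharacter.LFunction χ 1‖ = (DirichletCharacter.LFunction χ 1).re := by
    have e1 : DirichletCharacter.LFunction χ 1 =
        (((DirichletCharacter.LFunction χ 1).re : ℝ) : ℂ) := by
      apply Complex.ext
      · simp
      · simp [him]
    rw [e1, Complex.norm_real, Real.norm_of_nonneg hpos.le, Complex.ofReal_re]
  rw [e]
  have hlim : ∀ M : ℕ, 1 ≤ M →
      |∑ a ∈ Finset.Icc 1 M, (χ (a : ZMod N)).re / a - (DirichletCharacter.LFunction χ 1).re| ≤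
        N * 2 / M := by
    intro M hM
    have h := SW.LFunction_sub_sum_le h1 (1 : ℂ) (by norm_num) M hM
    have e1 : ∑ n ∈ Finset.Icc 1 M, SW.ch χ n * (n : ℂ) ^ (-(1 : ℂ)) =
        ((∑ a ∈ Finset.Icc 1 M, (χ (a : ZMod N)).re / a : ℝ) : ℂ) := by
      push_cast
      refine Finset.sum_congr rfl fun n hn => ?_
      rw [Complex.cpow_neg_one, SW.ch, X3_re N χ h2 n, Complex.ofReal_re, div_eq_mul_inv]
    rw [e1] at h
    have h4 := (Complex.abs_re_le_norm _).trans h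
    rw [Complex.sub_re, Complex.ofReal_re, abs_sub_comm] at h4
    refine h4.trans (le_of_eq ?_)
    have hM0 : (M : ℝ) ≠ 0 := by
      have : 0 < M := hM
      positivity
    rw [norm_one, Complex.one_re, Real.rpow_neg (Nat.cast_nonneg M), Real.rpow_one]
    ring
  refine le_of_forall_pos_le_add fun ε hε => ?_
  obtain ⟨M, hM⟩ := exists_nat_gt (((N : ℝ) * 2 + 2 * Pool.Agent.Lib.RG.PB N) / ε)
  have hPB : 0 ≤ Pool.Agent.Lib.RG.PB N := by
    have := hL.2 1 le_rfl
    have h3 := (abs_nonneg _).trans this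
    norm_num at h3
    linarith
  have hN0 : (0 : ℝ) ≤ N := Nat.cast_nonneg N
  have hm0 : (0 : ℝ) < ((max 1 M : ℕ) : ℝ) := by
    exact_mod_cast lt_of_lt_of_le one_pos (le_max_left 1 M)
  have hM' : ((N : ℝ) * 2 + 2 * Pool.Agent.Lib.RG.PB N) / ε < ((max 1 M : ℕ) : ℝ) :=
    hM.trans_le (by exact_mod_cast le_max_right 1 M)
  have h3 := hlim (max 1 M) (le_max_left _ _)
  have h4 := hL.2 (max 1 M) (le_max_left _ _)
  have h5 : ((N : ℝ) * 2 + 2 * Pool.Agent.Lib.RG.PB N) / ((max 1 M : ℕ) : ℝ) ≤ ε := by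
    rw [div_le_iff₀ hm0]
    rw [div_lt_iff₀ hε] at hM'
    linarith
  rw [add_div] at h5
  rw [abs_le] at h3 h4
  linarith [h3.1, h3.2, h4.1, h4.2]

theorem X3 (B : ℕ) : ∃ N0 : ℕ, ∀ (N : ℕ) [NeZero N], N0 ≤ N → ∀ χ : DirichletCharacter ℂ N, χ ≠ 1 → χ ^ 2 = 1 →
    ∀ (q' : ℕ) (χ' : DirichletCharacter ℂ q'), q' ∣ N →
    (∀ x : ℤ, χ (x : ZMod N) = if IsCoprime x (N : ℤ) then χ' (x : ZMod q') else 0) →
    ∀ L : ℝ, LV N (fun n => (χ (n : ZMod N)).re) L → L < (Real.log N ^ 3)⁻¹ → Real.log N ^ B < q' := by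
  have hB : (0 : ℝ) < 1 / (2 * B + 2) := by positivity
  obtain ⟨κ, hκ, hS⟩ := SW.siegel (1 / (2 * B + 2)) hB
  obtain ⟨N0, hN0⟩ := exists_nat_gt (Real.exp (max 3 (3 / κ)))
  refine ⟨N0, fun N _ hN χ h1 h2 q' χ' hq' h L hL hL3 => ?_⟩
  have hNr : Real.exp (max 3 (3 / κ)) < N := hN0.trans_le (by exact_mod_cast hN)
  have hN00 : (0 : ℝ) < N := (Real.exp_pos _).trans hNr
  have hlog : max 3 (3 / κ) < Real.log N := (Real.lt_log_iff_exp_lt hN00).2 hNr
  have hl3 : 3 < Real.log N := (le_max_left _ _).trans_lt hlog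
  have hlκ : 3 / κ < Real.log N := (le_max_right _ _).trans_lt hlog
  have hN1 : 1 ≤ N := NeZero.one_le
  have hq0 : q' ≠ 0 := fun h0 => (NeZero.ne N) (by rw [h0] at hq'; exact zero_dvd_iff.1 hq')
  have : NeZero q' := ⟨hq0⟩
  have hch : χ = DirichletCharacter.changeLevel hq' χ' := by
    apply MulChar.ext
    intro u
    have hu : IsCoprime (((u : ZMod N).val : ℤ)) (N : ℤ) :=
      Nat.isCoprime_iff_coprime.2 (ZMod.val_coe_unit_coprime u)
    have h3 := h ((u : ZMod N).val : ℤ)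
    have h4 := DirichletCharacter.changeLevel_eq_cast_of_dvd' χ' hq' hu
    rw [if_pos hu] at h3
    have h5 : ((((u : ZMod N).val : ℕ) : ℤ) : ZMod N) = (u : ZMod N) := by
      rw [Int.cast_natCast, ZMod.natCast_val, ZMod.cast_id]
    rw [h5] at h3 h4
    rw [h3, h4]
  have h1' : χ' ≠ 1 := by
    rintro rfl
    apply h1
    rw [hch, DirichletCharacter.changeLevel_one]
  have h2' : χ' ^ 2 = 1 := by
    apply DirichletCharacter.changeLevel_injective hq'
    rw [map_pow, ← hch, h2, map_one]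
  have h3 : DirichletCharacter.LFunction χ 1 = DirichletCharacter.LFunction χ' 1 *
      ∏ p ∈ N.primeFactors, (1 - χ' (p : ZMod q') * (p : ℂ) ^ (-(1 : ℂ))) := by
    have h4 := DirichletCharacter.LFunction_changeLevel hq' χ' (s := 1) (Or.inl h1')
    rw [← hch] at h4
    exact h4
  have h4 := X3_L N χ h1 h2 L hL
  rw [h3, norm_mul] at h4
  have h5 := X3_norm N hN1 χ'
  have h6 := hS q' χ' h1' h2'
  have hq1 : (1 : ℝ) ≤ q' := by exact_mod_cast Nat.one_le_iff_ne_zero.2 hq0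
  have hqp : (0 : ℝ) < (q' : ℝ) ^ (-(1 / (2 * (B : ℝ) + 2))) := Real.rpow_pos_of_pos (by linarith) _
  have h7 : κ * (q' : ℝ) ^ (-(1 / (2 * (B : ℝ) + 2))) * (1 / (2 * Real.log N + 1)) < (Real.log N ^ 3)⁻¹ := by
    refine lt_of_le_of_lt ?_ hL3
    refine le_trans ?_ h4
    exact mul_le_mul h6 h5 (by positivity) (norm_nonneg _)
  have hK0 : (0 : ℝ) < Real.log N := by linarith
  have h8 : Real.log N < (q' : ℝ) ^ (1 / (2 * (B : ℝ) + 2)) := by
    rw [Real.rpow_neg (by linarith)] at h7 hqp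
    set Q : ℝ := (q' : ℝ) ^ (1 / (2 * (B : ℝ) + 2)) with hQ
    have hQ0 : 0 < Q := Real.rpow_pos_of_pos (by linarith) _
    have h9 : κ * Q⁻¹ * (1 / (2 * Real.log N + 1)) = κ / (Q * (2 * Real.log N + 1)) := by
      field_simp
    rw [h9, inv_eq_one_div, div_lt_div_iff₀ (by positivity) (by positivity), one_mul] at h7
    -- κ log^3 < Q (2 log + 1)
    have h10 : 3 < κ * Real.log N := by
      rw [div_lt_iff₀ hκ] at hlκ
      linarith
    have h11 : 3 * Real.log N ^ 2 < Q * (3 * Real.log N) := by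
      calc 3 * Real.log N ^ 2 < κ * Real.log N * Real.log N ^ 2 :=
            mul_lt_mul_of_pos_right h10 (by positivity)
        _ = κ * Real.log N ^ 3 := by ring
        _ < Q * (2 * Real.log N + 1) := h7
        _ ≤ Q * (3 * Real.log N) := mul_le_mul_of_nonneg_left (by linarith) hQ0.le
    have h12 : 3 * Real.log N * Real.log N < 3 * Real.log N * Q := by nlinarith
    exact lt_of_mul_lt_mul_left h12 (by positivity)
  have h9 : (Real.log N) ^ (2 * B + 2) < (q' : ℝ) := by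
    have h10 : (q' : ℝ) = ((q' : ℝ) ^ (1 / (2 * (B : ℝ) + 2))) ^ (2 * B + 2) := by
      rw [← Real.rpow_natCast, ← Real.rpow_mul (by linarith)]
      have h11 : 1 / (2 * (B : ℝ) + 2) * ((2 * B + 2 : ℕ) : ℝ) = 1 := by
        push_cast
        field_simp
      rw [h11, Real.rpow_one]
    rw [h10]
    exact pow_lt_pow_left₀ h8 hK0.le (by omega)
  refine lt_of_le_of_lt ?_ h9
  exact pow_le_pow_right₀ (by linarith) (by omega)

end Pool.Agent.Lib.PL
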