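import Pool.Agent.Lib.MP_7b7e48_nt.PL.F3l
import Pool.Agent.Lib.MP_7b7e48_nt.PL.X1
import Pool.Agent.Lib.MP_7b7e48_nt.PL.X2
import Pool.Agent.Lib.MP_7b7e48_nt.PL.X3
import Pool.Agent.Lib.MP_7b7e48_nt.SPV.D3

/-!
# G2l: the core theorem with one exceptional modulus `m X`

PROOF. `SPV.spv` gives `β` with `SPVB β`. DEFINITION of `m X` (by cases, `Classical.choice`): call `q'` a candidate for `X` if there are `N` with `X ≤ N ≤ X³`, `N ≥ 3` (so `NeZero`), a character `χ` mod `N`, `χ ≠ 1`, `χ² = 1`, a real `L` with `LV N (Re χ) L` and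
`L < (log N)^(-3)`, and `χ'` mod `q'`, `q' ≥ 2`, `q' ∣ N`, `Prim χ'`, with the formula of `SPV.exists_prim`. If there is a candidate, `m X` is one of them, otherwise `m X = X^4 + 1`.
GROWTH. If `m X` is a candidate, `X3` gives `m X > (log N)^B ≥ (log X)^B` for `X ≥ N0`. Otherwise `X^4 + 1 > (log X)^B` for large `X`.
MAIN. `F3l` with `A`, `B = 3`: `k, S, E, J`, `N0`. Let `X` be large (`≥ N0`, `≥ 3`, the bound of `X1`, ...), `N ∈ [X, X³]`, `¬ m X ∣ N`, and suppose `HPl` for some `P`, `t`. `F3l`: `χ`, `L < (log N)^(-3)`; `exists_prim`: `q'`, which is a candidate. So `m X` is a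
candidate, from `N₁`, `χ₁`, `L₁`, `χ₁'` mod `q₁ = m X`. `X1` (`(log N)^(-3) ≤ (log N)^(-2)`) and `X2`: `q' = q₁ = m X`, but `q' ∣ N`: contradiction.
-/

set_option autoImplicit false

open Finset
open Pool.Agent.Lib.GT (Rough pr V)
open Pool.Agent.Lib.MP_45349e_nt.LS (lam)
open Pool.Agent.Lib.RG (RC LV rr SS PB sig)

namespace Pool.Agent.Lib.PL

open Pool.Agent.Lib.PQ

/-- `q'` is the modulus of a primitive real character with a very small value at `1`, seen from `[X, X^3]` -/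
private def G2l_Cand (X q' : ℕ) : Prop := 2 ≤ q' ∧ ∃ (N : ℕ) (_hz : NeZero N), 3 ≤ N ∧ X ≤ N ∧ N ≤ X ^ 3 ∧ q' ∣ N ∧
  ∃ χ : DirichletCharacter ℂ N, χ ≠ 1 ∧ χ ^ 2 = 1 ∧
  (∃ L : ℝ, LV N (fun n => (χ (n : ZMod N)).re) L ∧ L < (Real.log N ^ 3)⁻¹) ∧
  ∃ χ' : DirichletCharacter ℂ q', SPV.Prim χ' ∧
    ∀ x : ℤ, χ (x : ZMod N) = if IsCoprime x (N : ℤ) then χ' (x : ZMod q') else 0

open Classical in
private noncomputable def G2l_m (X : ℕ) : ℕ := if h : ∃ q', G2l_Cand X q' then Classical.choose h else X ^ 4 + 1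

private theorem G2l_log {N : ℕ} (hN : 3 ≤ N) : 1 ≤ Real.log N := by
  have h1 : Real.exp 1 < N := by
    have h2 := Real.exp_one_lt_d9
    have h3 : (3 : ℝ) ≤ N := by exact_mod_cast hN
    linarith
  have h4 : (0 : ℝ) < N := by
    have h3 : (3 : ℝ) ≤ N := by exact_mod_cast hN
    linarith
  exact ((Real.lt_log_iff_exp_lt h4).mpr h1).le

private theorem G2l_inv {N : ℕ} (hN : 3 ≤ N) {L : ℝ} (hL : L < (Real.log N ^ 3)⁻¹) : L < (Real.log N ^ 2)⁻¹ := by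
  have h1 := G2l_log hN
  refine lt_of_lt_of_le hL ?_
  refine inv_anti₀ (by positivity) ?_
  exact pow_le_pow_right₀ h1 (by norm_num)

private theorem G2l_grow (B : ℕ) : ∃ X0 : ℕ, ∀ X : ℕ, X0 ≤ X → Real.log X ^ B < G2l_m X := by
  classical
  obtain ⟨N1, hN1⟩ := X3 B
  obtain ⟨N2, hN2⟩ := sz_log B 1 1 (by norm_num)
  refine ⟨N1 + N2 + 3, fun X hX => ?_⟩
  have hX1 : (1 : ℝ) ≤ X := by exact_mod_cast (by omega : 1 ≤ X)
  have hlX : 0 ≤ Real.log X := Real.log_nonneg hX1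
  unfold G2l_m
  split_ifs with h
  · obtain ⟨-, N, hz, hN3, hXN, -, hdvd, χ, hχ1, hχ2, ⟨L, hL, hL3⟩, χ', -, hval⟩ := Classical.choose_spec h
    have h1 := hN1 N (by omega) χ hχ1 hχ2 _ χ' hdvd hval L hL hL3
    have h2 : Real.log X ≤ Real.log N := Real.log_le_log (by linarith) (by exact_mod_cast hXN)
    exact lt_of_le_of_lt (pow_le_pow_left₀ hlX h2 B) h1
  · have h1 := hN2 X (by omega)
    rw [one_mul, Real.rpow_one] at h1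
    refine lt_of_le_of_lt h1 ?_
    push_cast
    have h2 : (X : ℝ) ^ 1 ≤ (X : ℝ) ^ 4 := pow_le_pow_right₀ hX1 (by norm_num)
    rw [pow_one] at h2
    linarith

theorem G2l : ∃ m : ℕ → ℕ, (∀ B : ℕ, ∃ X0 : ℕ, ∀ X : ℕ, X0 ≤ X → Real.log X ^ B < m X) ∧
    ∀ A : ℕ, ∃ k S E J : ℕ, 160 ≤ k ∧ A ≤ S ∧ 2 * S + 1 ≤ E ∧ ∃ X0 : ℕ, ∀ X : ℕ, X0 ≤ X →
    ∀ N : ℕ, X ≤ N → N ≤ X ^ 3 → ¬ m X ∣ N →
    ∀ P : Finset ℕ, PSl k E N P → ∀ t : ℝ, (t = 1 ∨ t = -1) → ¬ HPl N (Bl E N) (pl N S / 2) J P t := by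
  classical
  obtain ⟨β, hβ, hβ1, hs⟩ := SPV.spv
  obtain ⟨X1b, hX1⟩ := X1
  refine ⟨G2l_m, G2l_grow, fun A => ?_⟩
  obtain ⟨k, S, E, J, hk, hS, hE, N0, hN0⟩ := F3l β hβ hβ1 hs A 3
  refine ⟨k, S, E, J, hk, hS, hE, N0 + X1b + 3, fun X hX N hXN hNX hm P hP t ht hHP => ?_⟩
  haveI : NeZero N := ⟨by omega⟩
  obtain ⟨χ, hχ1, hχ2, L, hL, hL3⟩ := hN0 N (by omega) P hP t ht hHP
  obtain ⟨q', hq2, hdvd, χ', hprim, hval⟩ := SPV.exists_prim χ hχ1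
  have hc : ∃ q', G2l_Cand X q' :=
    ⟨q', hq2, N, inferInstance, by omega, hXN, hNX, hdvd, χ, hχ1, hχ2, ⟨L, hL, hL3⟩, χ', hprim, hval⟩
  have hmX : G2l_m X = Classical.choose hc := by
    unfold G2l_m
    rw [dif_pos hc]
  obtain ⟨-, N₁, hz, hN₁3, hXN₁, hN₁X, hdvd₁, χ₁, hχ₁1, hχ₁2, ⟨L₁, hL₁, hL₁3⟩, χ₁', hprim₁, hval₁⟩ :=
    Classical.choose_spec hc
  have h1 := hX1 X (by omega) N₁ N hXN₁ hXN hN₁X hNX χ₁ χ L₁ L hχ₁1 hχ₁2 hχ1 hχ2 hL₁ hL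
    (G2l_inv hN₁3 hL₁3) (G2l_inv (by omega) hL3)
  have h2 := X2 hdvd₁ hdvd χ₁ χ χ₁' χ' hprim₁ hprim hval₁ hval h1
  apply hm
  rw [hmX, h2]
  exact hdvd

end Pool.Agent.Lib.PL
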