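import Pool.Agent.Lib.MP_7b7e48_nt.PQ.A2

/-!
# P1a: the product of two expansions (abstract)

PROOF. Put `F₁ n n' = ∑_X c χ * (χ n * χ n')`, `F₂ = ∑_X d χ * (χ n * χ n')`, `E` = double average with the weights `w n w n'`. Expand:
`E F₁ conj F₂ = ∑_{χ,ψ ∈ X} c χ conj (d ψ) sv(χ ψ⁻¹)²` (`∑_n w n χ n conj (ψ n) = sv R w (χ * ψ⁻¹)`). Diagonal: `sv 1 = 1` (`sv_one`): `∑_X c χ conj (d χ)`. Off-diagonal: for fixed `χ`,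
`∑_{ψ ≠ χ} ‖sv(χψ⁻¹)‖² ≤ e` (`A2` for the image of `X.erase χ` under `ψ ↦ χ ψ⁻¹`), the same for fixed `ψ`; Schur's test (`2xy ≤ x² + y²` after scaling, or Cauchy-Schwarz over the pairs):
`∑_{χ≠ψ} ‖c χ‖ ‖d ψ‖ ‖sv‖² ≤ (∑_{χ≠ψ} ‖c χ‖² ‖sv‖²)^{1/2} (∑ ‖d ψ‖² ‖sv‖²)^{1/2} ≤ e (∑‖c‖²)^{1/2} (∑‖d‖²)^{1/2} ≤ 4 e`.
Next, `P₁ P₂ = 0` pointwise: `E F₁ conj F₂ = E (F₁ conj F₂ - P₁ P₂) = E ((F₁ - P₁) conj F₂) + E (P₁ (conj F₂ - P₂))`, norm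
`≤ δ (E‖F₂‖²)^{1/2} + (E P₁²)^{1/2} δ` with `δ² = ` the bound of `h1`, `h2`; `E ‖F₂‖² ≤ (1+e) ∑‖d‖² ≤ 5` (Bessel in `n` for every fixed `n'`, `‖χ n'‖ ≤ 1`),
`(E P₁²)^{1/2} ≤ (E‖F₁‖²)^{1/2} + δ ≤ 3`. So the norm is `≤ 6 δ ≤ e` if `δ ≤ e/6`.
-/

set_option autoImplicit false

open Finset
open Pool.Agent.Lib.GT (Rough pr V)
open Pool.Agent.Lib.MP_45349e_nt.LS (lam)
open Pool.Agent.Lib.RG (RC LV rr SS PB sig)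

namespace Pool.Agent.Lib.PL

open Pool.Agent.Lib.PQ

private theorem P1a_nw {N : ℕ} {R : Finset ℕ} {w : ℕ → ℝ} (hw : Wt N R w) {n : ℕ} (hn : n ∈ R) :
    ‖(w n : ℂ)‖ = w n := by
  rw [Complex.norm_real, Real.norm_eq_abs, abs_of_nonneg (hw.nonneg n hn)]

/-- mean square of an expansion -/
private theorem P1a_ms {N : ℕ} [NeZero N] {R : Finset ℕ} {w : ℕ → ℝ} {e : ℝ} {m : ℕ} (hw : Wt N R w)
    (he : 0 < e) (hB : Bes N R w e m) (X : Finset (DirichletCharacter ℂ N)) (hX : X.card + 1 ≤ m)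
    (c : DirichletCharacter ℂ N → ℂ) (hc : ∑ χ ∈ X, ‖c χ‖ ^ 2 ≤ 4) :
    ∑ n ∈ R, ∑ n' ∈ R, w n * (w n' * ‖∑ χ ∈ X, c χ * (χ (n : ZMod N) * χ (n' : ZMod N))‖ ^ 2) ≤
      (1 + e) * 4 := by
  have h1 : ∀ n ∈ R, ∑ n' ∈ R, w n * (w n' * ‖∑ χ ∈ X, c χ * (χ (n : ZMod N) * χ (n' : ZMod N))‖ ^ 2) ≤
      w n * ((1 + e) * 4) := by
    intro n hn
    rw [← mul_sum]
    refine mul_le_mul_of_nonneg_left ?_ (hw.nonneg n hn)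
    have h2 := hB X (by omega) (fun χ => c χ * χ (n : ZMod N))
    have h3 : ∑ n' ∈ R, w n' * ‖∑ χ ∈ X, c χ * (χ (n : ZMod N) * χ (n' : ZMod N))‖ ^ 2 =
        ∑ n' ∈ R, w n' * ‖∑ χ ∈ X, (c χ * χ (n : ZMod N)) * χ (n' : ZMod N)‖ ^ 2 := by
      refine sum_congr rfl fun n' _ => ?_
      congr 3
      refine sum_congr rfl fun χ _ => ?_
      ring
    rw [h3]
    refine h2.trans ?_
    refine mul_le_mul_of_nonneg_left (le_trans (sum_le_sum fun χ _ => ?_) hc) (by linarith)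
    rw [norm_mul]
    refine pow_le_pow_left₀ (by positivity) ?_ 2
    exact mul_le_of_le_one_right (norm_nonneg _) (DirichletCharacter.norm_le_one χ _)
  refine (sum_le_sum h1).trans ?_
  rw [← sum_mul, hw.one, one_mul]

/-- the expansion of the scalar product -/
private theorem P1a_exp {N : ℕ} [NeZero N] (R : Finset ℕ) (w : ℕ → ℝ) (X : Finset (DirichletCharacter ℂ N))
    (c d : DirichletCharacter ℂ N → ℂ) :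
    ∑ n ∈ R, ∑ n' ∈ R, (w n : ℂ) * ((w n' : ℂ) *
      ((∑ χ ∈ X, c χ * (χ (n : ZMod N) * χ (n' : ZMod N))) *
        (starRingEnd ℂ) (∑ χ ∈ X, d χ * (χ (n : ZMod N) * χ (n' : ZMod N))))) =
      ∑ χ ∈ X, ∑ ψ ∈ X, c χ * (starRingEnd ℂ) (d ψ) * (sv R w (χ * ψ⁻¹)) ^ 2 := by
  have hconj : ∀ (ψ : DirichletCharacter ℂ N) (x : ZMod N), (starRingEnd ℂ) (ψ x) = ψ⁻¹ x := by
    intro ψ x
    rw [← MulChar.star_eq_inv, MulChar.star_apply]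
    rfl
  have h1 : ∀ n n' : ℕ, (∑ χ ∈ X, c χ * (χ (n : ZMod N) * χ (n' : ZMod N))) *
        (starRingEnd ℂ) (∑ χ ∈ X, d χ * (χ (n : ZMod N) * χ (n' : ZMod N))) =
      ∑ q ∈ X ×ˢ X, (c q.1 * (q.1 (n : ZMod N) * q.1 (n' : ZMod N))) *
        (starRingEnd ℂ) (d q.2 * (q.2 (n : ZMod N) * q.2 (n' : ZMod N))) := by
    intro n n'
    rw [map_sum, sum_mul_sum, ← sum_product']
  calc _ = ∑ p ∈ R ×ˢ R, (w p.1 : ℂ) * ((w p.2 : ℂ) *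
        ∑ q ∈ X ×ˢ X, (c q.1 * (q.1 (p.1 : ZMod N) * q.1 (p.2 : ZMod N))) *
        (starRingEnd ℂ) (d q.2 * (q.2 (p.1 : ZMod N) * q.2 (p.2 : ZMod N)))) := by
        rw [sum_product]
        refine sum_congr rfl fun n _ => sum_congr rfl fun n' _ => ?_
        rw [h1]
    _ = ∑ p ∈ R ×ˢ R, ∑ q ∈ X ×ˢ X, c q.1 * (starRingEnd ℂ) (d q.2) *
        (((w p.1 : ℂ) * (q.1 * q.2⁻¹) (p.1 : ZMod N)) * ((w p.2 : ℂ) * (q.1 * q.2⁻¹) (p.2 : ZMod N))) := by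
        refine sum_congr rfl fun p _ => ?_
        rw [mul_sum, mul_sum]
        refine sum_congr rfl fun q _ => ?_
        rw [map_mul, map_mul, hconj, hconj, MulChar.mul_apply, MulChar.mul_apply]
        ring
    _ = ∑ q ∈ X ×ˢ X, ∑ p ∈ R ×ˢ R, c q.1 * (starRingEnd ℂ) (d q.2) *
        (((w p.1 : ℂ) * (q.1 * q.2⁻¹) (p.1 : ZMod N)) * ((w p.2 : ℂ) * (q.1 * q.2⁻¹) (p.2 : ZMod N))) :=
        sum_comm
    _ = _ := by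
        rw [sum_product]
        refine sum_congr rfl fun χ _ => sum_congr rfl fun ψ _ => ?_
        rw [← mul_sum]
        congr 1
        rw [sum_product, sq]
        unfold sv
        rw [sum_mul_sum]

/-- pointwise estimate -/
private theorem P1a_pt {e : ℝ} (he : 0 < e) (f g p q : ℂ) (hpq : p * (starRingEnd ℂ) q = 0) :
    ‖f * (starRingEnd ℂ) g‖ ≤ e / 24 * (‖f‖ ^ 2 + ‖g‖ ^ 2) +
      (6 / e + 1 / 2) * (‖p - f‖ ^ 2 + ‖q - g‖ ^ 2) := by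
  have h1 : f * (starRingEnd ℂ) g = -(f * (starRingEnd ℂ) (q - g)) -
      (p - f) * (starRingEnd ℂ) (q - g) - (p - f) * (starRingEnd ℂ) g := by
    have : f * (starRingEnd ℂ) g = f * (starRingEnd ℂ) g - p * (starRingEnd ℂ) q := by
      rw [hpq, sub_zero]
    rw [this]
    simp only [map_sub]
    ring
  have h2 : ‖f * (starRingEnd ℂ) g‖ ≤ ‖f‖ * ‖q - g‖ + ‖p - f‖ * ‖q - g‖ + ‖p - f‖ * ‖g‖ := by
    rw [h1]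
    refine (norm_sub_le _ _).trans ?_
    refine add_le_add ((norm_sub_le _ _).trans (add_le_add ?_ ?_)) ?_
    · rw [norm_neg, norm_mul, Complex.norm_conj]
    · rw [norm_mul, Complex.norm_conj]
    · rw [norm_mul, Complex.norm_conj]
  refine h2.trans ?_
  have key : ∀ x y : ℝ, x * y ≤ e / 24 * x ^ 2 + 6 / e * y ^ 2 := by
    intro x y
    have h3 : 0 ≤ (e * x - 12 * y) ^ 2 := sq_nonneg _
    have h4 : e / 24 * x ^ 2 + 6 / e * y ^ 2 - x * y = (e * x - 12 * y) ^ 2 / (24 * e) := by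
      field_simp
      ring
    have h5 : 0 ≤ (e * x - 12 * y) ^ 2 / (24 * e) := by positivity
    linarith
  have k1 := key ‖f‖ ‖q - g‖
  have k2 := key ‖g‖ ‖p - f‖
  have k3 : ‖p - f‖ * ‖q - g‖ ≤ 1 / 2 * (‖p - f‖ ^ 2 + ‖q - g‖ ^ 2) := by
    nlinarith [sq_nonneg (‖p - f‖ - ‖q - g‖)]
  nlinarith

private theorem P1a_off {N : ℕ} [NeZero N] {R : Finset ℕ} {w : ℕ → ℝ} {e : ℝ} {m : ℕ} (hw : Wt N R w)
    (he : 0 < e) (hB : Bes N R w e m) (X : Finset (DirichletCharacter ℂ N)) (hX : X.card + 1 ≤ m)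
    [DecidableEq (DirichletCharacter ℂ N)]
    (χ : DirichletCharacter ℂ N) (hχ : χ ∈ X) :
    ∑ ψ ∈ X.erase χ, ‖sv R w (χ * ψ⁻¹)‖ ^ 2 ≤ e ∧ ∑ ψ ∈ X.erase χ, ‖sv R w (ψ * χ⁻¹)‖ ^ 2 ≤ e := by
  have hcard : (X.erase χ).card + 1 ≤ m := by
    have := card_erase_le (s := X) (a := χ)
    omega
  constructor
  · have hinj : Function.Injective fun ψ : DirichletCharacter ℂ N => χ * ψ⁻¹ := by
      intro a b hab
      exact inv_injective (mul_left_cancel hab)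
    have h1 := A2 hw he.le hB ((X.erase χ).image fun ψ => χ * ψ⁻¹) (by
      intro h
      obtain ⟨ψ, hψ, h2⟩ := mem_image.mp h
      apply (mem_erase.mp hψ).1
      exact (mul_inv_eq_one.mp h2).symm) (by
      rw [card_image_of_injective _ hinj]; exact hcard)
    rwa [sum_image (fun a _ b _ h => hinj h)] at h1
  · have hinj : Function.Injective fun ψ : DirichletCharacter ℂ N => ψ * χ⁻¹ := by
      intro a b hab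
      exact mul_right_cancel hab
    have h1 := A2 hw he.le hB ((X.erase χ).image fun ψ => ψ * χ⁻¹) (by
      intro h
      obtain ⟨ψ, hψ, h2⟩ := mem_image.mp h
      apply (mem_erase.mp hψ).1
      exact (mul_inv_eq_one.mp h2)) (by
      rw [card_image_of_injective _ hinj]; exact hcard)
    rwa [sum_image (fun a _ b _ h => hinj h)] at h1

theorem P1a {N : ℕ} [NeZero N] {R : Finset ℕ} {w : ℕ → ℝ} {e : ℝ} {m : ℕ} (hw : Wt N R w) (he : 0 < e)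
    (he1 : e ≤ 1 / 100) (hB : Bes N R w e m) (X : Finset (DirichletCharacter ℂ N)) (hX : X.card + 1 ≤ m)
    (c d : DirichletCharacter ℂ N → ℂ) (hc : ∑ χ ∈ X, ‖c χ‖ ^ 2 ≤ 4) (hd : ∑ χ ∈ X, ‖d χ‖ ^ 2 ≤ 4)
    (P₁ P₂ : ℕ → ℕ → ℝ) (h0 : ∀ n ∈ R, ∀ n' ∈ R, P₁ n n' * P₂ n n' = 0)
    (h1 : ∑ n ∈ R, ∑ n' ∈ R, w n * (w n' * ‖((P₁ n n' : ℝ) : ℂ) -
      ∑ χ ∈ X, c χ * (χ (n : ZMod N) * χ (n' : ZMod N))‖ ^ 2) ≤ (e / 6) ^ 2)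
    (h2 : ∑ n ∈ R, ∑ n' ∈ R, w n * (w n' * ‖((P₂ n n' : ℝ) : ℂ) -
      ∑ χ ∈ X, d χ * (χ (n : ZMod N) * χ (n' : ZMod N))‖ ^ 2) ≤ (e / 6) ^ 2) :
    ‖∑ χ ∈ X, c χ * (starRingEnd ℂ) (d χ)‖ ≤ 5 * e := by
  classical
  set F : ℕ → ℕ → ℂ := fun n n' => ∑ χ ∈ X, c χ * (χ (n : ZMod N) * χ (n' : ZMod N)) with hF
  set G : ℕ → ℕ → ℂ := fun n n' => ∑ χ ∈ X, d χ * (χ (n : ZMod N) * χ (n' : ZMod N)) with hG
  have mF := P1a_ms hw he hB X hX c hc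
  have mG := P1a_ms hw he hB X hX d hd
  set E : ℂ := ∑ n ∈ R, ∑ n' ∈ R, (w n : ℂ) * ((w n' : ℂ) * (F n n' * (starRingEnd ℂ) (G n n'))) with hE
  have hexp : E = ∑ χ ∈ X, ∑ ψ ∈ X, c χ * (starRingEnd ℂ) (d ψ) * (sv R w (χ * ψ⁻¹)) ^ 2 :=
    P1a_exp R w X c d
  -- the norm of `E`
  have hEn : ‖E‖ ≤ e := by
    have h3 : ‖E‖ ≤ ∑ n ∈ R, ∑ n' ∈ R, (e / 24 * (w n * (w n' * ‖F n n'‖ ^ 2) + w n * (w n' * ‖G n n'‖ ^ 2)) +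
        (6 / e + 1 / 2) * (w n * (w n' * ‖((P₁ n n' : ℝ) : ℂ) - F n n'‖ ^ 2) +
          w n * (w n' * ‖((P₂ n n' : ℝ) : ℂ) - G n n'‖ ^ 2))) := by
      refine (norm_sum_le _ _).trans (sum_le_sum fun n hn => ?_)
      refine (norm_sum_le _ _).trans (sum_le_sum fun n' hn' => ?_)
      rw [norm_mul, norm_mul, P1a_nw hw hn, P1a_nw hw hn']
      have h4 := P1a_pt he (F n n') (G n n') ((P₁ n n' : ℝ) : ℂ) ((P₂ n n' : ℝ) : ℂ) (by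
        rw [Complex.conj_ofReal, ← Complex.ofReal_mul, h0 n hn n' hn', Complex.ofReal_zero])
      have h5 : 0 ≤ w n * w n' := mul_nonneg (hw.nonneg n hn) (hw.nonneg n' hn')
      have h6 := mul_le_mul_of_nonneg_left h4 h5
      calc _ = w n * w n' * ‖F n n' * (starRingEnd ℂ) (G n n')‖ := by ring
        _ ≤ _ := h6
        _ = _ := by ring
    have h4 : ∑ n ∈ R, ∑ n' ∈ R, (e / 24 * (w n * (w n' * ‖F n n'‖ ^ 2) + w n * (w n' * ‖G n n'‖ ^ 2)) +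
        (6 / e + 1 / 2) * (w n * (w n' * ‖((P₁ n n' : ℝ) : ℂ) - F n n'‖ ^ 2) +
          w n * (w n' * ‖((P₂ n n' : ℝ) : ℂ) - G n n'‖ ^ 2))) =
        e / 24 * (∑ n ∈ R, ∑ n' ∈ R, w n * (w n' * ‖F n n'‖ ^ 2) +
          ∑ n ∈ R, ∑ n' ∈ R, w n * (w n' * ‖G n n'‖ ^ 2)) +
        (6 / e + 1 / 2) * (∑ n ∈ R, ∑ n' ∈ R, w n * (w n' * ‖((P₁ n n' : ℝ) : ℂ) - F n n'‖ ^ 2) +
          ∑ n ∈ R, ∑ n' ∈ R, w n * (w n' * ‖((P₂ n n' : ℝ) : ℂ) - G n n'‖ ^ 2)) := by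
      simp only [sum_add_distrib, mul_sum, mul_add]
    rw [h4] at h3
    refine h3.trans ?_
    have h5 : e / 24 * (∑ n ∈ R, ∑ n' ∈ R, w n * (w n' * ‖F n n'‖ ^ 2) +
          ∑ n ∈ R, ∑ n' ∈ R, w n * (w n' * ‖G n n'‖ ^ 2)) ≤ e / 24 * ((1 + e) * 4 + (1 + e) * 4) :=
      mul_le_mul_of_nonneg_left (add_le_add mF mG) (by positivity)
    have h6 : (6 / e + 1 / 2) * (∑ n ∈ R, ∑ n' ∈ R, w n * (w n' * ‖((P₁ n n' : ℝ) : ℂ) - F n n'‖ ^ 2) +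
          ∑ n ∈ R, ∑ n' ∈ R, w n * (w n' * ‖((P₂ n n' : ℝ) : ℂ) - G n n'‖ ^ 2)) ≤
        (6 / e + 1 / 2) * ((e / 6) ^ 2 + (e / 6) ^ 2) :=
      mul_le_mul_of_nonneg_left (add_le_add h1 h2) (by positivity)
    have h7 : (6 / e + 1 / 2) * ((e / 6) ^ 2 + (e / 6) ^ 2) = e / 3 + e ^ 2 / 36 := by
      field_simp
      ring
    rw [h7] at h6
    nlinarith
  -- the off-diagonal terms
  have hsplit : ∑ χ ∈ X, ∑ ψ ∈ X, c χ * (starRingEnd ℂ) (d ψ) * (sv R w (χ * ψ⁻¹)) ^ 2 =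
      ∑ χ ∈ X, c χ * (starRingEnd ℂ) (d χ) +
      ∑ χ ∈ X, ∑ ψ ∈ X.erase χ, c χ * (starRingEnd ℂ) (d ψ) * (sv R w (χ * ψ⁻¹)) ^ 2 := by
    rw [← sum_add_distrib]
    refine sum_congr rfl fun χ hχ => ?_
    rw [← add_sum_erase X _ hχ, mul_inv_cancel, sv_one hw, one_pow, mul_one]
  have hoff : ‖∑ χ ∈ X, ∑ ψ ∈ X.erase χ, c χ * (starRingEnd ℂ) (d ψ) * (sv R w (χ * ψ⁻¹)) ^ 2‖ ≤ 4 * e := by
    have h3 : ‖∑ χ ∈ X, ∑ ψ ∈ X.erase χ, c χ * (starRingEnd ℂ) (d ψ) * (sv R w (χ * ψ⁻¹)) ^ 2‖ ≤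
        ∑ χ ∈ X, ∑ ψ ∈ X.erase χ, (1 / 2 * (‖c χ‖ ^ 2 * ‖sv R w (χ * ψ⁻¹)‖ ^ 2) +
          1 / 2 * (‖d ψ‖ ^ 2 * ‖sv R w (χ * ψ⁻¹)‖ ^ 2)) := by
      refine (norm_sum_le _ _).trans (sum_le_sum fun χ _ => ?_)
      refine (norm_sum_le _ _).trans (sum_le_sum fun ψ _ => ?_)
      rw [norm_mul, norm_mul, Complex.norm_conj, norm_pow]
      have h4 : ‖c χ‖ * ‖d ψ‖ ≤ 1 / 2 * (‖c χ‖ ^ 2 + ‖d ψ‖ ^ 2) := by
        nlinarith [sq_nonneg (‖c χ‖ - ‖d ψ‖)]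
      have h5 := mul_le_mul_of_nonneg_right h4 (sq_nonneg ‖sv R w (χ * ψ⁻¹)‖)
      linarith
    refine h3.trans ?_
    have h4 : ∑ χ ∈ X, ∑ ψ ∈ X.erase χ, (1 / 2 * (‖c χ‖ ^ 2 * ‖sv R w (χ * ψ⁻¹)‖ ^ 2) +
          1 / 2 * (‖d ψ‖ ^ 2 * ‖sv R w (χ * ψ⁻¹)‖ ^ 2)) =
        1 / 2 * ∑ χ ∈ X, ‖c χ‖ ^ 2 * ∑ ψ ∈ X.erase χ, ‖sv R w (χ * ψ⁻¹)‖ ^ 2 +
        1 / 2 * ∑ χ ∈ X, ∑ ψ ∈ X.erase χ, ‖d ψ‖ ^ 2 * ‖sv R w (χ * ψ⁻¹)‖ ^ 2 := by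
      simp only [sum_add_distrib, mul_sum]
    rw [h4]
    have h5 : ∑ χ ∈ X, ‖c χ‖ ^ 2 * ∑ ψ ∈ X.erase χ, ‖sv R w (χ * ψ⁻¹)‖ ^ 2 ≤ 4 * e := by
      calc _ ≤ ∑ χ ∈ X, ‖c χ‖ ^ 2 * e := sum_le_sum fun χ hχ =>
            mul_le_mul_of_nonneg_left (P1a_off hw he hB X hX χ hχ).1 (sq_nonneg _)
        _ = (∑ χ ∈ X, ‖c χ‖ ^ 2) * e := (sum_mul _ _ _).symm
        _ ≤ 4 * e := mul_le_mul_of_nonneg_right hc he.le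
    have h6 : ∑ χ ∈ X, ∑ ψ ∈ X.erase χ, ‖d ψ‖ ^ 2 * ‖sv R w (χ * ψ⁻¹)‖ ^ 2 ≤ 4 * e := by
      rw [sum_comm' (t' := X) (s' := fun ψ => X.erase ψ) (by
        intro χ ψ
        simp only [mem_erase]
        constructor
        · rintro ⟨h7, h8, h9⟩
          exact ⟨⟨fun h => h8 h.symm, h7⟩, h9⟩
        · rintro ⟨⟨h7, h8⟩, h9⟩
          exact ⟨h8, fun h => h7 h.symm, h9⟩)]
      calc _ = ∑ ψ ∈ X, ‖d ψ‖ ^ 2 * ∑ χ ∈ X.erase ψ, ‖sv R w (χ * ψ⁻¹)‖ ^ 2 := by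
            refine sum_congr rfl fun ψ _ => ?_
            rw [mul_sum]
        _ ≤ ∑ ψ ∈ X, ‖d ψ‖ ^ 2 * e := sum_le_sum fun ψ hψ =>
            mul_le_mul_of_nonneg_left (P1a_off hw he hB X hX ψ hψ).2 (sq_nonneg _)
        _ = (∑ ψ ∈ X, ‖d ψ‖ ^ 2) * e := (sum_mul _ _ _).symm
        _ ≤ 4 * e := mul_le_mul_of_nonneg_right hd he.le
    linarith
  have hfin : ∑ χ ∈ X, c χ * (starRingEnd ℂ) (d χ) = E -
      ∑ χ ∈ X, ∑ ψ ∈ X.erase χ, c χ * (starRingEnd ℂ) (d ψ) * (sv R w (χ * ψ⁻¹)) ^ 2 := by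
    rw [hexp, hsplit]
    ring
  rw [hfin]
  refine (norm_sub_le _ _).trans ?_
  linarith

end Pool.Agent.Lib.PL
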