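import Pool.Agent.Lib.MP_7b7e48_nt.PL.N1

/-!
# S2l: the summatory function of `1 * c`, with the sub Polya-Vinogradov bound

PROOF. `F(y) = ∑_{n≤y} c₀ n`, `|F(y)| ≤ y N^(-β)` for `y ≥ N^(1/2-β)`. `A = ⌈N^(1/2-β)⌉`. Partial summation on `(A, N²]`: `|∑_{A<a≤N²} c₀ a/a| ≤ N^(-β)(2 + 2 log N)`; `LV` at `N²`: `|∑_{a≤N²} c₀ a/a - L| ≤ 2 PB N/N² ≤ N^(-1/2)`
(`RG.PB_le` or `PB N ≤ N * ...` trivially `≤ N^(3/2)/2` for large `N`). So `|∑_{a≤A} c₀ a/a - L| ≤ 4 log N N^(-β)`. Hyperbola method: `SS y = ∑_{a b ≤ y} c₀ a = ∑_{a≤A} c₀ a ⌊y/a⌋ + ∑_{b ≤ y/A} (F(y/b) - F(A))` (for `b ≤ y/A`, natural division, `y/b ≥ A`). First sum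
`= y ∑_{a≤A} c₀ a/a + O(A)`; second `≤ ∑_b ((y/b) N^(-β) + A N^(-β)) ≤ y N^(-β) (2 + log y)`. So `|SS y - L y| ≤ 4 log N N^(-β) y + A + y N^(-β)(2 + 2 log N)` and `A ≤ 2 N^(1/2-β) ≤ 2 y N^(-3β/4)`: `≤ y N^(-β/2)` for large `N`.
-/

set_option autoImplicit false

open Finset
open Pool.Agent.Lib.GT (Rough pr V)
open Pool.Agent.Lib.MP_45349e_nt.LS (lam)
open Pool.Agent.Lib.RG (RC LV rr SS PB sig)

namespace Pool.Agent.Lib.PL

open Pool.Agent.Lib.PQ

private theorem sl_abs {N : ℕ} {c : ℕ → ℝ} (hc : RC N c) (n : ℕ) : |c n| ≤ 1 := by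
  by_cases h : n.Coprime N
  · rcases hc.val n h with h1 | h1
    · rw [h1, abs_one]
    · rw [h1, abs_neg, abs_one]
  · rw [hc.zero n h, abs_zero]
    exact zero_le_one

private theorem sl_harm (n : ℕ) : ∑ a ∈ Finset.Icc 1 n, (1 : ℝ) / a ≤ 1 + Real.log n := by
  have h := harmonic_le_one_add_log n
  rw [harmonic_eq_sum_Icc] at h
  push_cast at h
  refine le_trans (le_of_eq ?_) h
  exact Finset.sum_congr rfl fun a _ => one_div _

/-- Exchange of the two summations. -/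
private theorem sl_swap (c : ℕ → ℝ) (y : ℕ) :
    ∑ m ∈ Finset.Icc 1 y, rr c m = ∑ a ∈ Finset.Icc 1 y, c a * ((y / a : ℕ) : ℝ) := by
  classical
  have h1 : ∀ m ∈ Finset.Icc 1 y, rr c m =
      ∑ a ∈ Finset.Icc 1 y, if a ∣ m then c a else 0 := by
    intro m hm
    rw [Finset.mem_Icc] at hm
    unfold rr
    rw [← Finset.sum_filter]
    refine Finset.sum_congr ?_ fun _ _ => rfl
    ext a
    rw [Nat.mem_divisors, Finset.mem_filter, Finset.mem_Icc]
    constructor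
    · rintro ⟨h, _⟩
      have h2 := Nat.le_of_dvd (by omega) h
      have h4 : 0 < a := Nat.pos_of_dvd_of_pos h (by omega)
      exact ⟨⟨h4, by omega⟩, h⟩
    · rintro ⟨_, h⟩
      exact ⟨h, by omega⟩
  rw [Finset.sum_congr rfl h1, Finset.sum_comm]
  refine Finset.sum_congr rfl fun a _ => ?_
  rw [← Finset.sum_filter, Finset.sum_const, nsmul_eq_mul, mul_comm]
  congr 2
  have h2 := Nat.Ioc_filter_dvd_card_eq_div y a
  exact h2

private theorem sl_count (a y : ℕ) (ha : 0 < a) :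
    ((y / a : ℕ) : ℝ) = ∑ b ∈ Finset.Icc 1 y, if a * b ≤ y then (1 : ℝ) else 0 := by
  rw [← Finset.sum_filter, Finset.sum_const, nsmul_eq_mul, mul_one]
  have h1 : (Finset.Icc 1 y).filter (fun b => a * b ≤ y) = Finset.Icc 1 (y / a) := by
    ext b
    rw [Finset.mem_filter, Finset.mem_Icc, Finset.mem_Icc, Nat.le_div_iff_mul_le ha, mul_comm b a]
    constructor
    · rintro ⟨⟨h1, _⟩, h2⟩
      exact ⟨h1, h2⟩
    · rintro ⟨h1, h2⟩
      refine ⟨⟨h1, ?_⟩, h2⟩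
      exact (Nat.le_mul_of_pos_left b ha).trans h2
  rw [h1, Nat.card_Icc, Nat.add_sub_cancel]

/-- partial summation, `F m` is the summatory function -/
private theorem sl_part {c : ℕ → ℝ} {δ : ℝ} (hδ : 0 ≤ δ) {A : ℕ}
    (hF : ∀ m : ℕ, A ≤ m → |∑ n ∈ Finset.Icc 1 m, c n| ≤ m * δ) (j : ℕ) :
    |(∑ a ∈ Finset.Icc 1 (A + j), c a / a - (∑ n ∈ Finset.Icc 1 (A + j), c n) / ((A + j : ℕ) + 1)) -
      (∑ a ∈ Finset.Icc 1 A, c a / a - (∑ n ∈ Finset.Icc 1 A, c n) / ((A : ℕ) + 1))| ≤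
      δ * ∑ a ∈ Finset.Icc (A + 1) (A + j), (1 : ℝ) / a := by
  induction j with
  | zero => simp
  | succ j ih =>
    have e1 : ∀ g : ℕ → ℝ, ∑ a ∈ Finset.Icc 1 (A + (j + 1)), g a =
        ∑ a ∈ Finset.Icc 1 (A + j), g a + g (A + j + 1) := by
      intro g
      rw [← Finset.sum_Icc_succ_top (by omega)]
      rfl
    have e2 : ∑ a ∈ Finset.Icc (A + 1) (A + (j + 1)), (1 : ℝ) / a =
        ∑ a ∈ Finset.Icc (A + 1) (A + j), (1 : ℝ) / a + 1 / ((A + j + 1 : ℕ) : ℝ) := by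
      rw [← Finset.sum_Icc_succ_top (by omega)]
      rfl
    have h1 := hF (A + (j + 1)) (by omega)
    rw [e1] at h1
    rw [e2, e1, e1, mul_add]
    set T := ∑ a ∈ Finset.Icc 1 (A + j), c a / (a : ℝ) with hT
    set F := ∑ a ∈ Finset.Icc 1 (A + j), c a with hFd
    set T0 := ∑ a ∈ Finset.Icc 1 A, c a / (a : ℝ) with hT0
    set F0 := ∑ a ∈ Finset.Icc 1 A, c a with hF0
    have hm0 : (0 : ℝ) < (A : ℝ) + j + 1 := by positivity
    have hm1 : (0 : ℝ) < (A : ℝ) + j + 1 + 1 := by positivity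
    push_cast at h1 ih ⊢
    have e3 : T + c (A + j + 1) / ((A : ℝ) + j + 1) - (F + c (A + j + 1)) / ((A : ℝ) + (j + 1) + 1) -
        (T0 - F0 / ((A : ℝ) + 1)) = (T - F / ((A : ℝ) + j + 1) - (T0 - F0 / ((A : ℝ) + 1))) +
        (F + c (A + j + 1)) / (((A : ℝ) + j + 1) * ((A : ℝ) + j + 1 + 1)) := by
      have e4 : (A : ℝ) + (j + 1) + 1 = (A : ℝ) + j + 1 + 1 := by ring
      rw [e4]
      field_simp
      ring
    rw [e3]
    refine (abs_add_le _ _).trans (add_le_add ih ?_)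
    rw [abs_div, abs_of_pos (mul_pos hm0 hm1), div_le_iff₀ (mul_pos hm0 hm1)]
    calc |F + c (A + j + 1)| ≤ ((A : ℝ) + (j + 1)) * δ := h1
      _ = δ * (1 / ((A : ℝ) + j + 1)) * (((A : ℝ) + j + 1) * ((A : ℝ) + j + 1)) := by
          field_simp
          ring
      _ ≤ δ * (1 / ((A : ℝ) + j + 1)) * (((A : ℝ) + j + 1) * ((A : ℝ) + j + 1 + 1)) := by
          refine mul_le_mul_of_nonneg_left ?_ (by positivity)
          exact mul_le_mul_of_nonneg_left (by linarith) hm0.le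

private theorem sl_tail {N : ℕ} {c : ℕ → ℝ} {δ L : ℝ} (hδ : 0 ≤ δ) (hL : LV N c L) {A : ℕ} (hA : 1 ≤ A)
    (hF : ∀ m : ℕ, A ≤ m → |∑ n ∈ Finset.Icc 1 m, c n| ≤ m * δ) (M : ℕ) (hM : A ≤ M) :
    |∑ a ∈ Finset.Icc 1 A, c a / a - L| ≤ 2 * PB N / M + δ * (3 + Real.log M) := by
  obtain ⟨j, rfl⟩ := Nat.exists_eq_add_of_le hM
  have h1 := sl_part hδ hF j
  have h2 := hL.2 (A + j) (by omega)
  have h3 : ∀ m : ℕ, A ≤ m → |(∑ n ∈ Finset.Icc 1 m, c n) / ((m : ℕ) + 1)| ≤ δ := by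
    intro m hm
    have hm0 : (0 : ℝ) < (m : ℝ) + 1 := by positivity
    rw [abs_div, abs_of_pos hm0, div_le_iff₀ hm0]
    have := hF m hm
    nlinarith
  have h4 := h3 (A + j) (by omega)
  have h5 := h3 A le_rfl
  have h6 : ∑ a ∈ Finset.Icc (A + 1) (A + j), (1 : ℝ) / a ≤ 1 + Real.log ((A + j : ℕ) : ℝ) := by
    refine le_trans ?_ (sl_harm (A + j))
    refine Finset.sum_le_sum_of_subset_of_nonneg ?_ fun _ _ _ => by positivity
    intro a ha
    rw [Finset.mem_Icc] at ha ⊢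
    omega
  have h7 : δ * ∑ a ∈ Finset.Icc (A + 1) (A + j), (1 : ℝ) / a ≤ δ * (1 + Real.log ((A + j : ℕ) : ℝ)) :=
    mul_le_mul_of_nonneg_left h6 hδ
  have h8 := h1.trans h7
  rw [abs_le] at h2 h4 h5 h8 ⊢
  constructor <;> linarith [h2.1, h2.2, h4.1, h4.2, h5.1, h5.2, h8.1, h8.2]

/-- The hyperbola method. -/
private theorem sl_hyp {N : ℕ} {c : ℕ → ℝ} {L δ ε : ℝ} (hc : RC N c) (hδ : 0 ≤ δ)
    {y A : ℕ} (hA : 1 ≤ A) (hAy : A ≤ y)
    (hF : ∀ m : ℕ, A ≤ m → |∑ n ∈ Finset.Icc 1 m, c n| ≤ m * δ)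
    (hL : |∑ a ∈ Finset.Icc 1 A, c a / a - L| ≤ ε) :
    |∑ m ∈ Finset.Icc 1 y, rr c m - y * L| ≤ A + y * ε + δ * (y * (2 + Real.log y)) := by
  classical
  have hA0 : (0 : ℝ) < A := by exact_mod_cast hA
  have hy0 : (0 : ℝ) ≤ y := Nat.cast_nonneg y
  have hsplit : Finset.Icc 1 y = Finset.Icc 1 A ∪ Finset.Ioc A y := by
    ext a
    rw [Finset.mem_union, Finset.mem_Icc, Finset.mem_Icc, Finset.mem_Ioc]
    omega
  have hdis : Disjoint (Finset.Icc 1 A) (Finset.Ioc A y) := by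
    rw [Finset.disjoint_left]
    intro a h1 h2
    rw [Finset.mem_Icc] at h1
    rw [Finset.mem_Ioc] at h2
    omega
  have e1 : ∑ m ∈ Finset.Icc 1 y, rr c m =
      ∑ a ∈ Finset.Icc 1 A, c a * ((y / a : ℕ) : ℝ) +
      ∑ a ∈ Finset.Ioc A y, c a * ((y / a : ℕ) : ℝ) := by
    rw [sl_swap]
    nth_rewrite 1 [hsplit]
    rw [Finset.sum_union hdis]
  -- the first part
  have h1 : |∑ a ∈ Finset.Icc 1 A, c a * ((y / a : ℕ) : ℝ) -
      ∑ a ∈ Finset.Icc 1 A, c a * ((y : ℝ) / a)| ≤ A := by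
    rw [← Finset.sum_sub_distrib]
    refine (Finset.abs_sum_le_sum_abs _ _).trans ?_
    have h2 : ∀ a ∈ Finset.Icc 1 A, |c a * ((y / a : ℕ) : ℝ) - c a * ((y : ℝ) / a)| ≤ 1 := by
      intro a ha
      rw [Finset.mem_Icc] at ha
      have ha0 : (0 : ℝ) < a := by
        have : 0 < a := by omega
        exact_mod_cast this
      rw [← mul_sub, abs_mul]
      have h4 : |((y / a : ℕ) : ℝ) - (y : ℝ) / a| ≤ 1 := by
        have h5 : ((y / a : ℕ) : ℝ) ≤ (y : ℝ) / a := Nat.cast_div_le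
        have h6 : (y : ℝ) / a < ((y / a : ℕ) : ℝ) + 1 := by
          rw [div_lt_iff₀ ha0]
          have h7 : y < (y / a + 1) * a := by
            have := Nat.lt_div_mul_add (a := y) (b := a) (by omega)
            calc y < y / a * a + a := this
              _ = (y / a + 1) * a := by ring
          exact_mod_cast h7
        rw [abs_le]
        constructor <;> linarith
      calc |c a| * |((y / a : ℕ) : ℝ) - (y : ℝ) / a| ≤ 1 * 1 :=
            mul_le_mul (sl_abs hc a) h4 (abs_nonneg _) zero_le_one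
        _ = 1 := one_mul 1
    calc ∑ a ∈ Finset.Icc 1 A, |c a * ((y / a : ℕ) : ℝ) - c a * ((y : ℝ) / a)| ≤
        ∑ _a ∈ Finset.Icc 1 A, (1 : ℝ) := Finset.sum_le_sum h2
      _ = A := by
          rw [Finset.sum_const, Nat.card_Icc, nsmul_eq_mul, mul_one]
          simp
  have h2 : |∑ a ∈ Finset.Icc 1 A, c a * ((y : ℝ) / a) - y * L| ≤ y * ε := by
    have e2 : ∑ a ∈ Finset.Icc 1 A, c a * ((y : ℝ) / a) =
        y * ∑ a ∈ Finset.Icc 1 A, c a / a := by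
      rw [Finset.mul_sum]
      exact Finset.sum_congr rfl fun a _ => by ring
    rw [e2, ← mul_sub, abs_mul, abs_of_nonneg hy0]
    exact mul_le_mul_of_nonneg_left hL hy0
  -- the second part
  have h4 : |∑ a ∈ Finset.Ioc A y, c a * ((y / a : ℕ) : ℝ)| ≤ δ * (y * (2 + Real.log y)) := by
    have e3 : ∑ a ∈ Finset.Ioc A y, c a * ((y / a : ℕ) : ℝ) =
        ∑ b ∈ Finset.Icc 1 y, ∑ a ∈ Finset.Ioc A y, if a * b ≤ y then c a else 0 := by
      rw [Finset.sum_comm]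
      refine Finset.sum_congr rfl fun a ha => ?_
      rw [Finset.mem_Ioc] at ha
      rw [sl_count a y (by omega), Finset.mul_sum]
      exact Finset.sum_congr rfl fun b _ => by rw [mul_ite, mul_one, mul_zero]
    have h5 : ∀ b ∈ Finset.Icc 1 y, |∑ a ∈ Finset.Ioc A y, if a * b ≤ y then c a else 0| ≤
        if A * b ≤ y then δ * (y * (1 / (b : ℝ))) + δ * A else 0 := by
      intro b hb
      rw [Finset.mem_Icc] at hb
      have e4 : (∑ a ∈ Finset.Ioc A y, if a * b ≤ y then c a else 0) =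
          ∑ a ∈ Finset.Ioc A (y / b), c a := by
        rw [← Finset.sum_filter]
        refine Finset.sum_congr ?_ fun _ _ => rfl
        ext a
        rw [Finset.mem_filter, Finset.mem_Ioc, Finset.mem_Ioc, Nat.le_div_iff_mul_le (by omega)]
        constructor
        · rintro ⟨⟨h1, _⟩, h2⟩
          exact ⟨h1, h2⟩
        · rintro ⟨h1, h2⟩
          exact ⟨⟨h1, (Nat.le_mul_of_pos_right a (by omega)).trans h2⟩, h2⟩
      rw [e4]
      split_ifs with h6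
      · have hAb : A ≤ y / b := by
          rw [Nat.le_div_iff_mul_le (by omega)]
          exact h6
        have e5 : ∑ a ∈ Finset.Icc 1 (y / b), c a =
            ∑ a ∈ Finset.Icc 1 A, c a + ∑ a ∈ Finset.Ioc A (y / b), c a := by
          rw [← Finset.sum_union]
          · refine Finset.sum_congr ?_ fun _ _ => rfl
            ext a
            rw [Finset.mem_union, Finset.mem_Icc, Finset.mem_Icc, Finset.mem_Ioc]
            omega
          · rw [Finset.disjoint_left]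
            intro a h1 h2
            rw [Finset.mem_Icc] at h1
            rw [Finset.mem_Ioc] at h2
            omega
        have h7 := hF (y / b) hAb
        have h8 := hF A le_rfl
        have h9 : ((y / b : ℕ) : ℝ) * δ ≤ δ * (y * (1 / (b : ℝ))) := by
          have h10 : ((y / b : ℕ) : ℝ) ≤ (y : ℝ) / b := Nat.cast_div_le
          calc ((y / b : ℕ) : ℝ) * δ ≤ ((y : ℝ) / b) * δ := mul_le_mul_of_nonneg_right h10 hδ
            _ = δ * (y * (1 / (b : ℝ))) := by ring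
        rw [abs_le] at h7 h8 ⊢
        constructor <;> linarith [h7.1, h7.2, h8.1, h8.2, e5]
      · have h7 : Finset.Ioc A (y / b) = ∅ := by
          rw [Finset.Ioc_eq_empty_iff]
          intro h8
          apply h6
          have h9 : A ≤ y / b := h8.le
          rwa [Nat.le_div_iff_mul_le (by omega)] at h9
        rw [h7, Finset.sum_empty, abs_zero]
    rw [e3]
    refine (Finset.abs_sum_le_sum_abs _ _).trans ((Finset.sum_le_sum h5).trans ?_)
    rw [← Finset.sum_filter, Finset.sum_add_distrib, Finset.sum_const, nsmul_eq_mul]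
    have h6 : (((Finset.Icc 1 y).filter (fun b => A * b ≤ y)).card : ℝ) ≤ (y : ℝ) / A := by
      have h7 := sl_count A y (by omega)
      rw [← Finset.sum_filter, Finset.sum_const, nsmul_eq_mul, mul_one] at h7
      rw [← h7]
      exact Nat.cast_div_le
    have h7 : (((Finset.Icc 1 y).filter (fun b => A * b ≤ y)).card : ℝ) * (δ * A) ≤ δ * y := by
      calc (((Finset.Icc 1 y).filter (fun b => A * b ≤ y)).card : ℝ) * (δ * A) ≤
          (y : ℝ) / A * (δ * A) := mul_le_mul_of_nonneg_right h6 (by positivity)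
        _ = δ * y := by field_simp
    have h8 : ∑ b ∈ (Finset.Icc 1 y).filter (fun b => A * b ≤ y), δ * (y * (1 / (b : ℝ))) ≤
        δ * (y * (1 + Real.log y)) := by
      rw [← Finset.mul_sum, ← Finset.mul_sum]
      refine mul_le_mul_of_nonneg_left (mul_le_mul_of_nonneg_left ?_ hy0) hδ
      refine le_trans ?_ (sl_harm y)
      exact Finset.sum_le_sum_of_subset_of_nonneg (Finset.filter_subset _ _) fun _ _ _ => by positivity
    calc _ ≤ δ * (y * (1 + Real.log y)) + δ * y := add_le_add h8 h7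
      _ = δ * (y * (2 + Real.log y)) := by ring
  rw [e1]
  have e7 : ∑ a ∈ Finset.Icc 1 A, c a * ((y / a : ℕ) : ℝ) +
      ∑ a ∈ Finset.Ioc A y, c a * ((y / a : ℕ) : ℝ) - y * L =
      (∑ a ∈ Finset.Icc 1 A, c a * ((y / a : ℕ) : ℝ) -
      ∑ a ∈ Finset.Icc 1 A, c a * ((y : ℝ) / a)) +
      (∑ a ∈ Finset.Icc 1 A, c a * ((y : ℝ) / a) - y * L) +
      ∑ a ∈ Finset.Ioc A y, c a * ((y / a : ℕ) : ℝ) := by ring
  rw [e7]
  exact (abs_add_le _ _).trans (add_le_add ((abs_add_le _ _).trans (add_le_add h1 h2)) h4)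

theorem S2l (β : ℝ) (hβ : 0 < β) (hβ1 : β ≤ 1 / 1000) : ∃ N0 : ℕ, ∀ N : ℕ, N0 ≤ N → ∀ (c₀ : ℕ → ℝ) (L : ℝ),
    RC N c₀ → LV N c₀ L → (∀ y : ℕ, (N : ℝ) ^ (1 / 2 - β) ≤ y → |∑ n ∈ Finset.Icc 1 y, c₀ n| ≤ y * (N : ℝ) ^ (-β)) →
    ∀ y : ℕ, (N : ℝ) ^ (1 / 2 - β / 4) ≤ y → (y : ℝ) ≤ (N : ℝ) ^ 2 → |SS c₀ y - L * y| ≤ y * (N : ℝ) ^ (-(β / 2)) := by
  obtain ⟨C, hC, hP⟩ := Pool.Agent.Lib.RG.PB_le (1 / 2) (by norm_num)
  have hcast : Filter.Tendsto (fun N : ℕ => (N : ℝ)) Filter.atTop Filter.atTop := tendsto_natCast_atTop_atTop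
  have hx : 0 < β / 4 := by linarith
  have e1 : ∀ᶠ N : ℕ in Filter.atTop, 2 * C + 7 + 4 * Real.log N ≤ (N : ℝ) ^ (β / 4) := by
    have h1 : ∀ᶠ x : ℝ in Filter.atTop, 2 * C + 7 + 4 * Real.log x ≤ x ^ (β / 4) := by
      have h2 := (isLittleO_log_rpow_atTop hx).bound (show (0 : ℝ) < 1 / 8 by norm_num)
      have h3 := (tendsto_rpow_atTop hx).eventually_ge_atTop (2 * (2 * C + 7))
      filter_upwards [h2, h3, Filter.eventually_ge_atTop (1 : ℝ)] with x hx1 hx3 hx2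
      rw [Real.norm_of_nonneg (Real.log_nonneg hx2), Real.norm_of_nonneg (by positivity)] at hx1
      linarith
    exact hcast.eventually h1
  obtain ⟨N0, hN0⟩ := Filter.eventually_atTop.mp (e1.and (Filter.eventually_ge_atTop 2))
  refine ⟨N0, ?_⟩
  intro N hN c L hc hL hF y hy1 hy2
  obtain ⟨f1, f2⟩ := hN0 N hN
  have hN1 : (1 : ℝ) ≤ N := by exact_mod_cast (by omega : 1 ≤ N)
  have hNpos : (0 : ℝ) < N := by linarith
  set δ : ℝ := (N : ℝ) ^ (-β) with hδd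
  have hδ : 0 < δ := by positivity
  set Y : ℝ := (N : ℝ) ^ (1 / 2 - β) with hYd
  have hY1 : 1 ≤ Y := Real.one_le_rpow hN1 (by linarith)
  set A : ℕ := ⌈Y⌉₊ with hAd
  have hA1 : 1 ≤ A := Nat.one_le_iff_ne_zero.2 (Nat.ceil_pos.2 (by linarith)).ne'
  have hAl : Y ≤ A := Nat.le_ceil _
  have hAu : (A : ℝ) ≤ 2 * Y := by
    have h1 : (A : ℝ) < Y + 1 := Nat.ceil_lt_add_one (by linarith)
    linarith
  have hYy : Y ≤ y := by
    refine le_trans ?_ hy1
    exact Real.rpow_le_rpow_of_exponent_le hN1 (by linarith)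
  have hAy : A ≤ y := Nat.ceil_le.2 hYy
  have hFA : ∀ m : ℕ, A ≤ m → |∑ n ∈ Finset.Icc 1 m, c n| ≤ m * δ := by
    intro m hm
    refine hF m (hAl.trans ?_)
    exact_mod_cast hm
  have hyNN : y ≤ N ^ 2 := by exact_mod_cast hy2
  have hT := sl_tail hδ.le hL hA1 hFA (N ^ 2) (hAy.trans hyNN)
  have hmain := sl_hyp hc hδ.le hA1 hAy hFA hT
  have hy0 : (0 : ℝ) < y := lt_of_lt_of_le (by linarith) hYy
  have hlogN0 : 0 ≤ Real.log N := Real.log_nonneg hN1
  have hlogy : Real.log y ≤ 2 * Real.log N := by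
    have h1 : Real.log y ≤ Real.log ((N : ℝ) ^ 2) := Real.log_le_log hy0 hy2
    rwa [Real.log_pow, Nat.cast_ofNat] at h1
  have hlogM : Real.log ((N ^ 2 : ℕ) : ℝ) = 2 * Real.log N := by
    rw [Nat.cast_pow, Real.log_pow, Nat.cast_ofNat]
  have hPB : 2 * PB N / ((N ^ 2 : ℕ) : ℝ) ≤ 2 * C * δ := by
    have h1 := (hP N f2).1
    have h2 : (N : ℝ) ^ (1 / 2 + 1 / 2 : ℝ) = N := by
      rw [show (1 / 2 + 1 / 2 : ℝ) = 1 by norm_num, Real.rpow_one]
    rw [h2] at h1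
    rw [Nat.cast_pow, div_le_iff₀ (by positivity)]
    have h3 : (N : ℝ) ^ (-1 : ℝ) ≤ δ := Real.rpow_le_rpow_of_exponent_le hN1 (by linarith)
    have h4 : (N : ℝ) ≤ δ * (N : ℝ) ^ 2 := by
      calc (N : ℝ) = (N : ℝ) ^ (-1 : ℝ) * (N : ℝ) ^ 2 := by
            rw [Real.rpow_neg_one]
            field_simp
        _ ≤ δ * (N : ℝ) ^ 2 := mul_le_mul_of_nonneg_right h3 (by positivity)
    calc 2 * PB N ≤ 2 * (C * N) := by linarith
      _ ≤ 2 * (C * (δ * (N : ℝ) ^ 2)) := by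
          have := mul_le_mul_of_nonneg_left h4 hC.le
          linarith
      _ = 2 * C * δ * (N : ℝ) ^ 2 := by ring
  -- the size of `A`
  set ρ : ℝ := (N : ℝ) ^ (-(3 * β / 4)) with hρd
  have hρ : 0 < ρ := by positivity
  have hδρ : δ ≤ ρ := Real.rpow_le_rpow_of_exponent_le hN1 (by linarith)
  have hAρ : (A : ℝ) ≤ 2 * (y * ρ) := by
    refine hAu.trans ?_
    have h1 : Y = (N : ℝ) ^ (1 / 2 - β / 4) * ρ := by
      rw [hYd, hρd, ← Real.rpow_add hNpos]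
      congr 1
      ring
    rw [h1]
    have := mul_le_mul_of_nonneg_right hy1 hρ.le
    linarith
  have hfin : (N : ℝ) ^ (-(β / 2)) = (N : ℝ) ^ (β / 4) * ρ := by
    rw [hρd, ← Real.rpow_add hNpos]
    congr 1
    ring
  have hSS : SS c y - L * y = ∑ m ∈ Finset.Icc 1 y, rr c m - y * L := by
    unfold SS
    ring
  rw [hSS]
  refine hmain.trans ?_
  rw [hfin]
  have hb1 : (y : ℝ) * (2 * PB N / ((N ^ 2 : ℕ) : ℝ) + δ * (3 + Real.log ((N ^ 2 : ℕ) : ℝ))) ≤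
      y * (ρ * (2 * C + 3 + 2 * Real.log N)) := by
    refine mul_le_mul_of_nonneg_left ?_ hy0.le
    rw [hlogM]
    calc 2 * PB N / ((N ^ 2 : ℕ) : ℝ) + δ * (3 + 2 * Real.log N) ≤ 2 * C * δ + δ * (3 + 2 * Real.log N) := by linarith
      _ = δ * (2 * C + 3 + 2 * Real.log N) := by ring
      _ ≤ ρ * (2 * C + 3 + 2 * Real.log N) := mul_le_mul_of_nonneg_right hδρ (by positivity)
  have hb2 : δ * (y * (2 + Real.log y)) ≤ y * (ρ * (2 + 2 * Real.log N)) := by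
    calc δ * (y * (2 + Real.log y)) ≤ δ * (y * (2 + 2 * Real.log N)) := by
          refine mul_le_mul_of_nonneg_left (mul_le_mul_of_nonneg_left (by linarith) hy0.le) hδ.le
      _ ≤ ρ * (y * (2 + 2 * Real.log N)) := mul_le_mul_of_nonneg_right hδρ (by positivity)
      _ = y * (ρ * (2 + 2 * Real.log N)) := by ring
  calc _ ≤ 2 * (y * ρ) + y * (ρ * (2 * C + 3 + 2 * Real.log N)) + y * (ρ * (2 + 2 * Real.log N)) :=
        add_le_add (add_le_add hAρ hb1) hb2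
    _ = y * ((2 * C + 7 + 4 * Real.log N) * ρ) := by ring
    _ ≤ y * ((N : ℝ) ^ (β / 4) * ρ) :=
        mul_le_mul_of_nonneg_left (mul_le_mul_of_nonneg_right f1 hρ.le) hy0.le

end Pool.Agent.Lib.PL
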