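import Pool.Agent.Lib.MP_7b7e48_nt.PL.S2l
import Pool.Agent.Lib.MP_7b7e48_nt.PQ.S9m

/-!
# S9l: the Chebyshev inequality below `√N`

PROOF. Adapt `PQ/S9m.lean` (same steps, `RG.cheb_upper`), with `S2l` instead of `S2m`. `y ≥ pw N (1/2 - 2/k)`, `2/k ≤ β/20`, so for `v ≤ N^(β/10)` (real or natural) `SS(y/v) = L y/v + O(L + (y/v) N^(-β/2))` (`y/v ≥ N^(1/2-β/4)`), and
`N^(-β/2)` is negligible against `L ≥ (log N)^(-B)`.
LEFT: `∑_{n ≤ y} rr n log n ≥ log (y/100) (SS y - SS (y/100)) ≥ 0.97 L y (log y - 5)`.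
RIGHT: (a) `2 ∑_{p ≤ z} log p SS(y/p) ≤ 2 L y (log z + C)`, `z = pw N c ≤ N^(β/10)` (`1/(100k) ≤ β/10`); (b) `p ∣ N, p > z`: at most `2/c` primes, each `≤ log N * SS(y/p) ≤ log N (y/z)(1 + log y)`: negligible (trivial bound `SS m ≤ m (1 + log m)`);
(c) `∑_p ∑_{j ≥ 2} j (j+1) log p * SS(y/p^j)`: `p^j ≤ N^(β/10)`: `≤ C L y`; `p^j > N^(β/10)`: trivial bound, `≤ y (1 + log y) ∑_{p^j > N^(β/10), j ≥ 2} j(j+1) log p/p^j ≤ y N^(-β/30)`: negligible; (d) `2 *` the sum we want.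
So the sum is `≥ (1/2) [0.97 (log y - 5) - 2 log z - C'] L y ≥ (1/5) log N L y`: `log y ≥ 0.49 log N`, `log z ≤ log N/16000`.
-/

set_option autoImplicit false

open Finset
open Pool.Agent.Lib.GT (Rough pr V)
open Pool.Agent.Lib.MP_45349e_nt.LS (lam)
open Pool.Agent.Lib.RG (RC LV rr SS PB sig)

namespace Pool.Agent.Lib.PL

open Pool.Agent.Lib.PQ

private theorem S9l_filter (z : ℕ) :
    (Finset.range (z + 1)).filter Nat.Prime = (Finset.Icc 1 z).filter Nat.Prime := by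
  ext p
  simp only [Finset.mem_filter, Finset.mem_range, Finset.mem_Icc]
  constructor
  · rintro ⟨h1, h2⟩; exact ⟨⟨h2.one_lt.le, by omega⟩, h2⟩
  · rintro ⟨⟨_, h1⟩, h2⟩; exact ⟨by omega, h2⟩

private theorem S9l_mert (z : ℕ) (hz : 1 ≤ z) :
    ∑ p ∈ (Finset.range (z + 1)).filter Nat.Prime, Real.log p / p ≤ Real.log z + Real.log 4 := by
  rw [S9l_filter]
  exact Pool.Agent.Lib.Sieve.sum_log_div_le z hz

private theorem S9l_logN (N : ℕ) (hN : 1 ≤ N) :
    ∑ p ∈ N.primeFactors, Real.log p ≤ Real.log N := by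
  have h1 : ∑ p ∈ N.primeFactors, Real.log p = Real.log (∏ p ∈ N.primeFactors, (p : ℝ)) := by
    rw [Real.log_prod]
    intro p hp
    have := (Nat.prime_of_mem_primeFactors hp).pos
    positivity
  rw [h1]
  have h2 : ∏ p ∈ N.primeFactors, p ≤ N := Nat.le_of_dvd (by omega) (Nat.prod_primeFactors_dvd N)
  have h3 : (∏ p ∈ N.primeFactors, (p : ℝ)) ≤ N := by
    have h4 : ((∏ p ∈ N.primeFactors, p : ℕ) : ℝ) ≤ (N : ℝ) := Nat.cast_le.mpr h2
    rwa [Nat.cast_prod] at h4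
  refine Real.log_le_log ?_ h3
  exact Finset.prod_pos fun p hp => by
    have := (Nat.prime_of_mem_primeFactors hp).pos
    positivity

/-- the geometric sums -/
private theorem S9l_geo : ∃ C : ℝ, 0 < C ∧ ∀ (y : ℕ) (x : ℝ), 0 ≤ x → x ^ 2 ≤ 1 / 2 →
    ∑ k ∈ Finset.Icc 2 y, (k : ℝ) * (k + 1) * x ^ k ≤ C * x ^ 2 := by
  set r : ℝ := Real.sqrt (1 / 2) with hr
  have hr0 : 0 < r := Real.sqrt_pos.mpr (by norm_num)
  have hr2 : r ^ 2 = 1 / 2 := Real.sq_sqrt (by norm_num)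
  have hr1 : ‖r‖ < 1 := by
    rw [Real.norm_of_nonneg hr0.le]
    nlinarith
  have hs2 : Summable fun n : ℕ => (n : ℝ) ^ 2 * r ^ n := summable_pow_mul_geometric_of_norm_lt_one 2 hr1
  have hs1 : Summable fun n : ℕ => (n : ℝ) ^ 1 * r ^ n := summable_pow_mul_geometric_of_norm_lt_one 1 hr1
  have hs : Summable fun n : ℕ => (n : ℝ) * (n + 1) * r ^ n := by
    refine (hs2.add hs1).congr fun n => ?_
    ring
  have hnn : ∀ n : ℕ, 0 ≤ (n : ℝ) * (n + 1) * r ^ n := fun n => by positivity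
  refine ⟨2 * (∑' n : ℕ, (n : ℝ) * (n + 1) * r ^ n) + 1, ?_, ?_⟩
  · have : 0 ≤ ∑' n : ℕ, (n : ℝ) * (n + 1) * r ^ n := tsum_nonneg hnn
    linarith
  · intro y x hx hx2
    have hxr : x ≤ r := by
      rw [hr]
      exact Real.le_sqrt_of_sq_le hx2
    have h1 : ∑ k ∈ Finset.Icc 2 y, (k : ℝ) * (k + 1) * x ^ k ≤
        ∑ k ∈ Finset.Icc 2 y, (2 * x ^ 2) * ((k : ℝ) * (k + 1) * r ^ k) := by
      refine Finset.sum_le_sum fun k hk => ?_
      obtain ⟨j, rfl⟩ := Nat.exists_eq_add_of_le (Finset.mem_Icc.mp hk).1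
      have h2 : x ^ j ≤ r ^ j := pow_le_pow_left₀ hx hxr j
      have h3 : x ^ (2 + j) = x ^ 2 * x ^ j := by ring
      have h4 : r ^ (2 + j) = 1 / 2 * r ^ j := by rw [pow_add, hr2]
      rw [h3, h4]
      have h5 : (2 * x ^ 2) * (((2 + j : ℕ) : ℝ) * (((2 + j : ℕ) : ℝ) + 1) * (1 / 2 * r ^ j)) =
          ((2 + j : ℕ) : ℝ) * (((2 + j : ℕ) : ℝ) + 1) * (x ^ 2 * r ^ j) := by ring
      rw [h5]
      gcongr
    refine h1.trans ?_
    rw [← Finset.mul_sum]
    have h6 : ∑ k ∈ Finset.Icc 2 y, (k : ℝ) * (k + 1) * r ^ k ≤ ∑' n : ℕ, (n : ℝ) * (n + 1) * r ^ n :=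
      hs.sum_le_tsum _ fun n _ => hnn n
    have hx2' : 0 ≤ x ^ 2 := by positivity
    nlinarith [mul_le_mul_of_nonneg_left h6 hx2']

/-- `∑ log p / p ^ (3/2)` is bounded -/
private theorem S9l_sq : ∃ C : ℝ, 0 < C ∧ ∀ y : ℕ,
    ∑ p ∈ (Finset.range (y + 1)).filter Nat.Prime, Real.log p * (p : ℝ) ^ (-(3 / 2) : ℝ) ≤ C := by
  have hs : Summable fun n : ℕ => 1 / (n : ℝ) ^ ((5 : ℝ) / 4) :=
    Real.summable_one_div_nat_rpow.mpr (by norm_num)
  have hnn : ∀ n : ℕ, 0 ≤ 1 / (n : ℝ) ^ ((5 : ℝ) / 4) := fun n => by positivity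
  refine ⟨4 * (∑' n : ℕ, 1 / (n : ℝ) ^ ((5 : ℝ) / 4)) + 1, ?_, ?_⟩
  · have : 0 ≤ ∑' n : ℕ, 1 / (n : ℝ) ^ ((5 : ℝ) / 4) := tsum_nonneg hnn
    linarith
  · intro y
    have h1 : ∑ p ∈ (Finset.range (y + 1)).filter Nat.Prime, Real.log p * (p : ℝ) ^ (-(3 / 2) : ℝ) ≤
        ∑ p ∈ (Finset.range (y + 1)).filter Nat.Prime, 4 * (1 / (p : ℝ) ^ ((5 : ℝ) / 4)) := by
      refine Finset.sum_le_sum fun p hp => ?_
      have hp0 : (0 : ℝ) < p := by exact_mod_cast (Finset.mem_filter.mp hp).2.pos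
      have h2 := Real.log_le_rpow_div hp0.le (show (0 : ℝ) < 1 / 4 by norm_num)
      have h3 : (p : ℝ) ^ ((1 : ℝ) / 4) * (p : ℝ) ^ (-(3 / 2) : ℝ) = 1 / (p : ℝ) ^ ((5 : ℝ) / 4) := by
        have h3' : 1 / (p : ℝ) ^ ((5 : ℝ) / 4) = (p : ℝ) ^ (-(5 / 4) : ℝ) := by
          rw [Real.rpow_neg hp0.le, one_div]
        rw [h3', ← Real.rpow_add hp0]
        norm_num
      have h4 : 0 < (p : ℝ) ^ (-(3 / 2) : ℝ) := by positivity
      calc Real.log p * (p : ℝ) ^ (-(3 / 2) : ℝ) ≤ ((p : ℝ) ^ ((1 : ℝ) / 4) / (1 / 4)) * (p : ℝ) ^ (-(3 / 2) : ℝ) :=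
            mul_le_mul_of_nonneg_right h2 h4.le
        _ = 4 * ((p : ℝ) ^ ((1 : ℝ) / 4) * (p : ℝ) ^ (-(3 / 2) : ℝ)) := by ring
        _ = _ := by rw [h3]
    refine h1.trans ?_
    rw [← Finset.mul_sum]
    have h6 : ∑ k ∈ (Finset.range (y + 1)).filter Nat.Prime, 1 / (k : ℝ) ^ ((5 : ℝ) / 4) ≤
        ∑' n : ℕ, 1 / (n : ℝ) ^ ((5 : ℝ) / 4) :=
      hs.sum_le_tsum _ fun n _ => hnn n
    linarith

private theorem S9l_harm (n : ℕ) : ∑ a ∈ Finset.Icc 1 n, (1 : ℝ) / a ≤ 1 + Real.log n := by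
  have h := harmonic_le_one_add_log n
  rw [harmonic_eq_sum_Icc] at h
  push_cast at h
  refine le_trans (le_of_eq ?_) h
  exact Finset.sum_congr rfl fun a _ => one_div _

private theorem S9l_swap (F : ℕ → ℕ → ℝ) (X : ℕ) :
    ∑ n ∈ Finset.Icc 1 X, ∑ k ∈ n.divisors, F k (n / k) =
      ∑ k ∈ Finset.Icc 1 X, ∑ m ∈ Finset.Icc 1 (X / k), F k m := by
  classical
  have e1 : ∀ n ∈ Finset.Icc 1 X, ∑ k ∈ n.divisors, F k (n / k) =
      ∑ k ∈ Finset.Icc 1 X, if k ∣ n then F k (n / k) else 0 := by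
    intro n hn
    rw [Finset.mem_Icc] at hn
    rw [← sum_filter]
    refine sum_congr ?_ fun _ _ => rfl
    ext k
    rw [Nat.mem_divisors, mem_filter, Finset.mem_Icc]
    constructor
    · rintro ⟨h1, h2⟩
      have := Nat.le_of_dvd (by omega) h1
      have h3 := Nat.pos_of_dvd_of_pos h1 (by omega)
      exact ⟨⟨h3, by omega⟩, h1⟩
    · rintro ⟨_, h2⟩
      exact ⟨h2, by omega⟩
  rw [sum_congr rfl e1, sum_comm]
  refine sum_congr rfl fun k hk => ?_
  rw [Finset.mem_Icc] at hk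
  have hk0 : 0 < k := by omega
  rw [← sum_filter]
  refine sum_nbij' (fun n => n / k) (fun m => k * m) ?_ ?_ ?_ ?_ ?_
  · intro n hn
    rw [mem_filter, Finset.mem_Icc] at hn
    obtain ⟨⟨h1, h2⟩, m, rfl⟩ := hn
    rw [Finset.mem_Icc, Nat.mul_div_cancel_left m hk0, Nat.le_div_iff_mul_le hk0]
    refine ⟨?_, by rw [mul_comm]; exact h2⟩
    rcases Nat.eq_zero_or_pos m with h | h
    · rw [h, mul_zero] at h1
      omega
    · exact h
  · intro m hm
    rw [Finset.mem_Icc, Nat.le_div_iff_mul_le hk0] at hm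
    rw [mem_filter, Finset.mem_Icc]
    exact ⟨⟨Nat.mul_pos hk0 hm.1, by rw [mul_comm]; exact hm.2⟩, dvd_mul_right k m⟩
  · intro n hn
    rw [mem_filter] at hn
    exact Nat.mul_div_cancel' hn.2
  · intro m _
    exact Nat.mul_div_cancel_left m hk0
  · intro n _
    rfl

/-- the trivial bound -/
private theorem S9l_triv {N : ℕ} {c : ℕ → ℝ} (hc : RC N c) (w : ℕ) : SS c w ≤ w * (1 + Real.log w) := by
  have habs : ∀ n, c n ≤ 1 := by
    intro n
    by_cases h : n.Coprime N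
    · rcases hc.val n h with h1 | h1 <;> rw [h1] <;> norm_num
    · rw [hc.zero n h]
      norm_num
  have h1 : SS c w ≤ ∑ n ∈ Finset.Icc 1 w, ∑ _k ∈ n.divisors, (1 : ℝ) := by
    unfold SS rr
    exact sum_le_sum fun n _ => sum_le_sum fun d _ => habs d
  refine h1.trans ?_
  rw [S9l_swap (fun _ _ => (1 : ℝ))]
  have h2 : ∑ k ∈ Finset.Icc 1 w, ∑ _m ∈ Finset.Icc 1 (w / k), (1 : ℝ) ≤
      ∑ k ∈ Finset.Icc 1 w, (w : ℝ) * (1 / k) := by
    refine sum_le_sum fun k _ => ?_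
    rw [sum_const, Nat.card_Icc, nsmul_eq_mul, mul_one, Nat.add_sub_cancel, mul_one_div]
    exact Nat.cast_div_le
  refine h2.trans ?_
  rw [← mul_sum]
  exact mul_le_mul_of_nonneg_left (S9l_harm w) (Nat.cast_nonneg w)

/-- the lower bound -/
private theorem S9l_lower (N : ℕ) (c : ℕ → ℝ) (hc : RC N c) (y : ℕ) (hy : 100 ≤ y) :
    (Real.log y - Real.log 100) * (SS c y - SS c (y / 100)) ≤
      ∑ n ∈ Finset.Icc 1 y, rr c n * Real.log n := by
  have hy1 : (100 : ℝ) ≤ y := by exact_mod_cast hy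
  set s : ℕ := y / 100 with hs
  have hsy : s ≤ y := Nat.div_le_self y 100
  have hsplit : SS c y - SS c s = ∑ n ∈ Finset.Ioc s y, rr c n := by
    unfold SS
    have h : Finset.Icc 1 y = Finset.Icc 1 s ∪ Finset.Ioc s y := by
      ext n
      simp only [Finset.mem_union, Finset.mem_Icc, Finset.mem_Ioc]
      omega
    rw [h, Finset.sum_union]
    · ring
    · rw [Finset.disjoint_left]
      intro n h1 h2
      rw [Finset.mem_Icc] at h1
      rw [Finset.mem_Ioc] at h2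
      omega
  rw [hsplit, Finset.mul_sum]
  calc ∑ n ∈ Finset.Ioc s y, (Real.log y - Real.log 100) * rr c n
      ≤ ∑ n ∈ Finset.Ioc s y, rr c n * Real.log n := by
        refine Finset.sum_le_sum fun n hn => ?_
        have hn1 := (Finset.mem_Ioc.mp hn).1
        have hr := Pool.Agent.Lib.RG.rr_nonneg N c hc n
        have hn2 : y ≤ n * 100 := by omega
        have hn3 : Real.log y ≤ Real.log n + Real.log 100 := by
          have hn0 : (0 : ℝ) < n := by
            have : 0 < n := by omega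
            exact_mod_cast this
          rw [← Real.log_mul hn0.ne' (by norm_num)]
          exact Real.log_le_log (by linarith) (by exact_mod_cast hn2)
        rw [mul_comm]
        exact mul_le_mul_of_nonneg_left (by linarith) hr
    _ ≤ ∑ n ∈ Finset.Icc 1 y, rr c n * Real.log n := by
        refine Finset.sum_le_sum_of_subset_of_nonneg ?_ fun n hn _ => ?_
        · intro n hn
          rw [Finset.mem_Ioc] at hn
          rw [Finset.mem_Icc]
          omega
        · have := (Finset.mem_Icc.mp hn).1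
          exact mul_nonneg (Pool.Agent.Lib.RG.rr_nonneg N c hc n) (Real.log_nonneg (by exact_mod_cast this))

theorem S9l {k : ℕ} {β : ℝ} (hP : Par k β) (B : ℕ) (c : ℝ) (hc : 0 < c) (hc1 : c ≤ 1 / (100 * k)) : ∃ N0 : ℕ, ∀ N : ℕ,
    N0 ≤ N → ∀ (c₀ : ℕ → ℝ) (L : ℝ), Sitl B N β c₀ L → ∀ y : ℕ, pw N (1 / 2 - 2 / k) ≤ y → y ≤ N →
    1 / 5 * (Real.log N * (L * y)) ≤
      ∑ q ∈ (Finset.range (y + 1)).filter (fun q => q.Prime ∧ pw N c < q ∧ c₀ q = 1),
        Real.log q * SS c₀ (y / q) := by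
  classical
  have hβ := hP.pos
  have hβ1 := hP.le
  have hk40 := hP.big
  have hk0 : (0 : ℝ) < k := by
    by_contra h
    push Not at h
    have : (k : ℝ) = 0 := le_antisymm h (Nat.cast_nonneg k)
    rw [this, mul_zero] at hk40
    linarith
  have hk1 : (1000 : ℝ) ≤ k := by nlinarith
  have h2k : 2 / (k : ℝ) ≤ β / 20 := by
    rw [div_le_div_iff₀ hk0 (by norm_num)]
    linarith
  obtain ⟨N1, hS2⟩ := S2l β hβ hβ1
  obtain ⟨C3, hC3, hgeo⟩ := S9l_geo
  obtain ⟨C5, hC5, hsq⟩ := S9l_sq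
  obtain ⟨N2, hN2⟩ := sz_log B 100 (β / 2) (by positivity)
  obtain ⟨N3, hN3⟩ := sz_log (B + 2) 4 c hc
  obtain ⟨N4, hN4⟩ := sz_log (B + 1) (2 * (C3 * C5)) (β / 40) (by positivity)
  obtain ⟨N5, hN5⟩ := sz_log 0 4 (β / 10) (by positivity)
  have hlog4 : 0 < Real.log 4 := Real.log_pos (by norm_num)
  have hlog2 : 0 < Real.log 2 := Real.log_pos (by norm_num)
  have hlog100 : 0 < Real.log 100 := Real.log_pos (by norm_num)
  have hprod : 0 < C3 * C5 := by positivity
  obtain ⟨N6, hN6⟩ : ∃ N6 : ℕ, ∀ N : ℕ, N6 ≤ N →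
      100 * (3 * Real.log 4 + 2 + 2 * (C3 * C5) + Real.log 2 + Real.log 100) ≤ Real.log N :=
    Filter.eventually_atTop.1 ((Real.tendsto_log_atTop.comp tendsto_natCast_atTop_atTop).eventually_ge_atTop _)
  obtain ⟨N7, hN7⟩ : ∃ N7 : ℕ, ∀ N : ℕ, N7 ≤ N → (400 : ℝ) ≤ (N : ℝ) ^ ((1 : ℝ) / 4) :=
    Filter.eventually_atTop.1
      (((tendsto_rpow_atTop (by norm_num)).comp tendsto_natCast_atTop_atTop).eventually_ge_atTop 400)
  refine ⟨N1 + N2 + N3 + N4 + N5 + N6 + N7 + 2, ?_⟩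
  intro N hN c₀ L hsit y hylow hyup
  have f2 := hN2 N (by omega)
  have f3 := hN3 N (by omega)
  have f4 := hN4 N (by omega)
  have f5 := hN5 N (by omega)
  have f6 := hN6 N (by omega)
  have f7 := hN7 N (by omega)
  rw [pow_zero, mul_one] at f5
  have hRC := hsit.rc
  have hLκ := hsit.low
  set K := Real.log (N : ℝ) with hKdef
  have hK100 : 100 ≤ K := by linarith
  have hK0 : 0 < K := by linarith
  have hN1r : (1 : ℝ) ≤ N := by exact_mod_cast (by omega : 1 ≤ N)
  have hNpos : (0 : ℝ) < N := by linarith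
  have hKB : 0 < K ^ B := by positivity
  have hL0 : 0 < L := lt_of_lt_of_le (by positivity) hLκ
  have hLK : 1 ≤ L * K ^ B := by
    have h := mul_le_mul_of_nonneg_right hLκ hKB.le
    rwa [inv_mul_cancel₀ hKB.ne'] at h
  -- `N^(-β/2) ≤ L/100`
  have hNβ : (N : ℝ) ^ (-(β / 2)) ≤ L / 100 := by
    rw [Real.rpow_neg hNpos.le, inv_le_comm₀ (by positivity) (by positivity), inv_div]
    rw [div_le_iff₀ hL0]
    calc (100 : ℝ) ≤ 100 * (L * K ^ B) := by linarith
      _ = (100 * K ^ B) * L := by ring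
      _ ≤ (N : ℝ) ^ (β / 2) * L := mul_le_mul_of_nonneg_right f2 hL0.le
  -- sizes
  obtain ⟨Z, hZ⟩ : ∃ Z : ℝ, Z = (N : ℝ) ^ (β / 10) := ⟨_, rfl⟩
  have hZ4 : 4 ≤ Z := by rw [hZ]; exact f5
  have hZ0 : 0 < Z := by linarith
  obtain ⟨Y0, hY0⟩ : ∃ Y0 : ℝ, Y0 = (N : ℝ) ^ (1 / 2 - β / 20) := ⟨_, rfl⟩
  have hY0400 : 400 ≤ Y0 := by
    rw [hY0]
    exact f7.trans (Real.rpow_le_rpow_of_exponent_le hN1r (by linarith))
  have hYy : Y0 / 2 ≤ y := by
    have h1 : (N : ℝ) ^ (1 / 2 - 2 / k : ℝ) < ((pw N (1 / 2 - 2 / k) : ℕ) : ℝ) + 1 := Nat.lt_floor_add_one _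
    have h2 : ((pw N (1 / 2 - 2 / k) : ℕ) : ℝ) ≤ y := by exact_mod_cast hylow
    have h3 : Y0 ≤ (N : ℝ) ^ (1 / 2 - 2 / k : ℝ) := by
      rw [hY0]
      exact Real.rpow_le_rpow_of_exponent_le hN1r (by linarith)
    linarith
  have hy200 : (200 : ℝ) ≤ y := by linarith
  have hy0 : (0 : ℝ) < y := by linarith
  have hy100' : 100 ≤ y := by
    have : (100 : ℝ) ≤ y := by linarith
    exact_mod_cast this
  have hyN : (y : ℝ) ≤ N := by exact_mod_cast hyup
  -- the summatory function at `y / m`, `m ≤ Z`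
  have hmid : ∀ m : ℕ, 1 ≤ m → (m : ℝ) ≤ Z → |SS c₀ (y / m) - L * ((y / m : ℕ) : ℝ)| ≤ ((y / m : ℕ) : ℝ) * (L / 100) := by
    intro m hm hmZ
    have hm0 : (0 : ℝ) < m := by exact_mod_cast hm
    have h1 : (y : ℝ) / m - 1 < ((y / m : ℕ) : ℝ) := by
      have h2 : y < m * (y / m + 1) := Nat.lt_mul_div_succ y (by omega)
      have h3 : (y : ℝ) < m * (((y / m : ℕ) : ℝ) + 1) := by exact_mod_cast h2
      have h4 : (y : ℝ) / m < ((y / m : ℕ) : ℝ) + 1 := by
        rw [div_lt_iff₀ hm0, mul_comm]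
        exact h3
      linarith
    have h2 : Y0 / (2 * Z) ≤ (y : ℝ) / m := by
      rw [div_le_div_iff₀ (by positivity) hm0]
      nlinarith
    have h3 : (N : ℝ) ^ (1 / 2 - β / 4) ≤ Y0 / (4 * Z) := by
      rw [le_div_iff₀ (by positivity)]
      have h4 : (N : ℝ) ^ (1 / 2 - β / 4) * (Z * Z) = Y0 := by
        rw [hY0, hZ, ← Real.rpow_add hNpos, ← Real.rpow_add hNpos]
        congr 1
        ring
      have h5 : 0 ≤ (N : ℝ) ^ (1 / 2 - β / 4) * Z := by positivity
      calc (N : ℝ) ^ (1 / 2 - β / 4) * (4 * Z) = 4 * ((N : ℝ) ^ (1 / 2 - β / 4) * Z) := by ring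
        _ ≤ Z * ((N : ℝ) ^ (1 / 2 - β / 4) * Z) := mul_le_mul_of_nonneg_right hZ4 h5
        _ = Y0 := by rw [← h4]; ring
    have h6 : (1 : ℝ) ≤ (N : ℝ) ^ (1 / 2 - β / 4) := Real.one_le_rpow hN1r (by linarith)
    have h7 : Y0 / (2 * Z) = 2 * (Y0 / (4 * Z)) := by
      field_simp
      ring
    have h8 : (N : ℝ) ^ (1 / 2 - β / 4) ≤ ((y / m : ℕ) : ℝ) := by linarith
    have h9 : ((y / m : ℕ) : ℝ) ≤ (N : ℝ) ^ 2 := by
      have h10 : ((y / m : ℕ) : ℝ) ≤ y := by exact_mod_cast Nat.div_le_self y m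
      nlinarith
    refine (hS2 N (by omega) c₀ L hRC hsit.lv hsit.spv (y / m) h8 h9).trans ?_
    exact mul_le_mul_of_nonneg_left hNβ (Nat.cast_nonneg _)
  have hup : ∀ m : ℕ, 1 ≤ m → (m : ℝ) ≤ Z → SS c₀ (y / m) ≤ 101 / 100 * (L * y * (1 / m)) := by
    intro m hm hmZ
    have h1 := (abs_le.1 (hmid m hm hmZ)).2
    have h2 : ((y / m : ℕ) : ℝ) ≤ y / m := Nat.cast_div_le
    calc SS c₀ (y / m) ≤ 101 / 100 * (L * ((y / m : ℕ) : ℝ)) := by linarith
      _ ≤ 101 / 100 * (L * (y / m)) := by gcongr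
      _ = _ := by ring
  -- all `m`
  have htriv : ∀ m : ℕ, 1 ≤ m → SS c₀ (y / m) ≤ y * (1 + K) * (1 / m) := by
    intro m hm
    have h2 : ((y / m : ℕ) : ℝ) ≤ y / m := Nat.cast_div_le
    have h3 : Real.log ((y / m : ℕ) : ℝ) ≤ K := by
      rcases Nat.eq_zero_or_pos (y / m) with h | h
      · rw [h, Nat.cast_zero, Real.log_zero]
        linarith
      · refine Real.log_le_log (by exact_mod_cast h) ?_
        exact_mod_cast (Nat.div_le_self y m).trans hyup
    calc SS c₀ (y / m) ≤ ((y / m : ℕ) : ℝ) * (1 + Real.log ((y / m : ℕ) : ℝ)) := S9l_triv hRC _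
      _ ≤ ((y / m : ℕ) : ℝ) * (1 + K) := mul_le_mul_of_nonneg_left (by linarith) (Nat.cast_nonneg _)
      _ ≤ (y / m) * (1 + K) := mul_le_mul_of_nonneg_right h2 (by linarith)
      _ = _ := by ring
  obtain ⟨η, hη⟩ : ∃ η : ℝ, η = (N : ℝ) ^ (-(β / 40)) := ⟨_, rfl⟩
  have hη0 : 0 < η := by rw [hη]; positivity
  have hall : ∀ m : ℕ, 1 ≤ m → SS c₀ (y / m) ≤ 2 * (L * y) * (1 / m) +
      y * (1 + K) * η * (m : ℝ) ^ (-(3 / 4) : ℝ) := by
    intro m hm
    have hm0 : (0 : ℝ) < m := by exact_mod_cast hm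
    have hp1 : (0 : ℝ) ≤ 2 * (L * y) * (1 / m) := by positivity
    have hp2 : (0 : ℝ) ≤ y * (1 + K) * η * (m : ℝ) ^ (-(3 / 4) : ℝ) := by positivity
    rcases le_or_gt (m : ℝ) Z with h | h
    · have h1 := hup m hm h
      have h2 : 0 ≤ L * y * (1 / (m : ℝ)) := by positivity
      nlinarith
    · have h1 := htriv m hm
      have h2 : 1 / (m : ℝ) ≤ η * (m : ℝ) ^ (-(3 / 4) : ℝ) := by
        have h3 : (m : ℝ) ^ (-(1 / 4) : ℝ) ≤ Z ^ (-(1 / 4) : ℝ) :=
          Real.rpow_le_rpow_of_nonpos hZ0 h.le (by norm_num)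
        have h4 : Z ^ (-(1 / 4) : ℝ) = η := by
          rw [hZ, hη, ← Real.rpow_mul hNpos.le]
          congr 1
          ring
        have h5 : 1 / (m : ℝ) = (m : ℝ) ^ (-(1 / 4) : ℝ) * (m : ℝ) ^ (-(3 / 4) : ℝ) := by
          rw [← Real.rpow_add hm0]
          norm_num
          rw [Real.rpow_neg_one]
        rw [h5, ← h4]
        exact mul_le_mul_of_nonneg_right h3 (by positivity)
      have h6 : 0 ≤ (y : ℝ) * (1 + K) := by positivity
      calc SS c₀ (y / m) ≤ y * (1 + K) * (1 / m) := h1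
        _ ≤ y * (1 + K) * (η * (m : ℝ) ^ (-(3 / 4) : ℝ)) := mul_le_mul_of_nonneg_left h2 h6
        _ = y * (1 + K) * η * (m : ℝ) ^ (-(3 / 4) : ℝ) := by ring
        _ ≤ _ := by linarith
  -- z
  set z : ℕ := pw N c with hz
  have hzup : (z : ℝ) ≤ (N : ℝ) ^ c := Nat.floor_le (by positivity)
  have hzlow : 2 * K ^ (B + 2) ≤ z := by
    have h1 : (N : ℝ) ^ c < (z : ℝ) + 1 := Nat.lt_floor_add_one _
    have h2 : (1 : ℝ) ≤ K ^ (B + 2) := one_le_pow₀ (by linarith)
    linarith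
  have hKB2 : (1 : ℝ) ≤ K ^ (B + 2) := one_le_pow₀ (by linarith)
  have hz2 : (2 : ℝ) ≤ z := by linarith
  have hz1 : 1 ≤ z := by
    have : (1 : ℝ) ≤ z := by linarith
    exact_mod_cast this
  have hz0 : (0 : ℝ) < z := by linarith
  have hc1000 : c ≤ 1 / 1000 := by
    refine hc1.trans ?_
    exact one_div_le_one_div_of_le (by norm_num) (by linarith)
  have hlogz : Real.log z ≤ 1 / 1000 * K := by
    have h := Real.log_le_log hz0 hzup
    rw [Real.log_rpow hNpos] at h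
    exact h.trans (mul_le_mul_of_nonneg_right hc1000 hK0.le)
  have hlogz0 : 0 ≤ Real.log z := Real.log_nonneg (by linarith)
  have hcβ : c ≤ β / 10 := by
    refine hc1.trans ?_
    rw [div_le_div_iff₀ (by positivity) (by norm_num)]
    nlinarith
  have hzZ : (z : ℝ) ≤ Z := by
    rw [hZ]
    exact hzup.trans (Real.rpow_le_rpow_of_exponent_le hN1r hcβ)
  -- first sum
  have hS1 : ∑ p ∈ (Finset.range (z + 1)).filter Nat.Prime, Real.log p * SS c₀ (y / p) ≤
      101 / 100 * (L * y) * (Real.log z + Real.log 4) := by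
    calc ∑ p ∈ (Finset.range (z + 1)).filter Nat.Prime, Real.log p * SS c₀ (y / p)
        ≤ ∑ p ∈ (Finset.range (z + 1)).filter Nat.Prime, 101 / 100 * (L * y) * (Real.log p / p) := by
          refine Finset.sum_le_sum fun p hp => ?_
          rw [mem_filter, mem_range] at hp
          have hp1 := hp.2.one_lt
          have hp0 : (1 : ℝ) ≤ p := by exact_mod_cast hp1.le
          have hpz : (p : ℝ) ≤ z := by exact_mod_cast (by omega : p ≤ z)
          have h := mul_le_mul_of_nonneg_left (hup p hp1.le (hpz.trans hzZ)) (Real.log_nonneg hp0)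
          refine h.trans (le_of_eq ?_)
          ring
      _ = 101 / 100 * (L * y) * (∑ p ∈ (Finset.range (z + 1)).filter Nat.Prime, Real.log p / p) := by
          rw [Finset.mul_sum]
      _ ≤ _ := mul_le_mul_of_nonneg_left (S9l_mert z hz1) (by positivity)
  -- second sum
  have hS2' : ∑ p ∈ N.primeFactors.filter (fun p => z < p), Real.log p * SS c₀ (y / p) ≤ L * y := by
    have hlogs : ∑ p ∈ N.primeFactors.filter (fun p => z < p), Real.log p ≤ K := by
      refine le_trans ?_ (S9l_logN N (by omega))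
      refine Finset.sum_le_sum_of_subset_of_nonneg (Finset.filter_subset _ _) fun p hp _ => ?_
      have := (Nat.prime_of_mem_primeFactors hp).one_lt
      exact Real.log_nonneg (by exact_mod_cast this.le)
    calc ∑ p ∈ N.primeFactors.filter (fun p => z < p), Real.log p * SS c₀ (y / p)
        ≤ ∑ p ∈ N.primeFactors.filter (fun p => z < p), (y * (1 + K) * (1 / z)) * Real.log p := by
          refine Finset.sum_le_sum fun p hp => ?_
          obtain ⟨hp', hzp⟩ := Finset.mem_filter.mp hp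
          have hp1 := (Nat.prime_of_mem_primeFactors hp').one_lt
          have hp0 : (1 : ℝ) ≤ p := by exact_mod_cast hp1.le
          have hlog := Real.log_nonneg hp0
          rw [mul_comm]
          refine mul_le_mul_of_nonneg_right ((htriv p hp1.le).trans ?_) hlog
          refine mul_le_mul_of_nonneg_left ?_ (by positivity)
          exact one_div_le_one_div_of_le hz0 (by exact_mod_cast hzp.le)
      _ = (y * (1 + K) * (1 / z)) * ∑ p ∈ N.primeFactors.filter (fun p => z < p), Real.log p := by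
          rw [Finset.mul_sum]
      _ ≤ (y * (1 + K) * (1 / z)) * K := mul_le_mul_of_nonneg_left hlogs (by positivity)
      _ ≤ L * y := by
          have h1 : (1 + K) * K ≤ L * z := by
            have h2 : (1 + K) * K ≤ 2 * K ^ 2 := by nlinarith
            have h3 : 2 * K ^ 2 ≤ L * (2 * K ^ (B + 2)) := by
              have e : L * (2 * K ^ (B + 2)) = (L * K ^ B) * (2 * K ^ 2) := by
                rw [pow_add]
                ring
              rw [e]
              exact le_mul_of_one_le_left (by positivity) hLK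
            exact h2.trans (h3.trans (mul_le_mul_of_nonneg_left hzlow hL0.le))
          calc (y * (1 + K) * (1 / z)) * K = y * ((1 + K) * K) / z := by ring
            _ ≤ y * (L * z) / z := by gcongr
            _ = L * y := by
                field_simp
  -- third sum
  have hS3 : ∑ p ∈ (Finset.range (y + 1)).filter Nat.Prime, ∑ k ∈ Finset.Icc 2 y,
        (k : ℝ) * (k + 1) * Real.log p * SS c₀ (y / p ^ k) ≤ L * y * (2 * (C3 * C5)) + L * y := by
    have hA : ∑ p ∈ (Finset.range (y + 1)).filter Nat.Prime, ∑ k ∈ Finset.Icc 2 y,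
        (k : ℝ) * (k + 1) * Real.log p * SS c₀ (y / p ^ k) ≤
        ∑ p ∈ (Finset.range (y + 1)).filter Nat.Prime,
          (2 * (L * y) + y * (1 + K) * η) * C3 * (Real.log p * (p : ℝ) ^ (-(3 / 2) : ℝ)) := by
      refine Finset.sum_le_sum fun p hp => ?_
      have hp1 := (Finset.mem_filter.mp hp).2.two_le
      have hp2 : (2 : ℝ) ≤ p := by exact_mod_cast hp1
      have hp0 : (0 : ℝ) < p := by linarith
      have hlog := Real.log_nonneg (by linarith : (1 : ℝ) ≤ p)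
      obtain ⟨x, hx⟩ : ∃ x : ℝ, x = (p : ℝ) ^ (-(3 / 4) : ℝ) := ⟨_, rfl⟩
      have hx0 : 0 < x := by rw [hx]; positivity
      have hx2 : x ^ 2 = (p : ℝ) ^ (-(3 / 2) : ℝ) := by
        rw [hx, ← Real.rpow_natCast, ← Real.rpow_mul hp0.le]
        congr 1
        push_cast
        ring
      have hx2' : x ^ 2 ≤ 1 / 2 := by
        rw [hx2]
        calc (p : ℝ) ^ (-(3 / 2) : ℝ) ≤ (p : ℝ) ^ (-1 : ℝ) :=
              Real.rpow_le_rpow_of_exponent_le (by linarith) (by norm_num)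
          _ = 1 / p := by rw [Real.rpow_neg_one, one_div]
          _ ≤ 1 / 2 := one_div_le_one_div_of_le (by norm_num) hp2
      have hpx : 1 / (p : ℝ) ≤ x := by
        rw [hx]
        calc 1 / (p : ℝ) = (p : ℝ) ^ (-1 : ℝ) := by rw [Real.rpow_neg_one, one_div]
          _ ≤ (p : ℝ) ^ (-(3 / 4) : ℝ) := Real.rpow_le_rpow_of_exponent_le (by linarith) (by norm_num)
      have g := hgeo y x hx0.le hx2'
      rw [hx2] at g
      calc ∑ k ∈ Finset.Icc 2 y, (k : ℝ) * (k + 1) * Real.log p * SS c₀ (y / p ^ k)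
          ≤ ∑ k ∈ Finset.Icc 2 y, (2 * (L * y) + y * (1 + K) * η) * Real.log p * ((k : ℝ) * (k + 1) * x ^ k) := by
            refine Finset.sum_le_sum fun k _ => ?_
            have hpk : 1 ≤ p ^ k := Nat.one_le_pow _ _ (by omega)
            have h0 : 0 ≤ (k : ℝ) * (k + 1) * Real.log p := by positivity
            have h1 : SS c₀ (y / p ^ k) ≤ (2 * (L * y) + y * (1 + K) * η) * x ^ k := by
              refine (hall (p ^ k) hpk).trans ?_
              have h2 : (((p ^ k : ℕ) : ℝ)) ^ (-(3 / 4) : ℝ) = x ^ k := by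
                rw [hx, ← Real.rpow_natCast _ k, ← Real.rpow_mul hp0.le]
                push_cast
                rw [← Real.rpow_natCast (p : ℝ) k, ← Real.rpow_mul hp0.le]
                congr 1
                ring
              have h3 : 1 / ((p ^ k : ℕ) : ℝ) ≤ x ^ k := by
                push_cast
                rw [← one_div_pow]
                exact pow_le_pow_left₀ (by positivity) hpx k
              rw [h2, add_mul]
              have h4 : 2 * (L * y) * (1 / ((p ^ k : ℕ) : ℝ)) ≤ 2 * (L * y) * x ^ k :=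
                mul_le_mul_of_nonneg_left h3 (by positivity)
              linarith
            refine (mul_le_mul_of_nonneg_left h1 h0).trans (le_of_eq ?_)
            ring
        _ = (2 * (L * y) + y * (1 + K) * η) * Real.log p * (∑ k ∈ Finset.Icc 2 y, (k : ℝ) * (k + 1) * x ^ k) := by
            rw [Finset.mul_sum]
        _ ≤ (2 * (L * y) + y * (1 + K) * η) * Real.log p * (C3 * (p : ℝ) ^ (-(3 / 2) : ℝ)) :=
            mul_le_mul_of_nonneg_left g (by positivity)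
        _ = _ := by ring
    refine hA.trans ?_
    rw [← Finset.mul_sum]
    have h5 := hsq y
    have h6 : (2 * (L * y) + y * (1 + K) * η) * C3 * ∑ p ∈ (Finset.range (y + 1)).filter Nat.Prime,
        (Real.log p * (p : ℝ) ^ (-(3 / 2) : ℝ)) ≤ (2 * (L * y) + y * (1 + K) * η) * C3 * C5 :=
      mul_le_mul_of_nonneg_left h5 (by positivity)
    refine h6.trans ?_
    have h7 : (1 + K) * η * (C3 * C5) ≤ L := by
      have h8 : η * (N : ℝ) ^ (β / 40) = 1 := by
        rw [hη, ← Real.rpow_add hNpos, neg_add_cancel, Real.rpow_zero]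
      have h9 : (1 + K) * (C3 * C5) ≤ L * (2 * (C3 * C5) * K ^ (B + 1)) := by
        have e : L * (2 * (C3 * C5) * K ^ (B + 1)) = (L * K ^ B) * (2 * (C3 * C5) * K) := by
          rw [pow_succ]
          ring
        rw [e]
        have h10 : (1 + K) * (C3 * C5) ≤ 2 * (C3 * C5) * K := by nlinarith
        exact h10.trans (le_mul_of_one_le_left (by positivity) hLK)
      calc (1 + K) * η * (C3 * C5) = η * ((1 + K) * (C3 * C5)) := by ring
        _ ≤ η * (L * (2 * (C3 * C5) * K ^ (B + 1))) := mul_le_mul_of_nonneg_left h9 hη0.le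
        _ ≤ η * (L * (N : ℝ) ^ (β / 40)) := by gcongr
        _ = L * (η * (N : ℝ) ^ (β / 40)) := by ring
        _ = L := by rw [h8, mul_one]
    have h11 := mul_le_mul_of_nonneg_left h7 hy0.le
    calc (2 * (L * y) + y * (1 + K) * η) * C3 * C5 = L * y * (2 * (C3 * C5)) + y * ((1 + K) * η * (C3 * C5)) := by ring
      _ ≤ L * y * (2 * (C3 * C5)) + y * L := by linarith
      _ = _ := by ring
  -- left side
  have hA1 := hmid 1 (le_refl 1) (by push_cast; linarith)
  rw [Nat.div_one] at hA1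
  have hZ100 : (100 : ℝ) ≤ Z := by
    -- `Z^... `
    have h1 : 4 * K ^ (B + 2) ≤ (N : ℝ) ^ c := f3
    have h2 : (N : ℝ) ^ c ≤ Z := by
      rw [hZ]
      exact Real.rpow_le_rpow_of_exponent_le hN1r hcβ
    have h3 : K ≤ K ^ (B + 2) := le_self_pow₀ (by linarith) (by omega)
    linarith
  have hA2 := hup 100 (by norm_num) (by push_cast; exact hZ100)
  push_cast at hA2
  have hLy : 0 < L * y := by positivity
  have hleft : 97 / 100 * (L * y) ≤ SS c₀ y - SS c₀ (y / 100) := by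
    have h1 := (abs_le.1 hA1).1
    linarith
  have hlogy0 : 0 ≤ Real.log y - Real.log 100 := by
    have := Real.log_le_log (by norm_num : (0 : ℝ) < 100) (by linarith : (100 : ℝ) ≤ y)
    linarith
  have hlogy : 49 / 100 * K - Real.log 2 ≤ Real.log y := by
    have h := Real.log_le_log (by positivity : (0 : ℝ) < Y0 / 2) hYy
    rw [Real.log_div (by linarith) (by norm_num), hY0, Real.log_rpow hNpos] at h
    have h2 : 49 / 100 * K ≤ (1 / 2 - β / 20) * K := mul_le_mul_of_nonneg_right (by linarith) hK0.le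
    linarith
  have hcheb := Pool.Agent.Lib.RG.cheb_upper N c₀ hRC z y
  have hlow := S9l_lower N c₀ hRC y hy100'
  set T : ℝ := ∑ q ∈ (Finset.range (y + 1)).filter (fun q => q.Prime ∧ z < q ∧ c₀ q = 1),
      Real.log q * SS c₀ (y / q) with hT
  have h1 : (Real.log y - Real.log 100) * (97 / 100 * (L * y)) ≤
      2 * (101 / 100 * (L * y) * (Real.log z + Real.log 4)) + L * y + 2 * T +
        (L * y * (2 * (C3 * C5)) + L * y) := by
    have h2 := mul_le_mul_of_nonneg_left hleft hlogy0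
    linarith
  have h2 : 1 / 5 * K * 2 ≤ (Real.log y - Real.log 100) * (97 / 100) -
      (202 / 100 * (Real.log z + Real.log 4) + 2 + 2 * (C3 * C5)) := by
    linarith
  have h3 := mul_le_mul_of_nonneg_right h2 hLy.le
  have h4 : 2 * (1 / 5 * (K * (L * y))) ≤ 2 * T := by
    calc 2 * (1 / 5 * (K * (L * y))) = 1 / 5 * K * 2 * (L * y) := by ring
      _ ≤ _ := h3
      _ = (Real.log y - Real.log 100) * (97 / 100 * (L * y)) -
        (2 * (101 / 100 * (L * y) * (Real.log z + Real.log 4)) + L * y + (L * y * (2 * (C3 * C5)) + L * y)) := by ring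
      _ ≤ 2 * T := by linarith
  linarith

end Pool.Agent.Lib.PL
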