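import Pool.Agent.Lib.MP_7b7e48_nt.PL.Defs

/-!
# TAU: mean square of the divisor function

PROOF. `τ(m)² = #{(a,b) : a ∣ m, b ∣ m}` and `a ∣ m, b ∣ m` iff `lcm(a,b) ∣ m`. So `∑_{m≤x} τ(m)² ≤ ∑_{a,b≤x} x/lcm(a,b) = x ∑ gcd(a,b)/(ab)`, and (`gcd = g`, `a = g a'`, `b = g b'`)
`∑_{a,b ≤ x} gcd(a,b)/(ab) ≤ ∑_{g≤x} (1/g) (∑_{a'≤x} 1/a')² ≤ (1 + log x)³` (`harmonic_le_one_add_log`).
-/

set_option autoImplicit false

open Finset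
open Pool.Agent.Lib.GT (Rough pr V)
open Pool.Agent.Lib.MP_45349e_nt.LS (lam)
open Pool.Agent.Lib.RG (RC LV rr SS PB sig)

namespace Pool.Agent.Lib.PL

open Pool.Agent.Lib.PQ

private theorem TAU_harm (x : ℕ) : ∑ n ∈ Finset.Icc 1 x, 1 / (n : ℝ) ≤ 1 + Real.log x := by
  have h1 := harmonic_le_one_add_log x
  rw [harmonic_eq_sum_Icc] at h1
  push_cast at h1
  refine le_trans (le_of_eq ?_) h1
  exact Finset.sum_congr rfl fun n _ => one_div _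

theorem lcm_sum (x : ℕ) (hx : 1 ≤ x) :
    ∑ a ∈ Finset.Icc 1 x, ∑ b ∈ Finset.Icc 1 x, 1 / ((Nat.lcm a b : ℕ) : ℝ) ≤ (1 + Real.log x) ^ 3 := by
  classical
  set I : Finset ℕ := Finset.Icc 1 x with hI
  set F : ℕ × ℕ × ℕ → ℝ := fun q => 1 / (q.1 : ℝ) * (1 / (q.2.1 : ℝ) * (1 / (q.2.2 : ℝ))) with hF
  set φ : ℕ × ℕ → ℕ × ℕ × ℕ := fun p => (Nat.gcd p.1 p.2, p.1 / Nat.gcd p.1 p.2, p.2 / Nat.gcd p.1 p.2) with hφ
  have hmem : ∀ p ∈ I ×ˢ I, 1 ≤ p.1 ∧ p.1 ≤ x ∧ 1 ≤ p.2 ∧ p.2 ≤ x := by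
    intro p hp
    rw [mem_product, hI, mem_Icc, mem_Icc] at hp
    exact ⟨hp.1.1, hp.1.2, hp.2.1, hp.2.2⟩
  have hinj : Set.InjOn φ ((I ×ˢ I : Finset (ℕ × ℕ)) : Set (ℕ × ℕ)) := by
    intro p hp p' hp' h
    simp only [hφ, Prod.mk.injEq] at h
    obtain ⟨h1, h2, h3⟩ := h
    have e1 : p.1 / Nat.gcd p.1 p.2 * Nat.gcd p.1 p.2 = p.1 := Nat.div_mul_cancel (Nat.gcd_dvd_left _ _)
    have e2 : p.2 / Nat.gcd p.1 p.2 * Nat.gcd p.1 p.2 = p.2 := Nat.div_mul_cancel (Nat.gcd_dvd_right _ _)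
    have e1' : p'.1 / Nat.gcd p'.1 p'.2 * Nat.gcd p'.1 p'.2 = p'.1 := Nat.div_mul_cancel (Nat.gcd_dvd_left _ _)
    have e2' : p'.2 / Nat.gcd p'.1 p'.2 * Nat.gcd p'.1 p'.2 = p'.2 := Nat.div_mul_cancel (Nat.gcd_dvd_right _ _)
    refine Prod.ext ?_ ?_
    · rw [← e1, ← e1', h2, h1]
    · rw [← e2, ← e2', h3, h1]
  have hval : ∀ p ∈ I ×ˢ I, 1 / ((Nat.lcm p.1 p.2 : ℕ) : ℝ) = F (φ p) := by
    intro p hp
    obtain ⟨h1, -, h2, -⟩ := hmem p hp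
    have hg : 0 < Nat.gcd p.1 p.2 := Nat.gcd_pos_of_pos_left _ h1
    have e1 : p.1 / Nat.gcd p.1 p.2 * Nat.gcd p.1 p.2 = p.1 := Nat.div_mul_cancel (Nat.gcd_dvd_left _ _)
    have e2 : p.2 / Nat.gcd p.1 p.2 * Nat.gcd p.1 p.2 = p.2 := Nat.div_mul_cancel (Nat.gcd_dvd_right _ _)
    have e3 : Nat.gcd p.1 p.2 * Nat.lcm p.1 p.2 = p.1 * p.2 := Nat.gcd_mul_lcm _ _
    have e4 : Nat.lcm p.1 p.2 = Nat.gcd p.1 p.2 * (p.1 / Nat.gcd p.1 p.2) * (p.2 / Nat.gcd p.1 p.2) := by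
      refine Nat.eq_of_mul_eq_mul_left hg ?_
      rw [e3]
      calc p.1 * p.2 = (p.1 / Nat.gcd p.1 p.2 * Nat.gcd p.1 p.2) * (p.2 / Nat.gcd p.1 p.2 * Nat.gcd p.1 p.2) := by
            rw [e1, e2]
        _ = _ := by ring
    simp only [hF, hφ]
    rw [e4]
    push_cast
    rw [one_div_mul_one_div, one_div_mul_one_div, mul_assoc]
  rw [← Finset.sum_product' (s := I) (t := I) (f := fun a b => 1 / ((Nat.lcm a b : ℕ) : ℝ)),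
    Finset.sum_congr rfl hval, ← Finset.sum_image (f := F) hinj]
  have hsub : (I ×ˢ I).image φ ⊆ I ×ˢ (I ×ˢ I) := by
    intro q hq
    obtain ⟨p, hp, rfl⟩ := mem_image.1 hq
    obtain ⟨h1, h1', h2, h2'⟩ := hmem p hp
    have hg : 0 < Nat.gcd p.1 p.2 := Nat.gcd_pos_of_pos_left _ h1
    simp only [hφ, mem_product, hI, mem_Icc]
    have g1 := Nat.le_of_dvd h1 (Nat.gcd_dvd_left p.1 p.2)
    have g2 := Nat.le_of_dvd h2 (Nat.gcd_dvd_right p.1 p.2)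
    exact ⟨⟨hg, g1.trans h1'⟩, ⟨Nat.div_pos g1 hg, (Nat.div_le_self _ _).trans h1'⟩,
      ⟨Nat.div_pos g2 hg, (Nat.div_le_self _ _).trans h2'⟩⟩
  refine (Finset.sum_le_sum_of_subset_of_nonneg hsub fun q _ _ => by simp only [hF]; positivity).trans ?_
  have htot : ∑ q ∈ I ×ˢ (I ×ˢ I), F q = (∑ n ∈ I, 1 / (n : ℝ)) ^ 3 := by
    simp only [hF]
    rw [Finset.sum_product, pow_succ, sq, mul_assoc, Finset.sum_mul]
    refine Finset.sum_congr rfl fun g _ => ?_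
    rw [Finset.sum_product, Finset.sum_mul_sum, Finset.mul_sum]
    refine Finset.sum_congr rfl fun a _ => ?_
    rw [Finset.mul_sum]
  rw [htot]
  refine pow_le_pow_left₀ (Finset.sum_nonneg fun n _ => by positivity) (TAU_harm x) 3

theorem tau_sq (x : ℕ) (hx : 1 ≤ x) :
    ∑ m ∈ Finset.Icc 1 x, ((m.divisors.card : ℕ) : ℝ) ^ 2 ≤ x * (1 + Real.log x) ^ 3 := by
  classical
  have h1 : ∀ m ∈ Finset.Icc 1 x, ((m.divisors.card : ℕ) : ℝ) ^ 2 =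
      ∑ a ∈ Finset.Icc 1 x, ∑ b ∈ Finset.Icc 1 x, (if Nat.lcm a b ∣ m then (1 : ℝ) else 0) := by
    intro m hm
    obtain ⟨hm1, hm2⟩ := mem_Icc.1 hm
    have h2 : m.divisors = (Finset.Icc 1 x).filter (fun a => a ∣ m) := by
      ext a
      rw [Nat.mem_divisors, mem_filter, mem_Icc]
      constructor
      · rintro ⟨h3, -⟩
        exact ⟨⟨Nat.pos_of_dvd_of_pos h3 hm1, (Nat.le_of_dvd hm1 h3).trans hm2⟩, h3⟩
      · rintro ⟨-, h3⟩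
        exact ⟨h3, by omega⟩
    have h3 : ((m.divisors.card : ℕ) : ℝ) = ∑ a ∈ Finset.Icc 1 x, (if a ∣ m then (1 : ℝ) else 0) := by
      rw [h2, ← Finset.sum_filter, Finset.sum_const, nsmul_eq_mul, mul_one]
    rw [h3, sq, Finset.sum_mul_sum]
    refine Finset.sum_congr rfl fun a _ => Finset.sum_congr rfl fun b _ => ?_
    by_cases ha : a ∣ m
    · by_cases hb : b ∣ m
      · rw [if_pos ha, if_pos hb, if_pos (Nat.lcm_dvd ha hb), mul_one]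
      · rw [if_neg hb, mul_zero, if_neg (fun h => hb ((Nat.dvd_lcm_right a b).trans h))]
    · rw [if_neg ha, zero_mul, if_neg (fun h => ha ((Nat.dvd_lcm_left a b).trans h))]
  rw [Finset.sum_congr rfl h1, Finset.sum_comm]
  have h2 : ∀ a ∈ Finset.Icc 1 x, ∑ m ∈ Finset.Icc 1 x, ∑ b ∈ Finset.Icc 1 x,
      (if Nat.lcm a b ∣ m then (1 : ℝ) else 0) ≤ ∑ b ∈ Finset.Icc 1 x, x * (1 / ((Nat.lcm a b : ℕ) : ℝ)) := by
    intro a _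
    rw [Finset.sum_comm]
    refine Finset.sum_le_sum fun b _ => ?_
    rw [← Finset.sum_filter, Finset.sum_const, nsmul_eq_mul, mul_one]
    have h3 : (Finset.Icc 1 x).filter (fun m => Nat.lcm a b ∣ m) = (Finset.Ioc 0 x).filter (fun m => Nat.lcm a b ∣ m) := by
      ext m
      rw [mem_filter, mem_filter, mem_Icc, mem_Ioc]
      constructor
      · rintro ⟨⟨h4, h5⟩, h6⟩
        exact ⟨⟨by omega, h5⟩, h6⟩
      · rintro ⟨⟨h4, h5⟩, h6⟩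
        exact ⟨⟨by omega, h5⟩, h6⟩
    rw [h3, Nat.Ioc_filter_dvd_card_eq_div]
    refine Nat.cast_div_le.trans (le_of_eq ?_)
    ring
  refine (Finset.sum_le_sum h2).trans ?_
  have h3 : ∑ a ∈ Finset.Icc 1 x, ∑ b ∈ Finset.Icc 1 x, (x : ℝ) * (1 / ((Nat.lcm a b : ℕ) : ℝ)) =
      x * ∑ a ∈ Finset.Icc 1 x, ∑ b ∈ Finset.Icc 1 x, 1 / ((Nat.lcm a b : ℕ) : ℝ) := by
    rw [Finset.mul_sum]
    refine Finset.sum_congr rfl fun a _ => ?_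
    rw [Finset.mul_sum]
  rw [h3]
  exact mul_le_mul_of_nonneg_left (lcm_sum x hx) (Nat.cast_nonneg _)

end Pool.Agent.Lib.PL
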